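import Mathlib

set_option autoImplicit false

namespace Pool.Agent.Helper734.EX

open Complex

/-- the exponential map z -> l e^z -/
noncomputable def E (l : ℝ) (z : ℂ) : ℂ := (l : ℂ) * Complex.exp z

/-- its inverse branch on the closed upper half plane minus 0 -/
noncomputable def F (l : ℝ) (w : ℂ) : ℂ := Complex.log w - (Real.log l : ℂ)

/-- the real exponential map -/
noncomputable def e (l x : ℝ) : ℝ := l * Real.exp x

/-- the orbit of 0 -/
noncomputable def o (l : ℝ) (k : ℕ) : ℝ := (e l)^[k] 0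

/-- the strip-invariant set -/
def K (l : ℝ) : Set ℂ := {z | ∀ n : ℕ, 0 ≤ ((E l)^[n] z).im ∧ ((E l)^[n] z).im ≤ Real.pi}

/-- the properties of the real conjugating families that are used -/
structure Good (l m R : ℝ) (α β : ℤ → ℝ → ℝ) : Prop where
  hR : 10 ≤ R
  mono : ∀ n, StrictMono (α n)
  cont : ∀ n, Continuous (α n)
  zero : ∀ n, α n 0 = 0
  pos : ∀ n x, α (n + 1) (l * Real.exp x) = m * Real.exp (α n x)
  neg : ∀ n x, α (n + 1) (-(l * Real.exp x)) = -(m * Real.exp (β n x))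
  right : ∀ n x, R ≤ x → β n x = α n x
  left : ∀ n x, x ≤ -R → β n x < 0 ∧
    (β n x) ^ 2 + Real.pi ^ 2 = (α n (Real.sqrt (x ^ 2 + Real.pi ^ 2))) ^ 2
  grow : ∀ n x, R ≤ x → (Real.log x) ^ 2 ≤ α n x
  inc : ∀ n x d, R ≤ x → |d| ≤ Real.exp (-Real.exp (x / 2)) → |α n (x + d) - α n x| ≤ 1

/-- the graph of the conjugacy on eventually real points -/
def G (l m : ℝ) (α : ℤ → ℝ → ℝ) (n : ℤ) (z a : ℂ) : Prop :=
  z ∈ K l ∧ a ∈ K m ∧ ∃ (N : ℕ) (x : ℝ), (E l)^[N] z = (x : ℂ) ∧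
    (E m)^[N] a = ((α (n + N) x : ℝ) : ℂ)

/-- its closure -/
def Gam (l m : ℝ) (α : ℤ → ℝ → ℝ) (n : ℤ) (z a : ℂ) : Prop :=
  (z, a) ∈ closure {p : ℂ × ℂ | G l m α n p.1 p.2}

/-- a pair of mutually inverse families -/
structure Pair (l m R : ℝ) (α β γ δ : ℤ → ℝ → ℝ) : Prop where
  hl : Real.exp (-1) < l
  hm : Real.exp (-1) < m
  g1 : Good l m R α β
  g2 : Good m l R γ δ
  i1 : ∀ n x, γ n (α n x) = x
  i2 : ∀ n x, α n (γ n x) = x

/-- eventually real -/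
def EvR (l : ℝ) (z : ℂ) : Prop := ∃ (N : ℕ) (x : ℝ), (E l)^[N] z = (x : ℂ)

end Pool.Agent.Helper734.EX
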