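import Pool.Agent.Helper115.EXC.Defs

set_option autoImplicit false

namespace Pool.Agent.Helper734.EX

open Complex

section J4495

theorem e_pos {l : ℝ} (hl : 0 < l) (x : ℝ) : 0 < e l x := by
  unfold e; positivity

theorem e_strictMono {l : ℝ} (hl : 0 < l) : StrictMono (e l) := by
  intro x y hxy
  unfold e
  exact mul_lt_mul_of_pos_left (Real.exp_lt_exp.2 hxy) hl

theorem e_cont (l : ℝ) : Continuous (e l) := by
  unfold e; fun_prop

theorem dlt_pos {l : ℝ} (hl : Real.exp (-1) < l) : 0 < 1 + Real.log l := by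
  have h1 := Real.log_lt_log (Real.exp_pos _) hl
  rw [Real.log_exp] at h1
  linarith

theorem l_pos {l : ℝ} (hl : Real.exp (-1) < l) : 0 < l := lt_trans (Real.exp_pos _) hl

theorem e_gt {l : ℝ} (hl : 0 < l) (x : ℝ) : x + (1 + Real.log l) ≤ e l x := by
  have h1 : e l x = Real.exp (x + Real.log l) := by
    unfold e
    rw [Real.exp_add, Real.exp_log hl, mul_comm]
  rw [h1]
  have := Real.add_one_le_exp (x + Real.log l)
  linarith

theorem eit_strictMono {l : ℝ} (hl : 0 < l) (n : ℕ) : StrictMono ((e l)^[n]) :=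
  (e_strictMono hl).iterate n

theorem eit_cont (l : ℝ) (n : ℕ) : Continuous ((e l)^[n]) := (e_cont l).iterate n

theorem o_succ (l : ℝ) (k : ℕ) : o l (k + 1) = e l (o l k) := by
  unfold o
  rw [Function.iterate_succ_apply']

theorem o_strictMono {l : ℝ} (hl : Real.exp (-1) < l) : StrictMono (o l) := by
  apply strictMono_nat_of_lt_succ
  intro n
  rw [o_succ]
  have h1 := e_gt (l_pos hl) (o l n)
  have h2 := dlt_pos hl
  linarith

theorem eit_ge {l : ℝ} (hl : Real.exp (-1) < l) (x : ℝ) (n : ℕ) :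
    x + n * (1 + Real.log l) ≤ (e l)^[n] x := by
  induction n with
  | zero => simp
  | succ n ih =>
    rw [Function.iterate_succ_apply']
    have h1 := e_gt (l_pos hl) ((e l)^[n] x)
    push_cast
    linarith

theorem eit_tendsto {l : ℝ} (hl : Real.exp (-1) < l) (x : ℝ) :
    Filter.Tendsto (fun n => (e l)^[n] x) Filter.atTop Filter.atTop := by
  apply Filter.tendsto_atTop_mono (eit_ge hl x)
  apply Filter.tendsto_atTop_add_const_left
  exact Filter.Tendsto.atTop_mul_const (dlt_pos hl) tendsto_natCast_atTop_atTop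

theorem o_tendsto {l : ℝ} (hl : Real.exp (-1) < l) :
    Filter.Tendsto (o l) Filter.atTop Filter.atTop := eit_tendsto hl 0

theorem eit_range {l : ℝ} (hl : 0 < l) (n : ℕ) (x : ℝ) (h : (e l)^[n] (-1) ≤ x) :
    ∃ y, -1 ≤ y ∧ (e l)^[n] y = x := by
  induction n generalizing x with
  | zero => exact ⟨x, h, rfl⟩
  | succ n ih =>
    rw [Function.iterate_succ_apply'] at h
    have hx : 0 < x := lt_of_lt_of_le (e_pos hl _) h
    have hz : e l (Real.log (x / l)) = x := by
      unfold e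
      rw [Real.exp_log (by positivity)]
      field_simp
    have h1 : (e l)^[n] (-1) ≤ Real.log (x / l) := by
      rw [← (e_strictMono hl).le_iff_le, hz]
      exact h
    obtain ⟨y, hy, hy'⟩ := ih _ h1
    exact ⟨y, hy, by rw [Function.iterate_succ_apply', hy', hz]⟩

end J4495

section J4496

theorem E_ofReal (l x : ℝ) : E l (x : ℂ) = ((e l x : ℝ) : ℂ) := by
  unfold E e
  push_cast
  rfl

theorem Eit_ofReal (l x : ℝ) (n : ℕ) : (E l)^[n] (x : ℂ) = (((e l)^[n] x : ℝ) : ℂ) := by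
  induction n generalizing x with
  | zero => rfl
  | succ n ih => rw [Function.iterate_succ_apply, Function.iterate_succ_apply, E_ofReal, ih]

theorem norm_E {l : ℝ} (hl : 0 < l) (z : ℂ) : ‖E l z‖ = e l z.re := by
  unfold E e
  rw [norm_mul, Complex.norm_exp, Complex.norm_real, Real.norm_eq_abs, abs_of_pos hl]

theorem im_E {l : ℝ} (hl : 0 < l) (z : ℂ) : (E l z).im = ‖E l z‖ * Real.sin z.im := by
  rw [norm_E hl]
  unfold E e
  rw [Complex.im_ofReal_mul, Complex.exp_im]
  ring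

theorem re_E {l : ℝ} (hl : 0 < l) (z : ℂ) : (E l z).re = ‖E l z‖ * Real.cos z.im := by
  rw [norm_E hl]
  unfold E e
  rw [Complex.re_ofReal_mul, Complex.exp_re]
  ring

theorem E_ne_zero {l : ℝ} (hl : 0 < l) (z : ℂ) : E l z ≠ 0 :=
  mul_ne_zero (Complex.ofReal_ne_zero.2 hl.ne') (Complex.exp_ne_zero z)

theorem arg_E {l : ℝ} (hl : 0 < l) (z : ℂ) (h0 : 0 ≤ z.im) (h1 : z.im ≤ Real.pi) :
    arg (E l z) = z.im := by
  unfold E
  rw [Complex.arg_real_mul _ hl, ← Complex.log_im, Complex.log_exp _ h1]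
  linarith [Real.pi_pos]

theorem F_E {l : ℝ} (hl : 0 < l) (z : ℂ) (h0 : 0 ≤ z.im) (h1 : z.im ≤ Real.pi) :
    F l (E l z) = z := by
  apply Complex.ext
  · unfold F
    rw [Complex.sub_re, Complex.log_re, Complex.ofReal_re, norm_E hl]
    unfold e
    rw [Real.log_mul hl.ne' (Real.exp_ne_zero _), Real.log_exp]
    ring
  · unfold F
    rw [Complex.sub_im, Complex.log_im, Complex.ofReal_im, arg_E hl z h0 h1, sub_zero]

theorem E_F {l : ℝ} (hl : 0 < l) (w : ℂ) (hw : w ≠ 0) : E l (F l w) = w := by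
  unfold E F
  rw [Complex.exp_sub, Complex.exp_log hw, ← Complex.ofReal_exp, Real.exp_log hl]
  have : (l : ℂ) ≠ 0 := Complex.ofReal_ne_zero.2 hl.ne'
  field_simp

theorem re_F {l : ℝ} (hl : 0 < l) (w : ℂ) (hw : w ≠ 0) : (F l w).re = Real.log (‖w‖ / l) := by
  unfold F
  rw [Complex.sub_re, Complex.log_re, Complex.ofReal_re,
    Real.log_div (norm_ne_zero_iff.2 hw) hl.ne']

theorem im_F (l : ℝ) (w : ℂ) : (F l w).im = arg w := by
  unfold F
  rw [Complex.sub_im, Complex.log_im, Complex.ofReal_im, sub_zero]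

theorem F_pos {l : ℝ} (hl : 0 < l) (x : ℝ) (hx : 0 < x) :
    F l (x : ℂ) = ((Real.log (x / l) : ℝ) : ℂ) := by
  unfold F
  rw [← Complex.ofReal_log hx.le, Real.log_div hx.ne' hl.ne']
  push_cast
  rfl

theorem F_neg {l : ℝ} (hl : 0 < l) (x : ℝ) (hx : x < 0) :
    F l (x : ℂ) = ((Real.log (-x / l) : ℝ) : ℂ) + (Real.pi : ℂ) * I := by
  have hx0 : (x : ℂ) ≠ 0 := Complex.ofReal_ne_zero.2 hx.ne
  apply Complex.ext
  · rw [re_F hl _ hx0, Complex.norm_real, Real.norm_eq_abs, abs_of_neg hx]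
    simp
  · rw [im_F, Complex.arg_ofReal_of_neg hx]
    simp

theorem F_upper {l : ℝ} (w : ℂ) (hw : 0 < w.im) : 0 < (F l w).im ∧ (F l w).im < Real.pi := by
  rw [im_F]
  constructor
  · apply lt_of_le_of_ne (Complex.arg_nonneg_iff.2 hw.le)
    intro h
    have := (Complex.arg_eq_zero_iff.1 h.symm).2
    exact hw.ne' this
  · apply lt_of_le_of_ne (Complex.arg_le_pi w)
    intro h
    have := (Complex.arg_eq_pi_iff.1 h).2
    exact hw.ne' this

theorem Fit_upper {l : ℝ} (w : ℂ) (hw : 0 < w.im) (n : ℕ) : 0 < ((F l)^[n] w).im := by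
  induction n generalizing w with
  | zero => exact hw
  | succ n ih =>
    rw [Function.iterate_succ_apply]
    exact ih _ (F_upper w hw).1

theorem E_cont (l : ℝ) : Continuous (E l) := by
  unfold E
  fun_prop

end J4496

section J4497

theorem K_im {l : ℝ} {z : ℂ} (hz : z ∈ K l) : 0 ≤ z.im ∧ z.im ≤ Real.pi := hz 0

theorem K_E {l : ℝ} {z : ℂ} (hz : z ∈ K l) : E l z ∈ K l := by
  intro n
  have := hz (n + 1)
  rwa [Function.iterate_succ_apply] at this

theorem K_Eit {l : ℝ} {z : ℂ} (hz : z ∈ K l) (n : ℕ) : (E l)^[n] z ∈ K l := by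
  induction n with
  | zero => exact hz
  | succ n ih =>
    rw [Function.iterate_succ_apply']
    exact K_E ih

theorem K_F {l : ℝ} (hl : 0 < l) {w : ℂ} (hw : w ∈ K l) (h0 : w ≠ 0) : F l w ∈ K l := by
  intro n
  cases n with
  | zero =>
    show 0 ≤ (F l w).im ∧ (F l w).im ≤ Real.pi
    rw [im_F]
    exact ⟨Complex.arg_nonneg_iff.2 (K_im hw).1, Complex.arg_le_pi w⟩
  | succ n =>
    rw [Function.iterate_succ_apply, E_F hl w h0]
    exact hw n

theorem K_real (l x : ℝ) : (x : ℂ) ∈ K l := by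
  intro n
  rw [Eit_ofReal, Complex.ofReal_im]
  exact ⟨le_rfl, Real.pi_pos.le⟩

theorem K_line {l : ℝ} (x : ℝ) : (x : ℂ) + (Real.pi : ℂ) * I ∈ K l := by
  intro n
  cases n with
  | zero =>
    show 0 ≤ ((x : ℂ) + (Real.pi : ℂ) * I).im ∧ ((x : ℂ) + (Real.pi : ℂ) * I).im ≤ Real.pi
    simp [Real.pi_pos.le]
  | succ n =>
    rw [Function.iterate_succ_apply]
    have e1 : E l ((x : ℂ) + (Real.pi : ℂ) * I) = ((-(l * Real.exp x) : ℝ) : ℂ) := by
      unfold E
      rw [Complex.exp_add, Complex.exp_pi_mul_I]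
      push_cast
      ring
    rw [e1]
    exact K_real l _ n

theorem K_closed (l : ℝ) : IsClosed (K l) := by
  have e1 : K l = ⋂ n : ℕ, ({z : ℂ | 0 ≤ ((E l)^[n] z).im} ∩ {z : ℂ | ((E l)^[n] z).im ≤ Real.pi}) := by
    ext z
    rw [Set.mem_iInter]
    rfl
  rw [e1]
  apply isClosed_iInter
  intro n
  have hc : Continuous fun z : ℂ => ((E l)^[n] z).im :=
    Complex.continuous_im.comp ((E_cont l).iterate n)
  exact (isClosed_le continuous_const hc).inter (isClosed_le hc continuous_const)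

theorem F_Eit {l : ℝ} (hl : 0 < l) {z : ℂ} (hz : z ∈ K l) (n : ℕ) :
    (F l)^[n] ((E l)^[n] z) = z := by
  induction n generalizing z with
  | zero => rfl
  | succ n ih =>
    rw [Function.iterate_succ_apply', Function.iterate_succ_apply, ih (K_E hz)]
    exact F_E hl z (K_im hz).1 (K_im hz).2

theorem E_inj {l : ℝ} (hl : 0 < l) {z w : ℂ} (hz : z ∈ K l) (hw : w ∈ K l) (n : ℕ)
    (h : (E l)^[n] z = (E l)^[n] w) : z = w := by
  rw [← F_Eit hl hz n, h, F_Eit hl hw n]

end J4497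

end Pool.Agent.Helper734.EX
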