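import Pool.Agent.Helper115.EXC.M0

set_option autoImplicit false

namespace Pool.Agent.Helper734.EX

open Complex

section J4588

theorem arg_exp_sub_one (h : ℂ) (h0 : 0 < h.im) (h1 : h.im < Real.pi) :
    0 < (Complex.exp h - 1).im ∧ arg h ≤ arg (Complex.exp h - 1) ∧
      arg (Complex.exp h - 1) ≤ arg h + h.im := by
  set x := h.re with hx
  set y := h.im with hy
  have hs : 0 < Real.sin y := Real.sin_pos_of_pos_of_lt_pi h0 h1
  have him : (Complex.exp h - 1).im = Real.exp x * Real.sin y := by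
    simp [Complex.exp_im, hx, hy]
  have hre : (Complex.exp h - 1).re = Real.exp x * Real.cos y - 1 := by
    simp [Complex.exp_re, hx, hy]
  have hex : 0 < Real.exp x := Real.exp_pos x
  have hpos : 0 < (Complex.exp h - 1).im := by rw [him]; positivity
  -- sin y <= y, y cos y <= sin y
  have hsy : Real.sin y ≤ y := Real.sin_le h0.le
  have hcy : y * Real.cos y ≤ Real.sin y := by
    rcases lt_or_ge y (Real.pi / 2) with hlt | hge
    · have hc : 0 < Real.cos y := Real.cos_pos_of_mem_Ioo ⟨by linarith, hlt⟩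
      have := Real.lt_tan h0 hlt
      rw [Real.tan_eq_sin_div_cos, lt_div_iff₀ hc] at this
      exact this.le
    · have hc : Real.cos y ≤ 0 := Real.cos_nonpos_of_pi_div_two_le_of_le hge (by linarith [Real.pi_pos])
      nlinarith
  -- polar forms
  have hne : h ≠ 0 := by
    intro h'; rw [hy, h'] at h0; simp at h0
  set a := Complex.exp h - 1 with ha
  have hane : a ≠ 0 := by
    intro h'; rw [h'] at hpos; simp at hpos
  have hnh : 0 < ‖h‖ := norm_pos_iff.mpr hne
  have hna : 0 < ‖a‖ := norm_pos_iff.mpr hane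
  have e1 : ‖a‖ * Real.sin (arg a) = a.im := by rw [Complex.sin_arg]; field_simp
  have e2 : ‖a‖ * Real.cos (arg a) = a.re := by rw [Complex.cos_arg hane]; field_simp
  have e3 : ‖h‖ * Real.sin (arg h) = y := by rw [Complex.sin_arg]; field_simp; rw [hy]
  have e4 : ‖h‖ * Real.cos (arg h) = x := by rw [Complex.cos_arg hne]; field_simp; rw [hx]
  have a0 : 0 ≤ arg a := Complex.arg_nonneg_iff.mpr hpos.le
  have a1 : arg a ≤ Real.pi := Complex.arg_le_pi a
  have b0 : 0 ≤ arg h := Complex.arg_nonneg_iff.mpr h0.le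
  have b1 : arg h ≤ Real.pi := Complex.arg_le_pi h
  have b2 : arg h < Real.pi := by
    rcases lt_or_eq_of_le b1 with h' | h'
    · exact h'
    · rw [h'] at e3; simp at e3; linarith
  have b3 : 0 < arg h := by
    rcases lt_or_eq_of_le b0 with h' | h'
    · exact h'
    · rw [← h'] at e3; simp at e3; linarith
  have a2 : arg a < Real.pi := by
    rcases lt_or_eq_of_le a1 with h' | h'
    · exact h'
    · rw [h'] at e1; simp at e1; linarith
  have a3 : 0 < arg a := by
    rcases lt_or_eq_of_le a0 with h' | h'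
    · exact h'
    · rw [← h'] at e1; simp at e1; linarith
  refine ⟨hpos, ?_, ?_⟩
  · by_contra hcon
    push Not at hcon
    have hsin : Real.sin (arg h - arg a) > 0 :=
      Real.sin_pos_of_pos_of_lt_pi (by linarith) (by linarith)
    have hprod : 0 < ‖h‖ * ‖a‖ * Real.sin (arg h - arg a) := by positivity
    have hval : ‖h‖ * ‖a‖ * Real.sin (arg h - arg a) = y * a.re - x * a.im := by
      rw [Real.sin_sub, ← e1, ← e2, ← e3, ← e4]; ring
    rw [hval, him, hre] at hprod
    -- e^x (x sin y - y cos y) + y >= 0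
    set c := y * Real.cos y / Real.sin y with hc
    have hc1 : c ≤ 1 := by rw [hc, div_le_one hs]; exact hcy
    have hcs : y * Real.cos y = c * Real.sin y := by rw [hc]; field_simp
    have k1 : 1 - (x - c + 1) ≤ Real.exp (-(x - c + 1)) := by
      have := Real.add_one_le_exp (-(x - c + 1)); linarith
    have k2 : Real.exp x * (c - x) ≤ Real.exp (c - 1) := by
      have hm := mul_le_mul_of_nonneg_left k1 hex.le
      rw [← Real.exp_add] at hm
      have : x + -(x - c + 1) = c - 1 := by ring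
      rw [this] at hm
      calc Real.exp x * (c - x) = Real.exp x * (1 - (x - c + 1)) := by ring
        _ ≤ _ := hm
    have k3 : Real.exp (c - 1) ≤ 1 := by
      have := Real.exp_le_exp.mpr (show c - 1 ≤ 0 by linarith)
      rwa [Real.exp_zero] at this
    have k4 : Real.exp x * (c - x) * Real.sin y ≤ 1 * Real.sin y :=
      mul_le_mul_of_nonneg_right (k2.trans k3) hs.le
    nlinarith
  · by_contra hcon
    push Not at hcon
    have hsin : Real.sin (arg a - (arg h + y)) > 0 :=
      Real.sin_pos_of_pos_of_lt_pi (by linarith) (by linarith)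
    have hprod : 0 < ‖a‖ * ‖h‖ * Real.sin (arg a - (arg h + y)) := by positivity
    have hval : ‖a‖ * ‖h‖ * Real.sin (arg a - (arg h + y)) =
        a.im * (x * Real.cos y - y * Real.sin y) - a.re * (y * Real.cos y + x * Real.sin y) := by
      rw [Real.sin_sub, Real.sin_add, Real.cos_add, ← e1, ← e2]
      calc _ = ‖a‖ * Real.sin (arg a) * ((‖h‖ * Real.cos (arg h)) * Real.cos y
            - (‖h‖ * Real.sin (arg h)) * Real.sin y) - ‖a‖ * Real.cos (arg a) *
            ((‖h‖ * Real.sin (arg h)) * Real.cos y + (‖h‖ * Real.cos (arg h)) * Real.sin y) := by ring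
        _ = _ := by rw [e3, e4]
    rw [hval, him, hre] at hprod
    have hcs2 : Real.sin y ^ 2 + Real.cos y ^ 2 = 1 := Real.sin_sq_add_cos_sq y
    have hform : Real.exp x * Real.sin y * (x * Real.cos y - y * Real.sin y) -
        (Real.exp x * Real.cos y - 1) * (y * Real.cos y + x * Real.sin y) =
        - (y * Real.exp x) * (Real.sin y ^ 2 + Real.cos y ^ 2) + x * Real.sin y + y * Real.cos y := by ring
    rw [hform, hcs2] at hprod
    set c := Real.log (Real.sin y / y) with hc
    have hc0 : c ≤ 0 := Real.log_nonpos (by positivity) (by rw [div_le_one h0]; exact hsy)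
    have k1 := Real.add_one_le_exp (x - c)
    have k2 : Real.exp (x - c) = Real.exp x * (y / Real.sin y) := by
      rw [Real.exp_sub, hc, Real.exp_log (by positivity)]; field_simp
    rw [k2] at k1
    have k3 : (x - c + 1) * Real.sin y ≤ Real.exp x * y := by
      have := mul_le_mul_of_nonneg_right k1 hs.le
      have h2 : Real.exp x * (y / Real.sin y) * Real.sin y = Real.exp x * y := by field_simp
      rwa [h2] at this
    nlinarith [mul_nonneg (neg_nonneg.mpr hc0) hs.le]

end J4588

section J4589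

theorem F_hasDeriv (l : ℝ) (w : ℂ) (hw : 0 < w.im) :
    HasDerivAt (F l) w⁻¹ w ∧ ‖w⁻¹‖ = Real.sin ((F l w).im) / w.im := by
  have hs : w ∈ Complex.slitPlane := Or.inr hw.ne'
  have hw0 : w ≠ 0 := Complex.slitPlane_ne_zero hs
  refine ⟨(Complex.hasDerivAt_log hs).sub_const _, ?_⟩
  rw [im_F, Complex.sin_arg, norm_inv]
  have h1 : ‖w‖ ≠ 0 := norm_ne_zero_iff.2 hw0
  have h2 : w.im ≠ 0 := hw.ne'
  field_simp

theorem Fit_deriv (l : ℝ) (n : ℕ) (w : ℂ) (hw : 0 < w.im) :
    ∃ d : ℂ, HasDerivAt ((F l)^[n + 1]) d w ∧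
      ‖d‖ ≤ Real.sin (((F l)^[n + 1] w).im) / w.im := by
  induction n with
  | zero =>
    obtain ⟨h1, h2⟩ := F_hasDeriv l w hw
    refine ⟨w⁻¹, ?_, ?_⟩
    · simpa using h1
    · rw [h2]; simp
  | succ n ih =>
    obtain ⟨d, hd, hdn⟩ := ih
    set v := (F l)^[n + 1] w with hv
    have hv0 : 0 < v.im := Fit_upper w hw (n + 1)
    obtain ⟨h1, h2⟩ := F_hasDeriv l v hv0
    have hcomp : HasDerivAt (F l ∘ (F l)^[n + 1]) (v⁻¹ * d) w := HasDerivAt.comp w h1 hd
    have hit : (F l)^[n + 1 + 1] = F l ∘ (F l)^[n + 1] := Function.iterate_succ' (F l) (n + 1)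
    refine ⟨v⁻¹ * d, ?_, ?_⟩
    · rw [hit]; exact hcomp
    · rw [hit, Function.comp_apply, ← hv, norm_mul, h2]
      have hF := F_upper (l := l) v hv0
      have hsin : 0 ≤ Real.sin ((F l v).im) :=
        Real.sin_nonneg_of_nonneg_of_le_pi hF.1.le hF.2.le
      have hsv : Real.sin v.im ≤ v.im := Real.sin_le hv0.le
      calc Real.sin ((F l v).im) / v.im * ‖d‖
          ≤ Real.sin ((F l v).im) / v.im * (Real.sin v.im / w.im) :=
            mul_le_mul_of_nonneg_left hdn (by positivity)
        _ ≤ Real.sin ((F l v).im) / v.im * (v.im / w.im) := by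
            apply mul_le_mul_of_nonneg_left _ (by positivity)
            exact div_le_div_of_nonneg_right hsv hw.le
        _ = Real.sin ((F l v).im) / w.im := by field_simp

end J4589

section J4590

theorem sand {l : ℝ} (hl : 0 < l) (j : ℕ) (y : ℝ) (w : ℂ) (hw : (e l)^[j] y ≤ w.re) :
    ∀ i, i ≤ j → (e l)^[j - i] y ≤ ((F l)^[i] w).re := by
  intro i
  induction i with
  | zero => intro _; simpa using hw
  | succ i ih =>
    intro hi
    have h1 := ih (by omega)
    obtain ⟨k, hk⟩ : ∃ k, k = j - (i + 1) := ⟨_, rfl⟩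
    have hk' : j - i = k + 1 := by omega
    rw [hk', Function.iterate_succ_apply'] at h1
    rw [← hk, Function.iterate_succ_apply']
    have h2 : e l ((e l)^[k] y) = l * Real.exp ((e l)^[k] y) := rfl
    rw [h2] at h1
    have h3 : 0 < l * Real.exp ((e l)^[k] y) := mul_pos hl (Real.exp_pos _)
    have h4 : ((F l)^[i] w).re ≤ ‖(F l)^[i] w‖ := Complex.re_le_norm _
    have h5 : (F l)^[i] w ≠ 0 := by
      intro h0
      rw [h0] at h1
      simp only [Complex.zero_re] at h1
      linarith
    rw [re_F hl _ h5]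
    have h6 : Real.exp ((e l)^[k] y) ≤ ‖(F l)^[i] w‖ / l := by
      rw [le_div_iff₀ hl]
      linarith
    calc (e l)^[k] y = Real.log (Real.exp ((e l)^[k] y)) := (Real.log_exp _).symm
      _ ≤ Real.log (‖(F l)^[i] w‖ / l) := Real.log_le_log (Real.exp_pos _) h6

end J4590

section J4594

theorem F_deriv_aux {l : ℝ} (w : ℂ) (hw : 0 < w.im) : HasDerivAt (F l) w⁻¹ w := by
  unfold F
  have h : w ∈ Complex.slitPlane := Or.inr hw.ne'
  exact (Complex.hasDerivAt_log h).sub_const _

theorem Fit_deriv_aux {l : ℝ} (p : ℂ) (hp : 0 < p.im) (n : ℕ) :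
    HasDerivAt ((F l)^[n]) (∏ i ∈ Finset.range n, ((F l)^[i] p)⁻¹) p := by
  induction n with
  | zero => simpa using hasDerivAt_id p
  | succ n ih =>
    rw [Function.iterate_succ', Finset.prod_range_succ, mul_comm]
    exact (F_deriv_aux _ (Fit_upper p hp n)).comp p ih

theorem prod_bound {a : ℕ → ℝ} (ha : ∀ k, 0 < a k) (hlim : Filter.Tendsto a Filter.atTop Filter.atTop) :
    ∃ C : ℝ, 1 ≤ C ∧ ∀ j, ∏ k ∈ Finset.range j, max 1 (a k)⁻¹ ≤ C := by
  obtain ⟨K0, hK0⟩ := Filter.eventually_atTop.mp (hlim.eventually_ge_atTop 1)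
  let P : ℕ → ℝ := fun j => ∏ k ∈ Finset.range j, max 1 (a k)⁻¹
  have hP1 : ∀ j, 1 ≤ P j := by
    intro j
    induction j with
    | zero => simp [P]
    | succ j ih =>
      show 1 ≤ ∏ k ∈ Finset.range (j + 1), max 1 (a k)⁻¹
      rw [Finset.prod_range_succ]
      exact one_le_mul_of_one_le_of_one_le ih (le_max_left _ _)
  have hmono : Monotone P := by
    apply monotone_nat_of_le_succ
    intro j
    show P j ≤ ∏ k ∈ Finset.range (j + 1), max 1 (a k)⁻¹
    rw [Finset.prod_range_succ]
    exact le_mul_of_one_le_right (by have := hP1 j; linarith) (le_max_left _ _)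
  have hconst : ∀ i, P (K0 + i) = P K0 := by
    intro i
    induction i with
    | zero => rfl
    | succ i ih =>
      show ∏ k ∈ Finset.range (K0 + i + 1), max 1 (a k)⁻¹ = P K0
      rw [Finset.prod_range_succ]
      have h1 : max 1 (a (K0 + i))⁻¹ = 1 := by
        apply max_eq_left
        exact inv_le_one_of_one_le₀ (hK0 _ (by omega))
      rw [h1, mul_one]
      exact ih
  refine ⟨P K0, hP1 K0, fun j => ?_⟩
  calc P j ≤ P (K0 + j) := hmono (by omega)
    _ = P K0 := hconst j

theorem Fit_deriv_C {l : ℝ} (hl : Real.exp (-1) < l) : ∃ C : ℝ, 1 ≤ C ∧ ∀ (j : ℕ) (p : ℂ),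
    0 < p.im → (e l)^[j + 1] (-1) ≤ p.re →
    ∃ d : ℂ, HasDerivAt ((F l)^[j + 1]) d p ∧ ‖d‖ ≤ C / ‖p‖ := by
  have hl0 := l_pos hl
  obtain ⟨C, hC1, hC⟩ := prod_bound (a := fun k => (e l)^[k + 1] (-1)) (by
    intro k
    show 0 < (e l)^[k + 1] (-1)
    rw [Function.iterate_succ']
    exact e_pos hl0 _) ((eit_tendsto hl (-1)).comp (Filter.tendsto_add_atTop_nat 1))
  refine ⟨C, hC1, ?_⟩
  intro j p hp hre
  refine ⟨∏ i ∈ Finset.range (j + 1), ((F l)^[i] p)⁻¹, Fit_deriv_aux p hp (j + 1), ?_⟩
  rw [norm_prod, Finset.prod_range_succ', mul_comm, div_eq_inv_mul]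
  simp only [Function.iterate_zero, id_eq, norm_inv]
  apply mul_le_mul_of_nonneg_left _ (by positivity)
  refine le_trans ?_ (hC j)
  rw [← Finset.prod_range_reflect (fun k => max 1 ((e l)^[k + 1] (-1))⁻¹) j]
  apply Finset.prod_le_prod
  · intro i _
    positivity
  · intro i hi
    have hij := Finset.mem_range.mp hi
    refine le_trans ?_ (le_max_right _ _)
    have h1 := sand hl0 (j + 1) (-1) p hre (i + 1) (by omega)
    have h2 : j + 1 - (i + 1) = j - 1 - i + 1 := by omega
    rw [h2] at h1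
    have h3 : 0 < (e l)^[j - 1 - i + 1] (-1) := by
      rw [Function.iterate_succ']
      exact e_pos hl0 _
    have h4 : ((F l)^[i + 1] p).re ≤ ‖(F l)^[i + 1] p‖ := Complex.re_le_norm _
    exact inv_anti₀ h3 (h1.trans h4)

end J4594

section J4595

theorem argsum {l : ℝ} (hl : Real.exp (-1) < l) : ∃ C : ℝ, 1 ≤ C ∧ ∀ (j : ℕ) (p : ℂ),
    0 < p.im → 0 < p.re → (e l)^[j] (-1) ≤ p.re →
    ∑ i ∈ Finset.range j, arg ((F l)^[i] p) ≤ C * (p.im / p.re) := by
  have hl0 := l_pos hl
  have hc : ∀ k : ℕ, 1 ≤ k → 0 < (e l)^[k] (-1) := by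
    intro k hk
    obtain ⟨m, rfl⟩ : ∃ m, k = m + 1 := ⟨k - 1, by omega⟩
    rw [Function.iterate_succ_apply']
    exact e_pos hl0 _
  have harg : ∀ p : ℂ, 0 < p.im → 0 < p.re → arg p ≤ p.im / p.re := by
    intro p h1 h2
    have ha : |arg p| < Real.pi / 2 := Complex.abs_arg_lt_pi_div_two_iff.2 (Or.inl h2)
    have hb : 0 ≤ arg p := Complex.arg_nonneg_iff.2 h1.le
    rw [← Complex.tan_arg]
    exact Real.le_tan hb (abs_lt.1 ha).2
  -- the peeling step
  have step : ∀ j : ℕ, 1 ≤ j → ∀ A : ℝ, 0 ≤ A →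
      (∀ p : ℂ, 0 < p.im → 0 < p.re → (e l)^[j] (-1) ≤ p.re →
        ∑ i ∈ Finset.range j, arg ((F l)^[i] p) ≤ A * (p.im / p.re)) →
      (∀ p : ℂ, 0 < p.im → 0 < p.re → (e l)^[j + 1] (-1) ≤ p.re →
        ∑ i ∈ Finset.range (j + 1), arg ((F l)^[i] p) ≤ (1 + A / (e l)^[j] (-1)) * (p.im / p.re)) := by
    intro j hj A hA ih p h1 h2 h3
    have hs := sand hl0 (j + 1) (-1) p h3 1 (by omega)
    rw [Nat.add_sub_cancel, Function.iterate_one] at hs
    have hcj := hc j hj
    have hre : 0 < (F l p).re := lt_of_lt_of_le hcj hs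
    have him : 0 < (F l p).im := (F_upper p h1).1
    have h4 := ih (F l p) him hre hs
    have h5 : (F l p).im ≤ p.im / p.re := by rw [im_F]; exact harg p h1 h2
    have h6 : (F l p).im / (F l p).re ≤ (p.im / p.re) / (e l)^[j] (-1) :=
      div_le_div₀ (by positivity) h5 hcj hs
    rw [Finset.sum_range_succ']
    simp only [Function.iterate_succ_apply, Function.iterate_zero_apply]
    have h7 := harg p h1 h2
    have h8 : A * ((F l p).im / (F l p).re) ≤ A * ((p.im / p.re) / (e l)^[j] (-1)) :=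
      mul_le_mul_of_nonneg_left h6 hA
    calc ∑ i ∈ Finset.range j, arg ((F l)^[i] (F l p)) + arg p
        ≤ A * ((p.im / p.re) / (e l)^[j] (-1)) + p.im / p.re := by linarith
      _ = (1 + A / (e l)^[j] (-1)) * (p.im / p.re) := by ring
  -- monotonicity in the constant
  have mono : ∀ (j : ℕ) (A B : ℝ), A ≤ B →
      (∀ p : ℂ, 0 < p.im → 0 < p.re → (e l)^[j] (-1) ≤ p.re →
        ∑ i ∈ Finset.range j, arg ((F l)^[i] p) ≤ A * (p.im / p.re)) →
      (∀ p : ℂ, 0 < p.im → 0 < p.re → (e l)^[j] (-1) ≤ p.re →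
        ∑ i ∈ Finset.range j, arg ((F l)^[i] p) ≤ B * (p.im / p.re)) := by
    intro j A B hAB h p h1 h2 h3
    exact (h p h1 h2 h3).trans (mul_le_mul_of_nonneg_right hAB (by positivity))
  have one : ∀ p : ℂ, 0 < p.im → 0 < p.re → (e l)^[1] (-1) ≤ p.re →
      ∑ i ∈ Finset.range 1, arg ((F l)^[i] p) ≤ 1 * (p.im / p.re) := by
    intro p h1 h2 _
    simpa using harg p h1 h2
  -- bound up to `n`
  have fin : ∀ n : ℕ, ∃ C : ℝ, 2 ≤ C ∧ ∀ j, j ≤ n → ∀ p : ℂ, 0 < p.im → 0 < p.re →
      (e l)^[j] (-1) ≤ p.re → ∑ i ∈ Finset.range j, arg ((F l)^[i] p) ≤ C * (p.im / p.re) := by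
    intro n
    induction n with
    | zero =>
      refine ⟨2, le_rfl, fun j hj p h1 h2 _ => ?_⟩
      obtain rfl : j = 0 := by omega
      simp only [Finset.range_zero, Finset.sum_empty]
      positivity
    | succ n ih =>
      obtain ⟨C, hC, h⟩ := ih
      rcases Nat.eq_zero_or_pos n with hn | hn
      · subst hn
        refine ⟨C, hC, fun j hj => ?_⟩
        rcases Nat.lt_or_ge j 1 with h' | h'
        · exact h j (by omega)
        · obtain rfl : j = 1 := by omega
          exact mono 1 1 C (by linarith) one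
      · refine ⟨max C (1 + C / (e l)^[n] (-1)), hC.trans (le_max_left _ _), fun j hj => ?_⟩
        rcases Nat.lt_or_ge j (n + 1) with h' | h'
        · exact mono j C _ (le_max_left _ _) (h j (by omega))
        · obtain rfl : j = n + 1 := by omega
          exact mono (n + 1) _ _ (le_max_right _ _)
            (step n hn C (by linarith) (h n le_rfl))
  obtain ⟨N, hN⟩ := Filter.eventually_atTop.1 ((eit_tendsto hl (-1)).eventually_ge_atTop 2)
  obtain ⟨C, hC, h⟩ := fin (max N 1)
  refine ⟨C, by linarith, fun j => ?_⟩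
  rcases le_total j (max N 1) with hj | hj
  · exact h j hj
  · induction j, hj using Nat.le_induction with
    | base => exact h _ le_rfl
    | succ j hj ih =>
      have hj1 : 1 ≤ j := (le_max_right N 1).trans hj
      have hjN : N ≤ j := (le_max_left N 1).trans hj
      refine mono (j + 1) _ C ?_ (step j hj1 C (by linarith) ih)
      have h2 : 2 ≤ (e l)^[j] (-1) := hN j hjN
      have h3 : C / (e l)^[j] (-1) ≤ C / 2 :=
        div_le_div_of_nonneg_left (by linarith) (by norm_num) h2
      linarith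

end J4595

section J4596

theorem arg_right {l : ℝ} (hl : 0 < l) (j : ℕ) (p : ℂ) (hp : 0 < p.im) :
    arg ((F l)^[j] p) ≤ arg (p - (o l j : ℂ)) := by
  induction j generalizing p with
  | zero =>
    have h0 : o l 0 = 0 := rfl
    rw [h0, Function.iterate_zero_apply, Complex.ofReal_zero, sub_zero]
  | succ j ih =>
    rw [Function.iterate_succ_apply]
    obtain ⟨hF0, hFpi⟩ := F_upper (l := l) p hp
    have h1 := ih (F l p) hF0
    set h : ℂ := F l p - (o l j : ℂ) with hh
    have him : h.im = (F l p).im := by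
      rw [hh, Complex.sub_im, Complex.ofReal_im, sub_zero]
    obtain ⟨-, h2, -⟩ := arg_exp_sub_one h (by rw [him]; exact hF0) (by rw [him]; exact hFpi)
    have hp0 : p ≠ 0 := by
      rintro rfl
      simp at hp
    have hpos : 0 < o l (j + 1) := by
      rw [o_succ]
      exact e_pos hl _
    have h3 : p - (o l (j + 1) : ℂ) = (o l (j + 1) : ℂ) * (Complex.exp h - 1) := by
      have h4 : (o l (j + 1) : ℂ) * Complex.exp h = p := by
        have h5 : E l (F l p) = p := E_F hl p hp0
        have h6 : F l p = h + (o l j : ℂ) := by rw [hh, sub_add_cancel]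
        rw [← h5]
        conv_rhs => rw [h6]
        rw [E, Complex.exp_add, o_succ, e]
        push_cast
        ring
      rw [mul_sub, h4, mul_one]
    rw [h3, Complex.arg_real_mul _ hpos]
    exact h1.trans h2

end J4596

section J4600

theorem arg_left {l : ℝ} (hl : 0 < l) (j : ℕ) (p : ℂ) (hp : 0 < p.im) :
    arg (p - (o l j : ℂ)) ≤ arg ((F l)^[j] p) + ∑ i ∈ Finset.range j, arg ((F l)^[i] p) := by
  induction j generalizing p with
  | zero =>
    have h0 : o l 0 = 0 := rfl
    rw [h0]
    simp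
  | succ j ih =>
    have hF := F_upper (l := l) p hp
    have hp0 : p ≠ 0 := by
      rintro rfl
      simp at hp
    have him : (F l p - (o l j : ℂ)).im = arg p := by
      rw [Complex.sub_im, Complex.ofReal_im, sub_zero, im_F]
    have ho : 0 < o l (j + 1) := by
      rw [o_succ]
      exact e_pos hl _
    have hoe : ((o l (j + 1) : ℝ) : ℂ) = (l : ℂ) * Complex.exp (o l j : ℂ) := by
      rw [o_succ]
      unfold e
      push_cast
      ring
    have hEF : (l : ℂ) * Complex.exp (F l p) = p := E_F hl p hp0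
    have hprod : ((o l (j + 1) : ℝ) : ℂ) * (Complex.exp (F l p - (o l j : ℂ)) - 1) =
        p - (o l (j + 1) : ℂ) := by
      rw [mul_sub, mul_one, hoe, mul_assoc, ← Complex.exp_add]
      have : (o l j : ℂ) + (F l p - (o l j : ℂ)) = F l p := by ring
      rw [this, hEF]
    have harg : arg (p - (o l (j + 1) : ℂ)) = arg (Complex.exp (F l p - (o l j : ℂ)) - 1) := by
      rw [← hprod, Complex.arg_real_mul _ ho]
    have h3 := (arg_exp_sub_one (F l p - (o l j : ℂ)) (by
      rw [Complex.sub_im, Complex.ofReal_im, sub_zero]; exact hF.1) (by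
      rw [Complex.sub_im, Complex.ofReal_im, sub_zero]; exact hF.2)).2.2
    have h4 := ih (F l p) hF.1
    rw [harg, Finset.sum_range_succ']
    have e1 : (F l)^[j + 1] p = (F l)^[j] (F l p) := Function.iterate_succ_apply _ _ _
    have e2 : ∀ i, (F l)^[i + 1] p = (F l)^[i] (F l p) := fun i =>
      Function.iterate_succ_apply _ _ _
    have e3 : (F l)^[0] p = p := rfl
    simp only [e1, e2, e3]
    rw [him] at h3
    linarith

end J4600

section J4601

theorem arg_le_div {z : ℂ} (hr : 0 < z.re) (hi : 0 < z.im) : arg z ≤ z.im / z.re := by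
  have h1 : 0 ≤ arg z := Complex.arg_nonneg_iff.2 hi.le
  have h2 : |arg z| < Real.pi / 2 := Complex.abs_arg_lt_pi_div_two_iff.2 (Or.inl hr)
  have h3 : arg z < Real.pi / 2 := (le_abs_self _).trans_lt h2
  have h4 := Real.le_tan h1 h3
  rwa [Complex.tan_arg] at h4

theorem logderiv {l : ℝ} (hl : Real.exp (-1) < l) : ∃ C : ℝ, 1 ≤ C ∧ ∀ (j : ℕ) (p : ℂ),
    0 < p.im → 0 < p.re → (e l)^[j] (-1) ≤ p.re → p.re ≠ o l j →
    ∃ d : ℂ, HasDerivAt ((F l)^[j + 1]) d p ∧ ‖d‖ ≤ 1 / |p.re - o l j| + C / p.re := by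
  obtain ⟨C, hC1, hC⟩ := argsum hl
  have hl0 := l_pos hl
  refine ⟨C, hC1, fun j p hi hr hj hne => ?_⟩
  obtain ⟨d, hd, hdn⟩ := Fit_deriv l j p hi
  refine ⟨d, hd, hdn.trans ?_⟩
  have hθ : ((F l)^[j + 1] p).im = arg ((F l)^[j] p) := by
    rw [Function.iterate_succ_apply', im_F]
  rw [hθ]
  set θ := arg ((F l)^[j] p) with hθd
  have hθ0 : 0 < θ := by
    have := Fit_upper (l := l) p hi (j + 1)
    rwa [hθ] at this
  have hθπ : θ ≤ Real.pi := Complex.arg_le_pi _
  have hzi : 0 < (p - (o l j : ℂ)).im := by simpa using hi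
  have hC0 : 0 < C := by linarith
  rcases lt_or_gt_of_ne hne with h | h
  · -- to the left of the singularity
    have h1 : 0 < o l j - p.re := by linarith
    have habs : |p.re - o l j| = o l j - p.re := by rw [abs_of_neg (by linarith)]; ring
    rw [habs]
    have h2 := arg_left hl0 j p hi
    have h3 := hC j p hi hr hj
    set z : ℂ := p - (o l j : ℂ) with hz
    have hw : arg (-(starRingEnd ℂ z)) = Real.pi - arg z := by
      have hci : (starRingEnd ℂ z).im < 0 := by
        rw [Complex.conj_im]; linarith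
      rw [Complex.arg_neg_eq_arg_add_pi_of_im_neg hci, Complex.arg_conj, if_neg]
      · ring
      · intro h4
        have := Complex.arg_eq_pi_iff.1 h4
        linarith [this.2]
    have h4 : arg (-(starRingEnd ℂ z)) ≤ p.im / (o l j - p.re) := by
      have h5 := arg_le_div (z := -(starRingEnd ℂ z)) (by simp [hz]; linarith) (by simp [hz]; linarith)
      have e1 : (-(starRingEnd ℂ z)).im = p.im := by simp [hz]
      have e2 : (-(starRingEnd ℂ z)).re = o l j - p.re := by simp [hz]
      rwa [e1, e2] at h5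
    have h6 : Real.sin θ ≤ p.im / (o l j - p.re) + C * (p.im / p.re) := by
      rw [← Real.sin_pi_sub]
      refine (Real.sin_le (by linarith)).trans ?_
      linarith
    rw [div_le_iff₀ hi]
    have e3 : (1 / (o l j - p.re) + C / p.re) * p.im = p.im / (o l j - p.re) + C * (p.im / p.re) := by
      field_simp
    rw [e3]
    exact h6
  · -- to the right
    have h1 : 0 < p.re - o l j := by linarith
    rw [abs_of_pos h1]
    have h2 := arg_right hl0 j p hi
    have h4 : arg (p - (o l j : ℂ)) ≤ p.im / (p.re - o l j) := by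
      have h5 := arg_le_div (z := p - (o l j : ℂ)) (by simpa using h1) hzi
      simpa using h5
    have h6 : Real.sin θ ≤ p.im / (p.re - o l j) := by
      refine (Real.sin_le hθ0.le).trans ?_
      exact h2.trans h4
    have h7 : 0 < C / p.re := by positivity
    have h8 : Real.sin θ / p.im ≤ 1 / (p.re - o l j) := by
      rw [div_le_iff₀ hi]
      refine h6.trans (le_of_eq ?_)
      field_simp
    linarith

end J4601

end Pool.Agent.Helper734.EX
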