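import Pool.Agent.Helper115.EXC.M1

set_option autoImplicit false

namespace Pool.Agent.Helper734.EX

open Complex

section J4602

theorem F_e {l : ℝ} (hl : 0 < l) (x : ℝ) : F l ((e l x : ℝ) : ℂ) = (x : ℂ) := by
  rw [F_pos hl _ (e_pos hl x)]
  congr 1
  unfold e
  rw [mul_div_assoc, mul_div_cancel₀ _ hl.ne', Real.log_exp]

theorem F_contAt {l : ℝ} {x : ℝ} (hx : 0 < x) : ContinuousAt (F l) (x : ℂ) := by
  unfold F
  apply ContinuousAt.sub _ continuousAt_const
  exact continuousAt_clog (Complex.ofReal_mem_slitPlane.2 hx)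

theorem Fit_tendsto_aux {l : ℝ} (hl : 0 < l) {f : Filter ℝ} (ξ : ℝ) (j : ℕ) :
    ∀ w : ℝ → ℂ, Filter.Tendsto w f (nhds (((e l)^[j] ξ : ℝ) : ℂ)) →
      Filter.Tendsto (fun s => (F l)^[j] (w s)) f (nhds (ξ : ℂ)) := by
  induction j with
  | zero => intro w hw; exact hw
  | succ j ih =>
    intro w hw
    rw [Function.iterate_succ_apply'] at hw
    have h1 : Filter.Tendsto (fun s => F l (w s)) f (nhds (((e l)^[j] ξ : ℝ) : ℂ)) := by
      have h2 := (F_contAt (l := l) (e_pos hl ((e l)^[j] ξ))).tendsto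
      rw [F_e hl] at h2
      exact h2.comp hw
    have h3 := ih _ h1
    exact h3

theorem line_tendsto (v : ℝ) : Filter.Tendsto (fun s : ℝ => (v : ℂ) + (s : ℂ) * I)
    (nhdsWithin 0 (Set.Ioi 0)) (nhds (v : ℂ)) := by
  have hc : Continuous (fun s : ℝ => (v : ℂ) + (s : ℂ) * I) := by fun_prop
  have := (hc.tendsto 0).mono_left (nhdsWithin_le_nhds (s := Set.Ioi (0 : ℝ)))
  simpa using this

theorem Fit_tendsto_real {l : ℝ} (hl : 0 < l) (j : ℕ) (ξ : ℝ) (hξ : ξ ≠ 0) :
    Filter.Tendsto (fun s : ℝ => (F l)^[j + 1] (((e l)^[j] ξ : ℝ) + (s : ℂ) * I))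
      (nhdsWithin 0 (Set.Ioi 0)) (nhds (F l (ξ : ℂ))) := by
  have h1 := Fit_tendsto_aux hl ξ j _ (line_tendsto ((e l)^[j] ξ))
  have h2 : Filter.Tendsto (fun s : ℝ => (F l)^[j] (((e l)^[j] ξ : ℝ) + (s : ℂ) * I))
      (nhdsWithin 0 (Set.Ioi 0)) (nhdsWithin (ξ : ℂ) {z : ℂ | 0 ≤ z.im}) := by
    rw [tendsto_nhdsWithin_iff]
    refine ⟨h1, ?_⟩
    filter_upwards [self_mem_nhdsWithin] with s hs
    have hs : 0 < s := hs
    exact (Fit_upper (l := l) _ (by simpa using hs) j).le
  have h3 : ContinuousWithinAt (F l) {z : ℂ | 0 ≤ z.im} (ξ : ℂ) := by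
    rcases lt_or_gt_of_ne hξ with h | h
    · unfold F
      apply ContinuousWithinAt.sub _ continuousWithinAt_const
      exact Complex.continuousWithinAt_log_of_re_neg_of_im_zero (by simpa using h) (by simp)
    · exact (F_contAt h).continuousWithinAt
  have h4 := h3.tendsto.comp h2
  have h5 : (fun s : ℝ => (F l)^[j + 1] (((e l)^[j] ξ : ℝ) + (s : ℂ) * I)) =
      F l ∘ fun s : ℝ => (F l)^[j] (((e l)^[j] ξ : ℝ) + (s : ℂ) * I) := by
    funext s
    rw [Function.iterate_succ_apply']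
    rfl
  rw [h5]
  exact h4

theorem Fit_tendsto_real' {l : ℝ} (hl : 0 < l) (j : ℕ) (ξ : ℝ) :
    Filter.Tendsto (fun s : ℝ => (F l)^[j] (((e l)^[j] ξ : ℝ) + (s : ℂ) * I))
      (nhdsWithin 0 (Set.Ioi 0)) (nhds (ξ : ℂ)) :=
  Fit_tendsto_aux hl ξ j _ (line_tendsto ((e l)^[j] ξ))

end J4602

section J4603

theorem halfbd_gap {l : ℝ} (hl : 0 < l) (y z : ℝ) :
    e l y * (z - y) ≤ e l z - e l y := by
  have h1 : e l z = e l y * Real.exp (z - y) := by
    unfold e
    rw [mul_assoc, ← Real.exp_add]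
    congr 2
    ring
  have h2 := Real.add_one_le_exp (z - y)
  have h3 := e_pos hl y
  rw [h1]
  nlinarith

theorem halfbd {l : ℝ} (hl : Real.exp (-1) < l) : ∃ j0 : ℕ, ∀ j, j0 ≤ j → ∀ ξ : ℝ,
    |ξ| ≤ 1 / 2 → (e l)^[j] (-1) ≤ (e l)^[j] ξ / 2 ∧ 1 ≤ (e l)^[j] (-1) := by
  have hl0 := l_pos hl
  obtain ⟨j1, hj1⟩ := Filter.eventually_atTop.mp
    ((eit_tendsto hl (-1)).eventually_ge_atTop 2)
  set g : ℕ → ℝ := fun j => (e l)^[j] (-1 / 2) - (e l)^[j] (-1) with hg
  have hgpos : ∀ j, 0 < g j := by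
    intro j
    have := eit_strictMono hl0 j (show (-1 : ℝ) < -1 / 2 by norm_num)
    simp only [hg]
    linarith
  have hstep : ∀ j, (e l)^[j + 1] (-1) * g j ≤ g (j + 1) := by
    intro j
    simp only [hg, Function.iterate_succ_apply']
    exact halfbd_gap hl0 _ _
  have hdouble : ∀ j, j1 ≤ j → 2 * g j ≤ g (j + 1) := by
    intro j hj
    have h1 := hj1 (j + 1) (by omega)
    have h2 := hstep j
    have h3 := hgpos j
    nlinarith
  have hpow : ∀ k, 2 ^ k * g j1 ≤ g (j1 + k) := by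
    intro k
    induction k with
    | zero => simp
    | succ k ih =>
      have := hdouble (j1 + k) (by omega)
      rw [pow_succ, ← add_assoc]
      linarith
  obtain ⟨k0, hk0⟩ := pow_unbounded_of_one_lt (1 / g j1) (one_lt_two)
  have hg1 : ∀ k, k0 ≤ k → 1 ≤ g (j1 + k) := by
    intro k hk
    have h1 := hpow k
    have h2 : (2:ℝ) ^ k0 ≤ 2 ^ k := pow_le_pow_right₀ (by norm_num) hk
    have h3 := hgpos j1
    rw [div_lt_iff₀ h3] at hk0
    nlinarith
  refine ⟨j1 + k0 + 1, fun j hj ξ hξ => ⟨?_, ?_⟩⟩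
  · have h1 : (e l)^[j] (-1 / 2) ≤ (e l)^[j] ξ :=
      (eit_strictMono hl0 j).monotone (by have := (abs_le.mp hξ).1; linarith)
    obtain ⟨k, rfl⟩ : ∃ k, j = j1 + k + 1 := ⟨j - j1 - 1, by omega⟩
    have h2 := hg1 k (by omega)
    have h3 : 2 * (e l)^[j1 + k + 1] (-1) ≤ (e l)^[j1 + k + 1] (-1 / 2) := by
      rw [Function.iterate_succ_apply', Function.iterate_succ_apply']
      have h4 := halfbd_gap hl0 ((e l)^[j1 + k] (-1)) ((e l)^[j1 + k] (-1 / 2))
      have h5 := e_pos hl0 ((e l)^[j1 + k] (-1))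
      simp only [hg] at h2
      nlinarith
    linarith
  · have := hj1 j (by omega)
    linarith

end J4603

section J4604

theorem distort {l : ℝ} (hl : Real.exp (-1) < l) : ∃ (C : ℝ) (j0 : ℕ), 2 ≤ C ∧
    ∀ (j : ℕ) (ξ : ℝ) (b : ℂ) (h : ℝ), j0 ≤ j → ξ ≠ 0 → |ξ| ≤ 1 / 2 → 0 < b.im →
    ‖b - ((e l)^[j] ξ : ℝ)‖ ≤ h → C * h ≤ |(e l)^[j] ξ - o l j| → C * h ≤ (e l)^[j] ξ →
    ‖(F l)^[j + 1] b - F l (ξ : ℂ)‖ ≤ C * h / min |(e l)^[j] ξ - o l j| ((e l)^[j] ξ) := by
  obtain ⟨C0, hC0, hder⟩ := logderiv hl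
  obtain ⟨j0, hj0⟩ := halfbd hl
  refine ⟨4 + 4 * C0, j0, by linarith, ?_⟩
  intro j ξ b h hj hξ0 hξ hb hbh hW hv
  set v : ℝ := (e l)^[j] ξ with hvdef
  set W : ℝ := |v - o l j| with hWdef
  obtain ⟨hv1, hv2⟩ := hj0 j hj ξ hξ
  rw [← hvdef] at hv1
  have him : b.im ≤ h := by
    have h1 : |(b - (v : ℂ)).im| ≤ ‖b - (v : ℂ)‖ := Complex.abs_im_le_norm _
    have h2 : (b - (v : ℂ)).im = b.im := by simp
    rw [h2] at h1
    exact (le_abs_self _).trans (h1.trans hbh)
  have hre : |b.re - v| ≤ h := by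
    have h1 : |(b - (v : ℂ)).re| ≤ ‖b - (v : ℂ)‖ := Complex.abs_re_le_norm _
    have h2 : (b - (v : ℂ)).re = b.re - v := by simp
    rw [h2] at h1
    exact h1.trans hbh
  have hh : 0 < h := hb.trans_le him
  have hCh : 8 * h ≤ (4 + 4 * C0) * h := mul_le_mul_of_nonneg_right (by linarith) hh.le
  have hv8 : 8 * h ≤ v := hCh.trans hv
  have hW8 : 8 * h ≤ W := hCh.trans hW
  have hvpos : 0 < v := by linarith
  have hWpos : 0 < W := by linarith
  set M : ℝ := min W v with hM
  have hMpos : 0 < M := lt_min hWpos hvpos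
  let S : Set ℂ := {p | (0 < p.im ∧ p.im ≤ h) ∧ (v - h ≤ p.re ∧ p.re ≤ v + h)}
  have hSc : Convex ℝ S := by
    have h1 : Convex ℝ {p : ℂ | 0 < p.im} := convex_halfSpace_im_gt 0
    have h2 : Convex ℝ {p : ℂ | p.im ≤ h} := convex_halfSpace_im_le h
    have h3 : Convex ℝ {p : ℂ | v - h ≤ p.re} := convex_halfSpace_re_ge (v - h)
    have h4 : Convex ℝ {p : ℂ | p.re ≤ v + h} := convex_halfSpace_re_le (v + h)
    exact (h1.inter h2).inter (h3.inter h4)
  have hbd : ∀ p ∈ S, ∃ d : ℂ, HasDerivAt ((F l)^[j + 1]) d p ∧ ‖d‖ ≤ (2 + 2 * C0) / M := by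
    rintro p ⟨⟨hp1, _⟩, hp3, hp4⟩
    have hp5 : v / 2 ≤ p.re := by linarith
    have hp6 : (e l)^[j] (-1) ≤ p.re := hv1.trans hp5
    have hp7 : 0 < p.re := by linarith
    have hp8 : W / 2 ≤ |p.re - o l j| := by
      have h1 : W ≤ |v - p.re| + |p.re - o l j| := by
        rw [hWdef]
        exact abs_sub_le _ _ _
      have h2 : |v - p.re| ≤ h := by
        rw [abs_le]
        constructor <;> linarith
      linarith
    have hp9 : 0 < |p.re - o l j| := by linarith
    obtain ⟨d, hd, hdn⟩ := hder j p hp1 hp7 hp6 (by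
      intro hcon
      rw [hcon, sub_self, abs_zero] at hp9
      exact lt_irrefl _ hp9)
    refine ⟨d, hd, hdn.trans ?_⟩
    have h1 : 1 / |p.re - o l j| ≤ 2 / M := by
      rw [div_le_div_iff₀ hp9 hMpos]
      have : M ≤ W := min_le_left _ _
      linarith
    have h2 : C0 / p.re ≤ 2 * C0 / M := by
      rw [div_le_div_iff₀ hp7 hMpos]
      have h3 : M ≤ v := min_le_right _ _
      have h4 : M ≤ 2 * p.re := by linarith
      have h5 := mul_le_mul_of_nonneg_left h4 (show 0 ≤ C0 by linarith)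
      linarith
    calc 1 / |p.re - o l j| + C0 / p.re ≤ 2 / M + 2 * C0 / M := add_le_add h1 h2
      _ = (2 + 2 * C0) / M := by rw [← add_div]
  have hbS : b ∈ S := by
    rw [abs_le] at hre
    exact ⟨⟨hb, him⟩, by linarith, by linarith⟩
  have hmv : ∀ s : ℝ, 0 < s → s ≤ h →
      ‖(F l)^[j + 1] b - (F l)^[j + 1] ((v : ℝ) + (s : ℂ) * I)‖ ≤ (4 + 4 * C0) * h / M := by
    intro s hs hsh
    have hq : ((v : ℝ) + (s : ℂ) * I) ∈ S := by
      have e1 : ((v : ℂ) + (s : ℂ) * I).im = s := by simp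
      have e2 : ((v : ℂ) + (s : ℂ) * I).re = v := by simp
      refine ⟨⟨?_, ?_⟩, ?_, ?_⟩
      · rw [e1]; exact hs
      · rw [e1]; exact hsh
      · rw [e2]; linarith
      · rw [e2]; linarith
    have h1 := Convex.norm_image_sub_le_of_norm_hasDerivWithin_le (f := (F l)^[j + 1])
      (f' := deriv ((F l)^[j + 1])) (s := S) (C := (2 + 2 * C0) / M) (x := (v : ℝ) + (s : ℂ) * I)
      (y := b) (fun p hp => by
        obtain ⟨d, hd, _⟩ := hbd p hp
        exact hd.differentiableAt.hasDerivAt.hasDerivWithinAt)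
      (fun p hp => by
        obtain ⟨d, hd, hdn⟩ := hbd p hp
        rw [hd.deriv]
        exact hdn) hSc hq hbS
    refine h1.trans ?_
    have h2 : ‖b - ((v : ℝ) + (s : ℂ) * I)‖ ≤ 2 * h := by
      calc ‖b - ((v : ℝ) + (s : ℂ) * I)‖ = ‖(b - (v : ℂ)) - (s : ℂ) * I‖ := by
            congr 1
            ring
        _ ≤ ‖b - (v : ℂ)‖ + ‖(s : ℂ) * I‖ := norm_sub_le _ _
        _ ≤ h + s := by
            apply add_le_add hbh
            rw [norm_mul, Complex.norm_I, mul_one, Complex.norm_real, Real.norm_eq_abs,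
              abs_of_pos hs]
        _ ≤ 2 * h := by linarith
    calc (2 + 2 * C0) / M * ‖b - ((v : ℝ) + (s : ℂ) * I)‖ ≤ (2 + 2 * C0) / M * (2 * h) :=
          mul_le_mul_of_nonneg_left h2 (by positivity)
      _ = (4 + 4 * C0) * h / M := by ring
  have hlim := Fit_tendsto_real (l_pos hl) j ξ hξ0
  rw [← hvdef] at hlim
  have hlim2 : Filter.Tendsto (fun s : ℝ => ‖(F l)^[j + 1] b -
      (F l)^[j + 1] ((v : ℝ) + (s : ℂ) * I)‖) (nhdsWithin 0 (Set.Ioi 0))
      (nhds ‖(F l)^[j + 1] b - F l (ξ : ℂ)‖) := (tendsto_const_nhds.sub hlim).norm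
  refine le_of_tendsto hlim2 ?_
  have hI : Set.Ioc 0 h ∈ nhdsWithin (0 : ℝ) (Set.Ioi 0) := Ioc_mem_nhdsGT hh
  filter_upwards [hI] with s hs
  exact hmv s hs.1 hs.2

end J4604

section J4605

theorem near0_gap {l : ℝ} (hl : 0 < l) (i : ℕ) (a : ℝ) :
    (e l)^[i + 1] a * (o l i - (e l)^[i] a) ≤ o l (i + 1) - (e l)^[i + 1] a := by
  rw [o_succ, Function.iterate_succ_apply']
  set x := (e l)^[i] a
  set y := o l i
  unfold e
  have h1 := Real.add_one_le_exp (y - x)
  have h2 : Real.exp y = Real.exp x * Real.exp (y - x) := by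
    rw [← Real.exp_add]; congr 1; ring
  rw [h2]
  have h3 : 0 < l * Real.exp x := by positivity
  nlinarith

theorem near0_choose {l : ℝ} (hl : Real.exp (-1) < l) (R r1 : ℝ) (j1 : ℕ) (hr1 : 0 < r1) :
    ∃ i0, j1 ≤ i0 ∧ (∀ i, i0 ≤ i → R ≤ (e l)^[i] (-r1) ∧ 10 ≤ (e l)^[i] (-r1)) ∧
      3 ≤ o l i0 - (e l)^[i0] (-r1) := by
  have hl0 := l_pos hl
  have ht := eit_tendsto hl (-r1)
  obtain ⟨N, hN⟩ := Filter.eventually_atTop.1 (ht.eventually_ge_atTop (max R 10))
  have hgap0 : ∀ i, 0 < o l i - (e l)^[i] (-r1) := by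
    intro i
    have := eit_strictMono hl0 i (show -r1 < 0 by linarith)
    unfold o
    linarith
  set M := max N j1 with hM
  have hM1 : N ≤ M := le_max_left _ _
  have hM2 : j1 ≤ M := le_max_right _ _
  have hpow : ∀ k : ℕ, 2 ^ k * (o l M - (e l)^[M] (-r1)) ≤
      o l (M + k) - (e l)^[M + k] (-r1) := by
    intro k
    induction k with
    | zero => simp
    | succ k ih =>
      have h1 := near0_gap hl0 (M + k) (-r1)
      have h2 : max R 10 ≤ (e l)^[M + k + 1] (-r1) := hN _ (by omega)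
      have h3 : (10 : ℝ) ≤ (e l)^[M + k + 1] (-r1) := (le_max_right _ _).trans h2
      have h4 := hgap0 (M + k)
      rw [← add_assoc, pow_succ]
      nlinarith
  obtain ⟨k, hk⟩ := pow_unbounded_of_one_lt (3 / (o l M - (e l)^[M] (-r1))) (one_lt_two)
  refine ⟨M + k, by omega, ?_, ?_⟩
  · intro i hi
    have h2 : max R 10 ≤ (e l)^[i] (-r1) := hN _ (by omega)
    exact ⟨(le_max_left _ _).trans h2, (le_max_right _ _).trans h2⟩
  · have h1 := hpow k
    rw [div_lt_iff₀ (hgap0 M)] at hk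
    linarith

theorem near0_step {l : ℝ} (hl : Real.exp (-1) < l) {z : ℂ} {c : ℝ} (hz0 : 0 ≤ z.im)
    (hz1 : z.im < 1) (hzr : c + 1 ≤ z.re) (hE : (E l z).im ≤ Real.pi) (hE0 : 0 ≤ (E l z).im)
    (hc : 10 ≤ e l c) :
    e l c + 1 ≤ (E l z).re ∧ 2 * z.im ≤ (E l z).im := by
  have hl0 := l_pos hl
  have hn : 2 * e l c ≤ ‖E l z‖ := by
    rw [norm_E hl0]
    have h1 : e l (c + 1) ≤ e l z.re := (e_strictMono hl0).monotone hzr
    have h2 : 2 * e l c ≤ e l (c + 1) := by
      have h3 : (2 : ℝ) ≤ Real.exp 1 := by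
        have := Real.add_one_le_exp (1 : ℝ)
        linarith
      have h4 := e_pos hl0 c
      have h5 : e l (c + 1) = e l c * Real.exp 1 := by
        unfold e
        rw [Real.exp_add]
        ring
      rw [h5]
      nlinarith
    linarith
  have hpi1 := Real.pi_gt_three
  have hpi2 := Real.pi_le_four
  have hcos : 0 ≤ Real.cos z.im :=
    Real.cos_nonneg_of_neg_pi_div_two_le_of_le (by linarith) (by linarith)
  have hsin := Real.mul_le_sin hz0 (by linarith)
  constructor
  · have hre : 0 ≤ (E l z).re := by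
      rw [re_E hl0]
      exact mul_nonneg (norm_nonneg _) hcos
    have hsq : (E l z).re ^ 2 + (E l z).im ^ 2 = ‖E l z‖ ^ 2 := by
      rw [← Complex.normSq_eq_norm_sq, Complex.normSq_apply]
      ring
    have h1 : ‖E l z‖ - 1 ≤ (E l z).re := by
      by_contra hcon
      push Not at hcon
      have h2 : (E l z).re ^ 2 < (‖E l z‖ - 1) ^ 2 := by
        apply pow_lt_pow_left₀ hcon hre (by norm_num)
      have h3 : (E l z).im ^ 2 ≤ 16 := by nlinarith
      nlinarith
    linarith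
  · rw [im_E hl0]
    have h1 : (1 / 2 : ℝ) * z.im ≤ Real.sin z.im := by
      refine le_trans ?_ hsin
      apply mul_le_mul_of_nonneg_right _ hz0
      rw [le_div_iff₀ Real.pi_pos]
      linarith
    have h2 : 0 ≤ Real.sin z.im := le_trans (by positivity) h1
    nlinarith

theorem near0_norm {l : ℝ} (hl : 0 < l) (w : ℂ) (n : ℕ) : ‖(E l)^[n] w‖ ≤ (e l)^[n] ‖w‖ := by
  induction n with
  | zero => simp
  | succ n ih =>
    rw [Function.iterate_succ_apply', Function.iterate_succ_apply', norm_E hl]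
    exact (e_strictMono hl).monotone ((Complex.re_le_norm _).trans ih)

theorem near0_imit {l : ℝ} {w : ℂ} (hw : w ∈ K l) (i : ℕ) : 0 ≤ ((E l)^[i] w).im ∧
    ((E l)^[i] w).im ≤ Real.pi := hw i

theorem near0 {l : ℝ} (hl : Real.exp (-1) < l) (R r1 : ℝ) (j1 : ℕ) (hr1 : 0 < r1) :
    ∃ r : ℝ, 0 < r ∧ ∀ w ∈ K l, 0 < w.im → ‖w‖ ≤ r → ∃ j, j1 ≤ j ∧
      1 ≤ ((E l)^[j] w).im ∧ R ≤ ((E l)^[j] w).re ∧ (∀ i < j, ((E l)^[i] w).im < 1) ∧
      ∃ ξ : ℝ, |ξ| ≤ r1 ∧ (e l)^[j] ξ = ((E l)^[j] w).re := by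
  classical
  have hl0 := l_pos hl
  obtain ⟨i0, hj1, hc, hgap⟩ := near0_choose hl R r1 j1 hr1
  -- continuity
  have hcont : ∀ i, ∀ᶠ w : ℂ in nhds 0, ‖(E l)^[i] w - ((o l i : ℝ) : ℂ)‖ < 1 / 2 := by
    intro i
    have h1 : Continuous ((E l)^[i]) := (E_cont l).iterate i
    have h2 : (E l)^[i] (0 : ℂ) = ((o l i : ℝ) : ℂ) := by
      have := Eit_ofReal l 0 i
      rw [Complex.ofReal_zero] at this
      exact this
    have h3 := h1.tendsto (0 : ℂ)
    rw [h2] at h3
    have h4 := h3.eventually (Metric.ball_mem_nhds _ (show (0 : ℝ) < 1 / 2 by norm_num))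
    filter_upwards [h4] with w hw
    rwa [← dist_eq_norm]
  have hall : ∀ᶠ w : ℂ in nhds 0, ∀ i ∈ Finset.range (i0 + 1),
      ‖(E l)^[i] w - ((o l i : ℝ) : ℂ)‖ < 1 / 2 := by
    rw [Filter.eventually_all_finset]
    intro i _
    exact hcont i
  obtain ⟨r', hr', hball⟩ := Metric.eventually_nhds_iff_ball.1 hall
  refine ⟨min (r' / 2) r1, by positivity, ?_⟩
  intro w hw hwim hwr
  have hwr' : ‖w‖ < r' := by
    have := hwr.trans (min_le_left _ _)
    linarith
  have hwr1 : ‖w‖ ≤ r1 := hwr.trans (min_le_right _ _)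
  have hb : ∀ i, i ≤ i0 → ‖(E l)^[i] w - ((o l i : ℝ) : ℂ)‖ < 1 / 2 := by
    intro i hi
    exact hball w (by simpa using hwr') i (Finset.mem_range.2 (by omega))
  have him : ∀ i, i ≤ i0 → ((E l)^[i] w).im < 1 := by
    intro i hi
    have h1 := hb i hi
    have h2 := Complex.abs_im_le_norm ((E l)^[i] w - ((o l i : ℝ) : ℂ))
    rw [Complex.sub_im, Complex.ofReal_im, sub_zero] at h2
    have h3 := le_abs_self ((E l)^[i] w).im
    linarith
  have hre0 : (e l)^[i0] (-r1) + 1 ≤ ((E l)^[i0] w).re := by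
    have h1 := hb i0 le_rfl
    have h2 := Complex.abs_re_le_norm ((E l)^[i0] w - ((o l i0 : ℝ) : ℂ))
    rw [Complex.sub_re, Complex.ofReal_re] at h2
    have h3 := neg_abs_le (((E l)^[i0] w).re - o l i0)
    linarith
  -- propagation of the real part bound
  have hprop : ∀ k, (∀ i < i0 + k, ((E l)^[i] w).im < 1) →
      (e l)^[i0 + k] (-r1) + 1 ≤ ((E l)^[i0 + k] w).re ∧
      2 ^ k * ((E l)^[i0] w).im ≤ ((E l)^[i0 + k] w).im := by
    intro k
    induction k with
    | zero =>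
      intro _
      simp only [add_zero, pow_zero, one_mul]
      exact ⟨hre0, le_rfl⟩
    | succ k ih =>
      intro hk
      obtain ⟨h1, h2⟩ := ih (fun i hi => hk i (by omega))
      have h3 := hk (i0 + k) (by omega)
      have h4 := hc (i0 + k + 1) (by omega)
      rw [Function.iterate_succ_apply'] at h4
      have h5 := near0_imit hw (i0 + k + 1)
      rw [Function.iterate_succ_apply'] at h5
      have h6 := near0_step hl (near0_imit hw (i0 + k)).1 h3 h1 h5.2 h5.1 h4.2
      rw [← add_assoc, Function.iterate_succ_apply', Function.iterate_succ_apply', pow_succ]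
      refine ⟨h6.1, ?_⟩
      linarith [h6.2]
  -- positivity
  have hpos : ∀ i, (∀ k < i, ((E l)^[k] w).im < 1) → 0 < ((E l)^[i] w).im := by
    intro i
    induction i with
    | zero =>
      intro _
      simpa using hwim
    | succ i ih =>
      intro hi
      have h1 := ih (fun k hk => hi k (by omega))
      have h2 := hi i (by omega)
      rw [Function.iterate_succ_apply', im_E hl0]
      apply mul_pos (norm_pos_iff.2 (E_ne_zero hl0 _))
      exact Real.sin_pos_of_pos_of_lt_pi h1 (by linarith [Real.pi_gt_three])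
  have hex : ∃ j, 1 ≤ ((E l)^[j] w).im := by
    by_contra hcon
    push Not at hcon
    have h1 := hpos i0 (fun k _ => hcon k)
    obtain ⟨k, hk⟩ := pow_unbounded_of_one_lt (1 / ((E l)^[i0] w).im) (one_lt_two)
    have h2 := (hprop k (fun i _ => hcon i)).2
    rw [div_lt_iff₀ h1] at hk
    have h3 := hcon (i0 + k)
    linarith
  have hj := Nat.find_spec hex
  have hjmin : ∀ i < Nat.find hex, ((E l)^[i] w).im < 1 := by
    intro i hi
    have := Nat.find_min hex hi
    push Not at this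
    exact this
  set j := Nat.find hex with hjdef
  have hij : i0 < j := by
    by_contra hcon
    push Not at hcon
    have := him j hcon
    linarith
  obtain ⟨k, hk⟩ := Nat.exists_eq_add_of_lt hij
  have hjk : j = i0 + (k + 1) := by omega
  have hrej : (e l)^[j] (-r1) + 1 ≤ ((E l)^[j] w).re := by
    rw [hjk]
    exact (hprop (k + 1) (fun i hi => hjmin i (by omega))).1
  have hcj := hc j hij.le
  refine ⟨j, by omega, hj, by linarith [hcj.1], hjmin, ?_⟩
  have hup : ((E l)^[j] w).re ≤ (e l)^[j] r1 := by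
    refine (Complex.re_le_norm _).trans ((near0_norm hl0 w j).trans ?_)
    exact (eit_strictMono hl0 j).monotone hwr1
  have hivt := intermediate_value_Icc (show -r1 ≤ r1 by linarith) (eit_cont l j).continuousOn
  obtain ⟨ξ, hξ, hξ'⟩ := hivt ⟨by linarith, hup⟩
  exact ⟨ξ, abs_le.2 hξ, hξ'⟩

end J4605

section J4609

theorem farleft {l : ℝ} (hl : 0 < l) (r : ℝ) (hr : 0 < r) : ∃ R : ℝ, ∀ z ∈ K l, R ≤ z.re →
    1 ≤ z.im → ‖E l (E l z)‖ ≤ r ∧ (E l z).re ≤ -(1 / r) ∧ 3 ≤ z.im := by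
  have hpi := Real.pi_pos
  have hpi1 := Real.pi_gt_d2
  have hpi2 := Real.pi_lt_d2
  set X0 : ℝ := 100 + Real.pi + 1 / r + |Real.log (r / l)| with hX0
  have h1r : 0 < 1 / r := by positivity
  have habs := abs_nonneg (Real.log (r / l))
  have hX0pos : 0 < X0 := by rw [hX0]; linarith
  refine ⟨Real.log (X0 / l), fun z hz hzre hzim => ?_⟩
  have hX : X0 ≤ ‖E l z‖ := by
    rw [norm_E hl]
    calc X0 = e l (Real.log (X0 / l)) := by
          unfold e
          rw [Real.exp_log (by positivity)]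
          field_simp
      _ ≤ e l z.re := (e_strictMono hl).monotone hzre
  set X : ℝ := ‖E l z‖ with hXdef
  have hXpos : 0 < X := by linarith
  have him := K_im (K_E hz)
  have hz2 := (K_im hz).2
  have hsin : X * Real.sin z.im ≤ Real.pi := by
    have := him.2
    rwa [im_E hl] at this
  have h3 : 3 ≤ z.im := by
    by_contra hlt
    push Not at hlt
    have hs : 2 / Real.pi * (Real.pi - 3) ≤ Real.sin z.im := by
      rcases le_total z.im (Real.pi / 2) with h | h
      · refine le_trans ?_ (Real.mul_le_sin (by linarith) h)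
        gcongr
        linarith
      · rw [← Real.sin_pi_sub]
        refine le_trans ?_ (Real.mul_le_sin (by linarith) (by linarith))
        gcongr
    have hs2 : 0.08 ≤ 2 / Real.pi * (Real.pi - 3) := by
      rw [div_mul_eq_mul_div, le_div_iff₀ hpi]
      linarith
    have hs3 : (0.08 : ℝ) ≤ Real.sin z.im := hs2.trans hs
    have : X * 0.08 ≤ X * Real.sin z.im := mul_le_mul_of_nonneg_left hs3 hXpos.le
    have hX100 : 100 ≤ X := by linarith
    linarith
  have hcos : Real.cos z.im ≤ 0 := Real.cos_nonpos_of_pi_div_two_le_of_le (by linarith) (by linarith)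
  have hre : (E l z).re ≤ 0 := by
    rw [re_E hl]
    exact mul_nonpos_of_nonneg_of_nonpos (norm_nonneg _) hcos
  have hre2 : (E l z).re ≤ -(X - Real.pi) := by
    have h4 := Complex.norm_le_abs_re_add_abs_im (E l z)
    rw [abs_of_nonpos hre, abs_of_nonneg him.1] at h4
    linarith [him.2]
  refine ⟨?_, by linarith, h3⟩
  rw [norm_E hl]
  unfold e
  have h5 : Real.exp (E l z).re ≤ r / l := by
    rw [← Real.le_log_iff_exp_le (by positivity)]
    have := neg_abs_le (Real.log (r / l))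
    linarith
  calc l * Real.exp (E l z).re ≤ l * (r / l) := mul_le_mul_of_nonneg_left h5 hl.le
    _ = r := by field_simp

end J4609

section J4611

theorem osum {l : ℝ} (hl : Real.exp (-1) < l) (C : ℝ) : ∃ j0 : ℕ, ∀ j, j0 ≤ j →
    ∑ i ∈ Finset.range (j + 1), (o l i + C) ≤ 11 / 10 * o l j := by
  have hl0 := l_pos hl
  have ht := o_tendsto hl
  obtain ⟨J, hJ⟩ := Filter.eventually_atTop.1
    (((Filter.tendsto_atTop.1 ht (200 / l)).and (Filter.tendsto_atTop.1 ht 1)).and
      (Filter.tendsto_atTop.1 ht (100 * |C|)))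
  have h100 : ∀ j, J ≤ j → 100 * o l j ≤ o l (j + 1) := by
    intro j hj
    obtain ⟨⟨h1, h2⟩, h3⟩ := hJ j hj
    rw [o_succ]
    unfold e
    have hq := Real.quadratic_le_exp_of_nonneg (x := o l j) (by linarith)
    rw [div_le_iff₀ hl0] at h1
    have h4 : l * ((o l j) ^ 2 / 2) ≤ l * Real.exp (o l j) := by
      apply mul_le_mul_of_nonneg_left _ hl0.le
      linarith
    nlinarith
  set A : ℕ → ℝ := fun j => ∑ i ∈ Finset.range (j + 1), (o l i + C) with hA
  have hs : ∀ j, A (j + 1) = A j + (o l (j + 1) + C) := by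
    intro j
    simp only [hA]
    rw [Finset.sum_range_succ]
  have hb : ∀ j, J ≤ j → A j ≤ |A J| + 105 / 100 * o l j := by
    intro j hj
    induction j, hj using Nat.le_induction with
    | base =>
      have := (hJ J le_rfl).1.2
      have h2 := le_abs_self (A J)
      linarith
    | succ j hj ih =>
      obtain ⟨⟨h1, h2⟩, h3⟩ := hJ j hj
      have h4 := h100 j hj
      have h5 := le_abs_self C
      rw [hs]
      linarith
  obtain ⟨J2, hJ2⟩ := Filter.eventually_atTop.1 (Filter.tendsto_atTop.1 ht (20 * |A J|))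
  refine ⟨max J J2, fun j hj => ?_⟩
  have h1 := hb j ((le_max_left _ _).trans hj)
  have h2 := hJ2 j ((le_max_right _ _).trans hj)
  show A j ≤ _
  linarith

end J4611

section J4613

theorem fu_o_nonneg {l : ℝ} (hl : 0 < l) (k : ℕ) : 0 ≤ o l k := by
  cases k with
  | zero => exact le_of_eq (by simp [o])
  | succ k => rw [o_succ]; exact (e_pos hl _).le

theorem fu_log_le {x : ℝ} (hx : 0 < x) : Real.log x ≤ x / 2 := by
  have h1 := Real.log_le_sub_one_of_pos (show 0 < x / 2 by positivity)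
  rw [Real.log_div hx.ne' (by norm_num)] at h1
  have h2 := Real.log_two_lt_d9
  linarith

theorem fu_norm_F {l : ℝ} (hl : 0 < l) (w : ℂ) (hw : w ≠ 0) :
    ‖F l w‖ ≤ |Real.log ‖w‖ - Real.log l| + Real.pi := by
  refine (Complex.norm_le_abs_re_add_abs_im _).trans ?_
  rw [re_F hl w hw, im_F, Real.log_div (norm_pos_iff.2 hw).ne' hl.ne']
  have := Complex.abs_arg_le_pi w
  linarith

theorem foldU {l : ℝ} (hl : Real.exp (-1) < l) : ∃ j0 : ℕ, ∀ j, j0 ≤ j → ∀ b : ℂ,
    1 ≤ b.im → b.im ≤ Real.pi → (e l)^[j + 1] (-1) ≤ b.re →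
    ‖b‖ ≤ 4 * o l (j + 1) * Real.exp (Real.sqrt (o l j) / 4) → ‖(F l)^[j + 1] b‖ ≤ 1 →
    ‖(F l)^[j + 2] b‖ ≤ 2 * o l j := by
  have hl0 : 0 < l := l_pos hl
  have hpi := Real.pi_pos
  have hlog2 := Real.log_two_lt_d9
  have hlog4 : Real.log 4 ≤ 2 := by
    rw [show (4 : ℝ) = 2 ^ 2 by norm_num, Real.log_pow]
    push_cast
    linarith
  set lam : ℝ := Real.log l with hlam
  have hab := neg_abs_le lam
  have hab' := le_abs_self lam
  have hab0 := abs_nonneg lam
  set C2 : ℝ := 2 * l + 2 * |lam| + 2 * Real.pi + 2 with hC2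
  obtain ⟨j1, hj1⟩ := osum hl (C2 + |lam|)
  obtain ⟨j2, hj2⟩ := Filter.eventually_atTop.1
    ((o_tendsto hl).eventually_ge_atTop (2 * (2 + 2 * |lam| + Real.pi) + 1))
  refine ⟨max j1 j2, fun j hj b hb1 hb2 hbre hbn hlast => ?_⟩
  have hO := hj2 j ((le_max_right _ _).trans hj)
  have hS := hj1 j ((le_max_left _ _).trans hj)
  have hO1 : 1 ≤ o l j := by linarith
  -- positivity
  have him0 : 0 < b.im := by linarith
  have him : ∀ n, 0 < ((F l)^[n] b).im := fun n => Fit_upper b him0 n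
  have hne : ∀ n, (F l)^[n] b ≠ 0 := by
    intro n h
    have := him n
    rw [h] at this
    simp at this
  have hnp : ∀ n, 0 < ‖(F l)^[n] b‖ := fun n => norm_pos_iff.2 (hne n)
  have hre : ∀ n, ((F l)^[n + 1] b).re = Real.log ‖(F l)^[n] b‖ - lam := by
    intro n
    rw [Function.iterate_succ_apply', re_F hl0 _ (hne n), Real.log_div (hnp n).ne' hl0.ne']
  have himeq : ∀ n, ((F l)^[n + 1] b).im = arg ((F l)^[n] b) := by
    intro n
    rw [Function.iterate_succ_apply', im_F]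
  -- the product estimate
  have hprod : ∀ n, -Real.log ((F l)^[n] b).im ≤ ∑ i ∈ Finset.range n, Real.log ‖(F l)^[i] b‖ := by
    intro n
    induction n with
    | zero =>
      simp only [Function.iterate_zero, id_eq, Finset.range_zero, Finset.sum_empty]
      have := Real.log_nonneg hb1
      linarith
    | succ n ih =>
      rw [Finset.sum_range_succ]
      have h1 : ((F l)^[n] b).im / ‖(F l)^[n] b‖ ≤ ((F l)^[n + 1] b).im := by
        rw [← Complex.sin_arg, himeq]
        have h2 : 0 < arg ((F l)^[n] b) := by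
          rw [← himeq]; exact him _
        exact Real.sin_le h2.le
      have h3 := Real.log_le_log (div_pos (him n) (hnp n)) h1
      rw [Real.log_div (him n).ne' (hnp n).ne'] at h3
      linarith
  -- bounds for the orbit
  have hrepos : ∀ i, i ≤ j → 0 < ((F l)^[i] b).re := by
    intro i hi
    have h1 := sand hl0 (j + 1) (-1) b hbre i (by omega)
    rw [show j + 1 - i = (j - i) + 1 by omega, Function.iterate_succ_apply'] at h1
    exact lt_of_lt_of_le (e_pos hl0 _) h1
  have hstep : ∀ i, i + 1 ≤ j → ‖(F l)^[i + 1] b‖ ≤ Real.log ‖(F l)^[i] b‖ - lam + Real.pi := by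
    intro i hi
    refine (Complex.norm_le_abs_re_add_abs_im _).trans ?_
    rw [abs_of_pos (hrepos _ hi), abs_of_pos (him _), hre, himeq]
    have := Complex.arg_le_pi ((F l)^[i] b)
    linarith
  have hbpos : 0 < ‖b‖ := hnp 0
  have hlogb : Real.log ‖b‖ ≤ 2 + lam + o l j + Real.sqrt (o l j) / 4 := by
    have h1 := Real.log_le_log hbpos hbn
    have h2 : o l (j + 1) = l * Real.exp (o l j) := by rw [o_succ]; rfl
    rw [h2, Real.log_mul (by positivity) (Real.exp_pos _).ne', Real.log_exp,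
      Real.log_mul (by norm_num) (by positivity), Real.log_mul hl0.ne' (Real.exp_pos _).ne',
      Real.log_exp] at h1
    linarith
  have hsq : Real.sqrt (o l j) ≤ o l j := by
    rw [Real.sqrt_le_left (by linarith)]
    nlinarith
  have hbd : ∀ i, i + 1 ≤ j → ‖(F l)^[i + 1] b‖ ≤ 2 * o l (j - i) + C2 := by
    intro i
    induction i with
    | zero =>
      intro hi
      have h1 := hstep 0 hi
      simp only [Function.iterate_zero, id_eq] at h1
      rw [Nat.sub_zero]
      have : 0 ≤ |lam| := abs_nonneg _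
      simp only [hC2]
      linarith
    | succ i ih =>
      intro hi
      have h1 := ih (by omega)
      have h2 := hstep (i + 1) hi
      have e1 : j - i = (j - (i + 1)) + 1 := by omega
      have e2 : o l (j - i) = l * Real.exp (o l (j - (i + 1))) := by
        rw [e1, o_succ]; rfl
      rw [e2] at h1
      have ho := fu_o_nonneg hl0 (j - (i + 1))
      have hexp : 1 ≤ Real.exp (o l (j - (i + 1))) := Real.one_le_exp ho
      have hC2p : 0 < C2 := by simp only [hC2]; positivity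
      have h3 : ‖(F l)^[i + 1] b‖ ≤ (2 * l + C2) * Real.exp (o l (j - (i + 1))) := by
        refine h1.trans ?_
        nlinarith
      have h4 := Real.log_le_log (hnp (i + 1)) h3
      rw [Real.log_mul (by positivity) (Real.exp_pos _).ne', Real.log_exp] at h4
      have h5 := fu_log_le (show 0 < 2 * l + C2 by positivity)
      simp only [hC2] at h4 h5 ⊢
      linarith
  -- logarithms
  have hlogi : ∀ i, i < j → Real.log ‖(F l)^[i + 1] b‖ ≤ 2 * (o l (j - 1 - i) + (C2 + |lam|)) := by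
    intro i hi
    have h0 := fu_o_nonneg hl0 (j - 1 - i)
    have hC2p : 2 ≤ C2 := by simp only [hC2]; linarith
    have h1 := hre (i + 1)
    have h2 : ((F l)^[i + 1 + 1] b).re ≤ 2 * o l (j - 1 - i) + C2 := by
      rcases Nat.lt_or_ge (i + 1) j with h3 | h3
      · refine (Complex.re_le_norm _).trans ((hbd (i + 1) (by omega)).trans ?_)
        rw [show j - (i + 1) = j - 1 - i by omega]
      · have e3 : i + 1 + 1 = j + 1 := by omega
        rw [e3]
        refine (Complex.re_le_norm _).trans (hlast.trans ?_)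
        linarith
    linarith
  have hsum : ∑ i ∈ Finset.range (j + 1), Real.log ‖(F l)^[i] b‖ ≤
      (2 + lam + o l j + Real.sqrt (o l j) / 4) + 2 * (1 / 10 * o l j) := by
    rw [Finset.sum_range_succ']
    have h1 : ∑ i ∈ Finset.range j, Real.log ‖(F l)^[i + 1] b‖ ≤
        ∑ i ∈ Finset.range j, 2 * (o l (j - 1 - i) + (C2 + |lam|)) :=
      Finset.sum_le_sum fun i hi => hlogi i (Finset.mem_range.1 hi)
    have h2 : ∑ i ∈ Finset.range j, 2 * (o l (j - 1 - i) + (C2 + |lam|)) =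
        2 * ∑ i ∈ Finset.range j, (o l i + (C2 + |lam|)) := by
      rw [Finset.mul_sum]
      exact Finset.sum_range_reflect (fun i => 2 * (o l i + (C2 + |lam|))) j
    rw [h2] at h1
    rw [Finset.sum_range_succ] at hS
    have hC2p : 0 < C2 := by simp only [hC2]; positivity
    have h3 : Real.log ‖(F l)^[0] b‖ ≤ 2 + lam + o l j + Real.sqrt (o l j) / 4 := hlogb
    have h4 : ∑ i ∈ Finset.range j, (o l i + (C2 + |lam|)) ≤ 1 / 10 * o l j := by linarith
    linarith
  -- conclusion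
  have hfin1 : -Real.log ‖(F l)^[j + 1] b‖ ≤
      (2 + lam + o l j + Real.sqrt (o l j) / 4) + 2 * (1 / 10 * o l j) := by
    have h1 := hprod (j + 1)
    have h2 : ((F l)^[j + 1] b).im ≤ ‖(F l)^[j + 1] b‖ :=
      (le_abs_self _).trans (Complex.abs_im_le_norm _)
    have h3 := Real.log_le_log (him (j + 1)) h2
    linarith
  have hneg : Real.log ‖(F l)^[j + 1] b‖ ≤ 0 := Real.log_nonpos (norm_nonneg _) hlast
  have hF := fu_norm_F hl0 _ (hne (j + 1))
  rw [show j + 2 = (j + 1) + 1 by rfl, Function.iterate_succ_apply']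
  have habs : |Real.log ‖(F l)^[j + 1] b‖ - Real.log l| ≤
      -Real.log ‖(F l)^[j + 1] b‖ + |lam| := by
    have h1 := abs_sub (Real.log ‖(F l)^[j + 1] b‖) (Real.log l)
    rw [abs_of_nonpos hneg] at h1
    exact h1
  linarith


end J4613

section J4620

theorem foldL {l : ℝ} (hl : Real.exp (-1) < l) : ∃ (C : ℝ) (j0 : ℕ), 1 ≤ C ∧
    ∀ (j : ℕ) (ξ : ℝ) (b : ℂ), j0 ≤ j → |ξ| ≤ 1 / 2 → 0 < b.im →
    ‖b - ((e l)^[j] ξ : ℝ)‖ ≤ (e l)^[j] ξ / 4 →
    ‖(F l)^[j] b‖ ≤ |ξ| + C * ‖b - ((e l)^[j] ξ : ℝ)‖ / (e l)^[j] ξ := by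
  obtain ⟨C, hC1, hC⟩ := Fit_deriv_C hl
  obtain ⟨j0, hj0⟩ := halfbd hl
  refine ⟨4 * C / 3, max j0 1, by linarith, ?_⟩
  intro j ξ b hj hξ hb hbv
  obtain ⟨h1, h2⟩ := hj0 j (le_trans (le_max_left _ _) hj) ξ hξ
  obtain ⟨i, rfl⟩ : ∃ i, j = i + 1 := ⟨j - 1, by
    have := le_trans (le_max_right _ _) hj
    omega⟩
  set v : ℝ := (e l)^[i + 1] ξ with hv
  have hv0 : 2 ≤ v := by linarith
  have hvpos : 0 < v := by linarith
  set S : Set ℂ := {p | 0 < p.im ∧ |p.re - v| ≤ v / 4} with hS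
  have hconv : Convex ℝ S := by
    intro p hp q hq a c ha hc hac
    obtain ⟨hp1, hp2⟩ := hp
    obtain ⟨hq1, hq2⟩ := hq
    rw [abs_le] at hp2 hq2
    refine ⟨?_, ?_⟩
    · have him : (a • p + c • q).im = a * p.im + c * q.im := by simp
      rw [him]
      rcases ha.lt_or_eq with ha' | ha'
      · have : 0 < a * p.im := mul_pos ha' hp1
        have : 0 ≤ c * q.im := mul_nonneg hc hq1.le
        linarith
      · rw [← ha'] at hac ⊢
        have : c = 1 := by linarith
        rw [this]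
        linarith
    · have hre : (a • p + c • q).re = a * p.re + c * q.re := by simp
      rw [hre, abs_le]
      have e1 : a * p.re + c * q.re - v = a * (p.re - v) + c * (q.re - v) := by
        linear_combination v * hac
      have e2 : a * (v / 4) + c * (v / 4) = v / 4 := by
        linear_combination (v / 4) * hac
      rw [e1]
      constructor
      · have := mul_le_mul_of_nonneg_left hp2.1 ha
        have := mul_le_mul_of_nonneg_left hq2.1 hc
        linarith
      · have := mul_le_mul_of_nonneg_left hp2.2 ha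
        have := mul_le_mul_of_nonneg_left hq2.2 hc
        linarith
  have hder : ∀ p ∈ S, HasDerivWithinAt ((F l)^[i + 1]) (deriv ((F l)^[i + 1]) p) S p ∧
      ‖deriv ((F l)^[i + 1]) p‖ ≤ 4 * C / (3 * v) := by
    rintro p ⟨hp1, hp2⟩
    rw [abs_le] at hp2
    obtain ⟨d, hd1, hd2⟩ := hC i p hp1 (by linarith)
    rw [hd1.deriv]
    refine ⟨hd1.hasDerivWithinAt, hd2.trans ?_⟩
    have h3 : 3 * v / 4 ≤ ‖p‖ := by
      have := Complex.re_le_norm p
      linarith
    calc C / ‖p‖ ≤ C / (3 * v / 4) := by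
          apply div_le_div_of_nonneg_left (by linarith) (by positivity) h3
      _ = 4 * C / (3 * v) := by field_simp
  have hbS : b ∈ S := by
    refine ⟨hb, ?_⟩
    have h3 := Complex.abs_re_le_norm (b - (v : ℂ))
    rw [Complex.sub_re, Complex.ofReal_re] at h3
    exact h3.trans hbv
  have hmv : ∀ s : ℝ, 0 < s → ‖(F l)^[i + 1] b - (F l)^[i + 1] ((v : ℂ) + (s : ℂ) * I)‖ ≤
      4 * C / (3 * v) * ‖b - ((v : ℂ) + (s : ℂ) * I)‖ := by
    intro s hs
    have hsS : (v : ℂ) + (s : ℂ) * I ∈ S := by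
      refine ⟨by simpa using hs, ?_⟩
      have : ((v : ℂ) + (s : ℂ) * I).re - v = 0 := by simp
      rw [this, abs_zero]
      positivity
    exact hconv.norm_image_sub_le_of_norm_hasDerivWithin_le (fun p hp => (hder p hp).1)
      (fun p hp => (hder p hp).2) hsS hbS
  have hlim1 : Filter.Tendsto
      (fun s : ℝ => ‖(F l)^[i + 1] b - (F l)^[i + 1] ((v : ℂ) + (s : ℂ) * I)‖)
      (nhdsWithin 0 (Set.Ioi 0)) (nhds ‖(F l)^[i + 1] b - (ξ : ℂ)‖) :=
    (tendsto_const_nhds.sub (Fit_tendsto_real' (l_pos hl) (i + 1) ξ)).norm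
  have hlim2 : Filter.Tendsto
      (fun s : ℝ => 4 * C / (3 * v) * ‖b - ((v : ℂ) + (s : ℂ) * I)‖)
      (nhdsWithin 0 (Set.Ioi 0)) (nhds (4 * C / (3 * v) * ‖b - (v : ℂ)‖)) := by
    have hcont : Continuous fun s : ℝ => 4 * C / (3 * v) * ‖b - ((v : ℂ) + (s : ℂ) * I)‖ := by
      fun_prop
    have := hcont.tendsto 0
    simp only [Complex.ofReal_zero, zero_mul, add_zero] at this
    exact this.mono_left nhdsWithin_le_nhds
  have hfin : ‖(F l)^[i + 1] b - (ξ : ℂ)‖ ≤ 4 * C / (3 * v) * ‖b - (v : ℂ)‖ :=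
    le_of_tendsto_of_tendsto hlim1 hlim2
      (Filter.eventually_of_mem self_mem_nhdsWithin fun s hs => hmv s hs)
  calc ‖(F l)^[i + 1] b‖ = ‖(ξ : ℂ) + ((F l)^[i + 1] b - (ξ : ℂ))‖ := by
        congr 1
        ring
    _ ≤ ‖(ξ : ℂ)‖ + ‖(F l)^[i + 1] b - (ξ : ℂ)‖ := norm_add_le _ _
    _ ≤ |ξ| + 4 * C / (3 * v) * ‖b - (v : ℂ)‖ := by
        rw [Complex.norm_real, Real.norm_eq_abs]
        gcongr
    _ = |ξ| + 4 * C / 3 * ‖b - (v : ℂ)‖ / v := by
        congr 1
        field_simp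

end J4620

section J4627

theorem realX_step {l : ℝ} (hl : 0 < l) {x y : ℝ} (n : ℕ) (hxy : x ≤ y) :
    (∏ i ∈ Finset.range n, (e l)^[i + 1] x) * (y - x) ≤ (e l)^[n] y - (e l)^[n] x := by
  induction n with
  | zero => simp
  | succ n ih =>
    have hm : (e l)^[n] x ≤ (e l)^[n] y := (eit_strictMono hl n).monotone hxy
    rw [Finset.prod_range_succ]
    have h1 : (e l)^[n + 1] x * ((e l)^[n] y - (e l)^[n] x)
        ≤ (e l)^[n + 1] y - (e l)^[n + 1] x := by
      rw [Function.iterate_succ_apply', Function.iterate_succ_apply']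
      generalize (e l)^[n] x = a
      generalize (e l)^[n] y = b
      unfold e
      have h2 : b - a + 1 ≤ Real.exp (b - a) := Real.add_one_le_exp _
      have h3 : Real.exp b = Real.exp a * Real.exp (b - a) := by
        rw [← Real.exp_add]
        congr 1
        ring
      rw [h3]
      have h4 : 0 < Real.exp a := Real.exp_pos a
      have h5 : l * Real.exp a * (b - a) ≤ l * Real.exp a * (Real.exp (b - a) - 1) :=
        mul_le_mul_of_nonneg_left (by linarith) (by positivity)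
      linarith
    have hp : 0 < (e l)^[n + 1] x := by
      rw [Function.iterate_succ_apply']
      exact e_pos hl _
    calc (∏ i ∈ Finset.range n, (e l)^[i + 1] x) * (e l)^[n + 1] x * (y - x)
        = (e l)^[n + 1] x * ((∏ i ∈ Finset.range n, (e l)^[i + 1] x) * (y - x)) := by ring
      _ ≤ (e l)^[n + 1] x * ((e l)^[n] y - (e l)^[n] x) :=
          mul_le_mul_of_nonneg_left ih hp.le
      _ ≤ _ := h1

theorem realX_low {l : ℝ} (hl : Real.exp (-1) < l) : ∃ c : ℝ, 0 < c ∧
    ∀ n, c ≤ ∏ i ∈ Finset.range n, (e l)^[i + 1] (-1) := by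
  have hl0 := l_pos hl
  have hpos : ∀ i, 0 < (e l)^[i + 1] (-1) := by
    intro i
    rw [Function.iterate_succ_apply']
    exact e_pos hl0 _
  have hP : ∀ n, 0 < ∏ i ∈ Finset.range n, (e l)^[i + 1] (-1) := fun n =>
    Finset.prod_pos fun i _ => hpos i
  obtain ⟨N, hN⟩ := Filter.eventually_atTop.1 ((eit_tendsto hl (-1)).eventually_ge_atTop 1)
  have hmono : ∀ n, N ≤ n → ∏ i ∈ Finset.range N, (e l)^[i + 1] (-1)
      ≤ ∏ i ∈ Finset.range n, (e l)^[i + 1] (-1) := by
    intro n hn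
    induction n, hn using Nat.le_induction with
    | base => exact le_refl _
    | succ n hn ih =>
      rw [Finset.prod_range_succ]
      refine ih.trans ?_
      exact le_mul_of_one_le_right (hP n).le (hN (n + 1) (by omega))
  obtain ⟨n0, _, hn0⟩ := Finset.exists_min_image (Finset.range (N + 1))
    (fun n => ∏ i ∈ Finset.range n, (e l)^[i + 1] (-1)) ⟨0, by simp⟩
  refine ⟨∏ i ∈ Finset.range n0, (e l)^[i + 1] (-1), hP n0, fun n => ?_⟩
  by_cases h : n ≤ N
  · exact hn0 n (Finset.mem_range.2 (by omega))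
  · exact (hn0 N (Finset.mem_range.2 (by omega))).trans (hmono n (by omega))

theorem realX_main {l : ℝ} (hl : Real.exp (-1) < l) {c : ℝ} (hc : 0 < c)
    (hlow : ∀ n, c ≤ ∏ i ∈ Finset.range n, (e l)^[i + 1] (-1)) {x y : ℝ} (hx : -1 ≤ x)
    (hxy : x ≤ y) (n : ℕ) :
    c * (e l)^[n + 1] x * (y - x) ≤ (e l)^[n + 1] y - (e l)^[n + 1] x := by
  have hl0 := l_pos hl
  refine le_trans ?_ (realX_step hl0 (n + 1) hxy)
  have hp : ∀ i (z : ℝ), 0 < (e l)^[i + 1] z := by
    intro i z
    rw [Function.iterate_succ_apply']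
    exact e_pos hl0 _
  have h1 : c ≤ ∏ i ∈ Finset.range n, (e l)^[i + 1] x := by
    refine (hlow n).trans (Finset.prod_le_prod (fun i _ => (hp i _).le) fun i _ => ?_)
    exact (eit_strictMono hl0 (i + 1)).monotone hx
  rw [Finset.prod_range_succ]
  have h2 := hp n x
  have h3 : 0 ≤ y - x := by linarith
  gcongr

theorem realX {l : ℝ} (hl : Real.exp (-1) < l) : ∃ (C : ℝ) (j0 : ℕ), 1 ≤ C ∧
    ∀ (j : ℕ) (ξ : ℝ), j0 ≤ j → |ξ| ≤ 1 / 2 →
    |ξ| ≤ C * |(e l)^[j] ξ - o l j| / min ((e l)^[j] ξ) (o l j) := by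
  have hl0 := l_pos hl
  obtain ⟨c, hc, hlow⟩ := realX_low hl
  refine ⟨max 1 (1 / c), 1, le_max_left _ _, ?_⟩
  intro j ξ hj hξ
  obtain ⟨n, rfl⟩ : ∃ n, j = n + 1 := ⟨j - 1, by omega⟩
  have hp : ∀ i (z : ℝ), 0 < (e l)^[i + 1] z := by
    intro i z
    rw [Function.iterate_succ_apply']
    exact e_pos hl0 _
  unfold o
  have hmin : 0 < min ((e l)^[n + 1] ξ) ((e l)^[n + 1] 0) := lt_min (hp n ξ) (hp n 0)
  rw [abs_le] at hξ
  have key : c * min ((e l)^[n + 1] ξ) ((e l)^[n + 1] 0) * |ξ|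
      ≤ |(e l)^[n + 1] ξ - (e l)^[n + 1] 0| := by
    rcases le_total 0 ξ with h | h
    · have h1 := realX_main hl hc hlow (x := 0) (y := ξ) (by norm_num) h n
      have h2 : (e l)^[n + 1] 0 ≤ (e l)^[n + 1] ξ := (eit_strictMono hl0 (n + 1)).monotone h
      rw [min_eq_right h2, abs_of_nonneg h, abs_of_nonneg (by linarith)]
      simpa using h1
    · have h1 := realX_main hl hc hlow (x := ξ) (y := 0) (by linarith) h n
      have h2 : (e l)^[n + 1] ξ ≤ (e l)^[n + 1] 0 := (eit_strictMono hl0 (n + 1)).monotone h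
      rw [min_eq_left h2, abs_of_nonpos h, abs_of_nonpos (by linarith)]
      simp only [zero_sub] at h1
      linarith
  rw [le_div_iff₀ hmin]
  have h3 : |ξ| * min ((e l)^[n + 1] ξ) ((e l)^[n + 1] 0)
      ≤ 1 / c * |(e l)^[n + 1] ξ - (e l)^[n + 1] 0| := by
    rw [one_div, ← div_eq_inv_mul, le_div_iff₀ hc]
    linarith
  refine h3.trans ?_
  gcongr
  exact le_max_right _ _

end J4627

section J4636

theorem upW {l : ℝ} (hl : Real.exp (-1) < l) : ∃ j0 : ℕ, ∀ j, j0 ≤ j → ∀ ξ : ℝ,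
    1 ≤ |(e l)^[j + 1] ξ - o l (j + 1)| → -Real.log |ξ| ≤ 2 * o l j := by
  have hl0 := l_pos hl
  set C : ℝ := |Real.log (2 * l)| with hC
  have hC0 : 0 ≤ C := abs_nonneg _
  have ho0 : ∀ i, 0 ≤ o l i := by
    intro i
    have h0 : o l 0 = 0 := rfl
    rw [← h0]
    exact (o_strictMono hl).monotone (Nat.zero_le i)
  obtain ⟨j0, hj0⟩ := osum hl C
  refine ⟨j0, ?_⟩
  intro j hj ξ h1
  by_contra hcon
  push Not at hcon
  have hξ0 : ξ ≠ 0 := by
    rintro rfl
    simp at hcon
    have := ho0 j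
    linarith
  have hξ : |ξ| < Real.exp (-(2 * o l j)) := by
    rw [← Real.log_lt_iff_lt_exp (abs_pos.2 hξ0)]
    linarith
  have hS := hj0 j hj
  have hsum : ∀ i, i ≤ j + 1 → ∑ k ∈ Finset.range i, (o l k + C) ≤ 11 / 10 * o l j := by
    intro i hi
    refine le_trans ?_ hS
    apply Finset.sum_le_sum_of_subset_of_nonneg
    · intro x hx
      rw [Finset.mem_range] at hx ⊢
      omega
    · intro k _ _
      have := ho0 k
      linarith
  have hlt : ∀ i, i ≤ j + 1 → |ξ| * Real.exp (∑ k ∈ Finset.range i, (o l k + C)) < 1 := by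
    intro i hi
    have h2 : Real.exp (∑ k ∈ Finset.range i, (o l k + C)) ≤ Real.exp (11 / 10 * o l j) :=
      Real.exp_le_exp.2 (hsum i hi)
    calc |ξ| * Real.exp (∑ k ∈ Finset.range i, (o l k + C)) ≤ |ξ| * Real.exp (11 / 10 * o l j) :=
          mul_le_mul_of_nonneg_left h2 (abs_nonneg _)
      _ < Real.exp (-(2 * o l j)) * Real.exp (11 / 10 * o l j) :=
          mul_lt_mul_of_pos_right hξ (Real.exp_pos _)
      _ = Real.exp (-(9 / 10 * o l j)) := by
          rw [← Real.exp_add]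
          congr 1
          ring
      _ ≤ 1 := by
          rw [Real.exp_le_one_iff]
          have := ho0 j
          linarith
  have hmain : ∀ i, i ≤ j + 1 → |(e l)^[i] ξ - o l i| ≤
      |ξ| * Real.exp (∑ k ∈ Finset.range i, (o l k + C)) := by
    intro i
    induction i with
    | zero =>
      intro _
      have h0 : o l 0 = 0 := rfl
      rw [h0]
      simp
    | succ i ih =>
      intro hi
      have h2 := ih (by omega)
      have h3 := hlt i (by omega)
      set t := (e l)^[i] ξ - o l i with ht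
      have h4 : (e l)^[i + 1] ξ - o l (i + 1) = l * Real.exp (o l i) * (Real.exp t - 1) := by
        rw [Function.iterate_succ_apply', o_succ]
        unfold e
        have : (e l)^[i] ξ = o l i + t := by rw [ht]; ring
        show l * Real.exp ((e l)^[i] ξ) - l * Real.exp (o l i) = _
        rw [this, Real.exp_add]
        ring
      have h5 : |Real.exp t - 1| ≤ 2 * |t| := Real.abs_exp_sub_one_le (h2.trans h3.le)
      have h6 : 2 * l ≤ Real.exp C := by
        have : 2 * l = Real.exp (Real.log (2 * l)) := (Real.exp_log (by positivity)).symm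
        rw [this]
        exact Real.exp_le_exp.2 (le_abs_self _)
      rw [h4, abs_mul, abs_of_pos (by positivity)]
      calc l * Real.exp (o l i) * |Real.exp t - 1| ≤ l * Real.exp (o l i) * (2 * |t|) :=
            mul_le_mul_of_nonneg_left h5 (by positivity)
        _ = (2 * l) * Real.exp (o l i) * |t| := by ring
        _ ≤ Real.exp C * Real.exp (o l i) * (|ξ| * Real.exp (∑ k ∈ Finset.range i, (o l k + C))) := by
            apply mul_le_mul _ h2 (abs_nonneg _) (by positivity)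
            exact mul_le_mul_of_nonneg_right h6 (Real.exp_pos _).le
        _ = |ξ| * Real.exp (∑ k ∈ Finset.range (i + 1), (o l k + C)) := by
            rw [Finset.sum_range_succ, Real.exp_add, Real.exp_add]
            ring
  have h7 := hmain (j + 1) le_rfl
  have h8 := hlt (j + 1) le_rfl
  linarith

end J4636

end Pool.Agent.Helper734.EX
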