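import Pool.Agent.Helper115.EXC.M2

set_option autoImplicit false

namespace Pool.Agent.Helper734.EX

open Complex

section J4637

theorem growcmp_aux {l : ℝ} (hl0 : 0 < l) (C : ℝ) (hC : 1 ≤ C) : ∃ T : ℝ, ∀ t, T ≤ t →
    C * Real.exp (Real.sqrt ((2 * t + C) / l)) ≤ Real.sqrt l * Real.exp (t / 2) ∧
    C * Real.exp (Real.sqrt ((2 * t + C) / l)) ≤ l * Real.exp (t - 1) := by
  have hsl : 0 < Real.sqrt l := Real.sqrt_pos.2 hl0
  obtain ⟨T1, hT1⟩ : ∃ T : ℝ, ∀ t, T ≤ t → C * Real.exp (C / 8 + 2 / l) / Real.sqrt l ≤ t := 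
    ⟨_, fun t ht => ht⟩
  obtain ⟨T2, hT2⟩ : ∃ T : ℝ, ∀ t, T ≤ t → C * Real.exp (C / 8 + 2 / l + 1) / l ≤ t := 
    ⟨_, fun t ht => ht⟩
  refine ⟨max (max (4 * T1) (2 * T2)) 1, fun t ht => ?_⟩
  have ht1 : T1 ≤ t / 4 := by
    have := (le_max_left (4 * T1) (2 * T2)).trans ((le_max_left _ _).trans ht); linarith
  have ht2 : T2 ≤ t / 2 := by
    have := (le_max_right (4 * T1) (2 * T2)).trans ((le_max_left _ _).trans ht); linarith
  have ht0 : 1 ≤ t := (le_max_right _ _).trans ht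
  have hu : 0 ≤ (2 * t + C) / l := by positivity
  have hs : Real.sqrt ((2 * t + C) / l) ≤ t / 4 + (C / 8 + 2 / l) := by
    have hb : 0 ≤ t / 4 + (C / 8 + 2 / l) := by positivity
    rw [Real.sqrt_le_left hb]
    have h1 : (t / 4 + (C / 8 + 2 / l)) ^ 2 - (2 * t + C) / l
        = ((t / 4 + C / 8) - 2 / l) ^ 2 := by
      field_simp; ring
    nlinarith [sq_nonneg ((t / 4 + C / 8) - 2 / l)]
  have he : Real.exp (Real.sqrt ((2 * t + C) / l)) ≤
      Real.exp (t / 4) * Real.exp (C / 8 + 2 / l) := by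
    rw [← Real.exp_add]; exact Real.exp_le_exp.2 hs
  have hC0 : 0 < C := by linarith
  have hm : C * Real.exp (Real.sqrt ((2 * t + C) / l)) ≤
      Real.exp (t / 4) * (C * Real.exp (C / 8 + 2 / l)) := by
    calc C * Real.exp (Real.sqrt ((2 * t + C) / l)) 
        ≤ C * (Real.exp (t / 4) * Real.exp (C / 8 + 2 / l)) := mul_le_mul_of_nonneg_left he hC0.le
      _ = _ := by ring
  constructor
  · have h2 := hT1 _ ht1
    rw [div_le_iff₀ hsl] at h2
    have h3 : t / 4 ≤ Real.exp (t / 4) := by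
      have := Real.add_one_le_exp (t / 4); linarith
    have h4 : C * Real.exp (C / 8 + 2 / l) ≤ Real.exp (t / 4) * Real.sqrt l :=
      h2.trans (mul_le_mul_of_nonneg_right h3 hsl.le)
    calc C * Real.exp (Real.sqrt ((2 * t + C) / l)) 
        ≤ Real.exp (t / 4) * (C * Real.exp (C / 8 + 2 / l)) := hm
      _ ≤ Real.exp (t / 4) * (Real.exp (t / 4) * Real.sqrt l) := 
          mul_le_mul_of_nonneg_left h4 (Real.exp_pos _).le
      _ = Real.sqrt l * Real.exp (t / 2) := by
          rw [← mul_assoc, ← Real.exp_add, mul_comm]; congr 2; ring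
  · have h2 := hT2 _ ht2
    rw [div_le_iff₀ hl0] at h2
    have h3 : t / 2 ≤ Real.exp (t / 2) := by
      have := Real.add_one_le_exp (t / 2); linarith
    have h4 : C * Real.exp (C / 8 + 2 / l + 1) ≤ Real.exp (t / 2) * l :=
      h2.trans (mul_le_mul_of_nonneg_right h3 hl0.le)
    have h5 : C * Real.exp (C / 8 + 2 / l) ≤ Real.exp (t / 2 - 1) * l := by
      have h6 : Real.exp (C / 8 + 2 / l) = Real.exp (C / 8 + 2 / l + 1) * Real.exp (-1) := by
        rw [← Real.exp_add]; congr 1; ring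
      have h7 : Real.exp (t / 2 - 1) = Real.exp (t / 2) * Real.exp (-1) := by
        rw [← Real.exp_add]; congr 1
      rw [h6, h7]
      nlinarith [Real.exp_pos (-1), mul_le_mul_of_nonneg_right h4 (Real.exp_pos (-1)).le]
    calc C * Real.exp (Real.sqrt ((2 * t + C) / l)) 
        ≤ Real.exp (t / 4) * (C * Real.exp (C / 8 + 2 / l)) := hm
      _ ≤ Real.exp (t / 4) * (Real.exp (t / 2 - 1) * l) := 
          mul_le_mul_of_nonneg_left h5 (Real.exp_pos _).le
      _ = l * Real.exp (t / 4 + (t / 2 - 1)) := by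
          rw [← mul_assoc, ← Real.exp_add, mul_comm]
      _ ≤ l * Real.exp (t - 1) := by
          refine mul_le_mul_of_nonneg_left (Real.exp_le_exp.2 ?_) hl0.le
          linarith

theorem growcmp {l : ℝ} (hl : Real.exp (-1) < l) (C : ℝ) (hC : 1 ≤ C) : ∃ r : ℝ, 0 < r ∧
    ∀ (j : ℕ) (ξ : ℝ), ξ ≠ 0 → |ξ| ≤ r → 1 ≤ |(e l)^[j] ξ - o l j| →
    Real.sqrt (o l j) ≤ |(e l)^[j] ξ - o l j| →
    C * Real.exp (Real.sqrt ((-Real.log |ξ| + C) / l)) ≤
      min |(e l)^[j] ξ - o l j| ((e l)^[j] ξ) := by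
  have hl0 := l_pos hl
  obtain ⟨T, hT⟩ := growcmp_aux hl0 C hC
  obtain ⟨j0, hj0⟩ := upW hl
  obtain ⟨k1, hk1⟩ := Filter.eventually_atTop.1 ((o_tendsto hl).eventually_ge_atTop T)
  set k0 := max j0 k1 with hk0
  -- choice of r
  have hr : ∀ k : ℕ, ∃ r : ℝ, 0 < r ∧ ∀ i, i ≤ k → ∀ ξ : ℝ, |ξ| ≤ r →
      |(e l)^[i] ξ - o l i| < 1 := by
    intro k
    induction k with
    | zero =>
      refine ⟨1/2, by norm_num, fun i hi ξ hξ => ?_⟩
      have : i = 0 := by omega
      subst this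
      simp only [o, Function.iterate_zero, id_eq, sub_zero]
      linarith
    | succ k ih =>
      obtain ⟨r, hr0, hr⟩ := ih
      have hc := (eit_cont l (k+1)).continuousAt (x := (0:ℝ))
      rw [Metric.continuousAt_iff] at hc
      obtain ⟨δ, hδ0, hδ⟩ := hc 1 one_pos
      refine ⟨min r (δ/2), lt_min hr0 (by linarith), fun i hi ξ hξ => ?_⟩
      rcases Nat.lt_or_ge i (k+1) with h | h
      · exact hr i (by omega) ξ (hξ.trans (min_le_left _ _))
      · have : i = k + 1 := by omega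
        subst this
        have h1 : dist ξ 0 < δ := by
          rw [Real.dist_eq, sub_zero]
          have := hξ.trans (min_le_right _ _); linarith
        have := hδ h1
        rw [Real.dist_eq] at this
        exact this
  obtain ⟨r, hr0, hr⟩ := hr k0
  refine ⟨r, hr0, fun j ξ hξ0 hξr hW1 hWs => ?_⟩
  -- first time
  have hex : ∃ i, 1 ≤ |(e l)^[i] ξ - o l i| := ⟨j, hW1⟩
  classical
  set i1 := Nat.find hex with hi1
  have hi1s : 1 ≤ |(e l)^[i1] ξ - o l i1| := Nat.find_spec hex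
  have hi1j : i1 ≤ j := Nat.find_min' hex hW1
  have hi1k : k0 < i1 := by
    by_contra hcon
    have := hr i1 (by omega) ξ hξr
    linarith
  obtain ⟨i', hi'⟩ : ∃ i', i1 = i' + 1 := ⟨i1 - 1, by omega⟩
  have hi'k : k0 ≤ i' := by omega
  have hlt : |(e l)^[i'] ξ - o l i'| < 1 := by
    have := Nat.find_min hex (m := i') (by omega)
    exact not_le.1 this
  have hup : -Real.log |ξ| ≤ 2 * o l i' := by
    refine hj0 i' ((le_max_left _ _).trans hi'k) ξ ?_
    rw [← hi']; exact hi1s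
  have hoT : T ≤ o l i' := hk1 i' ((le_max_right _ _).trans hi'k)
  obtain ⟨hA, hB⟩ := hT _ hoT
  have hL : C * Real.exp (Real.sqrt ((-Real.log |ξ| + C) / l)) ≤
      C * Real.exp (Real.sqrt ((2 * o l i' + C) / l)) := by
    refine mul_le_mul_of_nonneg_left (Real.exp_le_exp.2 (Real.sqrt_le_sqrt ?_)) (by linarith)
    gcongr
  refine hL.trans (le_min ?_ ?_)
  · refine hA.trans (le_trans ?_ hWs)
    have h1 : o l i1 ≤ o l j := (o_strictMono hl).monotone hi1j
    have h2 : o l i1 = l * Real.exp (o l i') := by rw [hi', o_succ]; rfl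
    have h3 : Real.sqrt l * Real.exp (o l i' / 2) = Real.sqrt (o l i1) := by
      rw [h2, Real.sqrt_mul hl0.le, Real.sqrt_eq_rpow (Real.exp _), ← Real.exp_mul]
      congr 2; ring
    rw [h3]
    exact Real.sqrt_le_sqrt h1
  · refine hB.trans ?_
    have hx : o l i' - 1 ≤ (e l)^[i'] ξ := by
      have := (abs_lt.1 hlt).1; linarith
    have h1 : l * Real.exp (o l i' - 1) ≤ (e l)^[i1] ξ := by
      rw [hi', Function.iterate_succ_apply']
      exact mul_le_mul_of_nonneg_left (Real.exp_le_exp.2 hx) hl0.le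
    refine h1.trans ?_
    have hmono : Monotone (fun n => (e l)^[n] ξ) := by
      refine monotone_nat_of_le_succ fun n => ?_
      rw [Function.iterate_succ_apply']
      have := e_gt hl0 ((e l)^[n] ξ)
      have := dlt_pos hl
      linarith
    exact hmono hi1j

end J4637

section J4638

theorem contr {l : ℝ} (hl : Real.exp (-1) < l) : ∃ (r0 R0 : ℝ) (j0 : ℕ), 0 < r0 ∧
    ∀ (j : ℕ) (b b' : ℂ), j0 ≤ j → 1 ≤ b.im → 1 ≤ b'.im → R0 ≤ b.re →
    (e l)^[j] (-1) ≤ b.re - 10 → ‖b - b'‖ ≤ 10 → ‖(F l)^[j] b‖ ≤ r0 →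
    ‖(F l)^[j + 2] b - (F l)^[j + 2] b'‖ ≤ 1 / 2 * ‖b - b'‖ := by
  obtain ⟨C, hC1, hC⟩ := Fit_deriv_C hl
  have hl0 := l_pos hl
  have hC0 : 0 < C := by linarith
  set r0 : ℝ := l * Real.exp (-(2 * Real.pi)) / 2 with hr0
  have hr0p : 0 < r0 := by positivity
  refine ⟨r0, 10 + (1 + 10 * C / r0), 1, hr0p, fun j b b' hj hb hb' hR hj1 hbb hFb => ?_⟩
  obtain ⟨i, rfl⟩ : ∃ i, j = i + 1 := ⟨j - 1, by omega⟩
  have hq : 0 < 10 * C / r0 := by positivity
  -- the segment
  have hseg : ∀ p ∈ segment ℝ b b', 1 ≤ p.im ∧ ‖p - b‖ ≤ 10 ∧ b.re - 10 ≤ p.re := by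
    intro p hp
    obtain ⟨s, t, hs, ht, hst, rfl⟩ := hp
    have h1 : ‖s • b + t • b' - b‖ ≤ 10 := by
      have e1 : s • b + t • b' - b = t • (b' - b) := by
        have : s = 1 - t := by linarith
        rw [this, sub_smul, one_smul, smul_sub]
        abel
      rw [e1, norm_smul, Real.norm_of_nonneg ht, norm_sub_rev]
      have ht1 : t ≤ 1 := by linarith
      calc t * ‖b - b'‖ ≤ 1 * ‖b - b'‖ := by gcongr
        _ ≤ 10 := by linarith
    refine ⟨?_, h1, ?_⟩
    · have e2 : (s • b + t • b').im = s * b.im + t * b'.im := by simp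
      rw [e2]
      nlinarith
    · have h2 := (abs_le.1 ((Complex.abs_re_le_norm (s • b + t • b' - b)).trans h1)).1
      rw [Complex.sub_re] at h2
      linarith
  have hnorm : ∀ p ∈ segment ℝ b b', 1 + 10 * C / r0 ≤ ‖p‖ := by
    intro p hp
    have h1 := (hseg p hp).2.2
    have h2 := (le_abs_self _).trans (Complex.abs_re_le_norm p)
    linarith
  -- first step
  have hd1 : ∀ p ∈ segment ℝ b b', HasDerivWithinAt ((F l)^[i + 1]) (deriv ((F l)^[i + 1]) p)
      (segment ℝ b b') p ∧ ‖deriv ((F l)^[i + 1]) p‖ ≤ r0 / 10 := by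
    intro p hp
    obtain ⟨h1, _, h3⟩ := hseg p hp
    obtain ⟨d, hd, hdn⟩ := hC i p (by linarith) (by linarith)
    refine ⟨hd.differentiableAt.hasDerivAt.hasDerivWithinAt, ?_⟩
    rw [hd.deriv]
    refine hdn.trans ?_
    have h4 := hnorm p hp
    rw [div_le_div_iff₀ (by linarith) (by norm_num)]
    have h5 : 10 * C / r0 ≤ ‖p‖ := by linarith
    rw [div_le_iff₀ hr0p] at h5
    linarith
  have hF1 : ∀ p ∈ segment ℝ b b', ‖(F l)^[i + 1] p‖ ≤ 2 * r0 := by
    intro p hp
    have h1 := Convex.norm_image_sub_le_of_norm_hasDerivWithin_le (fun x hx => (hd1 x hx).1)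
      (fun x hx => (hd1 x hx).2) (convex_segment b b') (left_mem_segment ℝ b b') hp
    have h2 := (hseg p hp).2.1
    have h3 : r0 / 10 * ‖p - b‖ ≤ r0 := by
      calc r0 / 10 * ‖p - b‖ ≤ r0 / 10 * 10 := by gcongr
        _ = r0 := by ring
    have h4 : ‖(F l)^[i + 1] p‖ ≤ ‖(F l)^[i + 1] p - (F l)^[i + 1] b‖ + ‖(F l)^[i + 1] b‖ := by
      have := norm_add_le ((F l)^[i + 1] p - (F l)^[i + 1] b) ((F l)^[i + 1] b)
      rwa [sub_add_cancel] at this
    linarith
  have hd2 : ∀ p ∈ segment ℝ b b', HasDerivWithinAt ((F l)^[i + 1 + 2])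
      (deriv ((F l)^[i + 1 + 2]) p) (segment ℝ b b') p ∧
      ‖deriv ((F l)^[i + 1 + 2]) p‖ ≤ 1 / 2 := by
    intro p hp
    obtain ⟨h1, _, h3⟩ := hseg p hp
    have hp0 : 0 < p.im := by linarith
    obtain ⟨d, hd, hdn⟩ := Fit_deriv l (i + 2) p hp0
    have hd' : HasDerivAt ((F l)^[i + 1 + 2]) d p := hd
    refine ⟨hd'.differentiableAt.hasDerivAt.hasDerivWithinAt, ?_⟩
    rw [hd'.deriv]
    refine hdn.trans ?_
    have hz0 : 0 < ((F l)^[i + 1] p).im := Fit_upper p hp0 _
    have hz1 : 0 < ((F l)^[i + 2] p).im := Fit_upper p hp0 _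
    have hne : (F l)^[i + 1] p ≠ 0 := by
      intro h; rw [h] at hz0; simp at hz0
    have hne2 : (F l)^[i + 2] p ≠ 0 := by
      intro h; rw [h] at hz1; simp at hz1
    have e1 : ((F l)^[i + 2 + 1] p).im = arg ((F l)^[i + 2] p) := by
      rw [Function.iterate_succ_apply', im_F]
    have e2 : ((F l)^[i + 2] p).im = arg ((F l)^[i + 1] p) := by
      rw [Function.iterate_succ_apply' (F l) (i + 1) p, im_F]
    have e3 : ((F l)^[i + 2] p).re = Real.log (‖(F l)^[i + 1] p‖ / l) := by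
      rw [Function.iterate_succ_apply' (F l) (i + 1) p, re_F hl0 _ hne]
    have h5 : ((F l)^[i + 2] p).re ≤ -(2 * Real.pi) := by
      rw [e3]
      have h6 : ‖(F l)^[i + 1] p‖ / l ≤ Real.exp (-(2 * Real.pi)) := by
        rw [div_le_iff₀ hl0]
        refine (hF1 p hp).trans (le_of_eq ?_)
        rw [hr0]
        ring
      have h7 : 0 < ‖(F l)^[i + 1] p‖ / l := div_pos (norm_pos_iff.2 hne) hl0
      have h8 := Real.log_le_log h7 h6
      rwa [Real.log_exp] at h8
    have h9 : 2 * Real.pi ≤ ‖(F l)^[i + 2] p‖ := by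
      have h10 := Complex.abs_re_le_norm ((F l)^[i + 2] p)
      have h11 := neg_le_abs ((F l)^[i + 2] p).re
      linarith
    have hpi := Real.pi_pos
    have h12 : Real.sin (arg ((F l)^[i + 2] p)) ≤ 1 / 2 := by
      rw [Complex.sin_arg, div_le_iff₀ (by linarith)]
      have h13 : ((F l)^[i + 2] p).im ≤ Real.pi := by rw [e2]; exact Complex.arg_le_pi _
      linarith
    rw [e1]
    rw [div_le_iff₀ hp0]
    nlinarith
  have h := Convex.norm_image_sub_le_of_norm_hasDerivWithin_le (fun x hx => (hd2 x hx).1)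
      (fun x hx => (hd2 x hx).2) (convex_segment b b') (right_mem_segment ℝ b b')
      (left_mem_segment ℝ b b')
  exact h

end J4638

section J4699

theorem Good.alpha_eit {l m R : ℝ} {α β : ℤ → ℝ → ℝ} (hG : Good l m R α β) (n : ℤ) (N : ℕ) (x : ℝ) :
    α (n + N) ((e l)^[N] x) = (e m)^[N] (α n x) := by
  induction N with
  | zero => simp
  | succ N ih =>
    rw [Function.iterate_succ_apply', Function.iterate_succ_apply', ← ih]
    have h : n + ((N + 1 : ℕ) : ℤ) = (n + N) + 1 := by push_cast; ring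
    rw [h]
    exact hG.pos (n + N) ((e l)^[N] x)

theorem Good.alpha_o {l m R : ℝ} {α β : ℤ → ℝ → ℝ} (hG : Good l m R α β) (n : ℤ) (k : ℕ) :
    α n (o l k) = o m k := by
  have h := hG.alpha_eit (n - k) k 0
  rw [hG.zero, sub_add_cancel] at h
  exact h

theorem Good.odd {l m R : ℝ} {α β : ℤ → ℝ → ℝ} (hG : Good l m R α β) (hl : Real.exp (-1) < l)
    (n : ℤ) (X : ℝ) (hX : l * Real.exp R ≤ X) : α n (-X) = -α n X := by
  have hl0 : 0 < l := (Real.exp_pos _).trans hl
  have hX0 : 0 < X := lt_of_lt_of_le (mul_pos hl0 (Real.exp_pos R)) hX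
  have hXl : X = l * Real.exp (Real.log (X / l)) := by
    rw [Real.exp_log (div_pos hX0 hl0)]
    field_simp
  have hR : R ≤ Real.log (X / l) := by
    rw [Real.le_log_iff_exp_le (div_pos hX0 hl0), le_div_iff₀ hl0, mul_comm]
    exact hX
  have h1 := hG.neg (n - 1) (Real.log (X / l))
  have h2 := hG.pos (n - 1) (Real.log (X / l))
  rw [← hXl, sub_add_cancel] at h1 h2
  rw [h1, h2, hG.right (n - 1) _ hR]

end J4699

section J4700

theorem Good.polar {l m R : ℝ} {α β : ℤ → ℝ → ℝ} (hG : Good l m R α β)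
    (hl : Real.exp (-1) < l) (hm : Real.exp (-1) < m) (M : ℝ) : ∃ r : ℝ, 0 < r ∧ ∀ (n : ℤ) (ξ : ℝ),
    ξ ≠ 0 → |ξ| ≤ r → α (n + 2) ξ ≠ 0 ∧ M ≤ Real.log (‖F l (ξ : ℂ)‖ / l) ∧
    ‖F m (((α (n + 2) ξ : ℝ)) : ℂ)‖ = m * Real.exp (α n (Real.log (‖F l (ξ : ℂ)‖ / l))) := by
  have hl0 : 0 < l := l_pos hl
  have hm0 : 0 < m := l_pos hm
  have hR := hG.hR
  set X0 : ℝ := max R (max (l * Real.exp R) (l * Real.exp M)) with hX0
  have hX1 : R ≤ X0 := le_max_left _ _
  have hX2 : l * Real.exp R ≤ X0 := le_trans (le_max_left _ _) (le_max_right _ _)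
  have hX3 : l * Real.exp M ≤ X0 := le_trans (le_max_right _ _) (le_max_right _ _)
  refine ⟨l * Real.exp (-X0), by positivity, ?_⟩
  intro n ξ hξ hξr
  have hn : n + 2 = (n + 1) + 1 := by ring
  -- X
  have habs : 0 < |ξ| := abs_pos.2 hξ
  obtain ⟨X, hX⟩ : ∃ X : ℝ, X = -Real.log (|ξ| / l) := ⟨_, rfl⟩
  have hXX0 : X0 ≤ X := by
    have h1 : Real.log (|ξ| / l) ≤ -X0 := by
      rw [Real.log_le_iff_le_exp (by positivity), div_le_iff₀ hl0]
      linarith
    linarith
  have hξX : |ξ| = l * Real.exp (-X) := by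
    rw [hX, neg_neg, Real.exp_log (by positivity)]
    field_simp
  have hXpos : 0 < X := by linarith
  have key : ∀ Y : ℝ, X ≤ Y → M ≤ Real.log (Y / l) ∧
      α (n + 1) Y = m * Real.exp (α n (Real.log (Y / l))) := by
    intro Y hY
    have hY0 : 0 < Y := by linarith
    constructor
    · rw [Real.le_log_iff_exp_le (by positivity), le_div_iff₀ hl0]
      linarith
    · have h1 := hG.pos n (Real.log (Y / l))
      rw [Real.exp_log (by positivity)] at h1
      have h2 : l * (Y / l) = Y := by field_simp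
      rw [h2] at h1
      exact h1
  rcases lt_or_gt_of_ne hξ with hneg | hpos
  · -- ξ < 0
    rw [abs_of_neg hneg] at hξX hX
    have hξe : ξ = -(l * Real.exp (-X)) := by linarith
    have hF : F l (ξ : ℂ) = ((-X : ℝ) : ℂ) + (Real.pi : ℂ) * I := by
      rw [F_neg hl0 ξ hneg]
      congr 2
      linarith
    have hnF : ‖F l (ξ : ℂ)‖ = Real.sqrt ((-X) ^ 2 + Real.pi ^ 2) := by
      rw [hF, Complex.norm_add_mul_I]
    have hYX : X ≤ Real.sqrt ((-X) ^ 2 + Real.pi ^ 2) := by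
      apply Real.le_sqrt_of_sq_le
      nlinarith [sq_nonneg Real.pi]
    obtain ⟨k1, k2⟩ := key _ hYX
    have hα : α (n + 2) ξ = -(m * Real.exp (β (n + 1) (-X))) := by
      rw [hn, hξe]
      exact hG.neg (n + 1) (-X)
    have hαneg : α (n + 2) ξ < 0 := by
      rw [hα]
      have : 0 < m * Real.exp (β (n + 1) (-X)) := by positivity
      linarith
    refine ⟨ne_of_lt hαneg, by rw [hnF]; exact k1, ?_⟩
    have hFm : F m (((α (n + 2) ξ : ℝ)) : ℂ) =
        ((β (n + 1) (-X) : ℝ) : ℂ) + (Real.pi : ℂ) * I := by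
      rw [F_neg hm0 _ hαneg]
      congr 2
      rw [hα, neg_neg, mul_div_cancel_left₀ _ (ne_of_gt hm0), Real.log_exp]
    obtain ⟨-, hleft⟩ := hG.left (n + 1) (-X) (by linarith)
    rw [hFm, Complex.norm_add_mul_I, hleft, hnF, ← k2, Real.sqrt_sq]
    rw [k2]
    positivity
  · -- ξ > 0
    rw [abs_of_pos hpos] at hξX hX
    have hF : F l (ξ : ℂ) = ((-X : ℝ) : ℂ) := by
      rw [F_pos hl0 ξ hpos]
      congr 1
      linarith
    have hnF : ‖F l (ξ : ℂ)‖ = X := by
      rw [hF, Complex.norm_real, Real.norm_eq_abs, abs_neg, abs_of_pos hXpos]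
    obtain ⟨k1, k2⟩ := key X le_rfl
    have hα : α (n + 2) ξ = m * Real.exp (α (n + 1) (-X)) := by
      rw [hn, hξX]
      exact hG.pos (n + 1) (-X)
    have hαpos : 0 < α (n + 2) ξ := by
      rw [hα]
      positivity
    refine ⟨ne_of_gt hαpos, by rw [hnF]; exact k1, ?_⟩
    have hFm : F m (((α (n + 2) ξ : ℝ)) : ℂ) = ((α (n + 1) (-X) : ℝ) : ℂ) := by
      rw [F_pos hm0 _ hαpos]
      congr 1
      rw [hα, mul_div_cancel_left₀ _ (ne_of_gt hm0), Real.log_exp]
    have hodd := Good.odd hG hl (n + 1) X (by linarith)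
    rw [hFm, Complex.norm_real, Real.norm_eq_abs, hodd, abs_neg, k2, hnF, abs_of_pos]
    positivity

end J4700

section J4701

theorem Good.small {l m R : ℝ} {α β : ℤ → ℝ → ℝ} (hG : Good l m R α β)
    (hl : Real.exp (-1) < l) (hm : Real.exp (-1) < m) : ∃ x0 : ℝ, ∀ (n : ℤ) (T : ℝ), x0 ≤ T →
    |α n (l * Real.exp (-T))| ≤ Real.exp (2 - α (n - 1) T) * m ∧
    |α n (-(l * Real.exp (-T)))| ≤ Real.exp (2 - α (n - 1) T) * m := by
  have hm0 : 0 < m := l_pos hm
  refine ⟨max (l * Real.exp R) (max R (Real.exp 2)), fun n T hT => ?_⟩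
  have hT1 : l * Real.exp R ≤ T := (le_max_left _ _).trans hT
  have hT2 : R ≤ T := ((le_max_left _ _).trans (le_max_right _ _)).trans hT
  have hT3 : Real.exp 2 ≤ T := ((le_max_right _ _).trans (le_max_right _ _)).trans hT
  have hT0 : 0 < T := (Real.exp_pos 2).trans_le hT3
  obtain ⟨a, ha⟩ : ∃ a, a = α (n - 1) T := ⟨_, rfl⟩
  have h4a : 4 ≤ a := by
    have h1 := hG.grow (n - 1) T hT2
    have h2 : 2 ≤ Real.log T := (Real.le_log_iff_exp_le hT0).2 hT3
    rw [ha]
    nlinarith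
  have hpos := hG.pos (n - 1) (-T)
  have hneg := hG.neg (n - 1) (-T)
  rw [sub_add_cancel] at hpos hneg
  rw [← ha]
  constructor
  · rw [hpos, hG.odd hl (n - 1) T hT1, ← ha, abs_of_pos (mul_pos hm0 (Real.exp_pos _)), mul_comm]
    refine mul_le_mul_of_nonneg_right (Real.exp_le_exp.2 (by linarith)) hm0.le
  · rw [hneg, abs_neg, abs_of_pos (mul_pos hm0 (Real.exp_pos _)), mul_comm]
    refine mul_le_mul_of_nonneg_right (Real.exp_le_exp.2 ?_) hm0.le
    obtain ⟨hb0, hb⟩ := hG.left (n - 1) (-T) (by linarith)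
    obtain ⟨A, hA⟩ : ∃ A, A = α (n - 1) (Real.sqrt ((-T) ^ 2 + Real.pi ^ 2)) := ⟨_, rfl⟩
    rw [← hA] at hb
    have hAa : a ≤ A := by
      rw [ha, hA]
      apply (hG.mono (n - 1)).monotone
      apply Real.le_sqrt_of_sq_le
      have := sq_nonneg Real.pi
      nlinarith
    have hpi : Real.pi ^ 2 ≤ 12 := by
      have h1 := Real.pi_lt_d2
      have h2 := Real.pi_pos
      nlinarith
    have h5 : (a - 2) ^ 2 ≤ (β (n - 1) (-T)) ^ 2 := by nlinarith
    have h7 : |a - 2| ≤ |β (n - 1) (-T)| := sq_le_sq.1 h5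
    rw [abs_of_nonneg (by linarith : 0 ≤ a - 2), abs_of_neg hb0] at h7
    linarith

end J4701

section J4702

theorem f2_sum_low (f : ℕ → ℝ) (N : ℕ) (h : ∀ n, N ≤ n → 0 ≤ f n) (j k : ℕ) :
    -∑ i ∈ Finset.range N, |f i| ≤ ∑ i ∈ Finset.Ico j k, f i := by
  have h1 : ∑ i ∈ (Finset.Ico j k).filter (fun i => i < N), f i ≤ ∑ i ∈ Finset.Ico j k, f i := by
    apply Finset.sum_le_sum_of_subset_of_nonneg (Finset.filter_subset _ _)
    intro i hi hi'
    apply h
    by_contra hcon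
    exact hi' (Finset.mem_filter.mpr ⟨hi, by omega⟩)
  have h2 : ∑ i ∈ (Finset.Ico j k).filter (fun i => i < N), (-|f i|) ≤
      ∑ i ∈ (Finset.Ico j k).filter (fun i => i < N), f i :=
    Finset.sum_le_sum (fun i _ => neg_abs_le (f i))
  have h3 : ∑ i ∈ (Finset.Ico j k).filter (fun i => i < N), |f i| ≤
      ∑ i ∈ Finset.range N, |f i| := by
    apply Finset.sum_le_sum_of_subset_of_nonneg
    · intro i hi
      have := (Finset.mem_filter.mp hi).2
      exact Finset.mem_range.mpr this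
    · intro i _ _; exact abs_nonneg _
  rw [Finset.sum_neg_distrib] at h2
  linarith

theorem f2_exp_neg {s : ℝ} (h0 : 0 ≤ s) (h1 : s ≤ 1) : Real.exp (-s) ≤ 1 - s / 2 := by
  have h2 : 1 + s ≤ Real.exp s := by linarith [Real.add_one_le_exp s]
  have h3 : Real.exp (-s) * Real.exp s = 1 := by rw [← Real.exp_add]; simp
  have h4 : 0 < Real.exp (-s) := Real.exp_pos _
  have h5 : Real.exp (-s) * (1 + s) ≤ 1 := by
    calc Real.exp (-s) * (1 + s) ≤ Real.exp (-s) * Real.exp s :=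
          mul_le_mul_of_nonneg_left h2 h4.le
      _ = 1 := h3
  have h6 : 1 ≤ (1 - s / 2) * (1 + s) := by nlinarith
  have h7 : Real.exp (-s) * (1 + s) ≤ (1 - s / 2) * (1 + s) := h5.trans h6
  exact le_of_mul_le_mul_right h7 (by linarith)

theorem f2_o_exp {l : ℝ} (hl : 0 < l) (j : ℕ) :
    Real.exp (o l j + (Real.log l - Real.log 2)) = o l (j + 1) / 2 := by
  rw [o_succ]
  unfold e
  rw [Real.exp_add, Real.exp_sub, Real.exp_log hl, Real.exp_log (by norm_num)]
  ring

theorem f2_o_exp2 {l : ℝ} (hl : 0 < l) (j : ℕ) :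
    Real.exp (o l j + (Real.log l + Real.log 2)) = 2 * o l (j + 1) := by
  rw [o_succ]
  unfold e
  rw [Real.exp_add, Real.exp_add, Real.exp_log hl, Real.exp_log (by norm_num)]
  ring

/-- upper side -/
theorem f2_up {l : ℝ} (hl : 0 < l) (k : ℕ) (j : ℕ) (hj : j ≤ k) :
    o l j + Real.exp (-∑ i ∈ Finset.Ico j (k + 1), (o l i + (Real.log l - Real.log 2))) ≤
      (e l)^[j] (Real.exp (-∑ i ∈ Finset.Ico 0 (k + 1), (o l i + (Real.log l - Real.log 2)))) := by
  induction j with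
  | zero => simp [o]
  | succ j ih =>
    have ih' := ih (by omega)
    set c : ℕ → ℝ := fun j =>
      Real.exp (-∑ i ∈ Finset.Ico j (k + 1), (o l i + (Real.log l - Real.log 2))) with hc
    have hstep : c (j + 1) = c j * (o l (j + 1) / 2) := by
      simp only [hc]
      rw [Finset.sum_eq_sum_Ico_succ_bot (show j < k + 1 by omega), ← f2_o_exp hl j,
        ← Real.exp_add]
      congr 1; ring
    have hcpos : 0 < c j := Real.exp_pos _
    show o l (j + 1) + c (j + 1) ≤ (e l)^[j + 1] (c 0)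
    have ih2 : o l j + c j ≤ (e l)^[j] (c 0) := ih'
    rw [Function.iterate_succ_apply', hstep]
    have h1 : e l (o l j + c j) ≤ e l ((e l)^[j] (c 0)) := (e_strictMono hl).monotone ih2
    refine le_trans ?_ h1
    have h2 : e l (o l j + c j) = o l (j + 1) * Real.exp (c j) := by
      rw [o_succ]; unfold e; rw [Real.exp_add]; ring
    rw [h2]
    have ho : 0 < o l (j + 1) := by rw [o_succ]; exact e_pos hl _
    have h3 : 1 + c j ≤ Real.exp (c j) := by linarith [Real.add_one_le_exp (c j)]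
    have h4 : o l (j + 1) * (1 + c j) ≤ o l (j + 1) * Real.exp (c j) :=
      mul_le_mul_of_nonneg_left h3 ho.le
    nlinarith [mul_pos hcpos ho]

/-- lower side -/
theorem f2_down {l : ℝ} (hl : 0 < l) (k : ℕ)
    (hsm : ∀ j, j ≤ k → 0 ≤ ∑ i ∈ Finset.Ico j (k + 1), (o l i + (Real.log l - Real.log 2)))
    (j : ℕ) (hj : j ≤ k) :
    (e l)^[j] (-Real.exp (-∑ i ∈ Finset.Ico 0 (k + 1), (o l i + (Real.log l - Real.log 2)))) ≤
    o l j - Real.exp (-∑ i ∈ Finset.Ico j (k + 1), (o l i + (Real.log l - Real.log 2)))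
       := by
  induction j with
  | zero => simp [o]
  | succ j ih =>
    have ih' := ih (by omega)
    set c : ℕ → ℝ := fun j =>
      Real.exp (-∑ i ∈ Finset.Ico j (k + 1), (o l i + (Real.log l - Real.log 2))) with hc
    have hstep : c (j + 1) = c j * (o l (j + 1) / 2) := by
      simp only [hc]
      rw [Finset.sum_eq_sum_Ico_succ_bot (show j < k + 1 by omega), ← f2_o_exp hl j,
        ← Real.exp_add]
      congr 1; ring
    have hcpos : 0 < c j := Real.exp_pos _
    have hc1 : c j ≤ 1 := by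
      simp only [hc]
      rw [Real.exp_le_one_iff]
      linarith [hsm j (by omega)]
    show (e l)^[j + 1] (-(c 0)) ≤ o l (j + 1) - c (j + 1)
    have ih2 : (e l)^[j] (-(c 0)) ≤ o l j - c j := ih'
    rw [Function.iterate_succ_apply', hstep]
    have h1 : e l ((e l)^[j] (-(c 0))) ≤ e l (o l j - c j) := (e_strictMono hl).monotone ih2
    refine h1.trans ?_
    have h2 : e l (o l j - c j) = o l (j + 1) * Real.exp (-(c j)) := by
      rw [o_succ]; unfold e; rw [sub_eq_add_neg, Real.exp_add]; ring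
    rw [h2]
    have ho : 0 < o l (j + 1) := by rw [o_succ]; exact e_pos hl _
    have h4 : o l (j + 1) * Real.exp (-(c j)) ≤ o l (j + 1) * (1 - c j / 2) :=
      mul_le_mul_of_nonneg_left (f2_exp_neg hcpos.le hc1) ho.le
    nlinarith

/-- forward -/
theorem f2_fwd {m : ℝ} (hm : 0 < m) (k : ℕ) (h0 y : ℝ) 
    (hsm : ∀ i, i ≤ k → Real.exp (h0 + ∑ j ∈ Finset.range i, (o m j + (Real.log m + Real.log 2))) ≤ 1)
    (hy : |y| ≤ Real.exp h0) (i : ℕ) (hi : i ≤ k) :
    |(e m)^[i] y - o m i| ≤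
      Real.exp (h0 + ∑ j ∈ Finset.range i, (o m j + (Real.log m + Real.log 2))) := by
  induction i with
  | zero => simpa [o] using hy
  | succ i ih =>
    have ih' := ih (by omega)
    set h : ℕ → ℝ := fun i =>
      Real.exp (h0 + ∑ j ∈ Finset.range i, (o m j + (Real.log m + Real.log 2))) with hh
    have hstep : h (i + 1) = h i * (2 * o m (i + 1)) := by
      simp only [hh]
      rw [Finset.sum_range_succ, ← f2_o_exp2 hm i, ← Real.exp_add]
      congr 1; ring
    have hle : h i ≤ 1 := hsm i (by omega)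
    have ih2 : |(e m)^[i] y - o m i| ≤ h i := ih'
    show |(e m)^[i + 1] y - o m (i + 1)| ≤ h (i + 1)
    rw [Function.iterate_succ_apply', hstep]
    set s : ℝ := (e m)^[i] y - o m i with hs
    have h1 : e m ((e m)^[i] y) - o m (i + 1) = o m (i + 1) * (Real.exp s - 1) := by
      have : (e m)^[i] y = o m i + s := by rw [hs]; ring
      rw [this, o_succ]; unfold e; rw [Real.exp_add]; ring
    rw [h1, abs_mul]
    have ho : 0 < o m (i + 1) := by rw [o_succ]; exact e_pos hm _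
    rw [abs_of_pos ho]
    have h2 : |Real.exp s - 1| ≤ 2 * |s| := Real.abs_exp_sub_one_le (ih2.trans hle)
    calc o m (i + 1) * |Real.exp s - 1| ≤ o m (i + 1) * (2 * |s|) :=
          mul_le_mul_of_nonneg_left h2 ho.le
      _ ≤ o m (i + 1) * (2 * h i) := by
          apply mul_le_mul_of_nonneg_left _ ho.le
          linarith
      _ = h i * (2 * o m (i + 1)) := by ring

theorem Good.F2 {l m R : ℝ} {α β : ℤ → ℝ → ℝ} (hG : Good l m R α β)
    (hl : Real.exp (-1) < l) (hm : Real.exp (-1) < m) : ∃ k0 : ℕ, ∀ k, k0 ≤ k → ∀ (n : ℤ) (t : ℝ),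
    |t| ≤ 2 / o l (k + 1) → |α n (o l k + t) - o m k| ≤ Real.exp (-(3 / 4 * o m k)) := by
  have hl0 := l_pos hl
  have hm0 := l_pos hm
  obtain ⟨x0, hx0⟩ := hG.small hl hm
  -- bounds for l
  set C : ℝ := Real.log l - Real.log 2 with hC
  set C' : ℝ := Real.log m + Real.log 2 with hC'
  obtain ⟨N, hN⟩ := (Filter.tendsto_atTop.mp (o_tendsto hl) (-C)).exists_forall_of_atTop
  obtain ⟨N', hN'⟩ := (Filter.tendsto_atTop.mp (o_tendsto hm) (-C')).exists_forall_of_atTop
  set K : ℝ := ∑ i ∈ Finset.range N, |o l i + C| with hK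
  set K' : ℝ := ∑ i ∈ Finset.range N', |o m i + C'| with hK'
  have hlow : ∀ j k, -K ≤ ∑ i ∈ Finset.Ico j k, (o l i + C) := by
    intro j k
    exact f2_sum_low (fun i => o l i + C) N (fun n hn => by have := hN n hn; linarith) j k
  have hlow' : ∀ j k, -K' ≤ ∑ i ∈ Finset.Ico j k, (o m i + C') := by
    intro j k
    exact f2_sum_low (fun i => o m i + C') N' (fun n hn => by have := hN' n hn; linarith) j k
  obtain ⟨j0, hj0⟩ := osum hm C'
  obtain ⟨k1, hk1⟩ := (Filter.tendsto_atTop.mp (o_tendsto hl)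
    (max (K - C) (max (K - 2 * C - Real.log l) (x0 - C + K - Real.log l)))).exists_forall_of_atTop
  obtain ⟨k2, hk2⟩ := (Filter.tendsto_atTop.mp (o_tendsto hm)
    (max 1 (max (2 + Real.log m + K') (17 / m)))).exists_forall_of_atTop
  refine ⟨k1 + k2 + j0 + 1, ?_⟩
  intro k hk n t ht
  obtain ⟨p, rfl⟩ : ∃ p, k = p + 1 := ⟨k - 1, by omega⟩
  have hp1 : k1 ≤ p := by omega
  have hp2 : k2 ≤ p := by omega
  have hp3 : j0 ≤ p := by omega
  -- smallness for l
  have hsm : ∀ j, j ≤ p + 1 → 0 ≤ ∑ i ∈ Finset.Ico j (p + 1 + 1), (o l i + C) := by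
    intro j hj
    rw [Finset.sum_Ico_succ_top hj]
    have h1 := hlow j (p + 1)
    have h2 := hk1 (p + 1) (by omega)
    have h3 := (le_max_left _ _).trans h2
    linarith
  set c0 : ℝ := Real.exp (-∑ i ∈ Finset.Ico 0 (p + 1 + 1), (o l i + C)) with hc0
  have hck : Real.exp (-∑ i ∈ Finset.Ico (p + 1) (p + 1 + 1), (o l i + C)) = 2 / o l (p + 1 + 1) := by
    rw [Finset.sum_Ico_succ_top (le_refl _)]
    simp only [Finset.Ico_self, Finset.sum_empty, zero_add]
    rw [Real.exp_neg, hC, f2_o_exp hl0 (p + 1), inv_div]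
  have hup := f2_up hl0 (p + 1) (p + 1) (le_refl _)
  have hdown := f2_down hl0 (p + 1) hsm (p + 1) (le_refl _)
  rw [← hC, hck, ← hc0] at hup hdown
  -- T
  set T : ℝ := Real.log l + ∑ i ∈ Finset.Ico 0 (p + 1 + 1), (o l i + C) with hT
  have hc0T : c0 = l * Real.exp (-T) := by
    rw [hc0, hT, neg_add, Real.exp_add, Real.exp_neg (Real.log l), Real.exp_log hl0]
    field_simp
  have hTo : o l (p + 1) ≤ T := by
    rw [hT, Finset.sum_Ico_succ_top (Nat.zero_le _), Finset.sum_Ico_succ_top (Nat.zero_le _)]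
    have h1 := hlow 0 p
    have h2 := hk1 p (by omega)
    have h3 := ((le_max_left _ _).trans (le_max_right _ _)).trans h2
    linarith
  have hTx : x0 ≤ T := by
    rw [hT, Finset.sum_Ico_succ_top (Nat.zero_le _)]
    have h1 := hlow 0 (p + 1)
    have h2 := hk1 (p + 1) (by omega)
    have h3 := ((le_max_right _ _).trans (le_max_right _ _)).trans h2
    linarith
  obtain ⟨hs1, hs2⟩ := hx0 (n - ((p + 1 : ℕ) : ℤ)) T hTx
  rw [← hc0T] at hs1 hs2
  -- bound by exp h0
  set h0 : ℝ := 2 - o m (p + 1) + Real.log m with hh0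
  have hal : o m (p + 1) ≤ α (n - ((p + 1 : ℕ) : ℤ) - 1) T := by
    rw [← hG.alpha_o (n - ((p + 1 : ℕ) : ℤ) - 1) (p + 1)]
    exact (hG.mono _).monotone hTo
  have hb : Real.exp (2 - α (n - ((p + 1 : ℕ) : ℤ) - 1) T) * m ≤ Real.exp h0 := by
    rw [hh0, Real.exp_add _ (Real.log m), Real.exp_log hm0]
    apply mul_le_mul_of_nonneg_right _ hm0.le
    apply Real.exp_le_exp.mpr
    linarith
  have hy1 := hs1.trans hb
  have hy2 := hs2.trans hb
  -- forward
  have hbound : ∀ i, i ≤ p + 1 →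
      h0 + ∑ j ∈ Finset.range i, (o m j + C') ≤ -(3 / 4 * o m (p + 1)) := by
    intro i hi
    have h1 : ∑ j ∈ Finset.range i, (o m j + C') + ∑ j ∈ Finset.Ico i (p + 1), (o m j + C') =
        ∑ j ∈ Finset.range (p + 1), (o m j + C') := Finset.sum_range_add_sum_Ico _ hi
    have h2 := hlow' i (p + 1)
    have h3 := hj0 p hp3
    have h4 := hk2 p hp2
    have h5 : 1 ≤ o m p := (le_max_left _ _).trans h4
    have h6 : 2 + Real.log m + K' ≤ o m p := ((le_max_left _ _).trans (le_max_right _ _)).trans h4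
    have h7 : 17 / m ≤ o m p := ((le_max_right _ _).trans (le_max_right _ _)).trans h4
    have h8 : o m (p + 1) = m * Real.exp (o m p) := by rw [o_succ]; rfl
    have h9 : 1 + o m p + (o m p) ^ 2 / 2 ≤ Real.exp (o m p) :=
      Real.quadratic_le_exp_of_nonneg (by linarith)
    have h10 : 17 ≤ m * o m p := by
      rw [div_le_iff₀ hm0] at h7; linarith
    have h11 : m * ((o m p) ^ 2 / 2) ≤ m * Real.exp (o m p) :=
      mul_le_mul_of_nonneg_left (by nlinarith) hm0.le
    have h12 : 17 * o m p ≤ m * (o m p) ^ 2 := by nlinarith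
    rw [← h8] at h11
    rw [hh0]
    linarith
  have hsm2 : ∀ i, i ≤ p + 1 →
      Real.exp (h0 + ∑ j ∈ Finset.range i, (o m j + (Real.log m + Real.log 2))) ≤ 1 := by
    intro i hi
    rw [Real.exp_le_one_iff]
    have h1 := hbound i hi
    have h2 : 0 < o m (p + 1) := by rw [o_succ]; exact e_pos hm0 _
    rw [hC'] at h1
    linarith
  have hf1 := f2_fwd hm0 (p + 1) h0 _ hsm2 hy1 (p + 1) (le_refl _)
  have hf2 := f2_fwd hm0 (p + 1) h0 _ hsm2 hy2 (p + 1) (le_refl _)
  have hfin : Real.exp (h0 + ∑ j ∈ Finset.range (p + 1), (o m j + (Real.log m + Real.log 2))) ≤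
      Real.exp (-(3 / 4 * o m (p + 1))) := Real.exp_le_exp.mpr (hbound (p + 1) (le_refl _))
  have hn : n - ((p + 1 : ℕ) : ℤ) + ((p + 1 : ℕ) : ℤ) = n := by ring
  have he1 := hG.alpha_eit (n - ((p + 1 : ℕ) : ℤ)) (p + 1) c0
  have he2 := hG.alpha_eit (n - ((p + 1 : ℕ) : ℤ)) (p + 1) (-c0)
  rw [hn] at he1 he2
  have ht' := abs_le.mp ht
  have hmono1 : α n (o l (p + 1) + t) ≤ α n ((e l)^[p + 1] c0) :=
    (hG.mono n).monotone (by linarith [ht'.2])
  have hmono2 : α n ((e l)^[p + 1] (-c0)) ≤ α n (o l (p + 1) + t) :=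
    (hG.mono n).monotone (by linarith [ht'.1])
  rw [he1] at hmono1
  rw [he2] at hmono2
  have hf1' := abs_le.mp (hf1.trans hfin)
  have hf2' := abs_le.mp (hf2.trans hfin)
  rw [abs_le]
  constructor
  · linarith [hf2'.1]
  · linarith [hf1'.2]

end J4702

section J4707

theorem Good.Fbd {l m R : ℝ} {α β : ℤ → ℝ → ℝ} (hG : Good l m R α β)
    (hl : Real.exp (-1) < l) (hm : Real.exp (-1) < m) : ∃ k0 : ℕ, ∀ k, k0 ≤ k → ∀ (n : ℤ) (t : ℝ),
    |t| ≤ Real.log 4 → |α n (o l k + t) - o m k| ≤ Real.sqrt (o m k) / 4 := by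
  obtain ⟨k1, hk1⟩ := hG.F2 hl hm
  obtain ⟨k2, hk2⟩ := Filter.eventually_atTop.1 ((o_tendsto hl).eventually_ge_atTop 5)
  obtain ⟨k3, hk3⟩ := Filter.eventually_atTop.1
    ((o_tendsto hm).eventually_ge_atTop (32 * Real.sqrt m))
  have hl0 := l_pos hl
  have hm0 := l_pos hm
  refine ⟨max k1 (max k2 k3) + 1, ?_⟩
  intro k hk n t ht
  obtain ⟨j, rfl⟩ : ∃ j, k = j + 1 := ⟨k - 1, by omega⟩
  have hj1 : k1 ≤ j := (le_max_left k1 (max k2 k3)).trans (by omega)
  have hj2 : k2 ≤ j := (le_max_left k2 k3).trans ((le_max_right k1 (max k2 k3)).trans (by omega))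
  have hj3 : k3 ≤ j := (le_max_right k2 k3).trans ((le_max_right k1 (max k2 k3)).trans (by omega))
  have hL : 5 ≤ o l (j + 1) := hk2 (j + 1) (by omega)
  have hLe : o l (j + 1) = l * Real.exp (o l j) := o_succ l j
  have hMe : o m (j + 1) = m * Real.exp (o m j) := o_succ m j
  have hlog4 : Real.log 4 < 1.39 := by
    have h2 := Real.log_two_lt_d9
    have : Real.log 4 = 2 * Real.log 2 := by
      rw [show (4:ℝ) = 2 ^ 2 by norm_num, Real.log_pow]; norm_num
    rw [this]; linarith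
  have ht' : |t| < 1.39 := lt_of_le_of_lt ht hlog4
  set L := o l (j + 1) with hLd
  have hL0 : 0 < L := by linarith
  obtain ⟨ht1, ht2⟩ := abs_lt.1 ht'
  have h1x : 0 < 1 + t / L := by
    have : -(1.39 / L) < t / L := by
      rw [← neg_div]; exact div_lt_div_of_pos_right ht1 hL0
    have h2 : 1.39 / L ≤ 1.39 / 5 := div_le_div_of_nonneg_left (by norm_num) (by norm_num) hL
    have h3 : (1.39:ℝ) / 5 < 1 := by norm_num
    linarith
  set s := Real.log (1 + t / L) with hs
  have hLt : L + t = l * Real.exp (o l j + s) := by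
    rw [Real.exp_add, hs, Real.exp_log h1x, ← mul_assoc, ← hLe]
    field_simp
  have hsb : |s| ≤ 2 / L := by
    rw [abs_le]
    constructor
    · have h1 : 1 - (1 + t / L)⁻¹ ≤ s := Real.one_sub_inv_le_log_of_pos h1x
      have h2 : -(2 / L) ≤ 1 - (1 + t / L)⁻¹ := by
        have e1 : (1 + t / L)⁻¹ = L / (L + t) := by
          rw [show 1 + t / L = (L + t) / L by field_simp, inv_div]
        rw [e1]
        have hLt0 : 0 < L + t := by linarith
        rw [show (1:ℝ) - L / (L + t) = t / (L + t) by field_simp; ring, ← neg_div,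
          div_le_div_iff₀ hL0 hLt0]
        nlinarith
      linarith
    · have h1 : s ≤ t / L := by
        have := Real.log_le_sub_one_of_pos h1x
        linarith
      have h2 : t / L ≤ 2 / L := div_le_div_of_nonneg_right (by linarith) hL0.le
      linarith
  have hF := hk1 j hj1 (n - 1) s hsb
  have hpos := hG.pos (n - 1) (o l j + s)
  rw [sub_add_cancel, ← hLt] at hpos
  rw [hpos]
  set δ := α (n - 1) (o l j + s) - o m j with hδ
  have hA : α (n - 1) (o l j + s) = o m j + δ := by rw [hδ]; ring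
  have hm3 := hk3 j hj3
  have hmj0 : 0 ≤ o m j := le_trans (by positivity) hm3
  have hε1 : Real.exp (-(3 / 4 * o m j)) ≤ 1 := by
    rw [Real.exp_le_one_iff]; linarith
  have hδ1 : |Real.exp δ - 1| ≤ 2 * |δ| := Real.abs_exp_sub_one_le (hF.trans hε1)
  have hkey : |m * Real.exp (α (n - 1) (o l j + s)) - o m (j + 1)| ≤
      2 * m * Real.exp (o m j / 4) := by
    rw [hA, Real.exp_add, hMe]
    have e1 : m * (Real.exp (o m j) * Real.exp δ) - m * Real.exp (o m j) =
        (m * Real.exp (o m j)) * (Real.exp δ - 1) := by ring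
    rw [e1, abs_mul, abs_of_pos (by positivity)]
    calc (m * Real.exp (o m j)) * |Real.exp δ - 1|
        ≤ (m * Real.exp (o m j)) * (2 * Real.exp (-(3 / 4 * o m j))) := by
          apply mul_le_mul_of_nonneg_left _ (by positivity)
          linarith
      _ = 2 * m * (Real.exp (o m j) * Real.exp (-(3 / 4 * o m j))) := by ring
      _ = 2 * m * Real.exp (o m j / 4) := by
          rw [← Real.exp_add]; congr 2; ring
  refine hkey.trans ?_
  have hsq : Real.sqrt (o m (j + 1)) = Real.sqrt m * Real.exp (o m j / 2) := by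
    rw [hMe, Real.sqrt_mul hm0.le]
    congr 1
    rw [show Real.exp (o m j) = Real.exp (o m j / 2) ^ 2 by
      rw [← Real.exp_nat_mul]; congr 1; push_cast; ring]
    exact Real.sqrt_sq (Real.exp_pos _).le
  rw [hsq]
  have hsm : Real.sqrt m * Real.sqrt m = m := Real.mul_self_sqrt hm0.le
  have hexp2 : Real.exp (o m j / 2) = Real.exp (o m j / 4) * Real.exp (o m j / 4) := by
    rw [← Real.exp_add]; congr 1; ring
  have hbig : 8 * Real.sqrt m ≤ Real.exp (o m j / 4) := by
    have := Real.add_one_le_exp (o m j / 4)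
    linarith
  rw [hexp2]
  have hsm0 : 0 ≤ Real.sqrt m := Real.sqrt_nonneg m
  have hE0 : 0 < Real.exp (o m j / 4) := Real.exp_pos _
  have h8 := mul_le_mul_of_nonneg_left hbig (mul_nonneg hsm0 hE0.le)
  nlinarith

end J4707

end Pool.Agent.Helper734.EX
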