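import Pool.Agent.Helper115.EXC.M3

set_option autoImplicit false

namespace Pool.Agent.Helper734.EX

open Complex

section J4714

/-- source is far from the fold: the real coordinate of the returned point -/
theorem srcGen {l : ℝ} (hl : Real.exp (-1) < l) : ∃ (r : ℝ) (j0 : ℕ), 0 < r ∧
    ∀ (j : ℕ) (ξ : ℝ) (w : ℂ), j0 ≤ j → |ξ| ≤ r → (e l)^[j] ξ = w.re → 0 < w.im →
    w.im ≤ Real.pi → Real.sqrt (o l j) ≤ |w.re - o l j| →
    ξ ≠ 0 ∧ |((F l)^[j + 2] w).re - Real.log (‖F l (ξ : ℂ)‖ / l)| ≤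
      Real.exp (-Real.exp (Real.log (‖F l (ξ : ℂ)‖ / l) / 2)) ∧
    Real.log (‖F l (ξ : ℂ)‖ / l) ≤ o l (j - 2) + Real.log 4 := by
  have hl0 : 0 < l := l_pos hl
  obtain ⟨C, j1, hC2, hdist⟩ := distort hl
  obtain ⟨j2, hhalf⟩ := halfbd hl
  obtain ⟨j3, hup⟩ := upW hl
  have hπ := Real.pi_pos
  obtain ⟨D, hDdef⟩ : ∃ D : ℝ, D = max (4 * C * Real.pi) (max (|Real.log l| + Real.pi) 1) := ⟨_, rfl⟩
  have hD1 : 4 * C * Real.pi ≤ D := by rw [hDdef]; exact le_max_left _ _
  have hD2 : |Real.log l| + Real.pi ≤ D := by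
    rw [hDdef]; exact le_trans (le_max_left _ _) (le_max_right _ _)
  have hD3 : 1 ≤ D := by
    rw [hDdef]; exact le_trans (le_max_right _ _) (le_max_right _ _)
  obtain ⟨r1, hr1, hgrow⟩ := growcmp hl D hD3
  -- o_j large
  obtain ⟨j4, hj4⟩ := Filter.eventually_atTop.mp
    ((o_tendsto hl).eventually_ge_atTop (max ((C * Real.pi) ^ 2) (max D 1)))
  obtain ⟨j5, hj5⟩ := Filter.eventually_atTop.mp
    ((eit_tendsto hl (-1)).eventually_ge_atTop (C * Real.pi))
  refine ⟨min (1 / 2) (min r1 (Real.exp (-(2 + |Real.log l|)))),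
    max j1 (max j2 (max (j3 + 1) (max (j4 + 2) j5))), by positivity, ?_⟩
  intro j ξ w hj hξ hv him himπ hsq
  have hja : j1 ≤ j := le_trans (le_max_left _ _) hj
  have hj' := le_trans (le_max_right _ _) hj
  have hjb : j2 ≤ j := le_trans (le_max_left _ _) hj'
  have hj'' := le_trans (le_max_right _ _) hj'
  have hjc : j3 + 1 ≤ j := le_trans (le_max_left _ _) hj''
  have hj''' := le_trans (le_max_right _ _) hj''
  have hjd : j4 + 2 ≤ j := le_trans (le_max_left _ _) hj'''
  have hje : j5 ≤ j := le_trans (le_max_right _ _) hj'''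
  have hξa : |ξ| ≤ 1 / 2 := le_trans hξ (min_le_left _ _)
  have hξ' := le_trans hξ (min_le_right _ _)
  have hξb : |ξ| ≤ r1 := le_trans hξ' (min_le_left _ _)
  have hξc : |ξ| ≤ Real.exp (-(2 + |Real.log l|)) := le_trans hξ' (min_le_right _ _)
  -- o_j and o_{j-1}
  have ho : max ((C * Real.pi) ^ 2) (max D 1) ≤ o l j := hj4 j (by omega)
  have ho1 : max ((C * Real.pi) ^ 2) (max D 1) ≤ o l (j - 1) := hj4 (j - 1) (by omega)
  have hoa : (C * Real.pi) ^ 2 ≤ o l j := le_trans (le_max_left _ _) ho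
  have hob : 1 ≤ o l j := le_trans (le_trans (le_max_right _ _) (le_max_right _ _)) ho
  have hoc : D ≤ o l (j - 1) := le_trans (le_trans (le_max_left _ _) (le_max_right _ _)) ho1
  have hsa : C * Real.pi ≤ Real.sqrt (o l j) := Real.le_sqrt_of_sq_le hoa
  have hsb : 1 ≤ Real.sqrt (o l j) := Real.le_sqrt_of_sq_le (by rw [one_pow]; exact hob)
  have hξ0 : ξ ≠ 0 := by
    intro h
    rw [h] at hv
    have : w.re - o l j = 0 := by rw [← hv]; unfold o; ring
    rw [this, abs_zero] at hsq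
    linarith
  have hsq' : Real.sqrt (o l j) ≤ |(e l)^[j] ξ - o l j| := by rw [hv]; exact hsq
  have hone : 1 ≤ |(e l)^[j] ξ - o l j| := le_trans hsb hsq'
  -- norm of w - v
  have hwv : ‖w - (((e l)^[j] ξ : ℝ) : ℂ)‖ ≤ Real.pi := by
    rw [hv]
    have : w - ((w.re : ℝ) : ℂ) = (w.im : ℂ) * I := by
      apply Complex.ext <;> simp
    rw [this, norm_mul, Complex.norm_I, mul_one, Complex.norm_real, Real.norm_eq_abs,
      abs_of_pos him]
    exact himπ
  have hvbig : C * Real.pi ≤ (e l)^[j] ξ := by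
    have h1 := (hhalf j hjb ξ hξa).1
    have h2 := hj5 j hje
    have h3 := (hhalf j hjb ξ hξa).2
    linarith
  have hmain := hdist j ξ w Real.pi hja hξ0 hξa him hwv (le_trans hsa hsq') hvbig
  have hM := hgrow j ξ hξ0 hξb hone hsq'
  set M := min |(e l)^[j] ξ - o l j| ((e l)^[j] ξ) with hMdef
  -- bounds for the norm of F ξ
  have hlogξ : 2 + |Real.log l| ≤ -Real.log |ξ| := by
    have h1 : Real.log |ξ| ≤ -(2 + |Real.log l|) := by
      rw [Real.log_le_iff_le_exp (abs_pos.mpr hξ0)]; exact hξc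
    linarith
  have hre : (F l (ξ : ℂ)).re = Real.log |ξ| - Real.log l := by
    rw [re_F hl0 _ (by exact_mod_cast hξ0), Complex.norm_real, Real.norm_eq_abs,
      Real.log_div (abs_pos.mpr hξ0).ne' hl0.ne']
  have hA2 : 2 ≤ ‖F l (ξ : ℂ)‖ := by
    have h1 := Complex.abs_re_le_norm (F l (ξ : ℂ))
    rw [hre] at h1
    have h2 := neg_abs_le (Real.log |ξ| - Real.log l)
    have h3 := neg_abs_le (Real.log l)
    linarith
  have hAup : ‖F l (ξ : ℂ)‖ ≤ -Real.log |ξ| + (|Real.log l| + Real.pi) := by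
    have h1 := Complex.norm_le_abs_re_add_abs_im (F l (ξ : ℂ))
    have h2 : |(F l (ξ : ℂ)).im| ≤ Real.pi := by rw [im_F]; exact Complex.abs_arg_le_pi _
    have h3 : |(F l (ξ : ℂ)).re| ≤ -Real.log |ξ| + |Real.log l| := by
      rw [hre]
      have h4 := le_abs_self (Real.log l)
      have h5 := neg_abs_le (Real.log l)
      rw [abs_le]
      constructor <;> linarith
    linarith
  set A := ‖F l (ξ : ℂ)‖ with hAdef
  have hexp : 0 < Real.exp (Real.sqrt ((-Real.log |ξ| + D) / l)) := Real.exp_pos _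
  have hMpos : 0 < M := lt_of_lt_of_le (by positivity) hM
  have hCπ : 0 < C * Real.pi := by positivity
  have hδ : C * Real.pi / M ≤ (1 / 4) * Real.exp (-Real.sqrt (A / l)) := by
    rw [div_le_iff₀ hMpos]
    have h1 : Real.sqrt (A / l) ≤ Real.sqrt ((-Real.log |ξ| + D) / l) := by
      apply Real.sqrt_le_sqrt
      apply div_le_div_of_nonneg_right _ hl0.le
      linarith
    have h2 : Real.exp (Real.sqrt (A / l)) ≤ Real.exp (Real.sqrt ((-Real.log |ξ| + D) / l)) :=
      Real.exp_le_exp.mpr h1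
    have h3 : 4 * C * Real.pi * Real.exp (Real.sqrt (A / l)) ≤ M := by
      refine le_trans ?_ hM
      exact mul_le_mul hD1 h2 (Real.exp_pos _).le (by linarith)
    have h4 : Real.exp (-Real.sqrt (A / l)) * Real.exp (Real.sqrt (A / l)) = 1 := by
      rw [← Real.exp_add]; simp
    have h5 : (1 / 4) * Real.exp (-Real.sqrt (A / l)) * (4 * C * Real.pi * Real.exp (Real.sqrt (A / l)))
        ≤ (1 / 4) * Real.exp (-Real.sqrt (A / l)) * M :=
      mul_le_mul_of_nonneg_left h3 (by positivity)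
    calc C * Real.pi = C * Real.pi * (Real.exp (-Real.sqrt (A / l)) * Real.exp (Real.sqrt (A / l))) := by
          rw [h4, mul_one]
      _ = (1 / 4) * Real.exp (-Real.sqrt (A / l)) * (4 * C * Real.pi * Real.exp (Real.sqrt (A / l))) := by
          ring
      _ ≤ _ := h5
  have hδ' : C * Real.pi / M ≤ 1 / 4 := by
    have : Real.exp (-Real.sqrt (A / l)) ≤ 1 := by
      rw [Real.exp_le_one_iff]
      linarith [Real.sqrt_nonneg (A / l)]
    linarith
  have hAB : |‖(F l)^[j + 1] w‖ - A| ≤ C * Real.pi / M :=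
    le_trans (abs_norm_sub_norm_le _ _) hmain
  set B := ‖(F l)^[j + 1] w‖ with hBdef
  have hAB' := abs_le.mp hAB
  have hB1 : 1 ≤ B := by linarith [hAB'.1]
  have hBne : (F l)^[j + 1] w ≠ 0 := by
    intro h
    rw [hBdef, h, norm_zero] at hB1
    linarith
  have hA0 : 0 < A := by linarith
  have hB0 : 0 < B := by linarith
  refine ⟨hξ0, ?_, ?_⟩
  · have e1 : ((F l)^[j + 2] w).re = Real.log (B / l) := by
      have : (F l)^[j + 2] w = F l ((F l)^[j + 1] w) := Function.iterate_succ_apply' _ _ _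
      rw [this, re_F hl0 _ hBne]
    have e2 : Real.exp (Real.log (A / l) / 2) = Real.sqrt (A / l) := by
      have hAl : 0 < A / l := by positivity
      rw [Real.sqrt_eq_rpow, Real.rpow_def_of_pos hAl]
      congr 1; ring
    rw [e1, e2, Real.log_div hB0.ne' hl0.ne', Real.log_div hA0.ne' hl0.ne']
    have e3 : Real.log B - Real.log l - (Real.log A - Real.log l) = Real.log B - Real.log A := by ring
    rw [e3]
    have e4 : |Real.log B - Real.log A| ≤ C * Real.pi / M := by
      rw [abs_le]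
      constructor
      · have k1 := Real.log_le_sub_one_of_pos (show 0 < A / B by positivity)
        rw [Real.log_div hA0.ne' hB0.ne'] at k1
        have k2 : A / B - 1 ≤ C * Real.pi / M := by
          have : A / B - 1 = (A - B) / B := by field_simp
          rw [this, div_le_iff₀ hB0]
          have k3 : 0 ≤ C * Real.pi / M := by positivity
          nlinarith [hAB'.1, hAB'.2]
        linarith
      · have k1 := Real.log_le_sub_one_of_pos (show 0 < B / A by positivity)
        rw [Real.log_div hB0.ne' hA0.ne'] at k1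
        have k2 : B / A - 1 ≤ C * Real.pi / M := by
          have : B / A - 1 = (B - A) / A := by field_simp
          rw [this, div_le_iff₀ hA0]
          have k3 : 0 ≤ C * Real.pi / M := by positivity
          nlinarith [hAB'.1, hAB'.2]
        linarith
    have e5 := Real.exp_pos (-Real.sqrt (A / l))
    linarith
  · have hj1 : j - 1 + 1 = j := by omega
    have hj2 : j - 2 + 1 = j - 1 := by omega
    have h1 := hup (j - 1) (by omega) ξ (by rw [hj1]; exact hone)
    have h2 : A ≤ 4 * o l (j - 1) := by linarith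
    have h3 : o l (j - 1) = l * Real.exp (o l (j - 2)) := by
      rw [← hj2, o_succ]; rfl
    rw [h3] at h2
    have h4 : A / l ≤ Real.exp (o l (j - 2) + Real.log 4) := by
      rw [Real.exp_add, Real.exp_log (by norm_num), div_le_iff₀ hl0]
      linarith
    rw [Real.log_le_iff_le_exp (by positivity)]
    exact h4

end J4714

section J4715

theorem srcFold_low {l : ℝ} (hl : 0 < l) {C3 : ℝ} (hC3 : 0 < C3) (k : ℕ)
    (hk : 10 * (Real.log (C3 / Real.sqrt l) + |Real.log l|) ≤ o l (k + 1)) (u : ℂ) (hu : u ≠ 0)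
    (hun : ‖u‖ ≤ C3 / Real.sqrt (o l (k + 2))) : 2 / 5 * o l (k + 1) ≤ ‖F l u‖ := by
  have hsl : 0 < Real.sqrt l := Real.sqrt_pos.2 hl
  have h1 : Real.sqrt (o l (k + 2)) = Real.sqrt l * Real.exp (o l (k + 1) / 2) := by
    rw [o_succ l (k + 1)]
    unfold e
    rw [Real.sqrt_mul hl.le, Real.exp_half]
  have hup : 0 < ‖u‖ := norm_pos_iff.2 hu
  have h2 : Real.log ‖u‖ ≤ Real.log (C3 / Real.sqrt l) - o l (k + 1) / 2 := by
    have h3 : Real.log ‖u‖ ≤ Real.log (C3 / Real.sqrt (o l (k + 2))) :=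
      Real.log_le_log hup hun
    refine h3.trans (le_of_eq ?_)
    rw [h1, ← div_div, Real.log_div (by positivity) (Real.exp_pos _).ne', Real.log_exp]
  have h4 : (F l u).re = Real.log ‖u‖ - Real.log l := by
    unfold F
    simp [Complex.log_re]
  have h5 : -(F l u).re ≤ ‖F l u‖ := by
    have := Complex.abs_re_le_norm (F l u)
    exact (neg_le_abs _).trans this
  rw [h4] at h5
  have h6 := neg_abs_le (Real.log l)
  linarith

theorem srcFold_log {l : ℝ} (hl : 0 < l) (k : ℕ) {c x : ℝ} (hc : 0 < c)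
    (hx : c * o l (k + 1) ≤ x) : o l k + Real.log c ≤ Real.log (x / l) := by
  have h1 : o l (k + 1) = l * Real.exp (o l k) := o_succ l k
  rw [h1] at hx
  have h2 : Real.exp (o l k) * c ≤ x / l := by
    rw [le_div_iff₀ hl]
    linarith
  have h3 : Real.log (Real.exp (o l k) * c) ≤ Real.log (x / l) :=
    Real.log_le_log (by positivity) h2
  rwa [Real.log_mul (Real.exp_pos _).ne' hc.ne', Real.log_exp] at h3

theorem srcFold_log' {l : ℝ} (hl : 0 < l) (k : ℕ) {c x : ℝ} (hc : 0 < c) (hx0 : 0 < x)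
    (hx : x ≤ c * o l (k + 1)) : Real.log (x / l) ≤ o l k + Real.log c := by
  have h1 : o l (k + 1) = l * Real.exp (o l k) := o_succ l k
  rw [h1] at hx
  have h2 : x / l ≤ Real.exp (o l k) * c := by
    rw [div_le_iff₀ hl]
    linarith
  have h3 : Real.log (x / l) ≤ Real.log (Real.exp (o l k) * c) :=
    Real.log_le_log (by positivity) h2
  rwa [Real.log_mul (Real.exp_pos _).ne' hc.ne', Real.log_exp] at h3

/-- source in the fold -/
theorem srcFold {l : ℝ} (hl : Real.exp (-1) < l) : ∃ (r : ℝ) (j0 : ℕ), 0 < r ∧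
    ∀ (j : ℕ) (ξ : ℝ) (w : ℂ), j0 ≤ j → |ξ| ≤ r → (e l)^[j] ξ = w.re → 1 ≤ w.im →
    w.im ≤ Real.pi → |w.re - o l j| < Real.sqrt (o l j) →
    |((F l)^[j + 2] w).re - o l (j - 2)| ≤ Real.log 4 ∧
    (ξ ≠ 0 → o l (j - 2) - Real.log 4 ≤ Real.log (‖F l (ξ : ℂ)‖ / l)) := by
  have hl0 : 0 < l := l_pos hl
  obtain ⟨jU, hU⟩ := foldU hl
  obtain ⟨CL, jL, hCL, hL⟩ := foldL hl
  obtain ⟨CR, jR, hCR, hR⟩ := realX hl
  have hpi := Real.pi_pos
  have hpi4 := Real.pi_le_four
  set C3 : ℝ := 2 * CR + 2 * Real.pi * CL with hC3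
  have hC3p : 0 < C3 := by positivity
  obtain ⟨J, hJ⟩ := (Filter.eventually_atTop.1 ((o_tendsto hl).eventually_ge_atTop
    (max 32 (max (C3 ^ 2) (10 * (Real.log (C3 / Real.sqrt l) + |Real.log l|))))))
  refine ⟨1 / 2, J + 2 + jU + jL + jR + 1, by norm_num, ?_⟩
  intro j ξ w hj hξ hv hw1 hw2 hdist
  obtain ⟨k, rfl⟩ : ∃ k, j = k + 2 := ⟨j - 2, by omega⟩
  have hk2 : k + 2 - 2 = k := by omega
  rw [hk2]
  have hJ2 := hJ (k + 2) (by omega)
  have hJ1 := hJ (k + 1) (by omega)
  have h32 : 32 ≤ o l (k + 2) := (le_max_left _ _).trans hJ2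
  have hC3sq : C3 ^ 2 ≤ o l (k + 2) := ((le_max_left _ _).trans (le_max_right _ _)).trans hJ2
  have h10 : 10 * (Real.log (C3 / Real.sqrt l) + |Real.log l|) ≤ o l (k + 1) :=
    ((le_max_right _ _).trans (le_max_right _ _)).trans hJ1
  have h321 : 32 ≤ o l (k + 1) := (le_max_left _ _).trans hJ1
  set O : ℝ := o l (k + 2) with hO
  have hO0 : 0 < O := by linarith
  have hs0 : 0 < Real.sqrt O := Real.sqrt_pos.2 hO0
  have hss : Real.sqrt O * Real.sqrt O = O := Real.mul_self_sqrt hO0.le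
  have hs4 : 4 ≤ Real.sqrt O := Real.le_sqrt_of_sq_le (by linarith)
  have hsO : Real.sqrt O ≤ O / 2 := by nlinarith
  have hsO' : Real.sqrt O ≤ O := by linarith
  obtain ⟨hd1, hd2⟩ := abs_lt.1 hdist
  have hv1 : O / 2 ≤ w.re := by linarith
  have hv2 : w.re ≤ 2 * O := by linarith
  have hv0 : 0 < w.re := by linarith
  -- bound on ξ
  have hξ1 : |ξ| ≤ 2 * CR / Real.sqrt O := by
    have h1 := hR (k + 2) ξ (by omega) hξ
    rw [hv] at h1
    refine h1.trans ?_
    have h2 : O / 2 ≤ min w.re (o l (k + 2)) := le_min hv1 (by rw [← hO]; linarith)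
    have h3 : |w.re - o l (k + 2)| ≤ Real.sqrt O := hdist.le
    calc CR * |w.re - o l (k + 2)| / min w.re (o l (k + 2)) ≤ CR * Real.sqrt O / (O / 2) := by
          gcongr
      _ = 2 * CR / Real.sqrt O := by
          rw [div_eq_div_iff (by positivity) (by positivity)]
          linear_combination (2 * CR - CR) * hss * 0 + CR * hss
  -- bound on F^[j] w
  have hnorm : ‖w - ((w.re : ℝ) : ℂ)‖ = w.im := by
    have h1 : w - ((w.re : ℝ) : ℂ) = (w.im : ℂ) * I := by
      apply Complex.ext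
      · simp
      · simp
    rw [h1, norm_mul, Complex.norm_I, mul_one, Complex.norm_real, Real.norm_of_nonneg (by linarith)]
  have hw0 : 0 < w.im := by linarith
  have hFj : ‖(F l)^[k + 2] w‖ ≤ C3 / Real.sqrt O := by
    have h1 := hL (k + 2) ξ w (by omega) hξ hw0 (by
      rw [hv, hnorm]
      linarith)
    rw [hv, hnorm] at h1
    refine h1.trans ?_
    have h2 : CL * w.im / w.re ≤ 2 * Real.pi * CL / Real.sqrt O := by
      calc CL * w.im / w.re ≤ CL * Real.pi / (O / 2) := by gcongr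
        _ = 2 * Real.pi * CL / O := by field_simp
        _ ≤ 2 * Real.pi * CL / Real.sqrt O := by gcongr
    have h3 : C3 / Real.sqrt O = 2 * CR / Real.sqrt O + 2 * Real.pi * CL / Real.sqrt O := by
      rw [hC3, add_div]
    rw [h3]
    exact add_le_add hξ1 h2
  have hFj1 : ‖(F l)^[k + 2] w‖ ≤ 1 := by
    refine hFj.trans ?_
    rw [div_le_one hs0]
    exact Real.le_sqrt_of_sq_le hC3sq
  have hne : ∀ n, (F l)^[n] w ≠ 0 := by
    intro n h
    have h1 := Fit_upper (l := l) w hw0 n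
    rw [h] at h1
    simp at h1
  have hit1 : (F l)^[k + 2 + 1] w = F l ((F l)^[k + 2] w) := Function.iterate_succ_apply' _ _ _
  have hit2 : (F l)^[k + 2 + 2] w = F l ((F l)^[k + 2 + 1] w) :=
    Function.iterate_succ_apply' _ _ _
  have hlow : 2 / 5 * o l (k + 1) ≤ ‖(F l)^[k + 2 + 1] w‖ := by
    rw [hit1]
    exact srcFold_low hl0 hC3p k h10 _ (hne _) hFj
  have hupp : ‖(F l)^[k + 2 + 1] w‖ ≤ 2 * o l (k + 1) := by
    have h1 := hU (k + 1) (by omega) w hw1 hw2 (by
      show (e l)^[k + 2] (-1) ≤ w.re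
      rw [← hv]
      exact (eit_strictMono hl0 (k + 2)).monotone (by linarith [(abs_le.1 hξ).1])) (by
      show ‖w‖ ≤ 4 * O * Real.exp (Real.sqrt (o l (k + 1)) / 4)
      have h2 : ‖w‖ ≤ |w.re| + |w.im| := Complex.norm_le_abs_re_add_abs_im w
      rw [abs_of_pos hv0, abs_of_pos hw0] at h2
      have h3 : 1 ≤ Real.exp (Real.sqrt (o l (k + 1)) / 4) := Real.one_le_exp (by positivity)
      have h4 : 4 * O * 1 ≤ 4 * O * Real.exp (Real.sqrt (o l (k + 1)) / 4) := by gcongr
      linarith) hFj1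
    exact h1
  have hlog25 : -Real.log 4 ≤ Real.log (2 / 5) := by
    rw [← Real.log_inv]
    exact Real.log_le_log (by norm_num) (by norm_num)
  have hlog2 : Real.log 2 ≤ Real.log 4 := Real.log_le_log (by norm_num) (by norm_num)
  constructor
  · rw [hit2, re_F hl0 _ (hne _), abs_le]
    have h1 := srcFold_log hl0 k (by norm_num : (0 : ℝ) < 2 / 5) hlow
    have h2 := srcFold_log' hl0 k (by norm_num : (0 : ℝ) < 2) (norm_pos_iff.2 (hne _)) hupp
    constructor <;> linarith
  · intro hξ0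
    have h1 : ‖(ξ : ℂ)‖ ≤ C3 / Real.sqrt (o l (k + 2)) := by
      rw [Complex.norm_real, Real.norm_eq_abs]
      refine hξ1.trans ?_
      rw [← hO]
      gcongr
      rw [hC3]
      have : 0 < 2 * Real.pi * CL := by positivity
      linarith
    have h2 := srcFold_low hl0 hC3p k h10 (ξ : ℂ) (by exact_mod_cast hξ0) h1
    have h3 := srcFold_log hl0 k (by norm_num : (0 : ℝ) < 2 / 5) h2
    linarith

end J4715

section J4726

/-- target is far from the fold -/
theorem tgtGen {m : ℝ} (hm : Real.exp (-1) < m) : ∃ (C r : ℝ) (j0 : ℕ), 0 < r ∧ 1 ≤ C ∧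
    ∀ (j : ℕ) (ξ : ℝ) (b : ℂ), j0 ≤ j → |ξ| ≤ r → ξ ≠ 0 → 0 < b.im → b.im ≤ Real.pi →
    |b.re - (e m)^[j] ξ| ≤ Real.sqrt ((e m)^[j] ξ) →
    C * Real.sqrt ((e m)^[j] ξ) ≤ |(e m)^[j] ξ - o m j| →
    ‖(F m)^[j + 1] b - F m (ξ : ℂ)‖ ≤ 1 / 4 ∧
    |((F m)^[j + 2] b).re - Real.log (‖F m (ξ : ℂ)‖ / m)| ≤ 1 / 4 := by
  have hm0 : 0 < m := l_pos hm
  obtain ⟨C1, j1, hC1, hdis⟩ := distort hm
  obtain ⟨j2, hhb⟩ := halfbd hm
  -- choose j large such that (e m)^[j] (-1) is large
  have hev : ∀ᶠ j : ℕ in Filter.atTop, (8 * C1 + Real.pi) ^ 2 ≤ (e m)^[j] (-1) :=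
    (eit_tendsto hm (-1)).eventually_ge_atTop _
  obtain ⟨j3, hj3⟩ := Filter.eventually_atTop.1 hev
  refine ⟨8 * C1, min (1 / 2) (Real.exp (-(2 + |Real.log m|))), max j1 (max j2 j3), ?_, by linarith, ?_⟩
  · exact lt_min (by norm_num) (Real.exp_pos _)
  intro j ξ b hj hξ hξ0 hb0 hbpi hre hfold
  have hjj1 : j1 ≤ j := le_trans (le_max_left _ _) hj
  have hjj2 : j2 ≤ j := le_trans (le_trans (le_max_left _ _) (le_max_right _ _)) hj
  have hjj3 : j3 ≤ j := le_trans (le_trans (le_max_right _ _) (le_max_right _ _)) hj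
  have hξ12 : |ξ| ≤ 1 / 2 := le_trans hξ (min_le_left _ _)
  have hξr : |ξ| ≤ Real.exp (-(2 + |Real.log m|)) := le_trans hξ (min_le_right _ _)
  set v := (e m)^[j] ξ with hv
  have hv1 := (hhb j hjj2 ξ hξ12)
  have hvbig : (8 * C1 + Real.pi) ^ 2 ≤ v := by
    have := hj3 j hjj3
    have h2 := hv1.1
    have h3 := hv1.2
    linarith
  have hpi := Real.pi_pos
  have hpi3 := Real.pi_gt_three
  have hv0 : 0 < v := lt_of_lt_of_le (by positivity) hvbig
  have hsq : 8 * C1 + Real.pi ≤ Real.sqrt v := by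
    apply Real.le_sqrt_of_sq_le
    exact hvbig
  have hsqv : Real.sqrt v * Real.sqrt v = v := Real.mul_self_sqrt hv0.le
  have hs0 : 0 < Real.sqrt v := Real.sqrt_pos.2 hv0
  set h := Real.sqrt v + Real.pi with hh
  have hh0 : 0 < h := by positivity
  have hh2 : h ≤ 2 * Real.sqrt v := by rw [hh]; linarith
  have hdist : ‖b - ((v : ℝ) : ℂ)‖ ≤ h := by
    have h1 := Complex.norm_le_abs_re_add_abs_im (b - ((v : ℝ) : ℂ))
    simp only [Complex.sub_re, Complex.ofReal_re, Complex.sub_im, Complex.ofReal_im, sub_zero] at h1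
    have h2 : |b.im| ≤ Real.pi := by rw [abs_of_pos hb0]; exact hbpi
    linarith
  have hA : C1 * h ≤ (1 / 4) * |v - o m j| := by
    have : C1 * h ≤ C1 * (2 * Real.sqrt v) := mul_le_mul_of_nonneg_left hh2 (by linarith)
    linarith
  have hB : C1 * h ≤ (1 / 4) * v := by
    have h1 : C1 * h ≤ C1 * (2 * Real.sqrt v) := mul_le_mul_of_nonneg_left hh2 (by linarith)
    have h2 : 8 * C1 * Real.sqrt v ≤ Real.sqrt v * Real.sqrt v :=
      mul_le_mul_of_nonneg_right (by linarith) hs0.le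
    nlinarith
  have hC1h : 0 < C1 * h := by positivity
  have hfold0 : 0 < |v - o m j| := by nlinarith
  have h1 := hdis j ξ b h hjj1 hξ0 hξ12 hb0 hdist (by rw [← hv]; nlinarith) (by rw [← hv]; nlinarith)
  rw [← hv] at h1
  have hmin : 0 < min |v - o m j| v := lt_min hfold0 hv0
  have h2 : C1 * h / min |v - o m j| v ≤ 1 / 4 := by
    rw [div_le_iff₀ hmin]
    rcases min_choice |v - o m j| v with h' | h' <;> rw [h'] <;> assumption
  have h3 : ‖(F m)^[j + 1] b - F m (ξ : ℂ)‖ ≤ 1 / 4 := le_trans h1 h2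
  refine ⟨h3, ?_⟩
  -- norm of F ξ
  have hξC : (ξ : ℂ) ≠ 0 := by exact_mod_cast hξ0
  have hFre : (F m (ξ : ℂ)).re = Real.log (‖(ξ : ℂ)‖ / m) := re_F hm0 _ hξC
  have hnξ : ‖(ξ : ℂ)‖ = |ξ| := by simp
  have habs : 0 < |ξ| := abs_pos.2 hξ0
  have hF2 : 2 ≤ ‖F m (ξ : ℂ)‖ := by
    have h4 : -(F m (ξ : ℂ)).re ≤ ‖F m (ξ : ℂ)‖ := by
      have := Complex.abs_re_le_norm (F m (ξ : ℂ))
      exact le_trans (neg_le_abs _) this
    have h5 : Real.log |ξ| ≤ -(2 + |Real.log m|) := by
      have := Real.log_le_log habs hξr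
      rwa [Real.log_exp] at this
    rw [hFre, hnξ, Real.log_div habs.ne' hm0.ne'] at h4
    have := neg_abs_le (Real.log m)
    linarith
  have hA1 : (7 : ℝ) / 4 ≤ ‖(F m)^[j + 1] b‖ := by
    have h4 : ‖F m (ξ : ℂ)‖ ≤ ‖(F m)^[j + 1] b‖ + ‖(F m)^[j + 1] b - F m (ξ : ℂ)‖ := by
      have := norm_sub_norm_le (F m (ξ : ℂ)) ((F m)^[j + 1] b)
      rw [norm_sub_rev] at this
      linarith
    linarith
  have hne : (F m)^[j + 1] b ≠ 0 := by
    intro h0; rw [h0, norm_zero] at hA1; linarith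
  have hre2 : ((F m)^[j + 2] b).re = Real.log (‖(F m)^[j + 1] b‖ / m) := by
    rw [show j + 2 = (j + 1) + 1 from rfl, Function.iterate_succ_apply', re_F hm0 _ hne]
  rw [hre2]
  set A := ‖(F m)^[j + 1] b‖ with hAdef
  set B := ‖F m (ξ : ℂ)‖ with hBdef
  have hAB : |A - B| ≤ 1 / 4 := le_trans (abs_norm_sub_norm_le _ _) h3
  have hA0 : 0 < A := by linarith
  have hB0 : 0 < B := by linarith
  rw [Real.log_div hA0.ne' hm0.ne', Real.log_div hB0.ne' hm0.ne']
  have e1 : Real.log A - Real.log m - (Real.log B - Real.log m) = Real.log A - Real.log B := by ring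
  rw [e1, abs_le]
  rw [abs_le] at hAB
  constructor
  · have : Real.log B - Real.log A ≤ 1 / 4 := by
      rw [← Real.log_div hB0.ne' hA0.ne']
      have h5 := Real.log_le_sub_one_of_pos (div_pos hB0 hA0)
      have h6 : B / A ≤ 1 + 1 / 4 := by
        rw [div_le_iff₀ hA0]; nlinarith
      linarith
    linarith
  · rw [← Real.log_div hA0.ne' hB0.ne']
    have h5 := Real.log_le_sub_one_of_pos (div_pos hA0 hB0)
    have h6 : A / B ≤ 1 + 1 / 4 := by
      rw [div_le_iff₀ hB0]; nlinarith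
    linarith

end J4726

section J4731

/-- lower bound for the logarithm of a small number -/
theorem tf_small {m C5 v u t : ℝ} (hm : 0 < m) (hC5 : 0 < C5) (hv : 0 < v)
    (hvu : 4 / 5 * (m * Real.exp u) ≤ v)
    (hu : |3 / 2 * Real.log m - Real.log C5 + 1 / 2 * Real.log (4 / 5)| ≤ u / 10)
    (ht : 0 < t) (htv : t ≤ C5 / Real.sqrt v) : 2 / 5 * u ≤ -Real.log (t / m) := by
  have hsv : 0 < Real.sqrt v := Real.sqrt_pos.2 hv
  have h1 : Real.log t ≤ Real.log C5 - Real.log v / 2 := by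
    have h2 := Real.log_le_log ht htv
    rw [Real.log_div hC5.ne' hsv.ne', Real.log_sqrt hv.le] at h2
    exact h2
  have h3 : Real.log (4 / 5) + (Real.log m + u) ≤ Real.log v := by
    have h4 := Real.log_le_log (by positivity) hvu
    rw [Real.log_mul (by norm_num) (by positivity), Real.log_mul hm.ne' (Real.exp_pos u).ne',
      Real.log_exp] at h4
    exact h4
  rw [Real.log_div ht.ne' hm.ne']
  have h5 := (abs_le.1 hu).1
  linarith

theorem tf_exp_neg_two : Real.exp (-2) ≤ 2 / 5 := by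
  have h1 : (2.7 : ℝ) ≤ Real.exp 1 := by
    have := Real.exp_one_gt_d9
    linarith
  have h2 : Real.exp 2 = Real.exp 1 * Real.exp 1 := by
    rw [← Real.exp_add]
    norm_num
  have h3 : (5 / 2 : ℝ) ≤ Real.exp 2 := by
    rw [h2]
    nlinarith
  rw [Real.exp_neg, inv_le_comm₀ (Real.exp_pos 2) (by norm_num)]
  linarith

theorem tf_lo {m u' N : ℝ} (hm : 0 < m) (hN : 2 / 5 * (m * Real.exp u') ≤ N) :
    u' - 2 ≤ Real.log (N / m) := by
  have hN0 : 0 < N := lt_of_lt_of_le (by positivity) hN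
  rw [Real.le_log_iff_exp_le (by positivity), le_div_iff₀ hm, sub_eq_add_neg, Real.exp_add]
  have h1 := tf_exp_neg_two
  have h2 := Real.exp_pos u'
  have h3 : Real.exp u' * Real.exp (-2) ≤ Real.exp u' * (2 / 5) :=
    mul_le_mul_of_nonneg_left h1 h2.le
  calc Real.exp u' * Real.exp (-2) * m ≤ Real.exp u' * (2 / 5) * m :=
        mul_le_mul_of_nonneg_right h3 hm.le
    _ = 2 / 5 * (m * Real.exp u') := by ring
    _ ≤ N := hN

theorem tf_hi {m u' N : ℝ} (hm : 0 < m) (hN0 : 0 < N) (hN : N ≤ 2 * (m * Real.exp u')) :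
    Real.log (N / m) ≤ u' + 2 := by
  rw [Real.log_le_iff_le_exp (by positivity), div_le_iff₀ hm, Real.exp_add]
  have h1 : (2 : ℝ) ≤ Real.exp 2 := by
    have := Real.add_one_le_exp (2 : ℝ)
    linarith
  have h2 := Real.exp_pos u'
  calc N ≤ 2 * (m * Real.exp u') := hN
    _ = Real.exp u' * 2 * m := by ring
    _ ≤ Real.exp u' * Real.exp 2 * m :=
        mul_le_mul_of_nonneg_right (mul_le_mul_of_nonneg_left h1 h2.le) hm.le

/-- sizes -/
theorem tf_v {C v oj V0 : ℝ} (hC : 1 ≤ C) (hV64 : 64 ≤ V0) (hVC : 16 * C ^ 2 ≤ V0)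
    (hoj : V0 + C * Real.sqrt V0 ≤ oj) (h : |v - oj| < C * Real.sqrt v) :
    V0 ≤ v ∧ 3 / 4 * v ≤ oj ∧ oj ≤ 5 / 4 * v := by
  have hC0 : 0 < C := by linarith
  have hsv : 0 < Real.sqrt v := by
    by_contra hcon
    have h1 : Real.sqrt v = 0 := le_antisymm (not_lt.1 hcon) (Real.sqrt_nonneg v)
    rw [h1, mul_zero] at h
    exact absurd h (not_lt.2 (abs_nonneg _))
  have hv0 : 0 < v := Real.sqrt_pos.1 hsv
  have h2 := abs_lt.1 h
  have hV : V0 ≤ v := by
    by_contra hcon
    push Not at hcon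
    have h3 : Real.sqrt v ≤ Real.sqrt V0 := Real.sqrt_le_sqrt hcon.le
    have h4 := mul_le_mul_of_nonneg_left h3 hC0.le
    linarith [h2.1]
  have h5 : C * Real.sqrt v ≤ v / 4 := by
    have h6 : (4 * C) ^ 2 ≤ v := by nlinarith
    have h7 : 4 * C ≤ Real.sqrt v := Real.le_sqrt_of_sq_le h6
    have h8 : Real.sqrt v * Real.sqrt v = v := Real.mul_self_sqrt hv0.le
    nlinarith
  exact ⟨hV, by linarith [h2.2], by linarith [h2.1]⟩

/-- target in the fold -/
theorem tgtFold {m : ℝ} (hm : Real.exp (-1) < m) (C : ℝ) (hC : 1 ≤ C) : ∃ (r : ℝ) (j0 : ℕ), 0 < r ∧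
    ∀ (j : ℕ) (ξ : ℝ) (b : ℂ), j0 ≤ j → |ξ| ≤ r → 1 ≤ b.im → b.im ≤ Real.pi →
    |b.re - (e m)^[j] ξ| ≤ Real.sqrt ((e m)^[j] ξ) →
    |(e m)^[j] ξ - o m j| < C * Real.sqrt ((e m)^[j] ξ) →
    |((F m)^[j + 2] b).re - o m (j - 2)| ≤ 2 ∧
    (ξ ≠ 0 → o m (j - 2) - 2 ≤ Real.log (‖F m (ξ : ℂ)‖ / m)) := by
  have hm0 : 0 < m := l_pos hm
  obtain ⟨jH, hH⟩ := halfbd hm
  obtain ⟨jU, hU⟩ := foldU hm
  obtain ⟨CL, jL, hCL, hL⟩ := foldL hm
  obtain ⟨Cr, jX, hCr, hX⟩ := realX hm
  set C5 : ℝ := 4 / 3 * Cr * C + 2 * CL with hC5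
  have hC50 : 0 < C5 := by positivity
  set V0 : ℝ := 64 + 16 * C ^ 2 + C5 ^ 2 with hV0
  set c : ℝ := |3 / 2 * Real.log m - Real.log C5 + 1 / 2 * Real.log (4 / 5)| with hc
  obtain ⟨j1, hj1⟩ := Filter.eventually_atTop.1
    ((o_tendsto hm).eventually (Filter.eventually_ge_atTop (V0 + C * Real.sqrt V0)))
  obtain ⟨j2, hj2⟩ := Filter.eventually_atTop.1
    ((o_tendsto hm).eventually (Filter.eventually_ge_atTop (10 * c)))
  refine ⟨1 / 2, jH + jU + jL + jX + j1 + j2 + 2, by norm_num, ?_⟩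
  intro j ξ b hj hξ hb1 hb2 hbre hvo
  obtain ⟨i, rfl⟩ : ∃ i, j = i + 2 := ⟨j - 2, by omega⟩
  have hi : i + 2 - 2 = i := by omega
  rw [hi]
  set v : ℝ := (e m)^[i + 2] ξ with hv
  -- sizes
  obtain ⟨hvV, hov1, hov2⟩ := tf_v hC (by rw [hV0]; nlinarith [sq_nonneg C, sq_nonneg C5])
    (by rw [hV0]; nlinarith [sq_nonneg C5]) (hj1 (i + 2) (by omega)) hvo
  have hV64 : 64 ≤ V0 := by rw [hV0]; nlinarith [sq_nonneg C, sq_nonneg C5]
  have hVC5 : C5 ^ 2 ≤ V0 := by rw [hV0]; nlinarith [sq_nonneg C]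
  have hv64 : 64 ≤ v := hV64.trans hvV
  have hv0 : 0 < v := by linarith
  have hsv8 : 8 ≤ Real.sqrt v := Real.le_sqrt_of_sq_le (by linarith)
  have hsvC5 : C5 ≤ Real.sqrt v := Real.le_sqrt_of_sq_le (hVC5.trans hvV)
  have hsv0 : 0 < Real.sqrt v := by linarith
  have hsvv : Real.sqrt v * Real.sqrt v = v := Real.mul_self_sqrt hv0.le
  have hsv_le : Real.sqrt v ≤ v / 8 := by
    have h1 : Real.sqrt v * 8 ≤ Real.sqrt v * Real.sqrt v := mul_le_mul_of_nonneg_left hsv8 hsv0.le
    rw [hsvv] at h1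
    linarith
  have hpi := Real.pi_lt_d2
  have ho2 : o m (i + 2) = m * Real.exp (o m (i + 1)) := by
    rw [show i + 2 = (i + 1) + 1 by rfl, o_succ]
    rfl
  have ho1 : o m (i + 1) = m * Real.exp (o m i) := by
    rw [o_succ]
    rfl
  have hvu : 4 / 5 * (m * Real.exp (o m (i + 1))) ≤ v := by
    rw [← ho2]
    linarith
  have hu : c ≤ o m (i + 1) / 10 := by
    have := hj2 (i + 1) (by omega)
    linarith
  have hopos : 0 < o m (i + 2) := by linarith
  -- bound for xi
  have hξ6 : |ξ| ≤ 4 / 3 * Cr * C / Real.sqrt v := by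
    have h1 := hX (i + 2) ξ (by omega) hξ
    refine h1.trans ?_
    have h2 : 3 / 4 * v ≤ min v (o m (i + 2)) := le_min (by linarith) hov1
    have h3 : Cr * |v - o m (i + 2)| ≤ Cr * (C * Real.sqrt v) :=
      mul_le_mul_of_nonneg_left hvo.le (by linarith)
    calc Cr * |v - o m (i + 2)| / min v (o m (i + 2)) ≤ Cr * (C * Real.sqrt v) / (3 / 4 * v) := by
          apply div_le_div₀ (by positivity) h3 (by positivity) h2
      _ = 4 / 3 * Cr * C / Real.sqrt v := by
          rw [div_eq_div_iff (by positivity) (by positivity)]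
          have h5 : 4 / 3 * Cr * C * (3 / 4 * v) = Cr * C * v := by ring
          rw [h5]
          calc Cr * (C * Real.sqrt v) * Real.sqrt v = Cr * C * (Real.sqrt v * Real.sqrt v) := by ring
            _ = Cr * C * v := by rw [hsvv]
  have hξ5 : |ξ| ≤ C5 / Real.sqrt v := by
    refine hξ6.trans ?_
    apply div_le_div_of_nonneg_right _ hsv0.le
    rw [hC5]
    linarith
  -- bound for q = F^j b
  have hbv : ‖b - (v : ℂ)‖ ≤ Real.sqrt v + Real.pi := by
    have h1 := Complex.norm_le_abs_re_add_abs_im (b - (v : ℂ))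
    have h2 : (b - (v : ℂ)).re = b.re - v := by simp
    have h3 : (b - (v : ℂ)).im = b.im := by simp
    rw [h2, h3, abs_of_nonneg (by linarith : (0 : ℝ) ≤ b.im)] at h1
    linarith
  have hbv2 : ‖b - (v : ℂ)‖ ≤ v / 4 := by
    linarith
  have hq : ‖(F m)^[i + 2] b‖ ≤ C5 / Real.sqrt v := by
    have h1 := hL (i + 2) ξ b (by omega) hξ (by linarith) hbv2
    refine h1.trans ?_
    have h2 : CL * ‖b - (v : ℂ)‖ / v ≤ 2 * CL / Real.sqrt v := by
      rw [div_le_div_iff₀ hv0 hsv0]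
      have h3 : ‖b - (v : ℂ)‖ ≤ 2 * Real.sqrt v := by linarith
      calc CL * ‖b - (v : ℂ)‖ * Real.sqrt v ≤ CL * (2 * Real.sqrt v) * Real.sqrt v := by
            apply mul_le_mul_of_nonneg_right _ hsv0.le
            exact mul_le_mul_of_nonneg_left h3 (by linarith)
        _ = 2 * CL * (Real.sqrt v * Real.sqrt v) := by ring
        _ = 2 * CL * v := by rw [hsvv]
    calc |ξ| + CL * ‖b - (v : ℂ)‖ / v ≤ 4 / 3 * Cr * C / Real.sqrt v + 2 * CL / Real.sqrt v :=
          add_le_add hξ6 h2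
      _ = C5 / Real.sqrt v := by rw [hC5]; ring
  have hqpos : 0 < ‖(F m)^[i + 2] b‖ := by
    have h1 := Fit_upper (l := m) b (by linarith) (i + 2)
    rw [norm_pos_iff]
    intro h2
    rw [h2] at h1
    simp at h1
  have hq1 : ‖(F m)^[i + 2] b‖ ≤ 1 := by
    refine hq.trans ?_
    rw [div_le_one hsv0]
    exact hsvC5
  -- general lower bound
  have hlow : ∀ w : ℂ, 0 < ‖w‖ → ‖w‖ ≤ C5 / Real.sqrt v → 2 / 5 * o m (i + 1) ≤ ‖F m w‖ := by
    intro w hw1 hw2
    have h1 := tf_small hm0 hC50 hv0 hvu hu hw1 hw2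
    have h2 : (F m w).re = Real.log (‖w‖ / m) := re_F hm0 w (norm_pos_iff.1 hw1)
    have h3 := Complex.abs_re_le_norm (F m w)
    rw [h2] at h3
    exact h1.trans ((neg_le_abs _).trans h3)
  have hlo1 : 2 / 5 * o m (i + 1) ≤ ‖(F m)^[i + 3] b‖ := by
    rw [show i + 3 = (i + 2) + 1 by rfl, Function.iterate_succ_apply']
    exact hlow _ hqpos hq
  have ho1pos : 0 < o m (i + 1) := by
    rw [ho1]
    positivity
  have hhi1 : ‖(F m)^[i + 3] b‖ ≤ 2 * o m (i + 1) := by
    have h1 := hH (i + 2) (by omega) ξ hξ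
    have h2 := abs_le.1 hbre
    refine hU (i + 1) (by omega) b hb1 hb2 ?_ ?_ hq1
    · have h4 : (e m)^[i + 2] (-1) ≤ v / 2 := h1.1
      show (e m)^[i + 2] (-1) ≤ b.re
      linarith [h2.1]
    · have h5 : ‖b‖ ≤ v + ‖b - (v : ℂ)‖ := by
        have h6 := norm_add_le (v : ℂ) (b - (v : ℂ))
        rw [add_sub_cancel, Complex.norm_real, Real.norm_eq_abs, abs_of_pos hv0] at h6
        exact h6
      have h7 : ‖b‖ ≤ 4 * o m (i + 2) := by linarith
      have h8 : 1 ≤ Real.exp (Real.sqrt (o m (i + 1)) / 4) := by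
        apply Real.one_le_exp
        positivity
      calc ‖b‖ ≤ 4 * o m (i + 2) * 1 := by linarith
        _ ≤ 4 * o m (i + 2) * Real.exp (Real.sqrt (o m (i + 1)) / 4) :=
            mul_le_mul_of_nonneg_left h8 (by positivity)
  refine ⟨?_, ?_⟩
  · have h1 : (F m)^[i + 2 + 2] b = F m ((F m)^[i + 3] b) := by
      rw [show i + 2 + 2 = (i + 3) + 1 by rfl, Function.iterate_succ_apply']
    have h2 : 0 < ‖(F m)^[i + 3] b‖ := lt_of_lt_of_le (by positivity) hlo1
    rw [h1, re_F hm0 _ (norm_pos_iff.1 h2)]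
    rw [ho1] at hlo1 hhi1
    have h3 := tf_lo hm0 hlo1
    have h4 := tf_hi hm0 h2 hhi1
    rw [abs_le]
    constructor <;> linarith
  · intro hξ0
    have h1 : ‖(ξ : ℂ)‖ = |ξ| := by rw [Complex.norm_real, Real.norm_eq_abs]
    have h2 := hlow (ξ : ℂ) (by rw [h1]; exact abs_pos.2 hξ0) (by rw [h1]; exact hξ5)
    rw [ho1] at h2
    exact tf_lo hm0 h2

end J4731

section J4738

set_option maxHeartbeats 4000000 in
/-- target bounds when only the source is in the fold -/
theorem tgtMid {m : ℝ} (hm : Real.exp (-1) < m) : ∃ (r : ℝ) (j0 : ℕ), 0 < r ∧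
    ∀ (j : ℕ) (ξ : ℝ) (b : ℂ), j0 ≤ j → |ξ| ≤ r → 1 ≤ b.im → b.im ≤ Real.pi →
    |b.re - (e m)^[j] ξ| ≤ Real.sqrt ((e m)^[j] ξ) →
    (e m)^[j] ξ ≤ o m j * Real.exp (Real.sqrt (o m (j - 1)) / 4) →
    o m j * Real.exp (-(Real.sqrt (o m (j - 1)) / 4)) ≤ (e m)^[j] ξ →
    (ξ = 0 ∨ o m (j - 2) - Real.sqrt (o m (j - 2)) / 4 ≤ Real.log (‖F m (ξ : ℂ)‖ / m)) →
    |((F m)^[j + 2] b).re - o m (j - 2)| ≤ Real.sqrt (o m (j - 2)) / 3 := by
  obtain ⟨jh, hh⟩ := halfbd hm
  obtain ⟨jU, hU⟩ := foldU hm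
  obtain ⟨C, jL, hC, hL⟩ := foldL hm
  have hm0 : 0 < m := l_pos hm
  have hl2 : 0 < Real.log 2 := Real.log_pos (by norm_num)
  have hl2' : Real.log 2 < 1 := by
    have := Real.log_two_lt_d9
    linarith
  have hpi := Real.pi_pos
  have hpi4 : Real.pi ≤ 4 := Real.pi_le_four
  set lm : ℝ := |Real.log m| with hlm
  have hlm0 : 0 ≤ lm := abs_nonneg _
  set c : ℝ := 2 * lm + Real.pi + 2 with hc
  have hc0 : 0 < c := by positivity
  set X0 : ℝ := 64 / (3 * m) + 40 * C ^ 2 / m + 10 + 5 * c with hX0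
  set Y0 : ℝ := (5 + 12 * c / m) ^ 2 with hY0
  obtain ⟨N, hN⟩ := ((o_tendsto hm).eventually_ge_atTop (max X0 Y0)).exists_forall_of_atTop
  refine ⟨1 / 2, jh + jU + jL + N + 3, by norm_num, ?_⟩
  intro j ξ b hj hξ hb1 hb2 hre hv1 hv2 hξF
  obtain ⟨i, rfl⟩ : ∃ i, j = i + 2 := ⟨j - 2, by omega⟩
  have e1 : i + 2 - 1 = i + 1 := by omega
  have e2 : i + 2 - 2 = i := by omega
  rw [e1] at hv1 hv2
  rw [e2] at hξF ⊢
  have hx1 : o m (i + 1) = m * Real.exp (o m i) := o_succ m i
  have hx2 : o m (i + 2) = m * Real.exp (o m (i + 1)) := o_succ m (i + 1)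
  set y : ℝ := o m i with hy
  set x : ℝ := o m (i + 1) with hx
  set v : ℝ := (e m)^[i + 2] ξ with hv
  clear_value v
  set s : ℝ := Real.sqrt y with hs
  have hyY : Y0 ≤ y := (le_max_right _ _).trans (hN i (by omega))
  have hxX : X0 ≤ x := (le_max_left _ _).trans (hN (i + 1) (by omega))
  have hY0' : 0 ≤ 5 + 12 * c / m := by positivity
  have hs5' : 5 + 12 * c / m ≤ s := by
    rw [hs]
    exact Real.le_sqrt_of_sq_le hyY
  have hs5 : 5 ≤ s := by
    have : 0 ≤ 12 * c / m := by positivity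
    linarith
  have hsm : c ≤ m * s / 12 := by
    have h1 : 12 * c / m ≤ s := by linarith
    rw [div_le_iff₀ hm0] at h1
    linarith
  have hy0 : 0 < y := by
    have : 0 < Y0 := by positivity
    linarith
  have hss : s ^ 2 = y := Real.sq_sqrt hy0.le
  have hxa : 64 / (3 * m) ≤ x := by
    have h1 : 0 ≤ 40 * C ^ 2 / m := by positivity
    linarith
  have hxb : 40 * C ^ 2 / m ≤ x := by
    have h1 : 0 ≤ 64 / (3 * m) := by positivity
    linarith
  have hxc : 10 + 5 * c ≤ x := by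
    have h1 : 0 ≤ 64 / (3 * m) := by positivity
    have h2 : 0 ≤ 40 * C ^ 2 / m := by positivity
    linarith
  have hx0 : 0 < x := by linarith
  have hx10 : 10 ≤ x := by linarith
  -- sqrt x
  have hsx : Real.sqrt x ≤ 0.4 * x := by
    rw [Real.sqrt_le_left (by linarith)]
    have h1 : x * 10 ≤ x * x := mul_le_mul_of_nonneg_left hx10 hx0.le
    have h2 : (0.4 * x) ^ 2 = 0.16 * (x * x) := by ring
    rw [h2]
    linarith
  -- bounds for v
  have hvlow : m * Real.exp (0.9 * x) ≤ v := by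
    refine le_trans ?_ hv2
    rw [hx2, mul_assoc, ← Real.exp_add]
    refine mul_le_mul_of_nonneg_left (Real.exp_le_exp.mpr ?_) hm0.le
    linarith
  have hv16 : 16 ≤ v := by
    refine le_trans ?_ hvlow
    have h1 : 0.9 * x ≤ Real.exp (0.9 * x) := by
      have := Real.add_one_le_exp (0.9 * x)
      linarith
    have h2 : m * (0.9 * x) ≤ m * Real.exp (0.9 * x) := mul_le_mul_of_nonneg_left h1 hm0.le
    rw [div_le_iff₀ (by positivity)] at hxa
    linarith
  have hv0 : 0 < v := by linarith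
  have hsv0 : 0 < Real.sqrt v := Real.sqrt_pos.mpr hv0
  have hsv4 : 4 ≤ Real.sqrt v := Real.le_sqrt_of_sq_le (by linarith)
  have hsvv : Real.sqrt v * Real.sqrt v = v := Real.mul_self_sqrt hv0.le
  have hsvq : Real.sqrt v ≤ v / 4 := by
    have := mul_le_mul_of_nonneg_right hsv4 hsv0.le
    rw [hsvv] at this
    linarith
  -- position of b
  have hre' := abs_le.mp hre
  have hbim : |b.im| ≤ 4 := by
    rw [abs_of_pos (by linarith)]
    linarith
  have hnb : ‖b‖ ≤ 4 * v := by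
    have h1 := Complex.norm_le_abs_re_add_abs_im b
    have h2 : |b.re| ≤ v + Real.sqrt v := by
      rw [abs_le]
      constructor <;> linarith [hre'.1, hre'.2]
    linarith
  have hξ1 : |ξ| ≤ 1 / 2 := hξ
  have hbv : ‖b - (v : ℂ)‖ ≤ Real.sqrt v + 4 := by
    have h1 := Complex.norm_le_abs_re_add_abs_im (b - (v : ℂ))
    have h2 : (b - (v : ℂ)).re = b.re - v := by rw [Complex.sub_re, Complex.ofReal_re]
    have h3 : (b - (v : ℂ)).im = b.im := by rw [Complex.sub_im, Complex.ofReal_im, sub_zero]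
    rw [h2, h3] at h1
    linarith
  have hdiff : ‖b - (v : ℂ)‖ ≤ 2 * Real.sqrt v := by linarith
  have hdiff4 : ‖b - (v : ℂ)‖ ≤ v / 4 := by
    have h4 : 64 ≤ v := by
      refine le_trans ?_ hvlow
      have h1 : (0.9 * x) ^ 2 / 2 ≤ Real.exp (0.9 * x) := by
        have := Real.quadratic_le_exp_of_nonneg (x := 0.9 * x) (by linarith)
        linarith
      have h2 : m * ((0.9 * x) ^ 2 / 2) ≤ m * Real.exp (0.9 * x) :=
        mul_le_mul_of_nonneg_left h1 hm0.le
      rw [div_le_iff₀ (by positivity)] at hxa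
      refine le_trans ?_ h2
      have h5 : 64 ≤ 3 * (m * x) := by linarith
      have h6 : m * ((0.9 * x) ^ 2 / 2) = (m * x) * x * 0.405 := by ring
      rw [h6]
      have h7 : (m * x) * 10 ≤ (m * x) * x := mul_le_mul_of_nonneg_left hx10 (by positivity)
      linarith
    have h5 : Real.sqrt v ≤ v / 8 := by
      have h8 : 8 ≤ Real.sqrt v := Real.le_sqrt_of_sq_le (by linarith)
      have := mul_le_mul_of_nonneg_right h8 hsv0.le
      rw [hsvv] at this
      linarith
    have h6 : v / 8 + 4 ≤ v / 4 := by linarith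
    linarith
  have hw : ‖(F m)^[i + 2] b‖ ≤ |ξ| + C * ‖b - (v : ℂ)‖ / v := by
    have := hL (i + 2) ξ b (by omega) hξ1 (by linarith) (by rw [← hv]; exact hdiff4)
    rw [← hv] at this
    exact this
  -- the quotient
  have hquot : C * ‖b - (v : ℂ)‖ / v ≤ Real.exp (-(0.4 * x)) := by
    have h1 : C * ‖b - (v : ℂ)‖ / v ≤ 2 * C / Real.sqrt v := by
      rw [div_le_div_iff₀ hv0 hsv0]
      have h2 : C * ‖b - (v : ℂ)‖ ≤ C * (2 * Real.sqrt v) :=
        mul_le_mul_of_nonneg_left hdiff (by linarith)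
      calc C * ‖b - (v : ℂ)‖ * Real.sqrt v ≤ C * (2 * Real.sqrt v) * Real.sqrt v :=
            mul_le_mul_of_nonneg_right h2 hsv0.le
        _ = 2 * C * v := by linear_combination (2 * C) * hsvv
    refine h1.trans ?_
    rw [div_le_iff₀ hsv0]
    -- 2C ≤ exp(-0.4x) sqrt v
    have h3 : 2 * C * Real.exp (0.4 * x) ≤ Real.sqrt v := by
      refine Real.le_sqrt_of_sq_le ?_
      refine le_trans ?_ hvlow
      have h4 : (2 * C * Real.exp (0.4 * x)) ^ 2 = 4 * C ^ 2 * Real.exp (0.8 * x) := by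
        have h9 : Real.exp (0.8 * x) = Real.exp (0.4 * x) * Real.exp (0.4 * x) := by
          rw [← Real.exp_add]; congr 1; ring
        rw [h9]
        ring
      have h5 : m * Real.exp (0.9 * x) = (m * Real.exp (0.1 * x)) * Real.exp (0.8 * x) := by
        rw [mul_assoc, ← Real.exp_add]
        ring_nf
      rw [h4, h5]
      refine mul_le_mul_of_nonneg_right ?_ (Real.exp_pos _).le
      have h6 : 0.1 * x ≤ Real.exp (0.1 * x) := by
        have := Real.add_one_le_exp (0.1 * x)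
        linarith
      have h7 : m * (0.1 * x) ≤ m * Real.exp (0.1 * x) := mul_le_mul_of_nonneg_left h6 hm0.le
      refine le_trans ?_ h7
      rw [div_le_iff₀ hm0] at hxb
      linarith
    have h8 : Real.exp (-(0.4 * x)) * Real.exp (0.4 * x) = 1 := by
      rw [← Real.exp_add]; simp
    calc 2 * C = Real.exp (-(0.4 * x)) * (2 * C * Real.exp (0.4 * x)) := by
          linear_combination (-(2 * C)) * h8
      _ ≤ Real.exp (-(0.4 * x)) * Real.sqrt v := mul_le_mul_of_nonneg_left h3 (Real.exp_pos _).le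
  have hexph : Real.exp (-(0.4 * x)) ≤ 1 / 2 := by
    rw [Real.exp_neg, inv_le_comm₀ (Real.exp_pos _) (by norm_num)]
    have := Real.add_one_le_exp (0.4 * x)
    norm_num
    linarith
  set w : ℂ := (F m)^[i + 2] b with hwdef
  have hwle : ‖w‖ ≤ |ξ| + Real.exp (-(0.4 * x)) := by linarith
  have hw1 : ‖w‖ ≤ 1 := by linarith
  have hbimpos : 0 < b.im := by linarith
  have hwim : 0 < w.im := Fit_upper b hbimpos (i + 2)
  have hw0 : w ≠ 0 := by
    intro h
    rw [h] at hwim
    simp at hwim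
  have hwn : 0 < ‖w‖ := norm_pos_iff.mpr hw0
  set w1 : ℂ := (F m)^[i + 2 + 1] b with hw1def
  have hw1eq : w1 = F m w := by
    rw [hw1def, Function.iterate_succ_apply']
  have hw1im : 0 < w1.im := Fit_upper b hbimpos (i + 2 + 1)
  have hw10 : w1 ≠ 0 := by
    intro h
    rw [h] at hw1im
    simp at hw1im
  have hw1n : 0 < ‖w1‖ := norm_pos_iff.mpr hw10
  have hfin : ((F m)^[i + 2 + 2] b).re = Real.log (‖w1‖ / m) := by
    have : (F m)^[i + 2 + 2] b = F m w1 := by
      rw [hw1def]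
      exact Function.iterate_succ_apply' (F m) (i + 2 + 1) b
    rw [this, re_F hm0 w1 hw10]
  rw [hfin]
  -- upper bound for w1
  have hup : ‖w1‖ ≤ 2 * x := by
    have hhalf := hh (i + 2) (by omega) ξ hξ1
    have h1 : (e m)^[i + 1 + 1] (-1) ≤ b.re := by
      have h2 : (e m)^[i + 2] (-1) ≤ v / 2 := by rw [hv]; exact hhalf.1
      have h3 : v - Real.sqrt v ≤ b.re := by linarith [hre'.1]
      have h4 : v / 2 ≤ v - Real.sqrt v := by linarith
      exact h2.trans (h4.trans h3)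
    have h2 : ‖b‖ ≤ 4 * o m (i + 1 + 1) * Real.exp (Real.sqrt (o m (i + 1)) / 4) := by
      refine hnb.trans ?_
      rw [mul_assoc]
      exact mul_le_mul_of_nonneg_left hv1 (by norm_num)
    exact hU (i + 1) (by omega) b hb1 hb2 h1 h2 hw1
  -- lower bound for w1
  have hlow : x * Real.exp (-(s / 3)) ≤ ‖w1‖ := by
    have h1 : -Real.log ‖w‖ - lm ≤ ‖w1‖ := by
      have h2 : |(F m w).re| ≤ ‖F m w‖ := Complex.abs_re_le_norm _
      rw [re_F hm0 w hw0, Real.log_div hwn.ne' hm0.ne'] at h2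
      rw [hw1eq]
      have h3 := neg_le_abs (Real.log ‖w‖ - Real.log m)
      have h4 : -lm ≤ Real.log m := neg_abs_le _
      linarith
    have hT1 : x * Real.exp (-(s / 3)) ≤ 0.2 * x := by
      have h5 : Real.exp (-(s / 3)) ≤ 0.2 := by
        rw [Real.exp_neg, inv_le_comm₀ (Real.exp_pos _) (by norm_num)]
        have h6 := Real.quadratic_le_exp_of_nonneg (x := s / 3) (by linarith)
        have h7 : 5 / 3 ≤ s / 3 := by linarith
        have h8 : (5 / 3) ^ 2 ≤ (s / 3) ^ 2 := by gcongr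
        have h9 : Real.exp (5 / 3) ≤ Real.exp (s / 3) := Real.exp_le_exp.mpr h7
        have h10 : (5:ℝ) ≤ Real.exp (5 / 3) := by
          have h11 : Real.exp (5 / 3) = Real.exp 1 * Real.exp (2 / 3) := by
            rw [← Real.exp_add]; norm_num
          have h12 := Real.exp_one_gt_d9
          have h13 := Real.quadratic_le_exp_of_nonneg (x := 2 / 3) (by norm_num)
          rw [h11]
          have h14 : (2.7:ℝ) * 1.88 ≤ Real.exp 1 * Real.exp (2 / 3) := by
            apply mul_le_mul (by linarith) (by norm_num at h13 ⊢; linarith) (by norm_num)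
              (Real.exp_pos _).le
          linarith
        norm_num
        linarith
      calc x * Real.exp (-(s / 3)) ≤ x * 0.2 := mul_le_mul_of_nonneg_left h5 hx0.le
        _ = 0.2 * x := by ring
    -- main estimate: log of ‖w‖
    have hmain : ∀ M : ℝ, |ξ| ≤ Real.exp (-M) → M ≤ 0.4 * x → M - 1 - lm ≤ ‖w1‖ := by
      intro M hM1 hM2
      have h5 : ‖w‖ ≤ 2 * Real.exp (-M) := by
        have : Real.exp (-(0.4 * x)) ≤ Real.exp (-M) := Real.exp_le_exp.mpr (by linarith)
        linarith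
      have h6 : Real.log ‖w‖ ≤ Real.log 2 + -M := by
        have h7 := Real.log_le_log hwn h5
        rwa [Real.log_mul (by norm_num) (Real.exp_pos _).ne', Real.log_exp] at h7
      linarith
    rcases hξF with h0 | h0
    · have h5 := hmain (0.4 * x) (by rw [h0, abs_zero]; exact (Real.exp_pos _).le) le_rfl
      refine hT1.trans (le_trans ?_ h5)
      linarith
    · by_cases hξ0 : ξ = 0
      · have h5 := hmain (0.4 * x) (by rw [hξ0, abs_zero]; exact (Real.exp_pos _).le) le_rfl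
        refine hT1.trans (le_trans ?_ h5)
        linarith
      · have hξp : 0 < |ξ| := abs_pos.mpr hξ0
        have hξC : (ξ : ℂ) ≠ 0 := by exact_mod_cast hξ0
        -- norm of F ξ
        have hFn : ‖F m (ξ : ℂ)‖ ≤ -Real.log |ξ| + lm + Real.pi := by
          have h1 := Complex.norm_le_abs_re_add_abs_im (F m (ξ : ℂ))
          rw [re_F hm0 _ hξC, im_F, Complex.norm_real, Real.norm_eq_abs,
            Real.log_div hξp.ne' hm0.ne'] at h1
          have h2 : abs (Real.log (abs ξ) - Real.log m) ≤ -Real.log (abs ξ) + lm := by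
            have h3 : abs (Real.log (abs ξ) - Real.log m) ≤ abs (Real.log (abs ξ)) + lm :=
              abs_sub _ _
            have h4 : Real.log |ξ| ≤ 0 := Real.log_nonpos hξp.le (by linarith)
            rw [abs_of_nonpos h4] at h3
            exact h3
          have h3 : |Complex.arg (ξ : ℂ)| ≤ Real.pi := Complex.abs_arg_le_pi _
          linarith
        have hFpos : 0 < ‖F m (ξ : ℂ)‖ / m := by
          by_contra hneg
          push Not at hneg
          have h1 : ‖F m (ξ : ℂ)‖ / m = 0 := le_antisymm hneg (by positivity)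
          rw [h1, Real.log_zero] at h0
          have h2 : s * 5 ≤ s * s := mul_le_mul_of_nonneg_left hs5 (by linarith)
          have h3 : y = s * s := by rw [← hss]; ring
          linarith
        have hFlow : m * Real.exp (y - s / 4) ≤ ‖F m (ξ : ℂ)‖ := by
          have h1 := Real.exp_le_exp.mpr h0
          rw [Real.exp_log hFpos, le_div_iff₀ hm0] at h1
          linarith
        -- Q
        set Q : ℝ := m * Real.exp (y - s / 4) with hQ
        have hQx : Q = x * Real.exp (-(s / 4)) := by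
          rw [hQ, hx1, mul_assoc, ← Real.exp_add]
          ring_nf
        have hξexp : |ξ| ≤ Real.exp (-(Q - lm - Real.pi)) := by
          rw [← Real.exp_log hξp]
          apply Real.exp_le_exp.mpr
          linarith
        have hQT : x * Real.exp (-(s / 3)) + c ≤ Q := by
          have h1 : Real.exp (-(s / 4)) = Real.exp (-(s / 3)) * Real.exp (s / 12) := by
            rw [← Real.exp_add]; ring_nf
          have h2 : 1 + s / 12 ≤ Real.exp (s / 12) := by
            have := Real.add_one_le_exp (s / 12)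
            linarith
          have h3 : m ≤ x * Real.exp (-(s / 3)) := by
            rw [hx1, mul_assoc, ← Real.exp_add]
            have h4 : 1 ≤ Real.exp (y + -(s / 3)) := by
              apply Real.one_le_exp
              have h2 : s * 5 ≤ s * s := mul_le_mul_of_nonneg_left hs5 (by linarith)
              have h3 : y = s * s := by rw [← hss]; ring
              linarith
            exact le_mul_of_one_le_right hm0.le h4
          rw [hQx, h1]
          have h5 : 0 < x * Real.exp (-(s / 3)) := by positivity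
          have h6 : x * Real.exp (-(s / 3)) * (1 + s / 12) ≤
              x * (Real.exp (-(s / 3)) * Real.exp (s / 12)) := by
            rw [← mul_assoc]
            exact mul_le_mul_of_nonneg_left h2 h5.le
          have h7 : m * (s / 12) ≤ x * Real.exp (-(s / 3)) * (s / 12) :=
            mul_le_mul_of_nonneg_right h3 (by linarith)
          linarith
        rcases le_or_gt (Q - lm - Real.pi) (0.4 * x) with h9 | h9
        · have h5 := hmain (Q - lm - Real.pi) hξexp h9
          linarith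
        · have h5 := hmain (0.4 * x) (hξexp.trans (Real.exp_le_exp.mpr (by linarith))) le_rfl
          refine hT1.trans (le_trans ?_ h5)
          linarith
  rw [abs_le]
  constructor
  · -- lower
    have h1 : Real.log (x * Real.exp (-(s / 3)) / m) ≤ Real.log (‖w1‖ / m) := by
      apply Real.log_le_log (by positivity)
      exact div_le_div_of_nonneg_right hlow hm0.le
    have h2 : Real.log (x * Real.exp (-(s / 3)) / m) = y - s / 3 := by
      have : x * Real.exp (-(s / 3)) / m = Real.exp (y - s / 3) := by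
        rw [hx1, Real.exp_sub, Real.exp_neg]
        field_simp
      rw [this, Real.log_exp]
    linarith
  · have h1 : Real.log (‖w1‖ / m) ≤ Real.log (2 * x / m) := by
      apply Real.log_le_log (by positivity)
      exact div_le_div_of_nonneg_right hup hm0.le
    have h2 : Real.log (2 * x / m) = Real.log 2 + y := by
      have : 2 * x / m = 2 * Real.exp y := by
        rw [hx1]
        field_simp
      rw [this, Real.log_mul (by norm_num) (Real.exp_pos _).ne', Real.log_exp]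
    linarith

end J4738

section J4739

theorem imBig {m : ℝ} (hm : Real.exp (-1) < m) : ∃ (r : ℝ) (j0 : ℕ), 0 < r ∧
    ∀ (j : ℕ) (ξ : ℝ) (b : ℂ), j0 ≤ j → |ξ| ≤ r → 0 < b.im → b.im ≤ Real.pi →
    |b.re - (e m)^[j] ξ| ≤ Real.sqrt ((e m)^[j] ξ) →
    ‖(F m)^[j] b‖ ≤ 2 * r ∧ 1 ≤ ((F m)^[j + 2] b).im := by
  have hmpos : 0 < m := l_pos hm
  obtain ⟨C, jf, hC, hfold⟩ := foldL hm
  obtain ⟨jh, hhalf⟩ := halfbd hm
  set r : ℝ := min (1 / 2) (m / 4) with hr
  have hrpos : 0 < r := lt_min (by norm_num) (by linarith)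
  have hr2 : r ≤ 1 / 2 := min_le_left _ _
  have hrm : r ≤ m / 4 := min_le_right _ _
  set κ : ℝ := min (1 / 4) (r / C) with hκ
  have hCpos : 0 < C := by linarith
  have hκpos : 0 < κ := lt_min (by norm_num) (div_pos hrpos hCpos)
  have hκ1 : κ ≤ 1 / 4 := min_le_left _ _
  have hκ2 : κ ≤ r / C := min_le_right _ _
  obtain ⟨jt, hjt⟩ := (Filter.tendsto_atTop_atTop.1 (eit_tendsto hm (-1))) ((8 / κ) ^ 2)
  refine ⟨r, max jf (max jh jt), hrpos, ?_⟩
  intro j ξ b hj hξ hb0 hbpi hre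
  have hj1 : jf ≤ j := le_trans (le_max_left _ _) hj
  have hj2 : jh ≤ j := le_trans (le_trans (le_max_left _ _) (le_max_right _ _)) hj
  have hj3 : jt ≤ j := le_trans (le_trans (le_max_right _ _) (le_max_right _ _)) hj
  have hξ2 : |ξ| ≤ 1 / 2 := le_trans hξ hr2
  obtain ⟨h1, h2⟩ := hhalf j hj2 ξ hξ2
  have h3 := hjt j hj3
  set v : ℝ := (e m)^[j] ξ with hv
  have h8 : 32 ≤ 8 / κ := by
    rw [le_div_iff₀ hκpos]; linarith
  have hvV : (8 / κ) ^ 2 ≤ v := by nlinarith
  have hvpos : 0 < v := by nlinarith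
  have hsq : 8 / κ ≤ Real.sqrt v := by
    apply Real.le_sqrt_of_sq_le hvV
  have hsqpos : 0 < Real.sqrt v := by linarith
  have hss : Real.sqrt v * Real.sqrt v = v := Real.mul_self_sqrt hvpos.le
  have hb1 : Real.sqrt v ≤ κ * v / 8 := by
    have : 8 ≤ κ * Real.sqrt v := by
      rw [div_le_iff₀ hκpos] at hsq; linarith
    nlinarith
  have hpi4 : Real.pi ≤ 4 := Real.pi_le_four
  have hb2 : Real.sqrt v + Real.pi ≤ κ * v := by
    have : 32 ≤ Real.sqrt v := by linarith
    nlinarith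
  have hnorm : ‖b - (v : ℂ)‖ ≤ Real.sqrt v + Real.pi := by
    have h5 := Complex.norm_le_abs_re_add_abs_im (b - (v : ℂ))
    have h6 : (b - (v : ℂ)).re = b.re - v := by simp
    have h7 : (b - (v : ℂ)).im = b.im := by simp
    rw [h6, h7, abs_of_pos hb0] at h5
    linarith
  have hκv : κ * v ≤ v / 4 := by nlinarith
  have hF := hfold j ξ b hj1 hξ2 hb0 (by
    rw [← hv]; linarith)
  rw [← hv] at hF
  have hFr : ‖(F m)^[j] b‖ ≤ 2 * r := by
    have h9 : C * ‖b - (v : ℂ)‖ / v ≤ r := by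
      rw [div_le_iff₀ hvpos]
      have h10 : κ * C ≤ r := by
        rw [le_div_iff₀ hCpos] at hκ2; exact hκ2
      calc C * ‖b - (v : ℂ)‖ ≤ C * (κ * v) := by
            apply mul_le_mul_of_nonneg_left _ hCpos.le
            linarith
        _ = (κ * C) * v := by ring
        _ ≤ r * v := by
            apply mul_le_mul_of_nonneg_right h10 hvpos.le
    linarith
  refine ⟨hFr, ?_⟩
  have himj : 0 < ((F m)^[j] b).im := Fit_upper b hb0 j
  have hne : (F m)^[j] b ≠ 0 := by
    intro h0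
    rw [h0] at himj
    simp at himj
  have himj1 : 0 < ((F m)^[j + 1] b).im := Fit_upper b hb0 (j + 1)
  have hrej1 : ((F m)^[j + 1] b).re < 0 := by
    rw [Function.iterate_succ_apply', re_F hmpos _ hne]
    apply Real.log_neg
    · exact div_pos (norm_pos_iff.2 hne) hmpos
    · rw [div_lt_one hmpos]
      linarith
  have harg : Real.pi / 2 < arg ((F m)^[j + 1] b) := by
    by_contra hcon
    push Not at hcon
    have h0 : 0 ≤ arg ((F m)^[j + 1] b) := Complex.arg_nonneg_iff.2 himj1.le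
    have h11 : |arg ((F m)^[j + 1] b)| ≤ Real.pi / 2 := by
      rw [abs_of_nonneg h0]; exact hcon
    have h12 := Complex.abs_arg_le_pi_div_two_iff.1 h11
    linarith
  have h13 : (F m)^[j + 2] b = F m ((F m)^[j + 1] b) := Function.iterate_succ_apply' _ _ _
  rw [h13, im_F]
  have := Real.pi_gt_three
  linarith

end J4739

section J4752

set_option maxHeartbeats 4000000 in
theorem step {l m R : ℝ} {α β : ℤ → ℝ → ℝ} (hG : Good l m R α β)
    (hl : Real.exp (-1) < l) (hm : Real.exp (-1) < m) : ∃ (r : ℝ) (j0 : ℕ), 0 < r ∧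
    ∀ (n : ℤ) (j : ℕ) (ξ : ℝ) (w b : ℂ), j0 ≤ j → |ξ| ≤ r → (e l)^[j] ξ = w.re → 1 ≤ w.im →
    w.im ≤ Real.pi → 1 ≤ b.im → b.im ≤ Real.pi →
    |b.re - α (n + 2 + j) w.re| ≤ Real.sqrt (α (n + 2 + j) w.re) →
    |((F m)^[j + 2] b).re - α n ((F l)^[j + 2] w).re| ≤ Real.sqrt (α n ((F l)^[j + 2] w).re) ∧
    1 ≤ ((F m)^[j + 2] b).im := by
  have hl0 := l_pos hl
  have hm0 := l_pos hm
  obtain ⟨C, r1, j1, hr1, hC1, hgen⟩ := tgtGen hm
  obtain ⟨r2, j2, hr2, hfold⟩ := tgtFold hm C hC1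
  obtain ⟨r3, j3, hr3, hmid⟩ := tgtMid hm
  obtain ⟨r4, j4, hr4, himb⟩ := imBig hm
  obtain ⟨r5, j5, hr5, hsg⟩ := srcGen hl
  obtain ⟨r6, j6, hr6, hsf⟩ := srcFold hl
  obtain ⟨r7, hr7, hpol⟩ := hG.polar hl hm (max (R + 1) (Real.exp 2))
  obtain ⟨x0, hsmall⟩ := hG.small hl hm
  obtain ⟨k0, hFbd⟩ := hG.Fbd hl hm
  obtain ⟨K1, hK1⟩ := Filter.eventually_atTop.mp ((o_tendsto hm).eventually_ge_atTop 100)
  obtain ⟨K2, hK2⟩ := Filter.eventually_atTop.mp ((o_tendsto hl).eventually_ge_atTop 4)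
  -- smallness of the image point
  obtain ⟨T, hT1, hT2, hT3⟩ : ∃ T : ℝ, x0 ≤ T ∧ R ≤ T ∧
      Real.exp (2 - (Real.log T) ^ 2) * m ≤ min (min r1 r2) (min r3 r4) := by
    have h1 : Filter.Tendsto (fun T : ℝ => Real.exp (2 - (Real.log T) ^ 2) * m) Filter.atTop
        (nhds (0 * m)) := by
      apply Filter.Tendsto.mul_const
      apply Real.tendsto_exp_atBot.comp
      apply Filter.tendsto_atBot_add_const_left
      apply Filter.tendsto_neg_atTop_atBot.comp
      exact (Filter.tendsto_pow_atTop (by norm_num)).comp Real.tendsto_log_atTop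
    rw [zero_mul] at h1
    have h2 := h1.eventually (ge_mem_nhds (show (0 : ℝ) < min (min r1 r2) (min r3 r4) from
      lt_min (lt_min hr1 hr2) (lt_min hr3 hr4)))
    obtain ⟨T, h3, h4, h5⟩ := (h2.and ((Filter.eventually_ge_atTop x0).and
      (Filter.eventually_ge_atTop R))).exists
    exact ⟨T, h4, h5, h3⟩
  have hxi : ∀ (n : ℤ) (ξ : ℝ), |ξ| ≤ l * Real.exp (-T) →
      |α (n + 2) ξ| ≤ min (min r1 r2) (min r3 r4) := by
    intro n ξ hξ
    obtain ⟨h1, h2⟩ := hsmall (n + 2) T hT1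
    have h3 := hG.grow (n + 2 - 1) T hT2
    have h4 : Real.exp (2 - α (n + 2 - 1) T) * m ≤ Real.exp (2 - (Real.log T) ^ 2) * m := by
      apply mul_le_mul_of_nonneg_right _ hm0.le
      apply Real.exp_le_exp.mpr
      linarith
    have h5 := (hG.mono (n + 2)).monotone (abs_le.mp hξ).1
    have h6 := (hG.mono (n + 2)).monotone (abs_le.mp hξ).2
    rw [abs_le] at h1 h2 ⊢
    constructor <;> linarith [h1.1, h1.2, h2.1, h2.2]
  refine ⟨min (min r5 r6) (min r7 (l * Real.exp (-T))),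
    max (max (max j1 j2) (max j3 j4)) (max (max j5 j6) (max (k0 + 2) (max (K1 + 2) K2))),
    lt_min (lt_min hr5 hr6) (lt_min hr7 (by positivity)), ?_⟩
  intro n j ξ w b hj hξ hw hw1 hwp hb1 hbp hbv
  simp only [max_le_iff] at hj
  simp only [le_min_iff] at hξ
  obtain ⟨⟨⟨hj1, hj2⟩, hj3, hj4⟩, ⟨hj5, hj6⟩, hjk, hjK1, hjK2⟩ := hj
  obtain ⟨⟨hξ5, hξ6⟩, hξ7, hξT⟩ := hξ
  have hxi' := hxi n ξ hξT
  simp only [le_min_iff] at hxi'
  obtain ⟨⟨hx1, hx2⟩, hx3, hx4⟩ := hxi'
  set ξ' := α (n + 2) ξ with hξ'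
  have hv : α (n + 2 + j) w.re = (e m)^[j] ξ' := by
    rw [← hw]; exact hG.alpha_eit (n + 2) j ξ
  rw [hv] at hbv
  set k := j - 2 with hk
  have hkj : j = k + 2 := by omega
  have hμ : (100 : ℝ) ≤ o m k := hK1 k (by omega)
  have hlj : (4 : ℝ) ≤ o l j := hK2 j (by omega)
  set μ := o m k with hμd
  have hsq : Real.sqrt μ ^ 2 = μ := Real.sq_sqrt (by linarith)
  have hs10 : 10 ≤ Real.sqrt μ := by
    rw [show (10 : ℝ) = Real.sqrt (10 ^ 2) by rw [Real.sqrt_sq (by norm_num)]]
    apply Real.sqrt_le_sqrt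
    linarith
  have hlog4 : 0 ≤ Real.log 4 := Real.log_nonneg (by norm_num)
  refine ⟨?_, (himb j ξ' b hj4 hx4 (by linarith) hbp hbv).2⟩
  set A := ((F l)^[j + 2] w).re with hA
  set B := ((F m)^[j + 2] b).re with hB
  -- the polar identity
  have hpolar : ξ ≠ 0 → ξ' ≠ 0 ∧ max (R + 1) (Real.exp 2) ≤ Real.log (‖F l (ξ : ℂ)‖ / l) ∧
      Real.log (‖F m (ξ' : ℂ)‖ / m) = α n (Real.log (‖F l (ξ : ℂ)‖ / l)) := by
    intro h0
    obtain ⟨h1, h2, h3⟩ := hpol n ξ h0 hξ7
    refine ⟨h1, h2, ?_⟩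
    rw [h3, mul_div_assoc, mul_comm, div_mul_cancel₀ _ hm0.ne', Real.log_exp]
  by_cases hcase : |w.re - o l j| < Real.sqrt (o l j)
  · -- source in the fold
    obtain ⟨s1, s2⟩ := hsf j ξ w hj6 hξ6 hw hw1 hwp hcase
    have s3 := hFbd k (by omega) n (A - o l k) s1
    rw [show o l k + (A - o l k) = A by ring] at s3
    have hsl : Real.sqrt (o l j) ^ 2 = o l j := Real.sq_sqrt (by linarith)
    have hsl2 : 2 ≤ Real.sqrt (o l j) := by
      rw [show (2 : ℝ) = Real.sqrt (2 ^ 2) by rw [Real.sqrt_sq (by norm_num)]]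
      apply Real.sqrt_le_sqrt
      linarith
    have hc := abs_lt.mp hcase
    have hup : w.re ≤ l * Real.exp (o l (j - 1) + Real.log 4) := by
      rw [Real.exp_add, Real.exp_log (by norm_num)]
      have : o l j = l * Real.exp (o l (j - 1)) := by
        have := o_succ l (j - 1)
        rw [show j - 1 + 1 = j by omega] at this
        exact this
      nlinarith
    have hlo : l * Real.exp (o l (j - 1) + -Real.log 4) ≤ w.re := by
      rw [Real.exp_add, Real.exp_neg, Real.exp_log (by norm_num)]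
      have : o l j = l * Real.exp (o l (j - 1)) := by
        have := o_succ l (j - 1)
        rw [show j - 1 + 1 = j by omega] at this
        exact this
      nlinarith
    have hom : o m j = m * Real.exp (o m (j - 1)) := by
      have := o_succ m (j - 1)
      rw [show j - 1 + 1 = j by omega] at this
      exact this
    have hup2 : (e m)^[j] ξ' ≤ o m j * Real.exp (Real.sqrt (o m (j - 1)) / 4) := by
      rw [← hv]
      refine ((hG.mono _).monotone hup).trans ?_
      have h1 := hG.pos (n + 2 + j - 1) (o l (j - 1) + Real.log 4)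
      rw [show n + 2 + j - 1 + 1 = n + 2 + j by ring] at h1
      rw [h1, hom, mul_assoc, ← Real.exp_add]
      apply mul_le_mul_of_nonneg_left _ hm0.le
      apply Real.exp_le_exp.mpr
      have h2 := hFbd (j - 1) (by omega) (n + 2 + j - 1) (Real.log 4) (by
        rw [abs_of_nonneg hlog4])
      have := (abs_le.mp h2).2
      linarith
    have hlo2 : o m j * Real.exp (-(Real.sqrt (o m (j - 1)) / 4)) ≤ (e m)^[j] ξ' := by
      rw [← hv]
      refine le_trans ?_ ((hG.mono _).monotone hlo)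
      have h1 := hG.pos (n + 2 + j - 1) (o l (j - 1) + -Real.log 4)
      rw [show n + 2 + j - 1 + 1 = n + 2 + j by ring] at h1
      rw [h1, hom, mul_assoc, ← Real.exp_add]
      apply mul_le_mul_of_nonneg_left _ hm0.le
      apply Real.exp_le_exp.mpr
      have h2 := hFbd (j - 1) (by omega) (n + 2 + j - 1) (-Real.log 4) (by
        rw [abs_neg, abs_of_nonneg hlog4])
      have := (abs_le.mp h2).1
      linarith
    have hor : ξ' = 0 ∨ o m (j - 2) - Real.sqrt (o m (j - 2)) / 4 ≤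
        Real.log (‖F m (ξ' : ℂ)‖ / m) := by
      by_cases h0 : ξ' = 0
      · exact Or.inl h0
      right
      have h1 : ξ ≠ 0 := by
        intro h1
        apply h0
        rw [hξ', h1, hG.zero]
      obtain ⟨-, -, h2⟩ := hpolar h1
      rw [h2]
      refine le_trans ?_ ((hG.mono n).monotone (s2 h1))
      have h3 := hFbd k (by omega) n (-Real.log 4) (by rw [abs_neg, abs_of_nonneg hlog4])
      have := (abs_le.mp h3).1
      rw [show o l (j - 2) - Real.log 4 = o l k + -Real.log 4 by rw [hk]; ring]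
      linarith
    have t1 := hmid j ξ' b hj3 hx3 hb1 hbp hbv hup2 hlo2 hor
    have t2 := abs_le.mp t1
    have t3 := abs_le.mp s3
    have t4 : |B - α n A| ≤ 7 / 12 * Real.sqrt μ := by
      rw [abs_le]
      constructor <;> linarith [t2.1, t2.2, t3.1, t3.2]
    refine t4.trans ?_
    apply Real.le_sqrt_of_sq_le
    nlinarith [t3.1]
  · push Not at hcase
    obtain ⟨s0, s1, s2⟩ := hsg j ξ w hj5 hξ5 hw (by linarith) hwp hcase
    obtain ⟨p1, p2, p3⟩ := hpolar s0
    set X := Real.log (‖F l (ξ : ℂ)‖ / l) with hX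
    have p4 : R + 1 ≤ X := (le_max_left _ _).trans p2
    have p5 : Real.exp 2 ≤ X := (le_max_right _ _).trans p2
    have s3 := hG.inc n X (A - X) (by linarith) s1
    rw [show X + (A - X) = A by ring] at s3
    have s4 := abs_le.mp s3
    by_cases hC : C * Real.sqrt ((e m)^[j] ξ') ≤ |(e m)^[j] ξ' - o m j|
    · obtain ⟨-, t1⟩ := hgen j ξ' b hj1 hx1 p1 (by linarith) hbp hbv hC
      rw [p3] at t1
      have t2 := abs_le.mp t1
      have t3 := hG.grow n X (by linarith)
      have t4 : 2 ≤ Real.log X := by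
        rw [← Real.log_exp 2]
        exact Real.log_le_log (Real.exp_pos _) p5
      have t5 : |B - α n A| ≤ 5 / 4 := by
        rw [abs_le]
        constructor <;> linarith [t2.1, t2.2, s4.1, s4.2]
      refine t5.trans ?_
      apply Real.le_sqrt_of_sq_le
      nlinarith [s4.1]
    · push Not at hC
      obtain ⟨t1, t2⟩ := hfold j ξ' b hj2 hx2 hb1 hbp hbv hC
      have t3 := t2 p1
      rw [p3] at t3
      have t4 := (hG.mono n).monotone s2
      have t5 := (abs_le.mp (hFbd k (by omega) n (Real.log 4) (by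
        rw [abs_of_nonneg hlog4]))).2
      have t6 := abs_le.mp t1
      have t7 : |B - α n A| ≤ Real.sqrt μ / 4 + 5 := by
        rw [abs_le]
        constructor <;> linarith [t6.1, t6.2, s4.1, s4.2]
      refine t7.trans ?_
      apply Real.le_sqrt_of_sq_le
      nlinarith [s4.1]

end J4752

end Pool.Agent.Helper734.EX
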