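import Pool.Agent.Helper115.EXC.M4

set_option autoImplicit false

namespace Pool.Agent.Helper734.EX

open Complex

section J4921

theorem nq_im_step {l : ℝ} (hl : 0 < l) {w : ℂ} (hw : w ∈ K l) (i : ℕ) :
    ((E l)^[i + 1] w).im ≤ ‖(E l)^[i + 1] w‖ * ((E l)^[i] w).im := by
  rw [Function.iterate_succ_apply', im_E hl]
  have h := K_im (K_Eit hw i)
  exact mul_le_mul_of_nonneg_left (Real.sin_le h.1) (norm_nonneg _)

theorem nq_prod {l : ℝ} (hl : 0 < l) {w : ℂ} (hw : w ∈ K l) (a k : ℕ) (X : ℝ) (hX : 0 ≤ X)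
    (h : ∀ i, a < i → i ≤ a + k → ‖(E l)^[i] w‖ ≤ X) :
    ((E l)^[a + k] w).im ≤ ((E l)^[a] w).im * X ^ k := by
  induction k with
  | zero => simp
  | succ k ih =>
    have h1 := ih (fun i hi hi2 => h i hi (by omega))
    have h2 := nq_im_step hl hw (a + k)
    have h3 := h (a + k + 1) (by omega) (by omega)
    have h4 := (K_im (K_Eit hw (a + k))).1
    have h5 := (K_im (K_Eit hw a)).1
    calc ((E l)^[a + (k + 1)] w).im ≤ ‖(E l)^[a + k + 1] w‖ * ((E l)^[a + k] w).im := h2
      _ ≤ X * (((E l)^[a] w).im * X ^ k) := mul_le_mul h3 h1 h4 hX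
      _ = ((E l)^[a] w).im * X ^ (k + 1) := by ring

theorem nq_pow (k : ℕ) (X : ℝ) (hX : 1 ≤ X) (h : (2 : ℝ) ^ k ≤ X) :
    X ^ k ≤ Real.exp (2 * (Real.log X) ^ 2) := by
  have hX0 : 0 < X := by linarith
  have h1 : (k : ℝ) * Real.log 2 ≤ Real.log X := by
    have h2 := Real.log_le_log (by positivity) h
    rwa [Real.log_pow] at h2
  have h3 : (1 / 2 : ℝ) ≤ Real.log 2 := by
    have := Real.log_two_gt_d9
    linarith
  have h4 : 0 ≤ Real.log X := Real.log_nonneg hX
  have h5 : (k : ℝ) ≤ 2 * Real.log X := by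
    have h6 : (k : ℝ) * (1 / 2) ≤ k * Real.log 2 := mul_le_mul_of_nonneg_left h3 (Nat.cast_nonneg k)
    linarith
  have h7 : X ^ k = Real.exp (k * Real.log X) := by
    rw [mul_comm, Real.exp_mul, Real.exp_log hX0, Real.rpow_natCast]
  rw [h7, Real.exp_le_exp]
  calc (k : ℝ) * Real.log X ≤ 2 * Real.log X * Real.log X := mul_le_mul_of_nonneg_right h5 h4
    _ = 2 * (Real.log X) ^ 2 := by ring

theorem nq_re {l : ℝ} (hl : 0 < l) {w : ℂ} (hw : w ∈ K l) (i : ℕ) (h : ((E l)^[i] w).im < 1) :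
    ‖(E l)^[i + 1] w‖ / 2 ≤ ((E l)^[i + 1] w).re := by
  rw [Function.iterate_succ_apply', re_E hl]
  have h0 := K_im (K_Eit hw i)
  have hpi := Real.pi_gt_three
  have h1 : (1 / 2 : ℝ) ≤ Real.cos ((E l)^[i] w).im := by
    rw [← Real.cos_pi_div_three]
    exact Real.cos_le_cos_of_nonneg_of_le_pi h0.1 (by linarith) (by linarith)
  have h2 := mul_le_mul_of_nonneg_left h1 (norm_nonneg (E l ((E l)^[i] w)))
  linarith

theorem nq_exp {l : ℝ} (hl : 0 < l) (x : ℝ) (hx1 : 1 ≤ x) (hx : 4 / l ≤ x) :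
    2 * x ≤ l * Real.exp (x - 1) := by
  have h1 := Real.quadratic_le_exp_of_nonneg (by linarith : 0 ≤ x - 1)
  have h2 : 4 ≤ x * l := by rwa [div_le_iff₀ hl] at hx
  have h3 : x ^ 2 / 2 ≤ Real.exp (x - 1) := by nlinarith
  have h4 := mul_le_mul_of_nonneg_left h3 hl.le
  nlinarith

theorem near0q {l : ℝ} (hl : Real.exp (-1) < l) : ∃ r : ℝ, 0 < r ∧ ∀ w ∈ K l, w ≠ 0 → ‖w‖ ≤ r →
    ∀ j : ℕ, 1 ≤ ((E l)^[j] w).im → (∀ i < j, ((E l)^[i] w).im < 1) →
    -Real.log ‖w‖ ≤ ((E l)^[j] w).re := by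
  have hl0 : 0 < l := l_pos hl
  set C2 : ℝ := 2 + 4 / l with hC2
  have h4l : 0 < 4 / l := by positivity
  obtain ⟨i0, hi0⟩ := ((o_tendsto hl).eventually (Filter.eventually_ge_atTop (C2 + 1))).exists
  have hi0pos : 1 ≤ i0 := by
    rcases Nat.eq_zero_or_pos i0 with h | h
    · rw [h] at hi0
      have h0 : o l 0 = 0 := rfl
      rw [h0] at hi0
      linarith
    · exact h
  set B : ℝ := o l i0 + 1 with hB
  have hB1 : 1 ≤ B := by linarith
  -- continuity
  have hcont : ∀ i, Continuous ((E l)^[i]) := fun i => (E_cont l).iterate i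
  have hev : ∀ᶠ w in nhds (0 : ℂ), ∀ i ∈ Finset.range (i0 + 1), ‖(E l)^[i] w - (o l i : ℝ)‖ < 1 / 2 := by
    rw [Filter.eventually_all_finset]
    intro i _
    have h1 : Filter.Tendsto (fun w => ‖(E l)^[i] w - (o l i : ℝ)‖) (nhds 0) (nhds 0) := by
      have h2 : Continuous (fun w => ‖(E l)^[i] w - (o l i : ℝ)‖) :=
        ((hcont i).sub continuous_const).norm
      have h3 := h2.tendsto 0
      have h4 : (E l)^[i] 0 = ((o l i : ℝ) : ℂ) := by
        have h5 := Eit_ofReal l 0 i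
        simpa [o] using h5
      rw [h4, sub_self, norm_zero] at h3
      exact h3
    exact h1.eventually (Iio_mem_nhds (by norm_num))
  obtain ⟨δ, hδ, hδ2⟩ := Metric.eventually_nhds_iff.1 hev
  -- size of T
  have hlog : ∀ᶠ x : ℝ in Filter.atTop, (Real.log x) ^ 2 ≤ 1 / 8 * x := by
    have h1 := (Real.isLittleO_pow_log_id_atTop (n := 2)).def (c := 1 / 8) (by norm_num)
    filter_upwards [h1, Filter.eventually_ge_atTop (0 : ℝ)] with x hx hx0
    simpa [abs_of_nonneg hx0] using hx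
  obtain ⟨x0, hx0⟩ := Filter.eventually_atTop.1 hlog
  set T0 : ℝ := max (2 * B ^ i0) (max x0 1) with hT0
  have hT1 : 2 * B ^ i0 ≤ T0 := le_max_left _ _
  have hT2 : x0 ≤ T0 := (le_max_left _ _).trans (le_max_right _ _)
  have hT3 : 1 ≤ T0 := (le_max_right _ _).trans (le_max_right _ _)
  refine ⟨min (δ / 2) (Real.exp (-T0)), lt_min (by positivity) (Real.exp_pos _), ?_⟩
  intro w hw hw0 hwr j hj1 hj2
  have hwn : 0 < ‖w‖ := norm_pos_iff.2 hw0
  set T : ℝ := -Real.log ‖w‖ with hT
  have hTT : T0 ≤ T := by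
    have h1 := Real.log_le_log hwn (hwr.trans (min_le_right _ _))
    rw [Real.log_exp] at h1
    linarith
  have hwexp : ‖w‖ = Real.exp (-T) := by
    rw [hT, neg_neg, Real.exp_log hwn]
  have hclose : ∀ i, i ≤ i0 → ‖(E l)^[i] w - (o l i : ℝ)‖ < 1 / 2 := by
    intro i hi
    apply hδ2 _ i (Finset.mem_range.2 (by omega))
    rw [dist_zero_right]
    exact lt_of_le_of_lt (hwr.trans (min_le_left _ _)) (by linarith)
  have hij : i0 < j := by
    by_contra hcon
    push Not at hcon
    have h1 := hclose j hcon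
    have h2 := Complex.abs_im_le_norm ((E l)^[j] w - (o l j : ℝ))
    have h3 : ((E l)^[j] w - ((o l j : ℝ) : ℂ)).im = ((E l)^[j] w).im := by simp
    rw [h3] at h2
    have h4 := le_abs_self ((E l)^[j] w).im
    linarith
  have homono : ∀ i, i ≤ i0 → o l i ≤ o l i0 := fun i hi => (o_strictMono hl).monotone hi
  have honn : ∀ i, 0 ≤ o l i := by
    intro i
    have h1 := (o_strictMono hl).monotone (Nat.zero_le i)
    exact h1
  have hB2 : ∀ i, i ≤ i0 → ‖(E l)^[i] w‖ ≤ B := by
    intro i hi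
    have h1 := hclose i hi
    have h2 : ‖(E l)^[i] w‖ ≤ ‖(E l)^[i] w - (o l i : ℝ)‖ + ‖((o l i : ℝ) : ℂ)‖ := by
      have := norm_add_le ((E l)^[i] w - (o l i : ℝ)) ((o l i : ℝ) : ℂ)
      rwa [sub_add_cancel] at this
    rw [Complex.norm_real, Real.norm_eq_abs, abs_of_nonneg (honn i)] at h2
    have h3 := homono i hi
    linarith
  have hlow0 : C2 ≤ ‖(E l)^[i0] w‖ := by
    have h1 := hclose i0 le_rfl
    have h2 : ‖((o l i0 : ℝ) : ℂ)‖ ≤ ‖(E l)^[i0] w - (o l i0 : ℝ)‖ + ‖(E l)^[i0] w‖ := by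
      have := norm_sub_le ((E l)^[i0] w) ((E l)^[i0] w - (o l i0 : ℝ))
      rw [sub_sub_cancel] at this
      linarith
    rw [Complex.norm_real, Real.norm_eq_abs, abs_of_nonneg (honn i0)] at h2
    linarith
  -- doubling
  have hdbl : ∀ i, i0 ≤ i → i < j → C2 ≤ ‖(E l)^[i] w‖ → 2 * ‖(E l)^[i] w‖ ≤ ‖(E l)^[i + 1] w‖ := by
    intro i hi hij2 hC
    obtain ⟨i', rfl⟩ : ∃ i', i = i' + 1 := ⟨i - 1, by omega⟩
    have h1 := nq_re hl0 hw i' (hj2 i' (by omega))
    have h2 : 0 ≤ ((E l)^[i' + 1] w).re := le_trans (by positivity) h1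
    have h3 := Complex.norm_le_abs_re_add_abs_im ((E l)^[i' + 1] w)
    rw [abs_of_nonneg h2, abs_of_nonneg (K_im (K_Eit hw (i' + 1))).1] at h3
    have h4 := hj2 (i' + 1) hij2
    rw [Function.iterate_succ_apply' (E l) (i' + 1) w, norm_E hl0]
    have h5 := nq_exp hl0 ‖(E l)^[i' + 1] w‖ (by linarith) (by linarith)
    refine h5.trans ?_
    show l * Real.exp (‖(E l)^[i' + 1] w‖ - 1) ≤ l * Real.exp ((E l)^[i' + 1] w).re
    apply mul_le_mul_of_nonneg_left _ hl0.le
    apply Real.exp_le_exp.2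
    linarith
  have hgrow : ∀ k, i0 + k ≤ j → C2 ≤ ‖(E l)^[i0 + k] w‖ ∧ (2 : ℝ) ^ k ≤ ‖(E l)^[i0 + k] w‖ := by
    intro k
    induction k with
    | zero =>
      intro _
      refine ⟨hlow0, ?_⟩
      simp only [pow_zero, Nat.add_zero]
      linarith
    | succ k ih =>
      intro hk
      obtain ⟨h1, h2⟩ := ih (by omega)
      have h3 := hdbl (i0 + k) (by omega) (by omega) h1
      refine ⟨?_, ?_⟩
      · show C2 ≤ ‖(E l)^[i0 + k + 1] w‖
        linarith
      · show (2 : ℝ) ^ (k + 1) ≤ ‖(E l)^[i0 + k + 1] w‖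
        rw [pow_succ]
        linarith
  have hmono : ∀ k i, i0 ≤ i → i + k = j → ‖(E l)^[i] w‖ ≤ ‖(E l)^[j] w‖ := by
    intro k
    induction k with
    | zero =>
      intro i _ h
      rw [← h]
      simp
    | succ k ih =>
      intro i hi h
      have h1 := ih (i + 1) (by omega) (by omega)
      obtain ⟨h2, -⟩ := hgrow (i - i0) (by omega)
      rw [show i0 + (i - i0) = i by omega] at h2
      have h3 := hdbl i hi (by omega) h2
      have h4 := norm_nonneg ((E l)^[i] w)
      linarith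
  -- conclusion
  by_contra hcon
  push Not at hcon
  obtain ⟨j', hj'⟩ : ∃ j', j = j' + 1 := ⟨j - 1, by omega⟩
  have hre : ‖(E l)^[j] w‖ / 2 ≤ ((E l)^[j] w).re := by
    rw [hj']
    exact nq_re hl0 hw j' (hj2 j' (by omega))
  have hX : ‖(E l)^[j] w‖ ≤ 2 * T := by linarith
  have hp1 : ((E l)^[i0] w).im ≤ ‖w‖ * B ^ i0 := by
    have h1 := nq_prod hl0 hw 0 i0 B (by linarith) (fun i _ hi => hB2 i (by omega))
    rw [Nat.zero_add] at h1
    refine h1.trans (mul_le_mul_of_nonneg_right ?_ (by positivity))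
    exact (le_abs_self _).trans (Complex.abs_im_le_norm w)
  have hp2 : ((E l)^[j] w).im ≤ ((E l)^[i0] w).im * (2 * T) ^ (j - i0) := by
    have h1 := nq_prod hl0 hw i0 (j - i0) (2 * T) (by linarith) (fun i hi hi2 =>
      (hmono (j - i) i hi.le (by omega)).trans hX)
    rwa [show i0 + (j - i0) = j by omega] at h1
  have h2k : (2 : ℝ) ^ (j - i0) ≤ 2 * T := by
    obtain ⟨-, h2⟩ := hgrow (j - i0) (by omega)
    rw [show i0 + (j - i0) = j by omega] at h2
    linarith
  have hpow := nq_pow (j - i0) (2 * T) (by linarith) h2k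
  have hlogT := hx0 (2 * T) (by linarith)
  have hexp : Real.exp (2 * (Real.log (2 * T)) ^ 2) ≤ Real.exp (T / 2) := by
    apply Real.exp_le_exp.2
    linarith
  have hBi : 0 < B ^ i0 := by positivity
  have hfin : 1 ≤ Real.exp (-T) * B ^ i0 * Real.exp (T / 2) := by
    calc (1 : ℝ) ≤ ((E l)^[j] w).im := hj1
      _ ≤ ((E l)^[i0] w).im * (2 * T) ^ (j - i0) := hp2
      _ ≤ (‖w‖ * B ^ i0) * Real.exp (T / 2) := by
          apply mul_le_mul hp1 (hpow.trans hexp) (pow_nonneg (by linarith) _) (by positivity)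
      _ = Real.exp (-T) * B ^ i0 * Real.exp (T / 2) := by rw [← hwexp]
  have h9 : Real.exp (-T) * B ^ i0 * Real.exp (T / 2) = B ^ i0 * Real.exp (-(T / 2)) := by
    rw [show -T = -(T / 2) + -(T / 2) by ring, Real.exp_add]
    have h10 : Real.exp (-(T / 2)) * Real.exp (T / 2) = 1 := by
      rw [← Real.exp_add]
      simp
    calc Real.exp (-(T / 2)) * Real.exp (-(T / 2)) * B ^ i0 * Real.exp (T / 2)
        = B ^ i0 * Real.exp (-(T / 2)) * (Real.exp (-(T / 2)) * Real.exp (T / 2)) := by ring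
      _ = _ := by rw [h10, mul_one]
  rw [h9, Real.exp_neg, ← div_eq_mul_inv, le_div_iff₀ (Real.exp_pos _), one_mul] at hfin
  have h11 := Real.add_one_le_exp (T / 2)
  linarith

end J4921

section J4922

theorem farq {l : ℝ} (hl : 0 < l) : ∃ R : ℝ, ∀ z ∈ K l, R ≤ z.re →
    1 ≤ z.im → z.re + 1 ≤ -Real.log ‖E l (E l z)‖ := by
  obtain ⟨R1, hR1⟩ := farleft hl 1 one_pos
  refine ⟨max R1 (max (4 / l) (1 + Real.pi + |Real.log l|)), fun z hz hre him => ?_⟩
  have h1 : R1 ≤ z.re := (le_max_left _ _).trans hre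
  have h2 : 4 / l ≤ z.re := ((le_max_left _ _).trans (le_max_right _ _)).trans hre
  have h3 : 1 + Real.pi + |Real.log l| ≤ z.re :=
    ((le_max_right _ _).trans (le_max_right _ _)).trans hre
  obtain ⟨_, h5, _⟩ := hR1 z hz h1 him
  have h6 := K_im (K_E hz)
  have h7 : ‖E l z‖ = l * Real.exp z.re := norm_E hl z
  have h8 : ‖E l z‖ ≤ |(E l z).re| + |(E l z).im| := Complex.norm_le_abs_re_add_abs_im _
  have h9 : |(E l z).re| = -(E l z).re := abs_of_neg (by norm_num at h5; linarith)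
  have h10 : |(E l z).im| ≤ Real.pi := by rw [abs_of_nonneg h6.1]; exact h6.2
  have h11 : ‖E l (E l z)‖ = l * Real.exp (E l z).re := norm_E hl _
  rw [h11, Real.log_mul hl.ne' (Real.exp_pos _).ne', Real.log_exp]
  have hx : 0 ≤ z.re := by
    have := Real.pi_pos
    have := abs_nonneg (Real.log l)
    linarith
  have h12 := Real.quadratic_le_exp_of_nonneg hx
  have h13 : 4 ≤ l * z.re := by
    rw [div_le_iff₀ hl] at h2
    linarith
  have h14 : 2 * z.re ≤ l * Real.exp z.re := by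
    have h15 : l * (z.re ^ 2 / 2) ≤ l * Real.exp z.re :=
      mul_le_mul_of_nonneg_left (by linarith) hl.le
    nlinarith
  have h16 := le_abs_self (Real.log l)
  linarith

end J4922

section J4923

/-- the return lemma -/
theorem ret {l : ℝ} (hl : Real.exp (-1) < l) (r0 r1 R1 : ℝ) (j1 : ℕ) (hr0 : 0 < r0)
    (hr1 : 0 < r1) : ∃ R0 : ℝ, R1 ≤ R0 ∧ ∀ z ∈ K l, R0 ≤ z.re → 1 ≤ z.im →
    0 < (E l (E l z)).im → ∃ j, j1 ≤ j ∧ 1 ≤ ((E l)^[j + 2] z).im ∧
      z.re + 1 ≤ ((E l)^[j + 2] z).re ∧ ‖E l (E l z)‖ ≤ r0 ∧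
      ∃ ξ : ℝ, |ξ| ≤ r1 ∧ (e l)^[j] ξ = ((E l)^[j + 2] z).re := by
  have hl0 : 0 < l := l_pos hl
  obtain ⟨rq, hrq, hq⟩ := near0q hl
  obtain ⟨rn, hrn, hn⟩ := near0 hl R1 r1 j1 hr1
  have hrr : 0 < min rq (min rn r0) := lt_min hrq (lt_min hrn hr0)
  obtain ⟨R2, hR2⟩ := farleft hl0 (min rq (min rn r0)) hrr
  obtain ⟨R3, hR3⟩ := farq hl0
  refine ⟨max R1 (max R2 R3), le_max_left _ _, ?_⟩
  intro z hz hzR hz1 him
  have h2 : R2 ≤ z.re := ((le_max_left _ _).trans (le_max_right _ _)).trans hzR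
  have h3 : R3 ≤ z.re := ((le_max_right _ _).trans (le_max_right _ _)).trans hzR
  obtain ⟨a1, -, -⟩ := hR2 z hz h2 hz1
  have a2 := hR3 z hz h3 hz1
  have hw : E l (E l z) ∈ K l := K_E (K_E hz)
  have b1 : ‖E l (E l z)‖ ≤ rq := a1.trans (min_le_left _ _)
  have b2 : ‖E l (E l z)‖ ≤ rn := a1.trans ((min_le_right _ _).trans (min_le_left _ _))
  have b3 : ‖E l (E l z)‖ ≤ r0 := a1.trans ((min_le_right _ _).trans (min_le_right _ _))
  obtain ⟨j, hj, c1, -, c3, ξ, hξ, hξ'⟩ := hn _ hw him b2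
  have hne : E l (E l z) ≠ 0 := E_ne_zero hl0 _
  have d1 := hq _ hw hne b1 j c1 c3
  have e2 : (E l)^[j + 2] z = (E l)^[j] (E l (E l z)) := by
    rw [Function.iterate_add_apply]
    rfl
  refine ⟨j, hj, ?_, ?_, b3, ξ, hξ, ?_⟩
  · rw [e2]; exact c1
  · rw [e2]; exact a2.trans d1
  · rw [e2]; exact hξ'

end J4923

section J4926

theorem closeness {l m R : ℝ} {α β : ℤ → ℝ → ℝ} (hG : Good l m R α β)
    (hl : Real.exp (-1) < l) (hm : Real.exp (-1) < m) : ∃ Rs : ℝ, ∀ (n : ℤ) (z a : ℂ),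
    G l m α n z a → Rs ≤ z.re → 1 ≤ z.im →
    |a.re - α n z.re| ≤ Real.sqrt (α n z.re) ∧ 1 ≤ a.im := by
  have hl0 := l_pos hl
  have hm0 := l_pos hm
  obtain ⟨r, j0, hr, hstep⟩ := step hG hl hm
  have hR := hG.hR
  have hRpos : 0 < R := by linarith
  obtain ⟨Rf, hRf⟩ := farleft hl0 (1 / R) (by positivity)
  obtain ⟨R0, hR0, hret⟩ := ret hl 1 r (max Rf R) j0 one_pos hr
  refine ⟨R0, ?_⟩
  have main : ∀ (N : ℕ) (n : ℤ) (z a : ℂ) (x : ℝ), z ∈ K l → a ∈ K m → (E l)^[N] z = (x : ℂ) →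
      (E m)^[N] a = ((α (n + N) x : ℝ) : ℂ) → R0 ≤ z.re → 1 ≤ z.im →
      |a.re - α n z.re| ≤ Real.sqrt (α n z.re) ∧ 1 ≤ a.im := by
    intro N
    induction N using Nat.strong_induction_on with
    | _ N ih =>
    intro n z a x hz ha hx hax hzr hzi
    have hzRf : Rf ≤ z.re := (le_max_left _ _).trans (hR0.trans hzr)
    have hzR : R ≤ z.re := (le_max_right _ _).trans (hR0.trans hzr)
    have hzK := K_im hz
    have haK := K_im ha
    have star : ∀ k ≤ N, ∀ y : ℝ, (E l)^[k] z = (y : ℂ) →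
        (E m)^[k] a = ((α (n + k) y : ℝ) : ℂ) := by
      intro k hk y hy
      obtain ⟨t, rfl⟩ := Nat.exists_eq_add_of_le hk
      have e1 : (E l)^[k + t] z = (E l)^[t] ((E l)^[k] z) := by
        rw [add_comm, Function.iterate_add_apply]
      have e2 : (E m)^[k + t] a = (E m)^[t] ((E m)^[k] a) := by
        rw [add_comm, Function.iterate_add_apply]
      rw [e1, hy, Eit_ofReal] at hx
      have hx' : (e l)^[t] y = x := by exact_mod_cast hx
      rw [e2, ← hx'] at hax
      have e3 : α (n + ((k + t : ℕ) : ℤ)) ((e l)^[t] y) = (e m)^[t] (α (n + k) y) := by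
        have e4 : n + ((k + t : ℕ) : ℤ) = n + k + t := by push_cast; ring
        rw [e4]
        exact hG.alpha_eit (n + k) t y
      rw [e3, ← Eit_ofReal] at hax
      exact E_inj hm0 (K_Eit ha k) (K_real m _) t hax
    have hN0 : N ≠ 0 := by
      rintro rfl
      rw [Function.iterate_zero, id] at hx
      rw [hx, Complex.ofReal_im] at hzi
      linarith
    obtain ⟨-, hf2, -⟩ := hRf z hz hzRf hzi
    have hf3 : (E l z).re ≤ -R := by
      rw [one_div_one_div] at hf2
      exact hf2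
    by_cases h1 : (E l z).im = 0
    · have hsin : Real.sin z.im = 0 := by
        rw [im_E hl0] at h1
        rcases mul_eq_zero.1 h1 with h | h
        · exact absurd (norm_eq_zero.1 h) (E_ne_zero hl0 z)
        · exact h
      have hpi : z.im = Real.pi := by
        by_contra hne
        have : 0 < Real.sin z.im :=
          Real.sin_pos_of_pos_of_lt_pi (by linarith) (lt_of_le_of_ne hzK.2 hne)
        linarith
      have hre : (E l z).re = -(l * Real.exp z.re) := by
        rw [re_E hl0, norm_E hl0, hpi, Real.cos_pi]; unfold e; ring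
      have hy : (E l)^[1] z = ((-(l * Real.exp z.re) : ℝ) : ℂ) := by
        rw [Function.iterate_one]
        apply Complex.ext
        · rw [Complex.ofReal_re]; exact hre
        · rw [Complex.ofReal_im]; exact h1
      have h2 := star 1 (Nat.one_le_iff_ne_zero.2 hN0) _ hy
      rw [Function.iterate_one] at h2
      have h3 : E m a = ((-(m * Real.exp (α n z.re)) : ℝ) : ℂ) := by
        have h4 := hG.neg n z.re
        rw [hG.right n z.re hzR] at h4
        rw [← h4, h2]
        norm_num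
      have h5 : a = F m (E m a) := (F_E hm0 a haK.1 haK.2).symm
      have hpos : 0 < m * Real.exp (α n z.re) := by positivity
      rw [h3, F_neg hm0 _ (by linarith)] at h5
      have h6 : Real.log (-(-(m * Real.exp (α n z.re))) / m) = α n z.re := by
        rw [neg_neg, mul_div_cancel_left₀ _ hm0.ne', Real.log_exp]
      rw [h6] at h5
      have h7 : a.re = α n z.re := by rw [h5]; simp
      have h8 : a.im = Real.pi := by rw [h5]; simp
      rw [h7, h8]
      refine ⟨by rw [sub_self, abs_zero]; exact Real.sqrt_nonneg _, ?_⟩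
      linarith [Real.pi_gt_three]
    · have hEz : E l z ∈ K l := K_E hz
      have hEa : E m a ∈ K m := K_E ha
      by_cases h2 : (E l (E l z)).im = 0
      · have hN1 : N ≠ 1 := by
          rintro rfl
          rw [Function.iterate_one] at hx
          exact h1 (by rw [hx, Complex.ofReal_im])
        have hN2 : 2 ≤ N := by omega
        have hsin : Real.sin (E l z).im = 0 := by
          rw [im_E hl0] at h2
          rcases mul_eq_zero.1 h2 with h | h
          · exact absurd (norm_eq_zero.1 h) (E_ne_zero hl0 _)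
          · exact h
        have hKE := K_im hEz
        have hpi : (E l z).im = Real.pi := by
          by_contra hne
          have : 0 < Real.sin (E l z).im :=
            Real.sin_pos_of_pos_of_lt_pi (lt_of_le_of_ne hKE.1 (Ne.symm h1))
              (lt_of_le_of_ne hKE.2 hne)
          linarith
        set v : ℝ := (E l z).re with hv
        have hre : (E l (E l z)).re = -(l * Real.exp v) := by
          rw [re_E hl0, norm_E hl0, hpi, Real.cos_pi]; unfold e; ring
        have hit : ∀ (q : ℝ) (s : ℂ), (E q)^[2] s = E q (E q s) := fun q s => rfl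
        have hy : (E l)^[2] z = ((-(l * Real.exp v) : ℝ) : ℂ) := by
          rw [hit]
          apply Complex.ext
          · rw [Complex.ofReal_re]; exact hre
          · rw [Complex.ofReal_im]; exact h2
        have h3 := star 2 hN2 _ hy
        rw [hit] at h3
        have h4 : E m (E m a) = ((-(m * Real.exp (β (n + 1) v)) : ℝ) : ℂ) := by
          have h5 := hG.neg (n + 1) v
          have h5' : n + ((2 : ℕ) : ℤ) = n + 1 + 1 := by push_cast; ring
          rw [← h5, h3, h5']
        have hKa := K_im hEa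
        have h5 : E m a = F m (E m (E m a)) := (F_E hm0 _ hKa.1 hKa.2).symm
        have hpos : 0 < m * Real.exp (β (n + 1) v) := by positivity
        rw [h4, F_neg hm0 _ (by linarith)] at h5
        have h6 : Real.log (-(-(m * Real.exp (β (n + 1) v))) / m) = β (n + 1) v := by
          rw [neg_neg, mul_div_cancel_left₀ _ hm0.ne', Real.log_exp]
        rw [h6] at h5
        have h7 : (E m a).re = β (n + 1) v := by rw [h5]; simp
        have h8 : (E m a).im = Real.pi := by rw [h5]; simp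
        obtain ⟨h9, h10⟩ := hG.left (n + 1) v hf3
        have h11 : ‖E l z‖ = Real.sqrt (v ^ 2 + Real.pi ^ 2) := by
          rw [Complex.norm_eq_sqrt_sq_add_sq, hpi]
        have h12 : Real.sqrt (v ^ 2 + Real.pi ^ 2) = l * Real.exp z.re := by
          rw [← h11, norm_E hl0]; rfl
        rw [h12, hG.pos n z.re] at h10
        have h13 : ‖E m a‖ = m * Real.exp (α n z.re) := by
          rw [Complex.norm_eq_sqrt_sq_add_sq, h7, h8, h10]
          exact Real.sqrt_sq (by positivity)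
        have h14 : a.re = α n z.re := by
          rw [norm_E hm0] at h13
          unfold e at h13
          exact Real.exp_injective (mul_left_cancel₀ hm0.ne' h13)
        have h15 : 1 ≤ a.im := by
          by_contra hlt
          push Not at hlt
          have h16 : 0 < Real.cos a.im := Real.cos_pos_of_mem_Ioo
            ⟨by linarith [Real.pi_gt_three, haK.1], by linarith [Real.pi_gt_three]⟩
          have h17 := re_E hm0 a
          rw [h7] at h17
          have h18 : 0 < ‖E m a‖ := norm_pos_iff.2 (E_ne_zero hm0 a)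
          have h19 := mul_pos h18 h16
          linarith
        refine ⟨?_, h15⟩
        rw [h14, sub_self, abs_zero]
        exact Real.sqrt_nonneg _
      · have h3 : 0 < (E l (E l z)).im :=
          lt_of_le_of_ne (K_im (K_E hEz)).1 (Ne.symm h2)
        obtain ⟨j, hj, hw1, hw2, -, ξ, hξ, hξ'⟩ := hret z hz hzr hzi h3
        have hlt : j + 2 < N := by
          by_contra hle
          push Not at hle
          obtain ⟨t, ht⟩ := Nat.exists_eq_add_of_le hle
          rw [ht, add_comm, Function.iterate_add_apply, hx, Eit_ofReal, Complex.ofReal_im] at hw1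
          linarith
        obtain ⟨t, rfl⟩ := Nat.exists_eq_add_of_le hlt.le
        have e1 : (E l)^[t] ((E l)^[j + 2] z) = (x : ℂ) := by
          rw [← hx, add_comm (j + 2) t, Function.iterate_add_apply (E l) t (j + 2)]
        have e2 : (E m)^[t] ((E m)^[j + 2] a) = ((α (n + 2 + j + t) x : ℝ) : ℂ) := by
          have e4 : n + ((j + 2 + t : ℕ) : ℤ) = n + 2 + j + t := by push_cast; ring
          rw [← e4, ← hax, add_comm (j + 2) t, Function.iterate_add_apply (E m) t (j + 2)]
        have hwK := K_Eit hz (j + 2)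
        have hbK := K_Eit ha (j + 2)
        have h4 := ih t (by omega) (n + 2 + j) _ _ x hwK hbK e1 e2 (by linarith) hw1
        have h5 := hstep n j ξ _ _ hj hξ hξ' hw1 (K_im hwK).2 h4.2 (K_im hbK).2 h4.1
        rw [F_Eit hl0 hz, F_Eit hm0 ha] at h5
        exact h5
  rintro n z a ⟨hz, ha, N, x, hx, hax⟩ hzr hzi
  exact main N n z a x hz ha hx hax hzr hzi

end J4926

end Pool.Agent.Helper734.EX
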