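import Pool.Agent.Helper115.EXC.M5

set_option autoImplicit false

namespace Pool.Agent.Helper734.EX

open Complex

section J5110

theorem Pair.symm {l m R : ℝ} {α β γ δ : ℤ → ℝ → ℝ} (h : Pair l m R α β γ δ) :
    Pair m l R γ δ α β := ⟨h.hm, h.hl, h.g2, h.g1, h.i2, h.i1⟩

theorem G_symm {l m R : ℝ} {α β γ δ : ℤ → ℝ → ℝ} (h : Pair l m R α β γ δ) {n : ℤ} {z a : ℂ}
    (hz : G l m α n z a) : G m l γ n a z := by
  obtain ⟨h1, h2, N, x, h3, h4⟩ := hz
  exact ⟨h2, h1, N, α (n + N) x, h4, by rw [h.i1]; exact h3⟩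

theorem G_fwd {l m R : ℝ} {α β : ℤ → ℝ → ℝ} (hG : Good l m R α β) {n : ℤ} {z a : ℂ}
    (hz : G l m α n z a) : G l m α (n + 1) (E l z) (E m a) := by
  obtain ⟨h1, h2, N, x, h3, h4⟩ := hz
  refine ⟨K_E h1, K_E h2, N, e l x, ?_, ?_⟩
  · rw [← Function.iterate_succ_apply, Function.iterate_succ_apply', h3, E_ofReal]
  · rw [← Function.iterate_succ_apply, Function.iterate_succ_apply', h4, E_ofReal]
    have h5 := hG.pos (n + N) x
    have h6 : n + 1 + (N : ℤ) = n + N + 1 := by ring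
    rw [h6]
    have h7 : α (n + N + 1) (e l x) = e m (α (n + N) x) := h5
    rw [h7]

theorem G_fwdit {l m R : ℝ} {α β : ℤ → ℝ → ℝ} (hG : Good l m R α β) {n : ℤ} {z a : ℂ} (k : ℕ)
    (hz : G l m α n z a) : G l m α (n + k) ((E l)^[k] z) ((E m)^[k] a) := by
  induction k with
  | zero => simpa using hz
  | succ k ih =>
    rw [Function.iterate_succ_apply', Function.iterate_succ_apply']
    have := G_fwd hG ih
    have h6 : n + ((k + 1 : ℕ) : ℤ) = n + k + 1 := by push_cast; ring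
    rw [h6]
    exact this

theorem G_back {l m : ℝ} {α : ℤ → ℝ → ℝ} {n : ℤ} {z a : ℂ} (hz : z ∈ K l) (ha : a ∈ K m)
    (h : G l m α (n + 1) (E l z) (E m a)) : G l m α n z a := by
  obtain ⟨-, -, N, x, h3, h4⟩ := h
  refine ⟨hz, ha, N + 1, x, ?_, ?_⟩
  · rw [Function.iterate_succ_apply]; exact h3
  · rw [Function.iterate_succ_apply, h4]
    have h6 : n + ((N + 1 : ℕ) : ℤ) = n + 1 + N := by push_cast; ring
    rw [h6]

theorem G_unique {l m R : ℝ} {α β : ℤ → ℝ → ℝ} (hG : Good l m R α β) (hm : 0 < m)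
    {n : ℤ} {z a b : ℂ} (h1 : G l m α n z a) (h2 : G l m α n z b) : a = b := by
  obtain ⟨hz, ha, N, x, h3, h4⟩ := h1
  obtain ⟨-, hb, M, y, h5, h6⟩ := h2
  have ext : ∀ (N k : ℕ) (x : ℝ) (c : ℂ), (E l)^[N] z = (x : ℂ) →
      (E m)^[N] c = ((α (n + N) x : ℝ) : ℂ) →
      (E l)^[k + N] z = (((e l)^[k] x : ℝ) : ℂ) ∧
      (E m)^[k + N] c = ((α (n + N + k) ((e l)^[k] x) : ℝ) : ℂ) := by
    intro N k x c h3 h4
    rw [Function.iterate_add_apply, Function.iterate_add_apply, h3, h4, Eit_ofReal, Eit_ofReal,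
      hG.alpha_eit]
    exact ⟨rfl, rfl⟩
  obtain ⟨p1, p2⟩ := ext N M x a h3 h4
  obtain ⟨q1, q2⟩ := ext M N y b h5 h6
  rw [Nat.add_comm N M] at q1 q2
  have hxy : (e l)^[M] x = (e l)^[N] y := by
    have := p1.symm.trans q1
    exact_mod_cast this
  refine E_inj hm ha hb (M + N) ?_
  rw [p2, q2, hxy]
  have h7 : n + (N : ℤ) + M = n + M + N := by ring
  rw [h7]

theorem G_real {l m : ℝ} {α : ℤ → ℝ → ℝ} (n : ℤ) (x : ℝ) :
    G l m α n (x : ℂ) ((α n x : ℝ) : ℂ) := by
  refine ⟨K_real l x, K_real m _, 0, x, rfl, ?_⟩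
  simp

end J5110

section J5111

theorem G_exists {l m R : ℝ} {α β γ δ : ℤ → ℝ → ℝ} (h : Pair l m R α β γ δ) (n : ℤ) {z : ℂ}
    (hz : z ∈ K l) (hr : EvR l z) : ∃ a, G l m α n z a := by
  have hl : 0 < l := l_pos h.hl
  have hm : 0 < m := l_pos h.hm
  obtain ⟨N, x, hx⟩ := hr
  induction N generalizing n z with
  | zero =>
    refine ⟨((α n x : ℝ) : ℂ), ?_⟩
    have : z = (x : ℂ) := by simpa using hx
    rw [this]
    exact G_real n x
  | succ N ih =>
    have hx' : (E l)^[N] (E l z) = (x : ℂ) := by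
      rw [← hx, Function.iterate_succ_apply]
    obtain ⟨a', ha'⟩ := ih (n + 1) (K_E hz) hx'
    have hne : a' ≠ 0 := by
      intro h0
      subst h0
      have h1 : G m l γ (n + 1) 0 (E l z) := G_symm h ha'
      have h2 : G m l γ (n + 1) ((0 : ℝ) : ℂ) ((γ (n + 1) 0 : ℝ) : ℂ) := G_real (n + 1) 0
      rw [h.g2.zero (n + 1)] at h2
      simp only [Complex.ofReal_zero] at h2
      exact E_ne_zero hl z (G_unique h.g2 hl h1 h2)
    refine ⟨F m a', ?_⟩
    have haK : F m a' ∈ K m := K_F hm ha'.2.1 hne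
    apply G_back hz haK
    rw [E_F hm a' hne]
    exact ha'

theorem G_evR {l m R : ℝ} {α β γ δ : ℤ → ℝ → ℝ} (h : Pair l m R α β γ δ) {n : ℤ} {z a : ℂ}
    (hz : G l m α n z a) (hr : z.im = 0) : a = ((α n z.re : ℝ) : ℂ) := by
  have hm : 0 < m := l_pos h.hm
  have hzr : z = ((z.re : ℝ) : ℂ) := by
    apply Complex.ext
    · simp
    · simpa using hr
  have h1 : G l m α n z ((α n z.re : ℝ) : ℂ) := by
    have h2 : G l m α n ((z.re : ℝ) : ℂ) ((α n z.re : ℝ) : ℂ) := G_real n z.re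
    rw [← hzr] at h2
    exact h2
  exact G_unique h.g1 hm hz h1

end J5111

section J5117

theorem Gam_of_G {l m : ℝ} {α : ℤ → ℝ → ℝ} {n : ℤ} {z a : ℂ}
    (h : G l m α n z a) : Gam l m α n z a :=
  subset_closure (show (z, a) ∈ {p : ℂ × ℂ | G l m α n p.1 p.2} from h)

theorem Gam_closed (l m : ℝ) (α : ℤ → ℝ → ℝ) (n : ℤ) :
    IsClosed {p : ℂ × ℂ | Gam l m α n p.1 p.2} :=
  isClosed_closure (s := {p : ℂ × ℂ | G l m α n p.1 p.2})

theorem Gam_seq {l m : ℝ} {α : ℤ → ℝ → ℝ} {n : ℤ} {z a : ℂ} (h : Gam l m α n z a) :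
    ∃ (u v : ℕ → ℂ), (∀ k, G l m α n (u k) (v k)) ∧ Filter.Tendsto u Filter.atTop (nhds z) ∧
      Filter.Tendsto v Filter.atTop (nhds a) := by
  obtain ⟨x, hx, hlim⟩ := mem_closure_iff_seq_limit.1 h
  refine ⟨fun k => (x k).1, fun k => (x k).2, hx, ?_, ?_⟩
  · exact (continuous_fst.tendsto (z, a)).comp hlim
  · exact (continuous_snd.tendsto (z, a)).comp hlim

theorem Gam_of_seq {l m : ℝ} {α : ℤ → ℝ → ℝ} {n : ℤ} {z a : ℂ} (u v : ℕ → ℂ)
    (h : ∀ k, G l m α n (u k) (v k)) (hu : Filter.Tendsto u Filter.atTop (nhds z))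
    (hv : Filter.Tendsto v Filter.atTop (nhds a)) : Gam l m α n z a :=
  mem_closure_iff_seq_limit.2 ⟨fun k => (u k, v k), h, hu.prodMk_nhds hv⟩

theorem Gam_K {l m : ℝ} {α : ℤ → ℝ → ℝ} {n : ℤ} {z a : ℂ} (h : Gam l m α n z a) :
    z ∈ K l ∧ a ∈ K m := by
  obtain ⟨u, v, hG, hu, hv⟩ := Gam_seq h
  exact ⟨(K_closed l).mem_of_tendsto hu (Filter.Eventually.of_forall fun k => (hG k).1),
    (K_closed m).mem_of_tendsto hv (Filter.Eventually.of_forall fun k => (hG k).2.1)⟩

theorem Gam_symm {l m R : ℝ} {α β γ δ : ℤ → ℝ → ℝ} (h : Pair l m R α β γ δ) {n : ℤ} {z a : ℂ}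
    (hz : Gam l m α n z a) : Gam m l γ n a z := by
  obtain ⟨u, v, hG, hu, hv⟩ := Gam_seq hz
  exact Gam_of_seq v u (fun k => G_symm h (hG k)) hv hu

theorem Gam_fwd {l m R : ℝ} {α β : ℤ → ℝ → ℝ} (hG : Good l m R α β) {n : ℤ} {z a : ℂ} (k : ℕ)
    (hz : Gam l m α n z a) : Gam l m α (n + k) ((E l)^[k] z) ((E m)^[k] a) := by
  obtain ⟨u, v, hGk, hu, hv⟩ := Gam_seq hz
  exact Gam_of_seq _ _ (fun j => G_fwdit hG k (hGk j))
    ((((E_cont l).iterate k).tendsto z).comp hu) ((((E_cont m).iterate k).tendsto a).comp hv)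

end J5117

section J5118

theorem Gam_close {l m R : ℝ} {α β : ℤ → ℝ → ℝ} (hG : Good l m R α β)
    (hl : Real.exp (-1) < l) (hm : Real.exp (-1) < m) : ∃ Rs : ℝ, ∀ (n : ℤ) (z a : ℂ),
    Gam l m α n z a → Rs ≤ z.re → 1 ≤ z.im →
    |a.re - α n z.re| ≤ Real.sqrt (α n z.re) ∧ 1 ≤ a.im := by
  obtain ⟨Rs0, hc⟩ := closeness hG hl hm
  obtain ⟨R1, hf⟩ := farleft (l_pos hl) 1 one_pos
  refine ⟨max (Rs0 + 1) R1, fun n z a h hz hi => ?_⟩
  obtain ⟨hzK, haK⟩ := Gam_K h
  have h3 := (hf z hzK (le_trans (le_max_right _ _) hz) hi).2.2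
  have h4 : Rs0 + 1 ≤ z.re := le_trans (le_max_left _ _) hz
  obtain ⟨u, v, hG', hu, hv⟩ := Gam_seq h
  have hure : Filter.Tendsto (fun k => (u k).re) Filter.atTop (nhds z.re) :=
    (Complex.continuous_re.tendsto z).comp hu
  have huim : Filter.Tendsto (fun k => (u k).im) Filter.atTop (nhds z.im) :=
    (Complex.continuous_im.tendsto z).comp hu
  have hvre : Filter.Tendsto (fun k => (v k).re) Filter.atTop (nhds a.re) :=
    (Complex.continuous_re.tendsto a).comp hv
  have hvim : Filter.Tendsto (fun k => (v k).im) Filter.atTop (nhds a.im) :=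
    (Complex.continuous_im.tendsto a).comp hv
  have e1 : ∀ᶠ k in Filter.atTop, Rs0 ≤ (u k).re := hure.eventually_const_le (by linarith)
  have e2 : ∀ᶠ k in Filter.atTop, 1 ≤ (u k).im := huim.eventually_const_le (by linarith)
  have hα : Filter.Tendsto (fun k => α n (u k).re) Filter.atTop (nhds (α n z.re)) :=
    ((hG.cont n).tendsto _).comp hure
  have e3 : ∀ᶠ k in Filter.atTop, |(v k).re - α n (u k).re| ≤ Real.sqrt (α n (u k).re) := by
    filter_upwards [e1, e2] with k h1 h2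
    exact (hc n _ _ (hG' k) h1 h2).1
  have e4 : ∀ᶠ k in Filter.atTop, 1 ≤ (v k).im := by
    filter_upwards [e1, e2] with k h1 h2
    exact (hc n _ _ (hG' k) h1 h2).2
  refine ⟨?_, ge_of_tendsto hvim e4⟩
  exact le_of_tendsto_of_tendsto ((hvre.sub hα).abs)
    ((Real.continuous_sqrt.tendsto _).comp hα) e3

end J5118

section J5119

theorem log_lip_5119 {m : ℝ} (hm : 0 < m) {u p : ℂ} (hu : m ≤ u.re) (hp : m ≤ p.re) :
    ‖Complex.log u - Complex.log p‖ ≤ (1 / m) * ‖u - p‖ := by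
  refine Convex.norm_image_sub_le_of_norm_deriv_le (s := {z : ℂ | m ≤ z.re}) ?_ ?_
    (convex_halfSpace_re_ge m) hp hu
  · intro z hz
    have hz' : 0 < z.re := lt_of_lt_of_le hm hz
    exact (Complex.hasStrictDerivAt_log (Or.inl hz')).hasDerivAt.differentiableAt
  · intro z hz
    have hz' : 0 < z.re := lt_of_lt_of_le hm hz
    rw [(Complex.hasStrictDerivAt_log (Or.inl hz')).hasDerivAt.deriv, norm_inv, one_div]
    have h1 : m ≤ ‖z‖ := le_trans hz (Complex.re_le_norm z)
    exact inv_anti₀ hm h1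

theorem step_5119 {l : ℝ} (hl : Real.exp (-1) < l) {z : ℂ} (hre : 10 ≤ z.re) (him : 0 < z.im)
    (him1 : z.im < 1) : z.re + 1 ≤ (E l z).re ∧ 2 * z.im ≤ (E l z).im ∧
      (E l z).im ≤ ‖E l z‖ * z.im := by
  have hl0 : 0 < l := l_pos hl
  have hn : ‖E l z‖ = l * Real.exp z.re := norm_E hl0 z
  have h1 : Real.exp (z.re - 1) ≤ l * Real.exp z.re := by
    have : Real.exp (z.re - 1) = Real.exp (-1) * Real.exp z.re := by
      rw [← Real.exp_add]; congr 1; ring
    rw [this]
    exact mul_le_mul_of_nonneg_right hl.le (Real.exp_pos _).le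
  have h2 : 1 + (z.re - 1) + (z.re - 1) ^ 2 / 2 ≤ Real.exp (z.re - 1) :=
    Real.quadratic_le_exp_of_nonneg (by linarith)
  have h3 : 2 * (z.re + 1) ≤ ‖E l z‖ := by
    rw [hn]
    nlinarith
  have hpi : 3 < Real.pi := Real.pi_gt_three
  have hpi4 : Real.pi < 4 := by linarith [Real.pi_lt_d2]
  refine ⟨?_, ?_, ?_⟩
  · rw [re_E hl0]
    have hc : (1 : ℝ) / 2 ≤ Real.cos z.im := by
      have h4 : Real.cos (Real.pi / 3) = 1 / 2 := Real.cos_pi_div_three
      rw [← h4]
      apply Real.cos_le_cos_of_nonneg_of_le_pi him.le (by linarith) (by linarith)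
    nlinarith [norm_nonneg (E l z)]
  · rw [im_E hl0]
    have hs : 2 / Real.pi * z.im ≤ Real.sin z.im := Real.mul_le_sin him.le (by linarith)
    have h5 : (1 : ℝ) / 2 ≤ 2 / Real.pi := by
      rw [div_le_div_iff₀ (by norm_num) Real.pi_pos]; linarith
    have h6 : 1 / 2 * z.im ≤ Real.sin z.im := le_trans (mul_le_mul_of_nonneg_right h5 him.le) hs
    nlinarith [norm_nonneg (E l z)]
  · rw [im_E hl0]
    exact mul_le_mul_of_nonneg_left (Real.sin_le him.le) (norm_nonneg _)

/-- first visit to the upper part for points close to the real line, source side -/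
theorem pullsrc {l : ℝ} (hl : Real.exp (-1) < l) (R1 : ℝ) : ∃ Rp C : ℝ, R1 ≤ Rp ∧ 10 ≤ Rp ∧ 1 ≤ C ∧
    ∀ z ∈ K l, Rp ≤ z.re → 0 < z.im → z.im < 1 → ∃ (k : ℕ) (x : ℝ), 1 ≤ ((E l)^[k] z).im ∧
      Rp ≤ ((E l)^[k] z).re ∧ (e l)^[k] x = ((E l)^[k] z).re ∧ Rp - 1 ≤ x ∧ 1 ≤ k ∧
      ‖z - (x : ℂ)‖ ≤ C / ((E l)^[k] z).re ∧
      1 ≤ z.im * Real.exp (((E l)^[k] z).re ^ 2) := by
  refine ⟨max R1 10, 4, le_max_left _ _, le_max_right _ _, by norm_num, ?_⟩
  set Rp := max R1 10 with hRp
  have hRp10 : 10 ≤ Rp := le_max_right _ _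
  intro z hz hre him him1
  have hl0 : 0 < l := l_pos hl
  set w : ℕ → ℂ := fun i => (E l)^[i] z with hw
  have hw0 : w 0 = z := rfl
  have hws : ∀ i, w (i + 1) = E l (w i) := fun i => Function.iterate_succ_apply' _ _ _
  have hwK : ∀ i, w i ∈ K l := fun i => K_Eit hz i
  -- growth as long as the imaginary part is below 1
  have grow : ∀ i, (∀ j < i, (w j).im < 1) → Rp + i ≤ (w i).re ∧ 2 ^ i * z.im ≤ (w i).im := by
    intro i
    induction i with
    | zero => intro _; simpa [hw0] using hre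
    | succ i ih =>
      intro h
      obtain ⟨h1, h2⟩ := ih (fun j hj => h j (Nat.lt_succ_of_lt hj))
      have h3 : 0 < (w i).im := lt_of_lt_of_le (by positivity) h2
      have h4 : (10 : ℝ) ≤ (w i).re := by
        have : (0 : ℝ) ≤ i := Nat.cast_nonneg i
        linarith
      obtain ⟨h5, h6, _⟩ := step_5119 hl h4 h3 (h i (Nat.lt_succ_self i))
      rw [hws]
      constructor
      · push_cast; linarith
      · rw [pow_succ]; linarith
  have hex : ∃ k, 1 ≤ (w k).im := by
    by_contra hcon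
    push Not at hcon
    obtain ⟨n, hn⟩ := pow_unbounded_of_one_lt (1 / z.im) (one_lt_two (α := ℝ))
    have h1 := (grow n (fun j _ => hcon j)).2
    have h2 := hcon n
    rw [div_lt_iff₀ him] at hn
    linarith
  classical
  set k := Nat.find hex with hk
  have hk1 : 1 ≤ (w k).im := Nat.find_spec hex
  have hkmin : ∀ j < k, (w j).im < 1 := fun j hj => not_le.1 (Nat.find_min hex hj)
  have hkpos : 1 ≤ k := by
    by_contra h
    have : k = 0 := by omega
    rw [this, hw0] at hk1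
    linarith
  have growk : ∀ i ≤ k, Rp + i ≤ (w i).re ∧ 2 ^ i * z.im ≤ (w i).im := fun i hi =>
    grow i (fun j hj => hkmin j (lt_of_lt_of_le hj hi))
  have hpos : ∀ i ≤ k, 0 < (w i).im := fun i hi =>
    lt_of_lt_of_le (by positivity) (growk i hi).2
  have h10 : ∀ i ≤ k, (10 : ℝ) ≤ (w i).re := fun i hi => by
    have := (growk i hi).1
    have h2 : (0 : ℝ) ≤ i := Nat.cast_nonneg i
    linarith
  set W := (w k).re with hW
  have hW10 : 10 ≤ W := h10 k le_rfl
  have hWk : Rp + k ≤ W := (growk k le_rfl).1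
  have hpi : Real.pi < 4 := by linarith [Real.pi_lt_d2]
  -- pull back
  let q : ℕ → ℝ := fun i => (fun t => Real.log (t / l))^[i] W
  have hq0 : q 0 = W := rfl
  have hqs : ∀ i, q (i + 1) = Real.log (q i / l) := fun i => Function.iterate_succ_apply' _ _ _
  have hlog : ∀ t : ℝ, 0 < t → e l (Real.log (t / l)) = t := by
    intro t ht
    rw [e, Real.exp_log (div_pos ht hl0)]
    field_simp
  have hFw : ∀ i, F l (w (i + 1)) = w i := by
    intro i
    rw [hws]
    exact F_E hl0 (w i) (K_im (hwK i)).1 (K_im (hwK i)).2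
  have hFd : ∀ u v : ℂ, F l u - F l v = Complex.log u - Complex.log v := by
    intro u v; unfold F; ring
  have main : ∀ i, 1 ≤ i → i ≤ k → ‖w (k - i) - (q i : ℂ)‖ ≤ 4 / W ∧ (e l)^[i] (q i) = W := by
    intro i hi
    induction i, hi using Nat.le_induction with
    | base =>
      intro h1
      constructor
      · have e1 : w (k - 1) = F l (w k) := by
          have := hFw (k - 1)
          rw [Nat.sub_add_cancel hkpos] at this
          exact this.symm
        have e2 : ((q 1 : ℝ) : ℂ) = F l (W : ℂ) := by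
          rw [F_pos hl0 W (by linarith)]
          rfl
        rw [e1, e2, hFd]
        have h2 := log_lip_5119 (m := W) (by linarith) (u := w k) (p := (W : ℂ)) le_rfl
          (by simp)
        have h3 : ‖w k - (W : ℂ)‖ ≤ 4 := by
          have : w k - (W : ℂ) = ((w k).im : ℂ) * I := by
            apply Complex.ext <;> simp [hW]
          rw [this, norm_mul, Complex.norm_I, mul_one, Complex.norm_real, Real.norm_eq_abs,
            abs_of_pos (by linarith)]
          exact (K_im (hwK k)).2.trans hpi.le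
        calc _ ≤ 1 / W * ‖w k - (W : ℂ)‖ := h2
          _ ≤ 1 / W * 4 := by
            apply mul_le_mul_of_nonneg_left h3
            positivity
          _ = 4 / W := by ring
      · exact hlog W (by linarith)
    | succ i hi ih =>
      intro h1
      obtain ⟨h2, h3⟩ := ih (by omega)
      have h4 : 4 / W ≤ 4 / 10 := by
        apply div_le_div_of_nonneg_left (by norm_num) (by norm_num) hW10
      have h5 := h10 (k - i) (Nat.sub_le _ _)
      have h6 : |(w (k - i)).re - q i| ≤ ‖w (k - i) - (q i : ℂ)‖ := by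
        have := Complex.abs_re_le_norm (w (k - i) - (q i : ℂ))
        simpa using this
      have h7 : 9 ≤ q i := by
        have := abs_le.1 (h6.trans (h2.trans h4))
        linarith [this.2]
      constructor
      · have e1 : w (k - (i + 1)) = F l (w (k - i)) := by
          have := hFw (k - (i + 1))
          have e3 : k - (i + 1) + 1 = k - i := by omega
          rw [e3] at this
          exact this.symm
        have e2 : ((q (i + 1) : ℝ) : ℂ) = F l (q i : ℂ) := by
          rw [F_pos hl0 (q i) (by linarith), hqs]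
        rw [e1, e2, hFd]
        have h8 := log_lip_5119 (m := 9) (by norm_num) (u := w (k - i)) (p := (q i : ℂ))
          (by linarith) (by simpa using h7)
        calc _ ≤ 1 / 9 * ‖w (k - i) - (q i : ℂ)‖ := h8
          _ ≤ 1 * ‖w (k - i) - (q i : ℂ)‖ := by
            apply mul_le_mul_of_nonneg_right (by norm_num) (norm_nonneg _)
          _ ≤ 4 / W := by rw [one_mul]; exact h2
      · rw [Function.iterate_succ_apply, hqs, hlog _ (by linarith)]
        exact h3
  obtain ⟨hm1, hm2⟩ := main k hkpos le_rfl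
  rw [Nat.sub_self, hw0] at hm1
  refine ⟨k, q k, hk1, ?_, hm2, ?_, hkpos, hm1, ?_⟩
  · have : (0 : ℝ) ≤ k := Nat.cast_nonneg k
    show Rp ≤ W
    linarith
  · have h4 : 4 / W ≤ 4 / 10 := by
      apply div_le_div_of_nonneg_left (by norm_num) (by norm_num) hW10
    have h6 : |z.re - q k| ≤ ‖z - (q k : ℂ)‖ := by
      have := Complex.abs_re_le_norm (z - (q k : ℂ))
      simpa using this
    have := abs_le.1 (h6.trans (hm1.trans h4))
    linarith [this.2]
  · -- product bound
    have hreW : ∀ i ≤ k, (w i).re ≤ W := by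
      intro i hi
      induction hi using Nat.decreasingInduction with
      | self => exact le_rfl
      | of_succ j hj ih =>
        have h5 := (step_5119 hl (h10 j hj.le) (hpos j hj.le) (hkmin j hj)).1
        rw [← hws] at h5
        linarith
    have hexpW : 2 * W ≤ Real.exp W := by
      have := Real.quadratic_le_exp_of_nonneg (x := W) (by linarith)
      nlinarith
    have hprod : ∀ i ≤ k, (w i).im ≤ z.im * Real.exp W ^ i := by
      intro i
      induction i with
      | zero => intro _; simp [hw0]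
      | succ i ih =>
        intro hi
        have h1 := ih (by omega)
        have h2 := (step_5119 hl (h10 i (by omega)) (hpos i (by omega)) (hkmin i (by omega))).2.2
        rw [← hws] at h2
        have h3 : ‖w (i + 1)‖ ≤ Real.exp W := by
          have h4 := Complex.norm_le_abs_re_add_abs_im (w (i + 1))
          rw [abs_of_pos (by linarith [h10 (i + 1) hi]), abs_of_pos (hpos (i + 1) hi)] at h4
          have h5 := hreW (i + 1) hi
          have h6 := (K_im (hwK (i + 1))).2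
          linarith
        calc (w (i + 1)).im ≤ ‖w (i + 1)‖ * (w i).im := h2
          _ ≤ Real.exp W * (z.im * Real.exp W ^ i) := by
            apply mul_le_mul h3 h1 (hpos i (by omega)).le (Real.exp_pos _).le
          _ = z.im * Real.exp W ^ (i + 1) := by ring
    have h1 := hprod k le_rfl
    have h2 : Real.exp W ^ k ≤ Real.exp (W ^ 2) := by
      rw [← Real.exp_nat_mul]
      apply Real.exp_le_exp.2
      have : (k : ℝ) ≤ W := by linarith
      nlinarith
    calc (1 : ℝ) ≤ (w k).im := hk1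
      _ ≤ z.im * Real.exp W ^ k := h1
      _ ≤ z.im * Real.exp (W ^ 2) := mul_le_mul_of_nonneg_left h2 him.le

end J5119

section J5120

theorem log_lip {c : ℝ} (hc : 0 < c) {u v : ℂ} (hu : c ≤ u.re) (hv : c ≤ v.re) :
    ‖Complex.log u - Complex.log v‖ ≤ c⁻¹ * ‖u - v‖ := by
  have key := Convex.norm_image_sub_le_of_norm_hasDerivWithin_le (𝕜 := ℂ) (f := Complex.log)
    (f' := fun z => z⁻¹) (C := c⁻¹) (s := {z : ℂ | c ≤ z.re}) (x := v) (y := u) ?_ ?_
    (convex_halfSpace_re_ge c) hv hu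
  · exact key
  · intro z hz
    have hz' : c ≤ z.re := hz
    exact (Complex.hasDerivAt_log (Or.inl (by linarith))).hasDerivWithinAt
  · intro z hz
    have hz' : c ≤ z.re := hz
    rw [norm_inv]
    apply inv_anti₀ hc
    exact hz'.trans ((le_abs_self _).trans (Complex.abs_re_le_norm z))

theorem F_lip (m : ℝ) {c : ℝ} (hc : 0 < c) {u v : ℂ} (hu : c ≤ u.re) (hv : c ≤ v.re) :
    ‖F m u - F m v‖ ≤ c⁻¹ * ‖u - v‖ := by
  have h1 : F m u - F m v = Complex.log u - Complex.log v := by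
    unfold F
    ring
  rw [h1]
  exact log_lip hc hu hv

/-- target side -/
theorem pulltgt {l m R : ℝ} {α β : ℤ → ℝ → ℝ} (hG : Good l m R α β)
    (hl : Real.exp (-1) < l) (hm : Real.exp (-1) < m) : ∃ Rp C : ℝ, 1 ≤ C ∧
    ∀ (n : ℤ) (k : ℕ) (x : ℝ) (b : ℂ), Rp ≤ x → 1 ≤ k → 0 < b.im → b.im ≤ Real.pi →
      |b.re - α (n + k) ((e l)^[k] x)| ≤ Real.sqrt (α (n + k) ((e l)^[k] x)) →
      ‖(F m)^[k] b - ((α n x : ℝ) : ℂ)‖ ≤ C / Real.sqrt (α (n + k) ((e l)^[k] x)) := by
  have hl0 := l_pos hl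
  have hm0 := l_pos hm
  have hdl := dlt_pos hl
  refine ⟨max R (Real.exp 10), 4, by norm_num, ?_⟩
  intro n k x b hx hk hb0 hb1 hb2
  have hxR : R ≤ x := (le_max_left _ _).trans hx
  have hx10 : Real.exp 10 ≤ x := (le_max_right _ _).trans hx
  have hit : ∀ j : ℕ, x ≤ (e l)^[j] x := by
    intro j
    induction j with
    | zero => exact le_rfl
    | succ j ih =>
      rw [Function.iterate_succ_apply']
      have := e_gt hl0 ((e l)^[j] x)
      linarith
  set Q : ℕ → ℝ := fun j => (e m)^[j] (α n x) with hQdef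
  have hQ : ∀ j : ℕ, α (n + j) ((e l)^[j] x) = Q j := fun j => hG.alpha_eit n j x
  have hQ100 : ∀ j, 100 ≤ Q j := by
    intro j
    rw [← hQ j]
    have h1 := hG.grow (n + j) _ (hxR.trans (hit j))
    have h2 : 10 ≤ Real.log ((e l)^[j] x) := by
      rw [Real.le_log_iff_exp_le (lt_of_lt_of_le (Real.exp_pos 10) (hx10.trans (hit j)))]
      exact hx10.trans (hit j)
    nlinarith
  have hQs : ∀ j, Q (j + 1) = m * Real.exp (Q j) := by
    intro j
    simp only [hQdef]
    rw [Function.iterate_succ_apply']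
    rfl
  have hFQ : ∀ j, F m ((Q (j + 1) : ℝ) : ℂ) = ((Q j : ℝ) : ℂ) := by
    intro j
    have h1 := hQ100 (j + 1)
    rw [F_pos hm0 _ (by linarith), hQs, mul_div_cancel_left₀ _ hm0.ne', Real.log_exp]
  rw [hQ k] at hb2 ⊢
  set V := Q k with hV
  have hV100 : 100 ≤ V := hQ100 k
  have hsq : Real.sqrt V * Real.sqrt V = V := Real.mul_self_sqrt (by linarith)
  have hs10 : 10 ≤ Real.sqrt V := by
    rw [show (10 : ℝ) = Real.sqrt 100 by
      rw [show (100 : ℝ) = 10 ^ 2 by norm_num, Real.sqrt_sq (by norm_num)]]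
    exact Real.sqrt_le_sqrt hV100
  have hpi : Real.pi ≤ 4 := Real.pi_le_four
  have hs0 : 0 < Real.sqrt V := by linarith
  have h4 : 4 / Real.sqrt V ≤ 1 := by
    rw [div_le_one hs0]
    linarith
  have hbV : ‖b - (V : ℂ)‖ ≤ Real.sqrt V + Real.pi := by
    refine (Complex.norm_le_abs_re_add_abs_im _).trans ?_
    have h1 : (b - (V : ℂ)).re = b.re - V := by simp
    have h2 : (b - (V : ℂ)).im = b.im := by simp
    rw [h1, h2, abs_of_pos hb0]
    linarith
  have key : ∀ i : ℕ, i + 1 ≤ k →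
      ‖(F m)^[i + 1] b - ((Q (k - 1 - i) : ℝ) : ℂ)‖ ≤ 4 / Real.sqrt V := by
    intro i
    induction i with
    | zero =>
      intro _
      have h1 : (F m)^[0 + 1] b = F m b := rfl
      have h2 : ((Q (k - 1 - 0) : ℝ) : ℂ) = F m (V : ℂ) := by
        rw [hV, ← hFQ]
        congr 3
        omega
      rw [h1, h2]
      have h5 : V / 2 ≤ b.re := by
        rw [abs_le] at hb2
        nlinarith
      have h6 : V / 2 ≤ (V : ℂ).re := by
        rw [Complex.ofReal_re]
        linarith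
      refine (F_lip m (show 0 < V / 2 by linarith) h5 h6).trans ?_
      refine (mul_le_mul_of_nonneg_left hbV (by positivity)).trans ?_
      rw [inv_mul_le_iff₀ (by linarith)]
      have h7 : V / 2 * (4 / Real.sqrt V) = 2 * Real.sqrt V := by
        have h8 : V / 2 * (4 / Real.sqrt V) = (Real.sqrt V * Real.sqrt V) / 2 * (4 / Real.sqrt V) := by
          rw [hsq]
        rw [h8]
        field_simp
        ring
      rw [h7]
      linarith
    | succ i ih =>
      intro hi
      have h1 := ih (by omega)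
      rw [Function.iterate_succ_apply']
      have h2 : k - 1 - i = (k - 1 - (i + 1)) + 1 := by omega
      rw [← hFQ (k - 1 - (i + 1)), ← h2]
      have h3 := hQ100 (k - 1 - i)
      have h5 : 1 ≤ ((F m)^[i + 1] b).re := by
        have h6 := (Complex.abs_re_le_norm _).trans (h1.trans h4)
        rw [Complex.sub_re, Complex.ofReal_re, abs_le] at h6
        linarith
      have h6 : 1 ≤ ((Q (k - 1 - i) : ℝ) : ℂ).re := by
        rw [Complex.ofReal_re]
        linarith
      refine (F_lip m one_pos h5 h6).trans ?_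
      rw [inv_one, one_mul]
      exact h1
  have hfin := key (k - 1) (by omega)
  rw [Nat.sub_self, Nat.sub_add_cancel hk] at hfin
  exact hfin

end J5120

section J5125

theorem Gpull {l m R : ℝ} {α β : ℤ → ℝ → ℝ} (hG : Good l m R α β)
    (hl : Real.exp (-1) < l) (hm : Real.exp (-1) < m) (R1 : ℝ) : ∃ Rp C : ℝ,
    R1 ≤ Rp ∧ 10 ≤ Rp ∧ 1 ≤ C ∧
    ∀ (n : ℤ) (z a : ℂ), G l m α n z a → Rp ≤ z.re → 0 < z.im → z.im < 1 →
      ∃ W x : ℝ, Rp ≤ W ∧ Rp - 1 ≤ x ∧ ‖z - (x : ℂ)‖ ≤ C / W ∧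
        ‖a - ((α n x : ℝ) : ℂ)‖ ≤ C / Real.log W ∧ 1 ≤ z.im * Real.exp (W ^ 2) := by
  obtain ⟨Rs, hRs⟩ := closeness hG hl hm
  obtain ⟨Rp2, C2, hC2, hpt⟩ := pulltgt hG hl hm
  obtain ⟨Rp, C1, hRp1, hRp10, hC1, hps⟩ := pullsrc hl (max (max R1 Rs) (max (Rp2 + 1) R))
  have hR1 : R1 ≤ Rp := le_trans (le_trans (le_max_left _ _) (le_max_left _ _)) hRp1
  have hRs' : Rs ≤ Rp := le_trans (le_trans (le_max_right _ _) (le_max_left _ _)) hRp1
  have hRp2 : Rp2 + 1 ≤ Rp := le_trans (le_trans (le_max_left _ _) (le_max_right _ _)) hRp1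
  have hRR : R ≤ Rp := le_trans (le_trans (le_max_right _ _) (le_max_right _ _)) hRp1
  refine ⟨Rp, max C1 C2, hR1, hRp10, le_trans hC1 (le_max_left _ _), ?_⟩
  intro n z a hz hre him0 him1
  obtain ⟨k, x, h1, h2, h3, h4, h5, h6, h7⟩ := hps z hz.1 hre him0 him1
  set w := (E l)^[k] z with hw
  set b := (E m)^[k] a with hb
  have hG' : G l m α (n + k) w b := G_fwdit hG k hz
  obtain ⟨hc1, hc2⟩ := hRs (n + k) w b hG' (hRs'.trans h2) h1
  have hbK : b ∈ K m := hG'.2.1
  have hbim := K_im hbK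
  have hm0 := l_pos hm
  have hpt' := hpt n k x b (by linarith) h5 (by linarith) hbim.2 (by rw [h3]; exact hc1)
  rw [h3, hb, F_Eit hm0 hz.2.1 k] at hpt'
  have hW10 : 10 ≤ w.re := hRp10.trans h2
  have hlog : 0 < Real.log w.re := Real.log_pos (by linarith)
  have hgrow := hG.grow (n + k) w.re (hRR.trans h2)
  have hsq : Real.log w.re ≤ Real.sqrt (α (n + k) w.re) := Real.le_sqrt_of_sq_le hgrow
  refine ⟨w.re, x, h2, h4, ?_, ?_, h7⟩
  · refine h6.trans ?_
    apply div_le_div_of_nonneg_right (le_max_left _ _) (by linarith)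
  · refine hpt'.trans ?_
    refine div_le_div₀ (by linarith [le_max_left C1 C2]) (le_max_right _ _) hlog hsq

end J5125

section J5129

theorem P4 {l m R : ℝ} {α β γ δ : ℤ → ℝ → ℝ} (h : Pair l m R α β γ δ) {n : ℤ} {x : ℝ} {a : ℂ}
    (hz : Gam l m α n (x : ℂ) a) : a = ((α n x : ℝ) : ℂ) := by
  have hG := h.g1
  obtain ⟨Rp, C, _, h10, hC1, hpull⟩ := Gpull hG h.hl h.hm 0
  obtain ⟨N, hN⟩ := ((eit_tendsto h.hl x).eventually_ge_atTop (Rp + 1)).exists
  set X : ℝ := (e l)^[N] x with hX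
  have h1 := Gam_fwd hG N hz
  rw [Eit_ofReal, ← hX] at h1
  obtain ⟨u, v, huv, hu, hv⟩ := Gam_seq h1
  have key : Filter.Tendsto v Filter.atTop (nhds ((α (n + N) X : ℝ) : ℂ)) := by
    rw [Metric.tendsto_atTop]
    intro ε hε
    obtain ⟨d, hd, hd1⟩ := Metric.continuous_iff.mp (hG.cont (n + N)) X (ε / 2) (by linarith)
    have hM1 : ∀ᶠ M : ℝ in Filter.atTop, C / M < d / 2 :=
      (tendsto_const_nhds.div_atTop Filter.tendsto_id).eventually
        (gt_mem_nhds (by linarith : (0 : ℝ) < d / 2))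
    have hM2 : ∀ᶠ M : ℝ in Filter.atTop, C / Real.log M < ε / 2 :=
      (tendsto_const_nhds.div_atTop Real.tendsto_log_atTop).eventually
        (gt_mem_nhds (by linarith : (0 : ℝ) < ε / 2))
    obtain ⟨M, hMC, hML, hM10⟩ := (hM1.and (hM2.and (Filter.eventually_ge_atTop 10))).exists
    have hη : 0 < min (d / 2) (min (1 / 2) (Real.exp (-M ^ 2))) := by positivity
    obtain ⟨k0, hk0⟩ := Metric.tendsto_atTop.mp hu _ hη
    refine ⟨k0, fun k hk => ?_⟩
    have h2 := hk0 k hk
    rw [dist_eq_norm] at h2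
    have h2a : ‖u k - (X : ℂ)‖ < d / 2 := lt_of_lt_of_le h2 (min_le_left _ _)
    have h2b : ‖u k - (X : ℂ)‖ < 1 / 2 :=
      lt_of_lt_of_le h2 ((min_le_right _ _).trans (min_le_left _ _))
    have h2c : ‖u k - (X : ℂ)‖ < Real.exp (-M ^ 2) :=
      lt_of_lt_of_le h2 ((min_le_right _ _).trans (min_le_right _ _))
    have hre := Complex.abs_re_le_norm (u k - (X : ℂ))
    have him := Complex.abs_im_le_norm (u k - (X : ℂ))
    rw [Complex.sub_re, Complex.ofReal_re] at hre
    rw [Complex.sub_im, Complex.ofReal_im, sub_zero] at him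
    have him0 : 0 ≤ (u k).im := (K_im (huv k).1).1
    rw [abs_of_nonneg him0] at him
    rcases him0.eq_or_lt with h0 | h0
    · have h3 := G_evR h (huv k) h0.symm
      rw [h3, dist_eq_norm, ← Complex.ofReal_sub, Complex.norm_real, Real.norm_eq_abs]
      have h4 := hd1 (u k).re (by rw [Real.dist_eq]; linarith)
      rw [Real.dist_eq] at h4
      linarith
    · have hreR : Rp ≤ (u k).re := by
        rw [abs_le] at hre
        linarith [hre.1]
      obtain ⟨W, x', hW, hx', hz1, hz2, hz3⟩ := hpull (n + N) (u k) (v k) (huv k) hreR h0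
        (by linarith)
      have hWM : M < W := by
        by_contra hcon
        push Not at hcon
        have h5 : W ^ 2 ≤ M ^ 2 := by nlinarith
        have h6 : (u k).im * Real.exp (W ^ 2) < 1 := by
          calc (u k).im * Real.exp (W ^ 2) < Real.exp (-M ^ 2) * Real.exp (W ^ 2) := by
                apply mul_lt_mul_of_pos_right _ (Real.exp_pos _)
                linarith
            _ = Real.exp (W ^ 2 - M ^ 2) := by rw [← Real.exp_add]; ring_nf
            _ ≤ 1 := by
                rw [Real.exp_le_one_iff]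
                linarith
        linarith
      have hCW : C / W ≤ C / M :=
        div_le_div_of_nonneg_left (by linarith) (by linarith) hWM.le
      have hlogM : 0 < Real.log M := Real.log_pos (by linarith)
      have hCL : C / Real.log W ≤ C / Real.log M :=
        div_le_div_of_nonneg_left (by linarith) hlogM
          (Real.log_le_log (by linarith) hWM.le)
      have h7 : |x' - X| < d := by
        have h8 : ‖((x' - X : ℝ) : ℂ)‖ ≤ ‖u k - (X : ℂ)‖ + ‖u k - (x' : ℂ)‖ := by
          have h9 : ((x' - X : ℝ) : ℂ) = (u k - (X : ℂ)) - (u k - (x' : ℂ)) := by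
            push_cast
            ring
          rw [h9]
          exact norm_sub_le _ _
        rw [Complex.norm_real, Real.norm_eq_abs] at h8
        linarith
      have h10 := hd1 x' (by rw [Real.dist_eq]; exact h7)
      rw [Real.dist_eq] at h10
      rw [dist_eq_norm]
      have h11 : v k - ((α (n + N) X : ℝ) : ℂ) = (v k - ((α (n + N) x' : ℝ) : ℂ)) +
          ((α (n + N) x' - α (n + N) X : ℝ) : ℂ) := by
        push_cast
        ring
      rw [h11]
      refine lt_of_le_of_lt (norm_add_le _ _) ?_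
      rw [Complex.norm_real, Real.norm_eq_abs]
      linarith
  have h3 : (E m)^[N] a = ((α (n + N) X : ℝ) : ℂ) := tendsto_nhds_unique hv key
  rw [hX, hG.alpha_eit, ← Eit_ofReal] at h3
  exact E_inj (l_pos h.hm) (Gam_K hz).2 (K_real m _) N h3

end J5129

section J5130

theorem b2_G {l m R : ℝ} {α β γ δ : ℤ → ℝ → ℝ} (h : Pair l m R α β γ δ) (B : ℝ) : ∃ B' : ℝ,
    ∀ (n : ℤ) (z a : ℂ), G l m α n z a → B' ≤ z.re → B ≤ a.re := by
  have hG := h.g1
  have hR := hG.hR
  obtain ⟨Rs, hRs⟩ := closeness hG h.hl h.hm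
  obtain ⟨Rp, C, hRp1, hRp10, hC, hP⟩ := Gpull hG h.hl h.hm (R + 1)
  set T : ℝ := 2 * |B| + 4 + C with hT
  have hB0 : 0 ≤ |B| := abs_nonneg B
  have hBle : B ≤ |B| := le_abs_self B
  have hTpos : 4 ≤ T := by linarith
  have hexp : 0 < Real.exp T := Real.exp_pos T
  have hsq : ∀ x : ℝ, Real.exp T ≤ x → T ≤ (Real.log x) ^ 2 := by
    intro x hx
    have h1 : T ≤ Real.log x := (Real.le_log_iff_exp_le (hexp.trans_le hx)).2 hx
    nlinarith
  refine ⟨R + |Rs| + |Rp| + C + Real.exp T, fun n z a hg hz => ?_⟩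
  have a1 := le_abs_self Rs
  have a2 := le_abs_self Rp
  have a3 := abs_nonneg Rs
  have a4 := abs_nonneg Rp
  have hzR : R ≤ z.re := by linarith
  have hzT : Real.exp T ≤ z.re := by linarith
  have hα : T ≤ α n z.re := (hsq _ hzT).trans (hG.grow n _ hzR)
  obtain ⟨him0, -⟩ := K_im hg.1
  rcases him0.eq_or_lt with h0 | h0
  · rw [G_evR h hg h0.symm, Complex.ofReal_re]
    linarith
  · rcases le_or_gt 1 z.im with h1 | h1
    · obtain ⟨h2, -⟩ := hRs n z a hg (by linarith) h1
      have h3 := (abs_le.1 h2).1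
      have h4 : Real.sqrt (α n z.re) ≤ α n z.re / 2 := by
        rw [Real.sqrt_le_left (by linarith)]
        nlinarith
      linarith
    · obtain ⟨W, x, hW, hx, hzx, hax, -⟩ := hP n z a hg (by linarith) h0 h1
      have hW10 : 10 ≤ W := hRp10.trans hW
      have h2 : |z.re - x| ≤ C := by
        have h3 : |(z - (x : ℂ)).re| ≤ ‖z - (x : ℂ)‖ := Complex.abs_re_le_norm _
        rw [Complex.sub_re, Complex.ofReal_re] at h3
        have h4 : C / W ≤ C := div_le_self (by linarith) (by linarith)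
        linarith
      have hlogW : 1 ≤ Real.log W := by
        rw [Real.le_log_iff_exp_le (by linarith)]
        have := Real.exp_one_lt_d9
        linarith
      have h5 : |a.re - α n x| ≤ C := by
        have h3 : |(a - ((α n x : ℝ) : ℂ)).re| ≤ ‖a - ((α n x : ℝ) : ℂ)‖ := Complex.abs_re_le_norm _
        rw [Complex.sub_re, Complex.ofReal_re] at h3
        have h4 : C / Real.log W ≤ C := div_le_self (by linarith) hlogW
        linarith
      have hxT : Real.exp T ≤ x := by
        have := (abs_le.1 h2).2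
        linarith
      have hxR : R ≤ x := by linarith
      have hαx : T ≤ α n x := (hsq _ hxT).trans (hG.grow n _ hxR)
      have := (abs_le.1 h5).1
      linarith

theorem b2 {l m R : ℝ} {α β γ δ : ℤ → ℝ → ℝ} (h : Pair l m R α β γ δ) (B : ℝ) : ∃ B' : ℝ,
    ∀ (n : ℤ) (z a : ℂ), Gam l m α n z a → B' ≤ z.re → B ≤ a.re := by
  obtain ⟨B', hB'⟩ := b2_G h B
  refine ⟨B' + 1, fun n z a hg hz => ?_⟩
  obtain ⟨u, v, huv, hu, hv⟩ := Gam_seq hg
  have h1 : Filter.Tendsto (fun k => (v k).re) Filter.atTop (nhds a.re) :=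
    (Complex.continuous_re.tendsto a).comp hv
  have h2 : Filter.Tendsto (fun k => (u k).re) Filter.atTop (nhds z.re) :=
    (Complex.continuous_re.tendsto z).comp hu
  refine ge_of_tendsto h1 ?_
  filter_upwards [h2.eventually (lt_mem_nhds (show B' < z.re by linarith))] with k hk
  exact hB' n (u k) (v k) (huv k) hk.le

end J5130

section J5131

theorem Gam_proper {l m R : ℝ} {α β γ δ : ℤ → ℝ → ℝ} (h : Pair l m R α β γ δ) (n : ℤ) (B : ℝ) :
    ∃ B' : ℝ, ∀ z a : ℂ, Gam l m α n z a → ‖z‖ ≤ B → ‖a‖ ≤ B' := by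
  by_contra hcon
  push Not at hcon
  choose z a hG hz ha using fun k : ℕ => hcon (k : ℝ)
  obtain ⟨B', hB'⟩ := b2 h.symm (B + 1)
  have hlt : ∀ k, (a k).re < B' := by
    intro k
    by_contra hc
    push Not at hc
    have h1 := hB' n (a k) (z k) (Gam_symm h (hG k)) hc
    have h2 := (Complex.re_le_norm (z k)).trans (hz k)
    linarith
  have hm0 : 0 < m := l_pos h.hm
  have hl0 : 0 < l := l_pos h.hl
  have hpi := Real.pi_pos
  have hre : ∀ k : ℕ, B' + Real.pi ≤ k → Real.pi ≤ k → (a k).re ≤ Real.pi - k := by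
    intro k hk hk2
    have h1 := K_im (Gam_K (hG k)).2
    have h2 : ‖a k‖ ≤ |(a k).re| + |(a k).im| := Complex.norm_le_abs_re_add_abs_im _
    have h3 : |(a k).im| ≤ Real.pi := abs_le.mpr ⟨by linarith [h1.1], h1.2⟩
    have h4 := ha k
    have h5 : (k : ℝ) - Real.pi < |(a k).re| := by linarith
    rcases le_or_gt 0 (a k).re with h6 | h6
    · rw [abs_of_nonneg h6] at h5
      have := hlt k
      linarith
    · rw [abs_of_neg h6] at h5
      linarith
  have hE0 : Filter.Tendsto (fun k => E m (a k)) Filter.atTop (nhds 0) := by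
    rw [tendsto_zero_iff_norm_tendsto_zero]
    have hb : Filter.Tendsto (fun k : ℕ => m * Real.exp (Real.pi - k)) Filter.atTop (nhds 0) := by
      have h1 : Filter.Tendsto (fun k : ℕ => Real.pi - (k : ℝ)) Filter.atTop Filter.atBot :=
        Filter.Tendsto.add_atBot (f := fun _ : ℕ => Real.pi) (g := fun k : ℕ => -(k : ℝ))
          tendsto_const_nhds (Filter.tendsto_neg_atTop_atBot.comp tendsto_natCast_atTop_atTop)
      have h2 := (Real.tendsto_exp_atBot.comp h1).const_mul m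
      rw [mul_zero] at h2
      exact h2
    refine squeeze_zero' (Filter.Eventually.of_forall fun k => norm_nonneg _) ?_ hb
    filter_upwards [Filter.eventually_ge_atTop ⌈max (B' + Real.pi) Real.pi⌉₊] with k hk
    have hk' : max (B' + Real.pi) Real.pi ≤ (k : ℝ) := (Nat.le_ceil _).trans (by exact_mod_cast hk)
    have h1 := hre k ((le_max_left _ _).trans hk') ((le_max_right _ _).trans hk')
    rw [norm_E hm0]
    unfold e
    exact mul_le_mul_of_nonneg_left (Real.exp_le_exp.mpr h1) hm0.le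
  have hmem : ∀ k, z k ∈ Metric.closedBall (0 : ℂ) B := fun k => by
    rw [mem_closedBall_zero_iff]; exact hz k
  obtain ⟨w, -, φ, hφ, hlim⟩ := (isCompact_closedBall (0 : ℂ) B).tendsto_subseq hmem
  have h1 : Filter.Tendsto (fun k => (E l (z (φ k)), E m (a (φ k)))) Filter.atTop
      (nhds (E l w, 0)) :=
    (((E_cont l).tendsto w).comp hlim).prodMk_nhds (hE0.comp hφ.tendsto_atTop)
  have h2 : (E l w, (0 : ℂ)) ∈ {p : ℂ × ℂ | Gam l m α (n + 1) p.1 p.2} := by
    refine (Gam_closed l m α (n + 1)).mem_of_tendsto h1 (Filter.Eventually.of_forall fun k => ?_)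
    have := Gam_fwd h.g1 1 (hG (φ k))
    simpa using this
  have h3 : Gam m l γ (n + 1) ((0 : ℝ) : ℂ) (E l w) := by
    have := Gam_symm h h2
    simpa using this
  have h4 := P4 h.symm h3
  rw [h.g2.zero (n + 1)] at h4
  exact E_ne_zero hl0 w (by rw [h4]; simp)

end J5131

section J5132

theorem exists_q {l : ℝ} (hl : Real.exp (-1) < l) : ∃ q : ℂ, E l q = q ∧ 0 < q.im ∧
    q.im < Real.pi := by
  have hl0 : 0 < l := lt_trans (Real.exp_pos _) hl
  have hpi := Real.pi_pos
  set g : ℝ → ℝ := fun t => (Real.sinc t)⁻¹ * Real.exp (-(Real.cos t / Real.sinc t)) with hg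
  have hsinc : ∀ t : ℝ, 0 ≤ t → t < Real.pi → 0 < Real.sinc t := by
    intro t h0 h1
    rcases h0.eq_or_lt with h | h
    · rw [← h, Real.sinc_zero]; exact one_pos
    · rw [Real.sinc_of_ne_zero h.ne']
      exact div_pos (Real.sin_pos_of_pos_of_lt_pi h h1) h
  have hmin : 0 < min (Real.pi / 2) (Real.pi / (2 * l)) := by positivity
  obtain ⟨t₁, ht₁⟩ : ∃ t₁ : ℝ, t₁ = Real.pi - min (Real.pi / 2) (Real.pi / (2 * l)) := ⟨_, rfl⟩
  have ht1a : Real.pi / 2 ≤ t₁ := by
    have := min_le_left (Real.pi / 2) (Real.pi / (2 * l))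
    linarith
  have ht1b : t₁ < Real.pi := by linarith
  have ht1c : Real.pi - t₁ ≤ Real.pi / (2 * l) := by
    have := min_le_right (Real.pi / 2) (Real.pi / (2 * l))
    linarith
  have ht10 : 0 < t₁ := by linarith
  have hcont : ContinuousOn g (Set.Icc 0 t₁) := by
    have h1 : ∀ t ∈ Set.Icc (0 : ℝ) t₁, Real.sinc t ≠ 0 := fun t ht =>
      (hsinc t ht.1 (lt_of_le_of_lt ht.2 ht1b)).ne'
    have h2 : ContinuousOn Real.sinc (Set.Icc 0 t₁) := Real.continuous_sinc.continuousOn
    exact (h2.inv₀ h1).mul (Real.continuous_exp.comp_continuousOn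
      ((Real.continuous_cos.continuousOn.div h2 h1).neg))
  have hg0 : g 0 ≤ l := by
    simp only [hg, Real.sinc_zero, Real.cos_zero]
    norm_num
    exact hl.le
  have hg1 : l ≤ g t₁ := by
    have h1 : Real.sinc t₁ ≤ 1 / l := by
      rw [Real.sinc_of_ne_zero ht10.ne']
      rw [div_le_div_iff₀ ht10 hl0]
      have h2 : Real.sin t₁ ≤ Real.pi - t₁ := by
        rw [← Real.sin_pi_sub]
        exact Real.sin_le (by linarith)
      have h3 : Real.sin t₁ * l ≤ Real.pi / (2 * l) * l :=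
        mul_le_mul_of_nonneg_right (h2.trans ht1c) hl0.le
      have h4 : Real.pi / (2 * l) * l = Real.pi / 2 := by
        field_simp
      linarith
    have h2 : l ≤ (Real.sinc t₁)⁻¹ := by
      rw [le_inv_comm₀ hl0 (hsinc t₁ ht10.le ht1b)]
      rwa [one_div] at h1
    have h3 : 1 ≤ Real.exp (-(Real.cos t₁ / Real.sinc t₁)) := by
      apply Real.one_le_exp
      have h4 : Real.cos t₁ ≤ 0 :=
        Real.cos_nonpos_of_pi_div_two_le_of_le ht1a (by linarith)
      have h5 := div_nonpos_of_nonpos_of_nonneg h4 (hsinc t₁ ht10.le ht1b).le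
      linarith
    calc l ≤ (Real.sinc t₁)⁻¹ := h2
      _ = (Real.sinc t₁)⁻¹ * 1 := (mul_one _).symm
      _ ≤ (Real.sinc t₁)⁻¹ * Real.exp (-(Real.cos t₁ / Real.sinc t₁)) :=
        mul_le_mul_of_nonneg_left h3 (inv_nonneg.2 (hsinc t₁ ht10.le ht1b).le)
  obtain ⟨t, ht, hgt⟩ := intermediate_value_Icc ht10.le hcont ⟨hg0, hg1⟩
  have htne : t ≠ 0 := by
    rintro rfl
    apply hl.ne
    rw [← hgt]
    simp only [hg, Real.sinc_zero, Real.cos_zero]
    norm_num
  have ht0 : 0 < t := lt_of_le_of_ne ht.1 (Ne.symm htne)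
  have htpi : t < Real.pi := lt_of_le_of_lt ht.2 ht1b
  have hsin : 0 < Real.sin t := Real.sin_pos_of_pos_of_lt_pi ht0 htpi
  have hlt : l * Real.exp (t * Real.cos t / Real.sin t) = t / Real.sin t := by
    rw [← hgt]
    simp only [hg]
    rw [Real.sinc_of_ne_zero htne]
    have e1 : Real.cos t / (Real.sin t / t) = t * Real.cos t / Real.sin t := by
      field_simp
    rw [e1, mul_assoc, ← Real.exp_add, neg_add_cancel, Real.exp_zero, mul_one, inv_div]
  refine ⟨⟨t * Real.cos t / Real.sin t, t⟩, ?_, ht0, htpi⟩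
  unfold E
  apply Complex.ext
  · rw [Complex.re_ofReal_mul, Complex.exp_re]
    simp only
    rw [← mul_assoc, hlt]
    field_simp
  · rw [Complex.im_ofReal_mul, Complex.exp_im]
    simp only
    rw [← mul_assoc, hlt]
    field_simp

end J5132

end Pool.Agent.Helper734.EX
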