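import Pool.Agent.Helper115.EXC.M6

set_option autoImplicit false

namespace Pool.Agent.Helper734.EX

open Complex

section J5133

theorem q_sin_lt {x y : ℝ} (hx : 0 < x) (hxy : x < y) (hy : y ≤ Real.pi) :
    x * Real.sin y < y * Real.sin x := by
  have hy0 : 0 < y := hx.trans hxy
  have h := strictConcaveOn_sin_Icc.2 (show (0:ℝ) ∈ Set.Icc 0 Real.pi from ⟨le_rfl, Real.pi_pos.le⟩)
    (show y ∈ Set.Icc 0 Real.pi from ⟨hy0.le, hy⟩) (ne_of_lt hy0)
    (show 0 < 1 - x / y by rw [sub_pos, div_lt_one hy0]; exact hxy)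
    (show 0 < x / y by positivity) (by ring)
  simp only [smul_eq_mul, Real.sin_zero, mul_zero, zero_add] at h
  rw [div_mul_cancel₀ x hy0.ne', div_mul_eq_mul_div, div_lt_iff₀ hy0] at h
  linarith

theorem q_sinc_pos {t : ℝ} (h1 : -Real.pi < t) (h2 : t < Real.pi) : 0 < Real.sinc t := by
  rcases lt_trichotomy t 0 with h | h | h
  · rw [Real.sinc_of_ne_zero h.ne]
    exact div_pos_of_neg_of_neg (Real.sin_neg_of_neg_of_neg_pi_lt h h1) h
  · rw [h, Real.sinc_zero]; norm_num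
  · rw [Real.sinc_of_ne_zero h.ne']
    exact div_pos (Real.sin_pos_of_pos_of_lt_pi h h2) h

theorem q_key {a θ : ℝ} (ha : 0 < a) (ha' : a < Real.pi) (h0 : 0 ≤ θ) (h1 : θ ≤ Real.pi) :
    Real.sinc θ * Real.sinc a < Real.sinc ((θ - a) / 2) ^ 2 := by
  have hpi := Real.pi_pos
  have hsa : 0 < Real.sin a := Real.sin_pos_of_pos_of_lt_pi ha ha'
  rcases h0.eq_or_lt with h | h
  · subst h
    have hb : (0 - a) / 2 = -(a / 2) := by ring
    rw [Real.sinc_zero, one_mul, hb, Real.sinc_neg, Real.sinc_of_ne_zero ha.ne',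
      Real.sinc_of_ne_zero (by positivity)]
    have h2 : Real.sin a = 2 * Real.sin (a / 2) * Real.cos (a / 2) := by
      rw [← Real.sin_two_mul]; congr 1; ring
    have hc : 0 < Real.cos (a / 2) := Real.cos_pos_of_mem_Ioo ⟨by linarith, by linarith⟩
    have hs : 0 < Real.sin (a / 2) := Real.sin_pos_of_pos_of_lt_pi (by positivity) (by linarith)
    have h3 : a / 2 < Real.tan (a / 2) := Real.lt_tan (by positivity) (by linarith)
    rw [Real.tan_eq_sin_div_cos, lt_div_iff₀ hc] at h3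
    rw [h2, div_pow, div_lt_div_iff₀ ha (by positivity)]
    have h4 := mul_lt_mul_of_pos_left h3 (show 0 < a * Real.sin (a / 2) by positivity)
    nlinarith [h4]
  · by_cases hne : θ = a
    · subst hne
      have : (θ - θ) / 2 = 0 := by ring
      rw [this, Real.sinc_zero, Real.sinc_of_ne_zero ha.ne']
      have h5 : Real.sin θ / θ < 1 := by rw [div_lt_one ha]; exact Real.sin_lt ha
      have h6 : 0 < Real.sin θ / θ := by positivity
      nlinarith
    · have ht : (θ - a) / 2 ≠ 0 := by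
        intro h'
        exact hne (by linarith)
      have hp0 : 0 < (θ + a) / 2 := by positivity
      have hp1 : (θ + a) / 2 ≤ Real.pi := by linarith
      have htp : |(θ - a) / 2| < (θ + a) / 2 := by
        rw [abs_lt]; constructor <;> linarith
      have hk := q_sin_lt (abs_pos.2 ht) htp hp1
      have hid : Real.sin θ * Real.sin a =
          Real.sin ((θ + a) / 2) ^ 2 - Real.sin ((θ - a) / 2) ^ 2 := by
        have e1 : θ = (θ + a) / 2 + (θ - a) / 2 := by ring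
        have e2 : a = (θ + a) / 2 - (θ - a) / 2 := by ring
        have : Real.sin θ * Real.sin a = Real.sin ((θ + a) / 2 + (θ - a) / 2) *
            Real.sin ((θ + a) / 2 - (θ - a) / 2) := by rw [← e1, ← e2]
        rw [this, Real.sin_add, Real.sin_sub]
        have h7 := Real.sin_sq_add_cos_sq ((θ + a) / 2)
        have h8 := Real.sin_sq_add_cos_sq ((θ - a) / 2)
        linear_combination (Real.sin ((θ + a) / 2)) ^ 2 * h8 - (Real.sin ((θ - a) / 2)) ^ 2 * h7
      rw [Real.sinc_of_ne_zero h.ne', Real.sinc_of_ne_zero ha.ne', Real.sinc_of_ne_zero ht,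
        div_mul_div_comm, hid, div_pow, div_lt_div_iff₀ (by positivity) (by positivity)]
      have hs : |Real.sin ((θ - a) / 2)| = Real.sin |(θ - a) / 2| := by
        rw [Real.abs_sin_eq_sin_abs_of_abs_le_pi (by linarith)]
      rw [← hs] at hk
      have hsp : 0 ≤ Real.sin ((θ + a) / 2) := Real.sin_nonneg_of_nonneg_of_le_pi hp0.le hp1
      have h9 := mul_self_lt_mul_self (by positivity) hk
      have h10 : |(θ - a) / 2| * Real.sin ((θ + a) / 2) * (|(θ - a) / 2| * Real.sin ((θ + a) / 2))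
          = ((θ - a) / 2) ^ 2 * Real.sin ((θ + a) / 2) ^ 2 := by
        rw [← sq_abs ((θ - a) / 2)]; ring
      have h11 : (θ + a) / 2 * |Real.sin ((θ - a) / 2)| * ((θ + a) / 2 * |Real.sin ((θ - a) / 2)|)
          = ((θ + a) / 2) ^ 2 * Real.sin ((θ - a) / 2) ^ 2 := by
        rw [← sq_abs (Real.sin ((θ - a) / 2))]; ring
      rw [h10, h11] at h9
      nlinarith [h9]

theorem q_exists {a : ℝ} (ha : 0 < a) (ha' : a < Real.pi) : ∃ κ : ℝ, 0 < κ ∧ κ < 1 ∧
    ∀ θ, 0 ≤ θ → θ ≤ Real.pi → Real.sinc θ * Real.sinc a ≤ κ * Real.sinc ((θ - a) / 2) ^ 2 := by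
  have hpi := Real.pi_pos
  have hpos : ∀ θ, 0 ≤ θ → θ ≤ Real.pi → 0 < Real.sinc ((θ - a) / 2) := fun θ h0 h1 =>
    q_sinc_pos (by linarith) (by linarith)
  have hc : ContinuousOn (fun θ => Real.sinc θ * Real.sinc a / Real.sinc ((θ - a) / 2) ^ 2)
      (Set.Icc 0 Real.pi) := by
    apply ContinuousOn.div
    · exact (Real.continuous_sinc.mul continuous_const).continuousOn
    · exact ((Real.continuous_sinc.comp (by fun_prop)).pow 2).continuousOn
    · intro θ hθ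
      exact (pow_pos (hpos θ hθ.1 hθ.2) 2).ne'
  obtain ⟨θ0, hθ0, hmax⟩ := isCompact_Icc.exists_isMaxOn ⟨0, ⟨le_rfl, hpi.le⟩⟩ hc
  refine ⟨Real.sinc θ0 * Real.sinc a / Real.sinc ((θ0 - a) / 2) ^ 2, ?_, ?_, ?_⟩
  · have h0 := hmax (show (0:ℝ) ∈ Set.Icc 0 Real.pi from ⟨le_rfl, hpi.le⟩)
    refine lt_of_lt_of_le ?_ h0
    have := hpos 0 le_rfl hpi.le
    have h2 : 0 < Real.sinc a := q_sinc_pos (by linarith) ha'
    change 0 < Real.sinc 0 * Real.sinc a / Real.sinc ((0 - a) / 2) ^ 2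
    rw [Real.sinc_zero]
    positivity
  · rw [div_lt_one (pow_pos (hpos θ0 hθ0.1 hθ0.2) 2)]
    exact q_key ha ha' hθ0.1 hθ0.2
  · intro θ h0 h1
    have h2 := hmax (show θ ∈ Set.Icc 0 Real.pi from ⟨h0, h1⟩)
    have h3 := pow_pos (hpos θ h0 h1) 2
    have h4 : Real.sinc θ * Real.sinc a / Real.sinc ((θ - a) / 2) ^ 2 ≤
      Real.sinc θ0 * Real.sinc a / Real.sinc ((θ0 - a) / 2) ^ 2 := h2
    rwa [div_le_iff₀ h3] at h4

theorem q_cosh (s : ℝ) : 2 + s ^ 2 ≤ Real.exp s + Real.exp (-s) := by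
  have h1 : Real.exp s + Real.exp (-s) = 2 * Real.cosh s := by rw [Real.cosh_eq]; ring
  have h2 : Real.cosh s = 1 + 2 * Real.sinh (s / 2) ^ 2 := by
    have := Real.cosh_two_mul (s / 2)
    rw [show 2 * (s / 2) = s by ring] at this
    rw [this, Real.cosh_sq]; ring
  have h3 : (s / 2) ^ 2 ≤ Real.sinh (s / 2) ^ 2 := by
    rw [sq_le_sq, Real.abs_sinh]
    exact Real.self_le_sinh_iff.2 (abs_nonneg _)
  rw [h1, h2]
  nlinarith [h3]

theorem Qcontr {l : ℝ} (hl : 0 < l) (q : ℂ) (hq : E l q = q) (h0 : 0 < q.im)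
    (h1 : q.im < Real.pi) : ∃ κ : ℝ, 0 < κ ∧ κ < 1 ∧ ∀ p : ℂ, 0 < p.im →
    ‖F l p - q‖ ^ 2 / (F l p).im ≤ κ * (‖p - q‖ ^ 2 / p.im) := by
  obtain ⟨κ, hκ0, hκ1, hκ⟩ := q_exists h0 h1
  refine ⟨κ, hκ0, hκ1, fun p hp => ?_⟩
  have hp0 : p ≠ 0 := by
    rintro rfl
    simp at hp
  obtain ⟨hu0, hu1⟩ := F_upper (l := l) p hp
  have hu := E_F hl p hp0
  set u := F l p with hudef
  set A := e l u.re with hA
  set B := e l q.re with hB
  have hAn : ‖p‖ = A := by rw [← hu]; exact norm_E hl u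
  have hBn : ‖q‖ = B := by
    have := norm_E hl q
    rwa [hq] at this
  have hpim : p.im = A * Real.sin u.im := by
    have := im_E hl u
    rwa [hu, hAn] at this
  have hpre : p.re = A * Real.cos u.im := by
    have := re_E hl u
    rwa [hu, hAn] at this
  have hqim : q.im = B * Real.sin q.im := by
    have := im_E hl q
    rwa [hq, hBn] at this
  have hqre : q.re = B * Real.cos q.im := by
    have := re_E hl q
    rwa [hq, hBn] at this
  have hA0 : 0 < A := e_pos hl _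
  have hB0 : 0 < B := e_pos hl _
  have hsu : 0 < Real.sin u.im := Real.sin_pos_of_pos_of_lt_pi hu0 hu1
  have hsq : 0 < Real.sin q.im := Real.sin_pos_of_pos_of_lt_pi h0 h1
  set s := u.re - q.re with hs
  set τ := u.im - q.im with hτ
  have hAB : A = B * Real.exp s := by
    rw [hA, hB, e, e, hs, mul_assoc, ← Real.exp_add]; congr 2; ring
  have hAB' : B = A * Real.exp (-s) := by
    rw [hA, hB, e, e, hs, mul_assoc, ← Real.exp_add]; congr 2; ring
  have hsum : A * B * (2 + s ^ 2) ≤ A ^ 2 + B ^ 2 := by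
    have h2 : A ^ 2 + B ^ 2 = A * B * (Real.exp s + Real.exp (-s)) := by
      have e1 : A ^ 2 = A * (B * Real.exp s) := by rw [← hAB]; ring
      have e2 : B ^ 2 = B * (A * Real.exp (-s)) := by rw [← hAB']; ring
      rw [e1, e2]; ring
    rw [h2]
    exact mul_le_mul_of_nonneg_left (q_cosh s) (by positivity)
  have hn1 : ‖p - q‖ ^ 2 = A ^ 2 + B ^ 2 - 2 * A * B * Real.cos τ := by
    rw [Complex.sq_norm, Complex.normSq_apply, Complex.sub_re, Complex.sub_im]
    rw [hpre, hpim]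
    have e1 : A * Real.cos u.im - q.re = A * Real.cos u.im - B * Real.cos q.im := by
      rw [← hqre]
    have e2 : A * Real.sin u.im - q.im = A * Real.sin u.im - B * Real.sin q.im := by
      rw [← hqim]
    rw [e1, e2, hτ, Real.cos_sub]
    have h7 := Real.sin_sq_add_cos_sq u.im
    have h8 := Real.sin_sq_add_cos_sq q.im
    linear_combination A ^ 2 * h7 + B ^ 2 * h8
  have hn2 : ‖u - q‖ ^ 2 = s ^ 2 + τ ^ 2 := by
    rw [Complex.sq_norm, Complex.normSq_apply, Complex.sub_re, Complex.sub_im]; ring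
  have hsin : 2 - 2 * Real.cos τ = τ ^ 2 * Real.sinc (τ / 2) ^ 2 := by
    have h3 : Real.cos τ = 1 - 2 * Real.sin (τ / 2) ^ 2 := by
      have := Real.cos_two_mul (τ / 2)
      rw [show 2 * (τ / 2) = τ by ring] at this
      rw [this, Real.cos_sq']; ring
    by_cases ht : τ = 0
    · rw [ht]; simp
    · have ht2 : τ / 2 ≠ 0 := by
        intro h'
        exact ht (by linarith)
      rw [h3, Real.sinc_of_ne_zero ht2]
      field_simp
      ring
  have hlow : A * B * (s ^ 2 + τ ^ 2 * Real.sinc (τ / 2) ^ 2) ≤ ‖p - q‖ ^ 2 := by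
    rw [hn1, ← hsin]
    nlinarith [hsum]
  have hκθ := hκ u.im hu0.le hu1.le
  rw [← hτ] at hκθ
  have hS1 : Real.sinc (τ / 2) ^ 2 ≤ 1 := by
    have h2 := Real.abs_sinc_le_one (τ / 2)
    rw [← sq_abs]
    exact pow_le_one₀ (abs_nonneg _) h2
  have hκθ' : Real.sinc u.im * Real.sinc q.im ≤ κ := hκθ.trans (by nlinarith)
  have hmain : (s ^ 2 + τ ^ 2) * (Real.sinc u.im * Real.sinc q.im) ≤
      κ * (s ^ 2 + τ ^ 2 * Real.sinc (τ / 2) ^ 2) := by
    have e1 := mul_le_mul_of_nonneg_left hκθ' (sq_nonneg s)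
    have e2 := mul_le_mul_of_nonneg_left hκθ (sq_nonneg τ)
    linarith
  rw [Real.sinc_of_ne_zero hu0.ne', Real.sinc_of_ne_zero h0.ne'] at hmain
  have hBq : Real.sin q.im / q.im = 1 / B := by
    rw [div_eq_div_iff h0.ne' hB0.ne']; linarith
  rw [hBq] at hmain
  rw [hn2, hpim]
  calc (s ^ 2 + τ ^ 2) / u.im
      = ((s ^ 2 + τ ^ 2) * (Real.sin u.im / u.im * (1 / B))) * (B / Real.sin u.im) := by
        field_simp
    _ ≤ (κ * (s ^ 2 + τ ^ 2 * Real.sinc (τ / 2) ^ 2)) * (B / Real.sin u.im) :=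
        mul_le_mul_of_nonneg_right hmain (by positivity)
    _ = κ * (A * B * (s ^ 2 + τ ^ 2 * Real.sinc (τ / 2) ^ 2) / (A * Real.sin u.im)) := by
        field_simp
    _ ≤ κ * (‖p - q‖ ^ 2 / (A * Real.sin u.im)) := by
        gcongr

end J5133

section J5134

theorem q_unique {l : ℝ} (hl : 0 < l) {p q : ℂ} (hp : E l p = p) (hq : E l q = q)
    (hp0 : 0 < p.im) (hp1 : p.im < Real.pi) (h0 : 0 < q.im) (h1 : q.im < Real.pi) :
    p = q := by
  obtain ⟨κ, hκ0, hκ1, hc⟩ := Qcontr hl q hq h0 h1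
  have h2 : F l p = p := by
    have := F_E hl p hp0.le hp1.le
    rwa [hp] at this
  have h3 := hc p hp0
  rw [h2] at h3
  have h4 : 0 ≤ ‖p - q‖ ^ 2 / p.im := by positivity
  have h5 : ‖p - q‖ ^ 2 / p.im = 0 := by nlinarith
  rw [div_eq_zero_iff] at h5
  rcases h5 with h5 | h5
  · have h6 : ‖p - q‖ = 0 := by
      rwa [sq_eq_zero_iff] at h5
    exact sub_eq_zero.mp (norm_eq_zero.mp h6)
  · exact absurd h5 hp0.ne'

theorem q_lim {l : ℝ} (hl : 0 < l) {q : ℂ} (hq : E l q = q)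
    (h0 : 0 < q.im) (h1 : q.im < Real.pi) (p : ℂ) (hp : 0 < p.im) :
    Filter.Tendsto (fun n => (F l)^[n] p) Filter.atTop (nhds q) := by
  obtain ⟨κ, hκ0, hκ1, hc⟩ := Qcontr hl q hq h0 h1
  have him : ∀ n, 0 < ((F l)^[n] p).im := fun n => Fit_upper p hp n
  have hQ : ∀ n, ‖(F l)^[n] p - q‖ ^ 2 / ((F l)^[n] p).im ≤ κ ^ n * (‖p - q‖ ^ 2 / p.im) := by
    intro n
    induction n with
    | zero => simp
    | succ n ih =>
      rw [Function.iterate_succ_apply']
      refine (hc _ (him n)).trans ?_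
      calc κ * (‖(F l)^[n] p - q‖ ^ 2 / ((F l)^[n] p).im) ≤ κ * (κ ^ n * (‖p - q‖ ^ 2 / p.im)) :=
            mul_le_mul_of_nonneg_left ih hκ0.le
        _ = κ ^ (n + 1) * (‖p - q‖ ^ 2 / p.im) := by ring
  have hpi : ∀ n, ((F l)^[n + 1] p).im ≤ Real.pi := by
    intro n
    rw [Function.iterate_succ_apply', im_F]
    exact arg_le_pi _
  have hsq : ∀ n, ‖(F l)^[n + 1] p - q‖ ^ 2 ≤ Real.pi * (‖p - q‖ ^ 2 / p.im) * κ ^ (n + 1) := by
    intro n
    have h2 := hQ (n + 1)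
    rw [div_le_iff₀ (him (n + 1))] at h2
    refine h2.trans ?_
    have h3 : 0 ≤ κ ^ (n + 1) * (‖p - q‖ ^ 2 / p.im) := by positivity
    calc _ ≤ κ ^ (n + 1) * (‖p - q‖ ^ 2 / p.im) * Real.pi := mul_le_mul_of_nonneg_left (hpi n) h3
      _ = _ := by ring
  rw [← Filter.tendsto_add_atTop_iff_nat 1, tendsto_iff_norm_sub_tendsto_zero]
  have hlim : Filter.Tendsto (fun n : ℕ => Real.pi * (‖p - q‖ ^ 2 / p.im) * κ ^ (n + 1)) Filter.atTop (nhds 0) := by
    have h2 := (tendsto_pow_atTop_nhds_zero_of_lt_one hκ0.le hκ1)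
    have h3 := (Filter.tendsto_add_atTop_iff_nat 1).mpr h2
    have h4 := h3.const_mul (Real.pi * (‖p - q‖ ^ 2 / p.im))
    rwa [mul_zero] at h4
  have hlim2 : Filter.Tendsto (fun n : ℕ => ‖(F l)^[n + 1] p - q‖ ^ 2) Filter.atTop (nhds 0) :=
    squeeze_zero (fun n => by positivity) hsq hlim
  have hlim3 := hlim2.sqrt
  rw [Real.sqrt_zero] at hlim3
  refine hlim3.congr (fun n => ?_)
  rw [Real.sqrt_sq (norm_nonneg _)]

end J5134

section J5136

theorem trich {l : ℝ} (hl : 0 < l) {z : ℂ} (hz : z ∈ K l) :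
    EvR l z ∨ ∀ n, 0 < ((E l)^[n] z).im ∧ ((E l)^[n] z).im < Real.pi := by
  by_cases hA : ∃ n, ((E l)^[n] z).im = 0 ∨ ((E l)^[n] z).im = Real.pi
  · left
    obtain ⟨n, h0 | h1⟩ := hA
    · refine ⟨n, ((E l)^[n] z).re, ?_⟩
      apply Complex.ext
      · simp
      · simpa using h0
    · refine ⟨n + 1, (E l ((E l)^[n] z)).re, ?_⟩
      rw [Function.iterate_succ_apply']
      apply Complex.ext
      · simp
      · rw [im_E hl, h1]
        simp
  · right
    intro n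
    obtain ⟨h0, h1⟩ := hz n
    refine ⟨lt_of_le_of_ne h0 ?_, lt_of_le_of_ne h1 ?_⟩
    · intro h
      exact hA ⟨n, Or.inl h.symm⟩
    · intro h
      exact hA ⟨n, Or.inr h⟩

end J5136

section J5135

theorem leave {l : ℝ} (hl : Real.exp (-1) < l) {z : ℂ} (hz : z ∈ K l)
    (h : ∀ n, 0 < ((E l)^[n] z).im) (hf : E l z ≠ z) (R : ℝ) :
    ∃ N, R ≤ ((E l)^[N] z).re ∧ 1 ≤ ((E l)^[N] z).im := by
  by_contra hcon
  push Not at hcon
  have hl0 : 0 < l := l_pos hl
  have hcos1 : 0 < Real.cos 1 := Real.cos_one_pos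
  have hc : 0 < Real.cos 1 * l := mul_pos hcos1 hl0
  obtain ⟨c, hcdef⟩ : ∃ c, c = Real.cos 1 * l := ⟨_, rfl⟩
  rw [← hcdef] at hc
  obtain ⟨R', hR'⟩ : ∃ R', R' = max (max R 10) (max (4 / c) (10 / l)) := ⟨_, rfl⟩
  have hRR : R ≤ R' := by rw [hR']; exact (le_max_left _ _).trans (le_max_left _ _)
  have hR10 : 10 ≤ R' := by rw [hR']; exact (le_max_right _ _).trans (le_max_left _ _)
  have hRc : 4 / c ≤ R' := by rw [hR']; exact (le_max_left _ _).trans (le_max_right _ _)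
  have hRl : 10 / l ≤ R' := by rw [hR']; exact (le_max_right _ _).trans (le_max_right _ _)
  -- the orbit
  have hK : ∀ n, (E l)^[n] z ∈ K l := fun n => K_Eit hz n
  have hpi : ∀ n, ((E l)^[n] z).im ≤ Real.pi := fun n => (K_im (hK n)).2
  have hsucc : ∀ n, (E l)^[n + 1] z = E l ((E l)^[n] z) := fun n =>
    Function.iterate_succ_apply' (E l) n z
  have hlarge : ∀ x, R' ≤ x → x + 1 ≤ Real.cos 1 * e l x ∧ 10 ≤ e l x := by
    intro x hx
    have hx0 : 0 ≤ x := by linarith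
    have h1 := Real.quadratic_le_exp_of_nonneg hx0
    have h2 : 4 ≤ x * c := by
      have := hRc.trans hx
      rwa [div_le_iff₀ hc] at this
    have h3 : 10 ≤ x * l := by
      have := hRl.trans hx
      rwa [div_le_iff₀ hl0] at this
    constructor
    · have h4 : Real.cos 1 * e l x = c * Real.exp x := by
        rw [hcdef]; unfold e; ring
      rw [h4]
      have h5 : c * (1 + x + x ^ 2 / 2) ≤ c * Real.exp x := mul_le_mul_of_nonneg_left h1 hc.le
      nlinarith [mul_nonneg hc.le hx0, mul_nonneg (sub_nonneg.2 h2) hx0]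
    · unfold e
      have h5 : l * (1 + x + x ^ 2 / 2) ≤ l * Real.exp x := mul_le_mul_of_nonneg_left h1 hl0.le
      nlinarith [mul_nonneg hl0.le (sq_nonneg x)]
  -- (a)
  have hstep : ∀ n, R' ≤ ((E l)^[n] z).re → R' ≤ ((E l)^[n + 1] z).re ∧
      2 * ((E l)^[n] z).im ≤ ((E l)^[n + 1] z).im := by
    intro n hn
    have him : ((E l)^[n] z).im < 1 := hcon n (hRR.trans hn)
    have him0 := h n
    obtain ⟨h1, h2⟩ := hlarge _ hn
    rw [hsucc n, re_E hl0, im_E hl0, norm_E hl0]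
    constructor
    · have h3 : Real.cos 1 ≤ Real.cos ((E l)^[n] z).im :=
        Real.cos_le_cos_of_nonneg_of_le_pi him0.le (by linarith [Real.pi_gt_three]) him.le
      have h4 : e l ((E l)^[n] z).re * Real.cos 1 ≤
          e l ((E l)^[n] z).re * Real.cos ((E l)^[n] z).im :=
        mul_le_mul_of_nonneg_left h3 (by linarith)
      linarith
    · have h3 : 2 / Real.pi * ((E l)^[n] z).im ≤ Real.sin ((E l)^[n] z).im :=
        Real.mul_le_sin him0.le (by linarith [Real.pi_gt_three])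
      have h4 : (1 : ℝ) / 2 ≤ 2 / Real.pi := by
        rw [div_le_div_iff₀ (by norm_num) Real.pi_pos]
        linarith [Real.pi_le_four]
      have h5 : 1 / 2 * ((E l)^[n] z).im ≤ 2 / Real.pi * ((E l)^[n] z).im :=
        mul_le_mul_of_nonneg_right h4 him0.le
      have h6 : 0 ≤ Real.sin ((E l)^[n] z).im := by linarith
      have h7 : 10 * Real.sin ((E l)^[n] z).im ≤
          e l ((E l)^[n] z).re * Real.sin ((E l)^[n] z).im :=
        mul_le_mul_of_nonneg_right h2 h6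
      linarith
  have ha : ∀ n, ((E l)^[n] z).re < R' := by
    intro n
    by_contra hn
    rw [not_lt] at hn
    have h1 : ∀ k, R' ≤ ((E l)^[n + k] z).re ∧ 2 ^ k * ((E l)^[n] z).im ≤ ((E l)^[n + k] z).im := by
      intro k
      induction k with
      | zero => exact ⟨hn, by simp⟩
      | succ k ih =>
        obtain ⟨h2, h3⟩ := hstep (n + k) ih.1
        refine ⟨h2, ?_⟩
        calc (2 : ℝ) ^ (k + 1) * ((E l)^[n] z).im = 2 * (2 ^ k * ((E l)^[n] z).im) := by ring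
          _ ≤ 2 * ((E l)^[n + k] z).im := by linarith [ih.2]
          _ ≤ _ := h3
    obtain ⟨k, hk⟩ := pow_unbounded_of_one_lt (1 / ((E l)^[n] z).im) (one_lt_two)
    have h4 := (h1 k).2
    have h5 := hcon (n + k) (hRR.trans (h1 k).1)
    rw [div_lt_iff₀ (h n)] at hk
    linarith
  -- (b)
  obtain ⟨r, hr, hr'⟩ := near0 hl R' 1 0 one_pos
  have hb : ∀ n, r < ‖(E l)^[n] z‖ := by
    intro n
    by_contra hn
    rw [not_lt] at hn
    obtain ⟨j, _, _, h2, _⟩ := hr' _ (hK n) (h n) hn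
    rw [← Function.iterate_add_apply] at h2
    exact absurd (ha (j + n)) (not_lt.2 h2)
  have hB : ∀ n, Real.log (r / l) ≤ ((E l)^[n] z).re := by
    intro n
    have h1 := hb (n + 1)
    rw [hsucc n, norm_E hl0] at h1
    rw [Real.log_le_iff_le_exp (by positivity), div_le_iff₀ hl0]
    unfold e at h1
    linarith
  obtain ⟨B, hBdef⟩ : ∃ B, B = Real.log (r / l) := ⟨_, rfl⟩
  rw [← hBdef] at hB
  have hnorm : ∀ n, ‖(E l)^[n] z‖ ≤ |B| + R' + 4 := by
    intro n
    have h1 := Complex.norm_le_abs_re_add_abs_im ((E l)^[n] z)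
    have h2 : |((E l)^[n] z).re| ≤ |B| + R' := by
      rw [abs_le]
      constructor
      · have := hB n
        have := neg_abs_le B
        linarith
      · have := ha n
        have := abs_nonneg B
        linarith
    have h3 : |((E l)^[n] z).im| ≤ 4 := by
      rw [abs_of_pos (h n)]
      linarith [hpi n, Real.pi_le_four]
    linarith
  obtain ⟨q, hq, hq0, hq1⟩ := exists_q hl
  obtain ⟨κ, hκ0, hκ1, hκ⟩ := Qcontr hl0 q hq hq0 hq1
  have hzq : z ≠ q := by
    intro hzq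
    apply hf
    rw [hzq, hq]
  have hQ : ∀ n, ‖(E l)^[n] z - q‖ ^ 2 / ((E l)^[n] z).im ≤
      κ * (‖(E l)^[n + 1] z - q‖ ^ 2 / ((E l)^[n + 1] z).im) := by
    intro n
    have h1 := hκ ((E l)^[n + 1] z) (h (n + 1))
    have h2 : F l ((E l)^[n + 1] z) = (E l)^[n] z := by
      rw [hsucc n, F_E hl0 _ (h n).le (hpi n)]
    rwa [h2] at h1
  have hQ0 : 0 < ‖z - q‖ ^ 2 / z.im := by
    have h1 : 0 < ‖z - q‖ := norm_pos_iff.2 (sub_ne_zero.2 hzq)
    have h2 : 0 < z.im := h 0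
    positivity
  obtain ⟨Q0, hQ0def⟩ : ∃ Q0, Q0 = ‖z - q‖ ^ 2 / z.im := ⟨_, rfl⟩
  rw [← hQ0def] at hQ0
  have hQn : ∀ n, Q0 ≤ κ ^ n * (‖(E l)^[n] z - q‖ ^ 2 / ((E l)^[n] z).im) := by
    intro n
    induction n with
    | zero => simp [hQ0def]
    | succ n ih =>
      calc Q0 ≤ κ ^ n * (‖(E l)^[n] z - q‖ ^ 2 / ((E l)^[n] z).im) := ih
        _ ≤ κ ^ n * (κ * (‖(E l)^[n + 1] z - q‖ ^ 2 / ((E l)^[n + 1] z).im)) :=
          mul_le_mul_of_nonneg_left (hQ n) (by positivity)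
        _ = _ := by ring
  obtain ⟨M, hMdef⟩ : ∃ M, M = (|B| + R' + 4 + ‖q‖) ^ 2 / Q0 := ⟨_, rfl⟩
  have himn : ∀ n, ((E l)^[n] z).im ≤ κ ^ n * M := by
    intro n
    have h1 := hQn n
    have h2 := h n
    have h3 : ‖(E l)^[n] z - q‖ ≤ |B| + R' + 4 + ‖q‖ :=
      (norm_sub_le _ _).trans (by linarith [hnorm n])
    have h4 : ‖(E l)^[n] z - q‖ ^ 2 ≤ (|B| + R' + 4 + ‖q‖) ^ 2 :=
      pow_le_pow_left₀ (norm_nonneg _) h3 2
    rw [← mul_div_assoc, le_div_iff₀ h2] at h1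
    rw [hMdef, ← mul_div_assoc, le_div_iff₀ hQ0]
    have h5 : κ ^ n * ‖(E l)^[n] z - q‖ ^ 2 ≤ κ ^ n * (|B| + R' + 4 + ‖q‖) ^ 2 :=
      mul_le_mul_of_nonneg_left h4 (by positivity)
    linarith
  -- (c)
  obtain ⟨i, hi⟩ : ∃ i, R' + 1 ≤ (e l)^[i] B :=
    ((eit_tendsto hl B).eventually_ge_atTop (R' + 1)).exists
  have hcont : Continuous ((E l)^[i]) := (E_cont l).iterate i
  have huc : UniformContinuousOn ((E l)^[i]) (Metric.closedBall (0 : ℂ) (|B| + R' + 4)) :=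
    (isCompact_closedBall _ _).uniformContinuousOn_of_continuous hcont.continuousOn
  rw [Metric.uniformContinuousOn_iff] at huc
  obtain ⟨δ, hδ, huc⟩ := huc 1 one_pos
  have htend : Filter.Tendsto (fun n => κ ^ n * M) Filter.atTop (nhds 0) := by
    have := (tendsto_pow_atTop_nhds_zero_of_lt_one hκ0.le hκ1).mul_const M
    rwa [zero_mul] at this
  obtain ⟨n, hn⟩ := ((tendsto_order.1 htend).2 δ hδ).exists
  have hin : ((E l)^[n] z).im < δ := (himn n).trans_lt hn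
  obtain ⟨w, hw⟩ : ∃ w, w = (E l)^[n] z := ⟨_, rfl⟩
  have hd : dist w ((w.re : ℝ) : ℂ) < δ := by
    rw [dist_eq_norm]
    have h1 : w - ((w.re : ℝ) : ℂ) = (w.im : ℂ) * I := by
      apply Complex.ext <;> simp
    rw [h1, norm_mul, Complex.norm_I, mul_one, Complex.norm_real, Real.norm_eq_abs, hw,
      abs_of_pos (h n)]
    exact hin
  have hw1 : w ∈ Metric.closedBall (0 : ℂ) (|B| + R' + 4) := by
    rw [mem_closedBall_zero_iff, hw]
    exact hnorm n
  have hw2 : ((w.re : ℝ) : ℂ) ∈ Metric.closedBall (0 : ℂ) (|B| + R' + 4) := by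
    rw [mem_closedBall_zero_iff, Complex.norm_real, Real.norm_eq_abs]
    rw [mem_closedBall_zero_iff] at hw1
    exact (Complex.abs_re_le_norm w).trans hw1
  have h1 := huc w hw1 _ hw2 hd
  rw [dist_eq_norm, Eit_ofReal] at h1
  have h2 := (Complex.abs_re_le_norm _).trans_lt h1
  rw [Complex.sub_re, Complex.ofReal_re, abs_lt] at h2
  have h3 : (e l)^[i] B ≤ (e l)^[i] w.re := (eit_strictMono hl0 i).monotone (by rw [hw]; exact hB n)
  have h4 : R' ≤ ((E l)^[i] w).re := by linarith [h2.1]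
  rw [hw, ← Function.iterate_add_apply] at h4
  exact absurd (ha (i + n)) (not_lt.2 h4)

end J5135

section J5140

theorem pullvis {l : ℝ} (hl : Real.exp (-1) < l) : ∃ R0 : ℝ, ∀ (k : ℕ) (z : ℂ), z ∈ K l →
    (∀ n, 0 < ((E l)^[n] z).im) → R0 ≤ z.re → 1 ≤ z.im → ∃ N : ℕ,
      R0 ≤ ((E l)^[N] z).re ∧ 1 ≤ ((E l)^[N] z).im ∧
      ∀ b : ℂ, 1 ≤ b.im → ‖(E l)^[N] z - b‖ ≤ Real.pi →
        ‖z - (F l)^[N] b‖ ≤ (1 / 2) ^ k * ‖(E l)^[N] z - b‖ ∧ 1 ≤ ((F l)^[N] b).im := by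
  have hl0 := l_pos hl
  obtain ⟨r0, Rc, j0, hr0, hcontr⟩ := contr hl
  obtain ⟨jh, hhalf⟩ := halfbd hl
  obtain ⟨Rf, hfar⟩ := farleft hl0 1 one_pos
  obtain ⟨R0, hR1, hret⟩ := ret hl r0 (1 / 2) (max Rc (max Rf 20)) (max j0 jh) hr0 (by norm_num)
  have hRc : Rc ≤ R0 := (le_max_left _ _).trans hR1
  have hRf : Rf ≤ R0 := ((le_max_left _ _).trans (le_max_right _ _)).trans hR1
  have hR20 : 20 ≤ R0 := ((le_max_right _ _).trans (le_max_right _ _)).trans hR1
  refine ⟨R0, ?_⟩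
  intro k
  induction k with
  | zero =>
    intro z hz hpos hre him
    refine ⟨0, hre, him, ?_⟩
    intro b hb _
    refine ⟨?_, hb⟩
    simp
  | succ k ih =>
    intro z hz hpos hre him
    obtain ⟨j, hj, him', hre', hnorm, ξ, hξ1, hξ2⟩ := hret z hz hre him (hpos 2)
    have hj0 : j0 ≤ j := (le_max_left _ _).trans hj
    have hjh : jh ≤ j := (le_max_right _ _).trans hj
    set z' := (E l)^[j + 2] z with hz'
    have hz'K : z' ∈ K l := K_Eit hz _
    obtain ⟨N, hN1, hN2, hN3⟩ := ih z' hz'K (fun n => by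
      rw [hz', ← Function.iterate_add_apply]
      exact hpos _) (by linarith) him'
    have hE : (E l)^[N + (j + 2)] z = (E l)^[N] z' := by
      rw [Function.iterate_add_apply]
    refine ⟨N + (j + 2), by rw [hE]; exact hN1, by rw [hE]; exact hN2, ?_⟩
    intro b hb hbd
    rw [hE] at hbd ⊢
    obtain ⟨h1, h2⟩ := hN3 b hb hbd
    set b' := (F l)^[N] b with hb'
    have hpi4 := Real.pi_lt_four
    have hpow : ((1 : ℝ) / 2) ^ k ≤ 1 := pow_le_one₀ (by norm_num) (by norm_num)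
    have hpow0 : (0 : ℝ) ≤ (1 / 2) ^ k := by positivity
    have h3 : ‖z' - b'‖ ≤ Real.pi := by
      calc ‖z' - b'‖ ≤ (1 / 2) ^ k * ‖(E l)^[N] z' - b‖ := h1
        _ ≤ 1 * Real.pi := mul_le_mul hpow hbd (norm_nonneg _) zero_le_one
        _ = Real.pi := one_mul _
    have h4 := hhalf j hjh ξ hξ1
    have h5 : (e l)^[j] (-1) ≤ z'.re - 10 := by
      have := h4.1
      rw [hξ2] at this
      linarith
    have hEE : E l (E l z) ∈ K l := K_E (K_E hz)
    have h6 : (F l)^[j] z' = E l (E l z) := by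
      have : z' = (E l)^[j] (E l (E l z)) := by
        rw [hz', Function.iterate_add_apply]
        rfl
      rw [this]
      exact F_Eit hl0 hEE j
    have h7 := hcontr j z' b' hj0 him' h2 (by linarith) h5 (by linarith) (by rw [h6]; exact hnorm)
    have h8 : (F l)^[j + 2] z' = z := F_Eit hl0 hz (j + 2)
    have h9 : (F l)^[N + (j + 2)] b = (F l)^[j + 2] b' := by
      rw [Nat.add_comm, Function.iterate_add_apply]
    rw [h8] at h7
    rw [h9]
    have h10 : ‖z - (F l)^[j + 2] b'‖ ≤ (1 / 2) ^ (k + 1) * ‖(E l)^[N] z' - b‖ := by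
      calc ‖z - (F l)^[j + 2] b'‖ ≤ 1 / 2 * ‖z' - b'‖ := h7
        _ ≤ 1 / 2 * ((1 / 2) ^ k * ‖(E l)^[N] z' - b‖) :=
            mul_le_mul_of_nonneg_left h1 (by norm_num)
        _ = _ := by ring
    refine ⟨h10, ?_⟩
    have h11 := (hfar z hz (hRf.trans hre) him).2.2
    have h12 : ‖z - (F l)^[j + 2] b'‖ ≤ 1 / 2 * Real.pi :=
      h7.trans (mul_le_mul_of_nonneg_left h3 (by norm_num))
    have h13 := (abs_le.1 ((Complex.abs_im_le_norm (z - (F l)^[j + 2] b')).trans h12)).2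
    rw [Complex.sub_im] at h13
    linarith

end J5140

section J5141

theorem D_it {l : ℝ} (hl : 0 < l) {w : ℂ} (hw : w ∈ K l) (h : 0 < w.im) (n : ℕ) :
    (F l)^[n] w ∈ K l ∧ (E l)^[n] ((F l)^[n] w) = w := by
  induction n with
  | zero => exact ⟨hw, rfl⟩
  | succ n ih =>
    have hne : (F l)^[n] w ≠ 0 := by
      intro h0
      have := Fit_upper (l := l) w h n
      rw [h0] at this
      simp at this
    rw [Function.iterate_succ_apply' (F l)]
    refine ⟨K_F hl ih.1 hne, ?_⟩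
    rw [Function.iterate_succ_apply, E_F hl _ hne]
    exact ih.2

theorem D_evr {l : ℝ} {w z : ℂ} (n : ℕ) (h : (E l)^[n] z = w) (hw : EvR l w) : EvR l z := by
  obtain ⟨N, x, hx⟩ := hw
  refine ⟨N + n, x, ?_⟩
  rw [Function.iterate_add_apply, h, hx]

theorem D_line {l : ℝ} (hl : 0 < l) (x : ℝ) : EvR l ((x : ℂ) + (Real.pi : ℂ) * I) := by
  refine ⟨1, (E l ((x : ℂ) + (Real.pi : ℂ) * I)).re, ?_⟩
  rw [Function.iterate_one]
  apply Complex.ext
  · simp
  · rw [im_E hl]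
    simp

theorem D_contAt {l : ℝ} {w : ℂ} (h : 0 < w.im) (n : ℕ) : ContinuousAt ((F l)^[n]) w := by
  induction n with
  | zero => exact continuousAt_id
  | succ n ih =>
    rw [Function.iterate_succ']
    refine ContinuousAt.comp ?_ ih
    have him := Fit_upper (l := l) w h n
    have h1 : (F l)^[n] w ∈ Complex.slitPlane := by
      rw [Complex.mem_slitPlane_iff]
      exact Or.inr him.ne'
    have h2 : ContinuousAt (fun w : ℂ => Complex.log w - (Real.log l : ℂ)) ((F l)^[n] w) :=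
      (continuousAt_clog h1).sub continuousAt_const
    exact h2

theorem D_dense {l : ℝ} (hl : Real.exp (-1) < l) {z : ℂ} (hz : z ∈ K l) (ε : ℝ) (hε : 0 < ε) :
    ∃ z' ∈ K l, ‖z' - z‖ < ε ∧ EvR l z' := by
  have hl0 := l_pos hl
  rcases trich hl0 hz with hev | him
  · exact ⟨z, hz, by simpa using hε, hev⟩
  by_cases hf : E l z = z
  · -- the fixed point
    have hp : (0 : ℝ) < (((1 : ℝ) : ℂ) + (Real.pi : ℂ) * I).im := by
      simp [Real.pi_pos]
    have hlim := q_lim hl0 hf (him 0).1 (him 0).2 (((1 : ℝ) : ℂ) + (Real.pi : ℂ) * I) hp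
    obtain ⟨n, hn⟩ := ((Metric.tendsto_nhds.mp hlim) ε hε).exists
    have hit := D_it hl0 (K_line (l := l) 1) hp n
    refine ⟨_, hit.1, ?_, D_evr n hit.2 (D_line hl0 1)⟩
    rw [← dist_eq_norm]
    exact hn
  · obtain ⟨R0, hR0⟩ := pullvis hl
    obtain ⟨N0, hN0, hN0'⟩ := leave hl hz (fun n => (him n).1) hf R0
    obtain ⟨z0, hz0⟩ : ∃ z0, z0 = (E l)^[N0] z := ⟨_, rfl⟩
    rw [← hz0] at hN0 hN0'
    have hz0K : z0 ∈ K l := hz0 ▸ K_Eit hz N0
    have hz0im : ∀ n, 0 < ((E l)^[n] z0).im ∧ ((E l)^[n] z0).im < Real.pi := by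
      intro n
      rw [hz0, ← Function.iterate_add_apply]
      exact him _
    have hz0pos : 0 < z0.im := (hz0im 0).1
    have hFz0 : (F l)^[N0] z0 = z := by
      rw [hz0]
      exact F_Eit hl0 hz N0
    have hcont := D_contAt (l := l) hz0pos N0
    rw [Metric.continuousAt_iff] at hcont
    obtain ⟨δ, hδ, hδ'⟩ := hcont ε hε
    rw [hFz0] at hδ'
    obtain ⟨k, hk⟩ : ∃ k : ℕ, (1 / 2 : ℝ) ^ k * Real.pi < δ := by
      obtain ⟨k, hk⟩ := exists_pow_lt_of_lt_one (div_pos hδ Real.pi_pos)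
        (by norm_num : (1 / 2 : ℝ) < 1)
      exact ⟨k, by rwa [lt_div_iff₀ Real.pi_pos] at hk⟩
    obtain ⟨N, -, -, hN⟩ := hR0 k z0 hz0K (fun n => (hz0im n).1) hN0 hN0'
    obtain ⟨u, hu⟩ : ∃ u, u = (E l)^[N] z0 := ⟨_, rfl⟩
    have huim := hz0im N
    rw [← hu] at hN huim
    obtain ⟨b, hb⟩ : ∃ b : ℂ, b = ((u.re : ℝ) : ℂ) + (Real.pi : ℂ) * I := ⟨_, rfl⟩
    have hbim : b.im = Real.pi := by rw [hb]; simp
    have hbre : b.re = u.re := by rw [hb]; simp
    have hub : ‖u - b‖ ≤ Real.pi := by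
      have h1 : u - b = ((u.im - Real.pi : ℝ) : ℂ) * I := by
        apply Complex.ext
        · simp [hbre]
        · simp [hbim]
      rw [h1, norm_mul, Complex.norm_I, mul_one, Complex.norm_real, Real.norm_eq_abs, abs_le]
      constructor <;> linarith [huim.1, huim.2, Real.pi_pos]
    have hb1 : 1 ≤ b.im := by
      rw [hbim]
      linarith [Real.pi_gt_three]
    obtain ⟨h1, h2⟩ := hN b hb1 hub
    have hbK : b ∈ K l := hb ▸ K_line (l := l) _
    have hbp : 0 < b.im := by linarith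
    have hit1 := D_it hl0 hbK hbp N
    have hit2 := D_it hl0 hit1.1 (by linarith) N0
    have hbev : EvR l b := hb ▸ D_line hl0 _
    refine ⟨_, hit2.1, ?_, D_evr N0 hit2.2 (D_evr N hit1.2 hbev)⟩
    rw [← dist_eq_norm]
    apply hδ'
    rw [dist_comm, dist_eq_norm]
    refine lt_of_le_of_lt h1 (lt_of_le_of_lt ?_ hk)
    exact mul_le_mul_of_nonneg_left hub (by positivity)

end J5141

section J5142

theorem Good.equi0 {l m R : ℝ} {α β : ℤ → ℝ → ℝ} (hG : Good l m R α β)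
    (hl : Real.exp (-1) < l) (hm : Real.exp (-1) < m) (r' : ℝ) (hr' : 0 < r') :
    ∃ r : ℝ, 0 < r ∧ ∀ (n : ℤ) (ξ : ℝ), |ξ| ≤ r → |α n ξ| ≤ r' := by
  have hl0 := l_pos hl
  have hm0 := l_pos hm
  obtain ⟨x0, hx0⟩ := hG.small hl hm
  set C : ℝ := 2 - Real.log (r' / m) with hC
  set T : ℝ := max (max x0 R) (Real.exp (|C| + 1)) with hT
  have hT1 : x0 ≤ T := (le_max_left _ _).trans (le_max_left _ _)
  have hT2 : R ≤ T := (le_max_right _ _).trans (le_max_left _ _)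
  have hT3 : Real.exp (|C| + 1) ≤ T := le_max_right _ _
  have hlog : |C| + 1 ≤ Real.log T := by
    rw [Real.le_log_iff_exp_le ((Real.exp_pos _).trans_le hT3)]
    exact hT3
  have hC2 : C ≤ (Real.log T) ^ 2 := by
    nlinarith [abs_nonneg C, le_abs_self C]
  have hbound : ∀ n : ℤ, Real.exp (2 - α (n - 1) T) * m ≤ r' := by
    intro n
    have h1 := hG.grow (n - 1) T hT2
    have h2 : 2 - α (n - 1) T ≤ Real.log (r' / m) := by linarith
    calc Real.exp (2 - α (n - 1) T) * m ≤ Real.exp (Real.log (r' / m)) * m :=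
          mul_le_mul_of_nonneg_right (Real.exp_le_exp.2 h2) hm0.le
      _ = r' := by rw [Real.exp_log (div_pos hr' hm0), div_mul_cancel₀ _ hm0.ne']
  refine ⟨l * Real.exp (-T), by positivity, fun n ξ hξ => ?_⟩
  obtain ⟨h1, h2⟩ := hx0 n T hT1
  have h3 := abs_le.1 (h1.trans (hbound n))
  have h4 := abs_le.1 (h2.trans (hbound n))
  obtain ⟨h5, h6⟩ := abs_le.1 hξ
  rw [abs_le]
  exact ⟨h4.1.trans ((hG.mono n).monotone h5), ((hG.mono n).monotone h6).trans h3.2⟩

end J5142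

section J5146

theorem Gam_visit {l m R : ℝ} {α β : ℤ → ℝ → ℝ} (hG : Good l m R α β)
    (hl : Real.exp (-1) < l) (hm : Real.exp (-1) < m) : ∃ R0 : ℝ, ∀ (n : ℤ) (z a b : ℂ),
    Gam l m α n z a → Gam l m α n z b → R0 ≤ z.re → 1 ≤ z.im →
    (∀ k, 0 < ((E l)^[k] z).im) → ‖a - b‖ ≤ 10 ∧ ∃ N : ℕ, R0 ≤ ((E l)^[N] z).re ∧
      1 ≤ ((E l)^[N] z).im ∧ ‖a - b‖ ≤ 1 / 2 * ‖(E m)^[N] a - (E m)^[N] b‖ := by
  have hm0 : 0 < m := l_pos hm
  have hl0 : 0 < l := l_pos hl
  obtain ⟨C, r1, j1, hr1, hC, hGen⟩ := tgtGen hm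
  obtain ⟨r2, j2, hr2, hFold⟩ := tgtFold hm C hC
  obtain ⟨r0, Rc, j3, hr0, hcontr⟩ := contr hm
  obtain ⟨C4, j4, hC4, hfL⟩ := foldL hm
  obtain ⟨j5, hhalf⟩ := halfbd hm
  have hr' : 0 < min (min r1 r2) (min (r0 / 2) (1 / 2)) := by
    refine lt_min (lt_min hr1 hr2) (lt_min (by linarith) (by norm_num))
  obtain ⟨r, hr, hequi⟩ := hG.equi0 hl hm _ hr'
  obtain ⟨Rs, hclose⟩ := Gam_close hG hl hm
  set S : ℝ := 8 + 4 * C4 / r0 + |Rc| with hS
  have hS8 : 8 ≤ S := by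
    have : 0 ≤ 4 * C4 / r0 := by positivity
    have := abs_nonneg Rc
    linarith
  obtain ⟨j6, hj6⟩ := Filter.eventually_atTop.1
    ((eit_tendsto hm (-1)).eventually (Filter.eventually_ge_atTop (S ^ 2)))
  obtain ⟨R0, hR0, hret⟩ := ret hl 1 r Rs (j1 + j2 + j3 + j4 + j5 + j6) one_pos hr
  -- basic data at the return
  have data : ∀ (n : ℤ) (z : ℂ), z ∈ K l → R0 ≤ z.re → 1 ≤ z.im →
      0 < (E l (E l z)).im → ∃ (j : ℕ) (ξ' V : ℝ), j1 + j2 + j3 + j4 + j5 + j6 ≤ j ∧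
      1 ≤ ((E l)^[j + 2] z).im ∧ z.re + 1 ≤ ((E l)^[j + 2] z).re ∧
      |ξ'| ≤ min (min r1 r2) (min (r0 / 2) (1 / 2)) ∧
      V = (e m)^[j] ξ' ∧ S ^ 2 ≤ V ∧ 2 * (e m)^[j] (-1) ≤ V ∧
      (∀ a, Gam l m α n z a → Gam l m α (n + ((j + 2 : ℕ) : ℤ)) ((E l)^[j + 2] z) ((E m)^[j + 2] a) ∧
        |((E m)^[j + 2] a).re - V| ≤ Real.sqrt V ∧ 1 ≤ ((E m)^[j + 2] a).im ∧
        ((E m)^[j + 2] a).im ≤ Real.pi ∧ (F m)^[j + 2] ((E m)^[j + 2] a) = a ∧
        0 ≤ a.im ∧ a.im ≤ Real.pi) := by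
    intro n z hz h1 h2 h3
    obtain ⟨j, hj, him, hre, -, ξ, hξ, hξe⟩ := hret z hz h1 h2 h3
    refine ⟨j, α (n + 2) ξ, (e m)^[j] (α (n + 2) ξ), hj, him, hre, hequi _ _ hξ, rfl, ?_, ?_, ?_⟩
    · have h4 := hequi (n + 2) ξ hξ
      have h5 := (hhalf j (by omega) _ (le_trans h4 (le_trans (min_le_right _ _) (min_le_right _ _))))
      have h6 := hj6 j (by omega)
      have h7 := sq_nonneg S
      linarith [h5.1, h5.2]
    · have h4 := hequi (n + 2) ξ hξ
      have h5 := (hhalf j (by omega) _ (le_trans h4 (le_trans (min_le_right _ _) (min_le_right _ _))))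
      linarith [h5.1]
    · intro a ha
      have g1 := Gam_fwd hG (j + 2) ha
      have g2 := hclose _ _ _ g1 (by linarith) him
      have hV : α (n + ((j + 2 : ℕ) : ℤ)) ((E l)^[j + 2] z).re = (e m)^[j] (α (n + 2) ξ) := by
        rw [← hξe, ← hG.alpha_eit (n + 2) j ξ]
        congr 1
        push_cast
        ring
      rw [hV] at g2
      have g3 := Gam_K g1
      have g4 := Gam_K ha
      exact ⟨g1, g2.1, g2.2, (K_im g3.2).2, F_Eit hm0 g4.2 _, (K_im g4.2).1, (K_im g4.2).2⟩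
  have keyA : ∀ (n : ℤ) (z a b : ℂ), Gam l m α n z a → Gam l m α n z b → R0 ≤ z.re → 1 ≤ z.im →
      0 < (E l (E l z)).im → ‖a - b‖ ≤ 10 := by
    intro n z a b ha hb h1 h2 h3
    obtain ⟨j, ξ', V, hj, him, hre, hξ', hVe, hVS, hV1, hall⟩ := data n z (Gam_K ha).1 h1 h2 h3
    obtain ⟨a1, a2, a3, a4, a5, a6, a7⟩ := hall a ha
    obtain ⟨b1, b2, b3, b4, b5, b6, b7⟩ := hall b hb
    have hre4 : |a.re - b.re| ≤ 4 := by
      by_cases hc : C * Real.sqrt V ≤ |V - o m j|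
      · have hne : ξ' ≠ 0 := by
          rintro rfl
          have h5 : V - o m j = 0 := by
            rw [hVe]
            exact sub_self _
          rw [h5, abs_zero] at hc
          have hS2 : 8 * 8 ≤ S ^ 2 := by
            rw [sq]
            exact mul_le_mul hS8 hS8 (by norm_num) (by linarith)
          have h6 : 0 < Real.sqrt V := Real.sqrt_pos.2 (by linarith)
          have h7 : 0 < C * Real.sqrt V := mul_pos (by linarith) h6
          linarith
        have ga := (hGen j ξ' _ (by omega) (le_trans hξ' (le_trans (min_le_left _ _) (min_le_left _ _)))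
          hne (by linarith) a4 (by rw [← hVe]; exact a2) (by rw [← hVe]; exact hc)).2
        have gb := (hGen j ξ' _ (by omega) (le_trans hξ' (le_trans (min_le_left _ _) (min_le_left _ _)))
          hne (by linarith) b4 (by rw [← hVe]; exact b2) (by rw [← hVe]; exact hc)).2
        rw [a5] at ga
        rw [b5] at gb
        rw [abs_le] at ga gb ⊢
        constructor <;> linarith [ga.1, ga.2, gb.1, gb.2]
      · push Not at hc
        have ga := (hFold j ξ' _ (by omega) (le_trans hξ' (le_trans (min_le_left _ _) (min_le_right _ _)))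
          a3 a4 (by rw [← hVe]; exact a2) (by rw [← hVe]; exact hc)).1
        have gb := (hFold j ξ' _ (by omega) (le_trans hξ' (le_trans (min_le_left _ _) (min_le_right _ _)))
          b3 b4 (by rw [← hVe]; exact b2) (by rw [← hVe]; exact hc)).1
        rw [a5] at ga
        rw [b5] at gb
        rw [abs_le] at ga gb ⊢
        constructor <;> linarith [ga.1, ga.2, gb.1, gb.2]
    have him4 : |a.im - b.im| ≤ 4 := by
      have := Real.pi_lt_four
      rw [abs_le]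
      constructor <;> linarith
    have h7 := Complex.norm_le_abs_re_add_abs_im (a - b)
    rw [Complex.sub_re, Complex.sub_im] at h7
    linarith
  refine ⟨R0, fun n z a b ha hb h1 h2 h3 => ⟨?_, ?_⟩⟩
  · have h4 := h3 2
    exact keyA n z a b ha hb h1 h2 h4
  · have h4 : 0 < (E l (E l z)).im := h3 2
    obtain ⟨j, ξ', V, hj, him, hre, hξ', hVe, hVS, hV1, hall⟩ := data n z (Gam_K ha).1 h1 h2 h4
    obtain ⟨a1, a2, a3, a4, a5, a6, a7⟩ := hall a ha
    obtain ⟨b1, b2, b3, b4, b5, b6, b7⟩ := hall b hb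
    refine ⟨j + 2, by linarith, him, ?_⟩
    have h5 : 0 < (E l (E l ((E l)^[j + 2] z))).im := by
      have := h3 (2 + (j + 2))
      rw [Function.iterate_add_apply] at this
      exact this
    have hA := keyA _ _ _ _ a1 b1 (by linarith) him h5
    have hVpos : 0 < V := by
      have hS2 : 8 * 8 ≤ S ^ 2 := by
        rw [sq]
        exact mul_le_mul hS8 hS8 (by norm_num) (by linarith)
      linarith
    have hsS : S ≤ Real.sqrt V := by
      rw [← Real.sqrt_sq (by linarith : (0:ℝ) ≤ S)]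
      exact Real.sqrt_le_sqrt hVS
    have hsq : Real.sqrt V * Real.sqrt V = V := Real.mul_self_sqrt hVpos.le
    set s := Real.sqrt V with hs
    have hs8 : 8 ≤ s := by linarith
    have hRc : |Rc| ≤ s := by
      have : 0 ≤ 4 * C4 / r0 := by positivity
      linarith
    have hC4s : 4 * C4 / r0 ≤ s := by
      have := abs_nonneg Rc
      linarith
    have h20 : 8 * s ≤ V := by
      rw [← hsq]
      exact mul_le_mul_of_nonneg_right hs8 (by linarith)
    have habs := abs_le.1 a2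
    have hRc2 : Rc ≤ |Rc| := le_abs_self Rc
    have e1 : ‖(E m)^[j + 2] a - ((e m)^[j] ξ' : ℝ)‖ ≤ s + 4 := by
      have h7 := Complex.norm_le_abs_re_add_abs_im ((E m)^[j + 2] a - ((e m)^[j] ξ' : ℝ))
      rw [Complex.sub_re, Complex.sub_im, Complex.ofReal_re, Complex.ofReal_im, sub_zero, ← hVe] at h7
      have h8 : |((E m)^[j + 2] a).im| ≤ 4 := by
        have := Real.pi_lt_four
        rw [abs_le]
        constructor <;> linarith
      rw [← hVe]
      linarith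
    have hξh : |ξ'| ≤ 1 / 2 := le_trans hξ' (le_trans (min_le_right _ _) (min_le_right _ _))
    have hapos : 0 < ((E m)^[j + 2] a).im := by linarith
    have hj4 : j4 ≤ j := by omega
    have e2 : ‖(E m)^[j + 2] a - ((e m)^[j] ξ' : ℝ)‖ ≤ (e m)^[j] ξ' / 4 := by
      refine le_trans e1 ?_
      rw [← hVe]
      linarith
    have hF := hfL j ξ' ((E m)^[j + 2] a) hj4 hξh hapos e2
    have hF2 : ‖(F m)^[j] ((E m)^[j + 2] a)‖ ≤ r0 := by
      refine le_trans hF ?_
      have h9 : |ξ'| ≤ r0 / 2 := le_trans hξ' (le_trans (min_le_right _ _) (min_le_left _ _))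
      have h10 : C4 * ‖(E m)^[j + 2] a - ((e m)^[j] ξ' : ℝ)‖ / (e m)^[j] ξ' ≤ r0 / 2 := by
        rw [← hVe] at e1 ⊢
        rw [div_le_iff₀ hVpos]
        have h11 : 4 * C4 ≤ s * r0 := by
          rw [div_le_iff₀ hr0] at hC4s
          exact hC4s
        have h12 : C4 * ‖(E m)^[j + 2] a - (V : ℝ)‖ ≤ C4 * (s + 4) :=
          mul_le_mul_of_nonneg_left e1 (by linarith)
        have h13 : C4 * (s + 4) ≤ C4 * (2 * s) := mul_le_mul_of_nonneg_left (by linarith) (by linarith)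
        have h14 : (4 * C4) * s ≤ (s * r0) * s := mul_le_mul_of_nonneg_right h11 (by linarith)
        have h15 : C4 * (2 * s) ≤ r0 / 2 * (s * s) := by linarith
        rw [hsq] at h15
        linarith
      linarith
    have hfin := hcontr j ((E m)^[j + 2] a) ((E m)^[j + 2] b) (by omega) a3 b3
      (by linarith [habs.1]) (by linarith [habs.1]) hA hF2
    rw [a5, b5] at hfin
    exact hfin

end J5146

section J5147

theorem GU_fixed {l m R : ℝ} {α β γ δ : ℤ → ℝ → ℝ} (h : Pair l m R α β γ δ) {n : ℤ}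
    {z a : ℂ} (h1 : Gam l m α n z a) (hz : E l z = z) (hzim : 0 < z.im) :
    E m a = a ∧ 0 < a.im ∧ a.im < Real.pi := by
  have haK := (Gam_K h1).2
  have hfw : ∀ N : ℕ, Gam m l γ (n + N) ((E m)^[N] a) z := by
    intro N
    have h2 := Gam_fwd h.g1 N h1
    rw [Function.iterate_fixed hz N] at h2
    exact Gam_symm h h2
  rcases trich (l_pos h.hm) haK with ⟨N, y, hy⟩ | hup
  · exfalso
    have h2 := hfw N
    rw [hy] at h2
    have h3 := P4 h.symm h2
    rw [h3, Complex.ofReal_im] at hzim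
    exact lt_irrefl _ hzim
  · refine ⟨?_, (hup 0).1, (hup 0).2⟩
    by_contra hne
    obtain ⟨B', hB'⟩ := b2 h.symm (z.re + 1)
    obtain ⟨N, hN, _⟩ := leave h.hm haK (fun n => (hup n).1) hne B'
    have h4 := hB' _ _ _ (hfw N) hN
    linarith

theorem GU_visit {l m R0 : ℝ} {α : ℤ → ℝ → ℝ} {R : ℝ} {β : ℤ → ℝ → ℝ} (hG : Good l m R α β)
    (hv : ∀ (n : ℤ) (z a b : ℂ),
    Gam l m α n z a → Gam l m α n z b → R0 ≤ z.re → 1 ≤ z.im →
    (∀ k, 0 < ((E l)^[k] z).im) → ‖a - b‖ ≤ 10 ∧ ∃ N : ℕ, R0 ≤ ((E l)^[N] z).re ∧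
      1 ≤ ((E l)^[N] z).im ∧ ‖a - b‖ ≤ 1 / 2 * ‖(E m)^[N] a - (E m)^[N] b‖) (k : ℕ) :
    ∀ (n : ℤ) (z a b : ℂ), Gam l m α n z a → Gam l m α n z b → R0 ≤ z.re → 1 ≤ z.im →
    (∀ k, 0 < ((E l)^[k] z).im) → ‖a - b‖ ≤ (1 / 2) ^ k * 10 := by
  induction k with
  | zero =>
    intro n z a b h1 h2 h3 h4 h5
    have := (hv n z a b h1 h2 h3 h4 h5).1
    simpa using this
  | succ k ih =>
    intro n z a b h1 h2 h3 h4 h5
    obtain ⟨_, N, hN1, hN2, hN3⟩ := hv n z a b h1 h2 h3 h4 h5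
    have h6 := ih (n + N) _ _ _ (Gam_fwd hG N h1) (Gam_fwd hG N h2) hN1 hN2 (by
      intro j
      rw [← Function.iterate_add_apply]
      exact h5 (j + N))
    rw [pow_succ]
    linarith

theorem Gam_unique {l m R : ℝ} {α β γ δ : ℤ → ℝ → ℝ} (h : Pair l m R α β γ δ) {n : ℤ}
    {z a b : ℂ} (h1 : Gam l m α n z a) (h2 : Gam l m α n z b) : a = b := by
  have hl0 := l_pos h.hl
  have hm0 := l_pos h.hm
  obtain ⟨hzK, haK⟩ := Gam_K h1
  have hbK := (Gam_K h2).2
  rcases trich hl0 hzK with ⟨N, x, hx⟩ | hup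
  · have h3 := Gam_fwd h.g1 N h1
    have h4 := Gam_fwd h.g1 N h2
    rw [hx] at h3 h4
    exact E_inj hm0 haK hbK N ((P4 h h3).trans (P4 h h4).symm)
  · by_cases hz : E l z = z
    · obtain ⟨a1, a2, a3⟩ := GU_fixed h h1 hz (hup 0).1
      obtain ⟨b1, b2', b3⟩ := GU_fixed h h2 hz (hup 0).1
      exact q_unique hm0 a1 b1 a2 a3 b2' b3
    · obtain ⟨R0, hR0⟩ := Gam_visit h.g1 h.hl h.hm
      obtain ⟨N0, hN1, hN2⟩ := leave h.hl hzK (fun n => (hup n).1) hz R0
      have h5 : ∀ k : ℕ, ‖(E m)^[N0] a - (E m)^[N0] b‖ ≤ (1 / 2) ^ k * 10 := by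
        intro k
        exact GU_visit h.g1 hR0 k _ _ _ _ (Gam_fwd h.g1 N0 h1) (Gam_fwd h.g1 N0 h2) hN1 hN2 (by
          intro j
          rw [← Function.iterate_add_apply]
          exact (hup (j + N0)).1)
      have h6 : Filter.Tendsto (fun k : ℕ => ((1 : ℝ) / 2) ^ k * 10) Filter.atTop (nhds (0 * 10)) :=
        (tendsto_pow_atTop_nhds_zero_of_lt_one (by norm_num) (by norm_num)).mul_const 10
      rw [zero_mul] at h6
      have h7 : ‖(E m)^[N0] a - (E m)^[N0] b‖ ≤ 0 := ge_of_tendsto' h6 h5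
      have h8 : (E m)^[N0] a - (E m)^[N0] b = 0 := norm_le_zero_iff.mp h7
      exact E_inj hm0 haK hbK N0 (sub_eq_zero.mp h8)

end J5147

section J5148

theorem Gam_exists {l m R : ℝ} {α β γ δ : ℤ → ℝ → ℝ} (h : Pair l m R α β γ δ) (n : ℤ)
    {z : ℂ} (hz : z ∈ K l) : ∃ a, Gam l m α n z a := by
  have hl : Real.exp (-1) < l := h.hl
  have h1 : ∀ k : ℕ, ∃ z' a' : ℂ, ‖z' - z‖ < 1 / ((k : ℝ) + 1) ∧ Gam l m α n z' a' := by
    intro k
    obtain ⟨z', hz'K, hz', hr⟩ := D_dense hl hz (1 / ((k : ℝ) + 1)) (by positivity)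
    obtain ⟨a', ha'⟩ := G_exists h n hz'K hr
    exact ⟨z', a', hz', Gam_of_G ha'⟩
  choose u v huv using h1
  have hu : Filter.Tendsto u Filter.atTop (nhds z) := by
    rw [tendsto_iff_norm_sub_tendsto_zero]
    exact squeeze_zero (fun k => norm_nonneg _) (fun k => (huv k).1.le)
      tendsto_one_div_add_atTop_nhds_zero_nat
  obtain ⟨B', hB'⟩ := Gam_proper h n (‖z‖ + 1)
  have hv : ∀ k, v k ∈ Metric.closedBall (0 : ℂ) B' := by
    intro k
    rw [mem_closedBall_zero_iff]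
    apply hB' (u k) (v k) (huv k).2
    have h2 : ‖u k‖ ≤ ‖u k - z‖ + ‖z‖ := by
      have := norm_add_le (u k - z) z
      simpa using this
    have h3 : 1 / ((k : ℝ) + 1) ≤ 1 := by
      rw [div_le_one (by positivity)]
      have : (0 : ℝ) ≤ (k : ℝ) := Nat.cast_nonneg k
      linarith
    linarith [(huv k).1]
  obtain ⟨a, -, φ, hφ, hlim⟩ := (isCompact_closedBall (0 : ℂ) B').tendsto_subseq hv
  refine ⟨a, ?_⟩
  have hcl := Gam_closed l m α n
  have hmem : ∀ k, ((u (φ k), v (φ k)) : ℂ × ℂ) ∈ {p : ℂ × ℂ | Gam l m α n p.1 p.2} :=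
    fun k => (huv (φ k)).2
  have ht : Filter.Tendsto (fun k => ((u (φ k), v (φ k)) : ℂ × ℂ)) Filter.atTop (nhds (z, a)) :=
    (hu.comp hφ.tendsto_atTop).prodMk_nhds hlim
  exact hcl.mem_of_tendsto ht (Filter.Eventually.of_forall hmem)

end J5148

section J5149

theorem cont_aux {l m R : ℝ} {α β γ δ : ℤ → ℝ → ℝ} (h : Pair l m R α β γ δ)
    (f : K l → K m) (hf : ∀ z : K l, Gam l m α 0 (z : ℂ) (f z : ℂ)) : Continuous f := by
  rw [continuous_iff_continuousAt]
  intro z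
  rw [ContinuousAt, tendsto_subtype_rng]
  apply Filter.tendsto_of_subseq_tendsto
  intro ns hns
  have hns' : Filter.Tendsto (fun k => ((ns k : K l) : ℂ)) Filter.atTop (nhds (z : ℂ)) :=
    (continuous_subtype_val.tendsto z).comp hns
  obtain ⟨B', hB'⟩ := Gam_proper h 0 (‖(z : ℂ)‖ + 1)
  have hev : ∀ᶠ k in Filter.atTop, ‖((ns k : K l) : ℂ)‖ < ‖(z : ℂ)‖ + 1 :=
    hns'.norm.eventually (gt_mem_nhds (by linarith))
  have hev2 : ∀ᶠ k in Filter.atTop, ((f (ns k) : K m) : ℂ) ∈ Metric.closedBall (0:ℂ) B' := by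
    filter_upwards [hev] with k hk
    rw [mem_closedBall_zero_iff]
    exact hB' _ _ (hf _) hk.le
  obtain ⟨a, -, φ, hφ, ha⟩ := tendsto_subseq_of_frequently_bounded
    (Metric.isBounded_closedBall (x := (0:ℂ)) (r := B')) hev2.frequently
  refine ⟨φ, ?_⟩
  have hlim : Gam l m α 0 (z : ℂ) a := by
    have hcl := Gam_closed l m α 0
    have ht : Filter.Tendsto (fun k => (((ns (φ k) : K l) : ℂ), ((f (ns (φ k)) : K m) : ℂ)))
        Filter.atTop (nhds ((z : ℂ), a)) :=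
      (hns'.comp hφ.tendsto_atTop).prodMk_nhds ha
    exact hcl.mem_of_tendsto ht (Filter.Eventually.of_forall fun k => hf _)
  have : a = (f z : ℂ) := Gam_unique h hlim (hf z)
  rw [← this]
  exact ha

theorem Pair.homeo {l m R : ℝ} {α β γ δ : ℤ → ℝ → ℝ} (h : Pair l m R α β γ δ) :
    Nonempty (K l ≃ₜ K m) := by
  choose f hf using fun z : K l => Gam_exists h 0 z.2
  choose g hg using fun z : K m => Gam_exists h.symm 0 z.2
  let f' : K l → K m := fun z => ⟨f z, (Gam_K (hf z)).2⟩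
  let g' : K m → K l := fun z => ⟨g z, (Gam_K (hg z)).2⟩
  refine ⟨⟨⟨f', g', ?_, ?_⟩, ?_, ?_⟩⟩
  · intro z
    apply Subtype.ext
    exact Gam_unique h.symm (hg (f' z)) (Gam_symm h (hf z))
  · intro z
    apply Subtype.ext
    exact Gam_unique h (hf (g' z)) (Gam_symm h.symm (hg z))
  · exact cont_aux h f' hf
  · exact cont_aux h.symm g' hg

end J5149

end Pool.Agent.Helper734.EX
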